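import Pool.Agent.Helper418_HL.HS8
import Pool.Agent.Helper418_HL.HS10
import Pool.Agent.Helper418_HL.HC2

/-!
# A global size theorem: definitions (helper784, MP_f0269b_an)
-/

set_option autoImplicit false

namespace Pool.Agent.Helper784QA

open Matrix Filter Topology Pool.Agent.W661.RC Pool.Agent.W683.RC Helper418HL
open scoped ComplexOrder

/-- `c` is a partition of unity by projections and `y` a partition of unity by positive elements of `A` which is close
to `c` (`y j` will be the conditional expectation of `c j` on `A`). -/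
structure Pov {d N : ℕ} (A : StarSubalgebra ℂ (Mt d)) (c y : Fin N → Mt d) (D : ℝ) : Prop where
  pr : ∀ j, IsPr (c j)
  orth : ∀ i j, i ≠ j → c i * c j = 0
  sum : ∑ j, c j = 1
  ymem : ∀ j, y j ∈ A
  ypsd : ∀ j, (y j).PosSemidef
  ysum : ∑ j, y j = 1
  nn : 0 ≤ D
  ytr : ∀ j, tr (y j) = tr (c j)
  close : ∑ j, hs (c j - y j) ≤ D * d
  sq : ∑ j, tr (y j - y j * y j) ≤ D * d
  l1 : ∀ Z : Fin N → Mt d, (∀ j, Le ((Z j)ᴴ * Z j) 1) → ∑ j, |tr ((c j - y j) * Z j)| ≤ 2 * √D * d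

/-- the spectral projections of `I.w` at a geometric sequence of levels, normalised by a median for the weight `c` -/
structure LvC {d : ℕ} {A : StarSubalgebra ℂ (Mt d)} (I : Idx A) (a : ℝ) (c : Mt d) where
  m : ℤ → ℝ
  P : ℤ → Mt d
  pos : ∀ i, 0 < m i
  geo : ∀ i, m (i + 1) = a * m i
  pr : ∀ i, IsPr (P i)
  mem : ∀ i, P i ∈ A
  com : ∀ i, ∀ x ∈ A, x * P i = P i * x
  mono : ∀ i j, i ≤ j → P i * P j = P j
  lo : ∀ i, Le ((m i : ℂ) • P i) (I.w * P i)
  hi : ∀ i, Le (I.w * (1 - P i)) ((m i : ℂ) • (1 - P i))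
  half : tr (c * P 0) ≤ tr c / 2
  half' : tr c / 2 ≤ tr (c * P (-1))

end Pool.Agent.Helper784QA
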