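import Pool.Agent.Helper784QW.Defs

/-!
# Amalgamated free products of two copies of a finite von Neumann algebra: definitions

Hilbert spaces are complex. QWEP and WEP are defined in `Pool.Agent.Helper784QW.Defs`.
-/

set_option autoImplicit false

open scoped InnerProductSpace ComplexOrder ENNReal

namespace Pool.Agent.Helper784QA

variable {H : Type} [NormedAddCommGroup H] [InnerProductSpace ℂ H] [CompleteSpace H]
variable {L : Type} [NormedAddCommGroup L] [InnerProductSpace ℂ L] [CompleteSpace L]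

/-- The vector state `x ↦ ⟪ξ, x ξ⟫` is a faithful (normal) tracial state on the von Neumann algebra `A`. -/
structure IsTracial (A : VonNeumannAlgebra H) (ξ : H) : Prop where
  unit : ‖ξ‖ = 1
  trace : ∀ x ∈ A, ∀ y ∈ A, ⟪ξ, (x * y) ξ⟫_ℂ = ⟪ξ, (y * x) ξ⟫_ℂ
  faithful : ∀ x ∈ A, x ξ = 0 → x = 0

/-- `(M, η)` with the maps `j false` and `j true` is the amalgamated free product of two copies of `A` over `B`, with
respect to the expectation `A → B` which preserves the trace `x ↦ ⟪ξ, x ξ⟫`. The maps `j i` are trace-preserving unital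
`*`-homomorphisms from `A` to `M` (their values outside `A` are irrelevant) which agree on `B`, their images generate `M`,
and they are free over `B`: an alternating product of elements with expectation zero onto `B` has trace zero
(`x ∈ A` has expectation zero if and only if `x b` has trace zero for all `b ∈ B`). -/
structure IsAmalgam (A B : VonNeumannAlgebra H) (ξ : H) (M : VonNeumannAlgebra L) (η : L)
    (j : Bool → (H →L[ℂ] H) → (L →L[ℂ] L)) : Prop where
  tracial : IsTracial M η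
  mem : ∀ i, ∀ x ∈ A, j i x ∈ M
  map_one : ∀ i, j i 1 = 1
  map_add : ∀ i, ∀ x ∈ A, ∀ y ∈ A, j i (x + y) = j i x + j i y
  map_smul : ∀ i, ∀ c : ℂ, ∀ x ∈ A, j i (c • x) = c • j i x
  map_mul : ∀ i, ∀ x ∈ A, ∀ y ∈ A, j i (x * y) = j i x * j i y
  map_star : ∀ i, ∀ x ∈ A, j i (star x) = star (j i x)
  pres : ∀ i, ∀ x ∈ A, ⟪η, j i x η⟫_ℂ = ⟪ξ, x ξ⟫_ℂ
  agree : ∀ x ∈ B, j false x = j true x
  gen : Set.centralizer (Set.centralizer {y | ∃ i, ∃ x ∈ A, y = j i x}) = M
  free : ∀ w : List (Bool × (H →L[ℂ] H)), w ≠ [] → w.IsChain (fun p q => p.1 ≠ q.1) →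
    (∀ p ∈ w, p.2 ∈ A ∧ ∀ b ∈ B, ⟪ξ, (p.2 * b) ξ⟫_ℂ = 0) →
    ⟪η, (w.map fun p => j p.1 p.2).prod η⟫_ℂ = 0

end Pool.Agent.Helper784QA
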