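import Pool.Agent.Helper784QA.D0

set_option autoImplicit false

namespace Pool.Agent.Helper784QA

open Matrix Filter Topology Pool.Agent.W661.RC Pool.Agent.W683.RC Helper418HL
open scoped ComplexOrder

variable {d : ℕ} {A : StarSubalgebra ℂ (Mt d)}

namespace GD

lemma contr_mul {a b : Mt d} (ha : Le (aᴴ * a) 1) (hb : Le (bᴴ * b) 1) : Le ((a * b)ᴴ * (a * b)) 1 := by
  have h1 := Le_conj ha b
  rw [Matrix.mul_one] at h1
  have h2 : (a * b)ᴴ * (a * b) = bᴴ * (aᴴ * a) * b := by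
    rw [Matrix.conjTranspose_mul]
    simp only [Matrix.mul_assoc]
  rw [h2]
  exact Le_trans h1 hb

lemma contr_unit {V : Mt d} (hV : Vᴴ * V = 1) : Le (Vᴴ * V) 1 := by
  rw [hV]
  exact Le_refl 1

/-- a hermitian matrix between `-1` and `1` is a contraction -/
lemma contr_herm {x : Mt d} (hx : xᴴ = x) (h1 : Le x 1) (h2 : Le (-x) 1) : Le (xᴴ * x) 1 := by
  rw [hx]
  unfold Le at h1 h2 ⊢
  have e : (1 - x * x : Mt d) = ((1 / 2 : ℝ) : ℂ) • ((1 - x)ᴴ * (1 - -x) * (1 - x) +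
      (1 - -x)ᴴ * (1 - x) * (1 - -x)) := by
    rw [Matrix.conjTranspose_sub, Matrix.conjTranspose_sub, Matrix.conjTranspose_neg,
      Matrix.conjTranspose_one, hx]
    have : (1 - x) * (1 - -x) * (1 - x) + (1 - -x) * (1 - x) * (1 - -x) = (2 : ℂ) • (1 - x * x : Mt d) := by
      rw [two_smul]
      noncomm_ring
    rw [this, smul_smul]
    norm_num
  rw [e]
  refine psd_smul (Matrix.PosSemidef.add ?_ ?_) (by norm_num)
  · exact h2.conjTranspose_mul_mul_same (1 - x)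
  · exact h1.conjTranspose_mul_mul_same (1 - -x)

section Basic

variable {N : ℕ} {c y : Fin N → Mt d} {D : ℝ}

lemma ctr_nonneg (h : Pov A c y D) (j : Fin N) : 0 ≤ tr (c j) := pr_tr_nonneg (h.pr j)

lemma y_le_one (h : Pov A c y D) (j : Fin N) : Le (y j) 1 := by
  classical
  unfold Le
  have h1 : (1 : Mt d) - y j = ∑ i ∈ Finset.univ.erase j, y i := by
    rw [← h.ysum, ← Finset.add_sum_erase Finset.univ y (Finset.mem_univ j)]
    abel
  rw [h1]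
  exact Matrix.posSemidef_sum _ fun i _ => h.ypsd i

/-- a central projection of `A` times a positive element of `A` -/
lemma psd_mul_pr {x Q : Mt d} (hx : x.PosSemidef) (hQ : IsPr Q) (hc : x * Q = Q * x) :
    (x * Q).PosSemidef := by
  have h1 : x * Q = Qᴴ * x * Q := by
    rw [hQ.1, ← hc, Matrix.mul_assoc, hQ.2]
  rw [h1]
  exact hx.conjTranspose_mul_mul_same Q

lemma y_sq_psd (h : Pov A c y D) (j : Fin N) : (y j - y j * y j).PosSemidef :=
  sq_le_self (h.ypsd j) (y_le_one h j)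

lemma sq_comm {x Q : Mt d} (hc : x * Q = Q * x) : x * x * Q = Q * (x * x) := by
  rw [Matrix.mul_assoc, hc, ← Matrix.mul_assoc, hc, Matrix.mul_assoc]

lemma tr_sq_pr_nonneg (h : Pov A c y D) (j : Fin N) {Q : Mt d} (hQ : IsPr Q) (hc : y j * Q = Q * y j) :
    ((y j - y j * y j) * Q).PosSemidef := by
  refine psd_mul_pr (y_sq_psd h j) hQ ?_
  rw [Matrix.sub_mul, Matrix.mul_sub, sq_comm hc, hc]

lemma tr_mul_pr_le_self {x Q : Mt d} (hx : x.PosSemidef) (hQ : IsPr Q) : tr (x * Q) ≤ tr x := by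
  rw [tr_mul_comm]
  exact tr_mul_le_of_le_one (pr_le_one hQ) hx

end Basic

section Q

variable {N : ℕ} {c y : Fin N → Mt d} {D : ℝ}

lemma q_psd (h : Pov A c y D) {Q : Fin N → Mt d} (hQ : ∀ j, IsPr (Q j))
    (hQc : ∀ j, ∀ x ∈ A, x * Q j = Q j * x) : (∑ j, y j * Q j).PosSemidef :=
  Matrix.posSemidef_sum _ fun j _ => psd_mul_pr (h.ypsd j) (hQ j) (hQc j _ (h.ymem j))

lemma one_sub_q (h : Pov A c y D) (Q : Fin N → Mt d) :
    (1 : Mt d) - ∑ j, y j * Q j = ∑ j, y j * (1 - Q j) := by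
  simp only [Matrix.mul_sub, Matrix.mul_one, Finset.sum_sub_distrib, h.ysum]

lemma q_le_one (h : Pov A c y D) {Q : Fin N → Mt d} (hQ : ∀ j, IsPr (Q j))
    (hQc : ∀ j, ∀ x ∈ A, x * Q j = Q j * x) : Le (∑ j, y j * Q j) 1 := by
  unfold Le
  rw [one_sub_q h Q]
  refine Matrix.posSemidef_sum _ fun j _ => psd_mul_pr (h.ypsd j) (pr_compl (hQ j)) ?_
  rw [Matrix.mul_sub, Matrix.sub_mul, Matrix.mul_one, Matrix.one_mul, hQc j _ (h.ymem j)]

lemma q_mem (h : Pov A c y D) {Q : Fin N → Mt d} (hQA : ∀ j, Q j ∈ A) : (∑ j, y j * Q j) ∈ A :=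
  sum_mem fun j _ => mul_mem (h.ymem j) (hQA j)

lemma sqrtD {D η : ℝ} (hη : 0 ≤ η) (hD : D ≤ η ^ 2) : √D ≤ η := by
  rw [← Real.sqrt_sq hη]
  exact Real.sqrt_le_sqrt hD

/-- `l1` in the form used below -/
lemma l1_le (h : Pov A c y D) {η : ℝ} (hη : 0 ≤ η) (hD : D ≤ η ^ 2) (Z : Fin N → Mt d)
    (hZ : ∀ j, Le ((Z j)ᴴ * Z j) 1) : |∑ j, tr (c j * Z j) - ∑ j, tr (y j * Z j)| ≤ 2 * η * d := by
  have h1 := h.l1 Z hZ
  have h2 : ∑ j, tr (c j * Z j) - ∑ j, tr (y j * Z j) = ∑ j, tr ((c j - y j) * Z j) := by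
    rw [← Finset.sum_sub_distrib]
    refine Finset.sum_congr rfl fun j _ => ?_
    rw [Matrix.sub_mul, tr_sub]
  rw [h2]
  have h3 : 2 * √D * (d : ℝ) ≤ 2 * η * d := by
    have := sqrtD hη hD
    have hd : (0 : ℝ) ≤ d := Nat.cast_nonneg d
    nlinarith
  exact (Finset.abs_sum_le_sum_abs _ _).trans (h1.trans h3)

/-- the square of `Q j - q` -/
lemma tr_y_sq (h : Pov A c y D) {Q : Fin N → Mt d} (hQ : ∀ j, IsPr (Q j)) (hQA : ∀ j, Q j ∈ A)
    (hQc : ∀ j, ∀ x ∈ A, x * Q j = Q j * x) :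
    ∑ j, tr (y j * ((Q j - ∑ i, y i * Q i) * (Q j - ∑ i, y i * Q i))) =
      tr (∑ i, y i * Q i) - tr ((∑ i, y i * Q i) * ∑ i, y i * Q i) := by
  set q := ∑ i, y i * Q i with hq
  have hqm : q ∈ A := q_mem h hQA
  have e : ∀ j, tr (y j * ((Q j - q) * (Q j - q))) =
      tr (y j * Q j) - 2 * tr (y j * Q j * q) + tr (y j * (q * q)) := by
    intro j
    have e1 : (Q j - q) * (Q j - q) = Q j - 2 • (Q j * q) + q * q := by
      have : (Q j - q) * (Q j - q) = Q j * Q j - Q j * q - q * Q j + q * q := by noncomm_ring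
      rw [this, (hQ j).2, hQc j q hqm]
      rw [two_smul]
      abel
    rw [e1, Matrix.mul_add, Matrix.mul_sub, tr_add, tr_sub, two_smul, Matrix.mul_add, tr_add,
      ← Matrix.mul_assoc (y j) (Q j) q]
    ring
  rw [Finset.sum_congr rfl fun j _ => e j, Finset.sum_add_distrib, Finset.sum_sub_distrib,
    ← Finset.mul_sum, ← tr_sum, ← tr_sum, ← tr_sum, ← Finset.sum_mul, ← Finset.sum_mul, h.ysum,
    Matrix.one_mul, ← hq]
  ring

/-- the diagonal terms -/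
lemma tr_q_sq (h : Pov A c y D) {Q : Fin N → Mt d} (hQ : ∀ j, IsPr (Q j))
    (hQc : ∀ j, ∀ x ∈ A, x * Q j = Q j * x) :
    tr (∑ i, y i * Q i) - tr ((∑ i, y i * Q i) * ∑ i, y i * Q i) ≤ D * d := by
  classical
  have h1 : ∑ j, tr (y j * Q j * (y j * Q j)) ≤ tr ((∑ i, y i * Q i) * ∑ i, y i * Q i) := by
    rw [Finset.sum_mul, tr_sum]
    refine Finset.sum_le_sum fun j _ => ?_
    rw [Finset.mul_sum, tr_sum]
    refine Finset.single_le_sum (f := fun i => tr (y j * Q j * (y i * Q i))) (fun i _ => ?_)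
      (Finset.mem_univ j)
    exact tr_mul_nonneg (psd_mul_pr (h.ypsd j) (hQ j) (hQc j _ (h.ymem j)))
      (psd_mul_pr (h.ypsd i) (hQ i) (hQc i _ (h.ymem i)))
  have h2 : ∀ j, tr (y j * Q j) - tr (y j * Q j * (y j * Q j)) ≤ tr (y j - y j * y j) := by
    intro j
    have hc := hQc j _ (h.ymem j)
    have e : y j * Q j * (y j * Q j) = y j * y j * Q j := by
      calc y j * Q j * (y j * Q j) = y j * (Q j * y j) * Q j := by simp only [Matrix.mul_assoc]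
        _ = y j * (y j * Q j) * Q j := by rw [hc]
        _ = y j * y j * (Q j * Q j) := by simp only [Matrix.mul_assoc]
        _ = y j * y j * Q j := by rw [(hQ j).2]
    rw [e, ← tr_sub, ← Matrix.sub_mul]
    exact tr_mul_pr_le_self (y_sq_psd h j) (hQ j)
  calc tr (∑ i, y i * Q i) - tr ((∑ i, y i * Q i) * ∑ i, y i * Q i)
      ≤ ∑ j, tr (y j * Q j) - ∑ j, tr (y j * Q j * (y j * Q j)) := by
        rw [tr_sum]
        linarith
    _ = ∑ j, (tr (y j * Q j) - tr (y j * Q j * (y j * Q j))) := by rw [Finset.sum_sub_distrib]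
    _ ≤ ∑ j, tr (y j - y j * y j) := Finset.sum_le_sum fun j _ => h2 j
    _ ≤ D * d := h.sq

/-- step (3) -/
lemma step3 (h : Pov A c y D) {η : ℝ} (hη : 0 ≤ η) (hη1 : η ≤ 1) (hD : D ≤ η ^ 2)
    {Q : Fin N → Mt d} (hQ : ∀ j, IsPr (Q j)) (hQA : ∀ j, Q j ∈ A)
    (hQc : ∀ j, ∀ x ∈ A, x * Q j = Q j * x) :
    ∑ j, hs ((Q j - ∑ i, y i * Q i) * c j) ≤ 3 * η * d := by
  set q := ∑ i, y i * Q i with hq
  have hqp : q.PosSemidef := q_psd h hQ hQc
  have hq1 : Le q 1 := q_le_one h hQ hQc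
  have hherm : ∀ j, (Q j - q)ᴴ = Q j - q := fun j => by
    rw [Matrix.conjTranspose_sub, (hQ j).1, hqp.1.eq]
  have hcon : ∀ j, Le ((Q j - q)ᴴ * (Q j - q)) 1 := by
    intro j
    refine contr_herm (hherm j) ?_ ?_
    · refine Le_trans ?_ (pr_le_one (hQ j))
      unfold Le
      rw [sub_sub_cancel]
      exact hqp
    · refine Le_trans ?_ hq1
      unfold Le
      have : q - -(Q j - q) = Q j := by abel
      rw [this]
      exact pr_psd (hQ j)
  have e : ∀ j, hs ((Q j - q) * c j) = tr (c j * ((Q j - q) * (Q j - q))) := by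
    intro j
    rw [hs_eq_tr, Matrix.conjTranspose_mul, hherm, (h.pr j).1, tr_mul_comm]
    have : (Q j - q) * c j * (c j * (Q j - q)) = (Q j - q) * (c j * c j) * (Q j - q) := by
      simp only [Matrix.mul_assoc]
    rw [this, (h.pr j).2, tr_mul_comm, ← Matrix.mul_assoc, tr_mul_comm]
  rw [Finset.sum_congr rfl fun j _ => e j]
  have h1 := l1_le h hη hD (fun j => (Q j - q) * (Q j - q)) (fun j => contr_mul (hcon j) (hcon j))
  have h2 := tr_y_sq h hQ hQA hQc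
  have h3 := tr_q_sq h hQ hQc
  rw [← hq] at h2 h3
  have h4 := (abs_le.1 h1).2
  have hd : (0 : ℝ) ≤ d := Nat.cast_nonneg d
  have h5 : D * (d : ℝ) ≤ η * d := by
    refine mul_le_mul_of_nonneg_right (hD.trans ?_) hd
    nlinarith
  linarith

/-- step (4) -/
lemma step4 (h : Pov A c y D) {η : ℝ} (hη : 0 ≤ η) (hη1 : η ≤ 1) (hD : D ≤ η ^ 2)
    {V : Mt d} (hV : Vᴴ * V = 1) (hVc : ∑ j, hs (V * c j - c j * V) ≤ η ^ 2 * d)
    {Q Q' : Fin N → Mt d} (hQ : ∀ j, IsPr (Q j)) (hQA : ∀ j, Q j ∈ A)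
    (hQc : ∀ j, ∀ x ∈ A, x * Q j = Q j * x) (hQ' : ∀ j, IsPr (Q' j)) :
    ∑ j, tr (c j * (Q' j * (V * (Q j - ∑ i, y i * Q i) * Vᴴ))) ≤ 3 * √η * d := by
  set q := ∑ i, y i * Q i with hq
  have hqp : q.PosSemidef := q_psd h hQ hQc
  have hq1 : Le q 1 := q_le_one h hQ hQc
  have hherm : ∀ j, (Q j - q)ᴴ = Q j - q := fun j => by
    rw [Matrix.conjTranspose_sub, (hQ j).1, hqp.1.eq]
  have hcon : ∀ j, Le ((Q j - q)ᴴ * (Q j - q)) 1 := by
    intro j
    refine contr_herm (hherm j) ?_ ?_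
    · refine Le_trans ?_ (pr_le_one (hQ j))
      unfold Le
      rw [sub_sub_cancel]
      exact hqp
    · refine Le_trans ?_ hq1
      unfold Le
      have : q - -(Q j - q) = Q j := by abel
      rw [this]
      exact pr_psd (hQ j)
  have hb : ∀ j, hs (V * (Q j - q) * Vᴴ * c j) ≤
      2 * hs ((Q j - q) * c j) + 2 * hs (V * c j - c j * V) := by
    intro j
    have e1 : V * (Q j - q) * Vᴴ * c j = V * ((Q j - q) * c j * Vᴴ + (Q j - q) * (Vᴴ * c j - c j * Vᴴ)) := by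
      rw [Matrix.mul_sub (Q j - q)]
      simp only [Matrix.mul_assoc, add_sub_cancel]
    rw [e1, hs_unit_mul hV]
    refine (hs_add_le _ _).trans ?_
    have h1 : hs ((Q j - q) * c j * Vᴴ) = hs ((Q j - q) * c j) := hs_mul_unit (unit_conj hV) _
    have h2 : hs ((Q j - q) * (Vᴴ * c j - c j * Vᴴ)) ≤ hs (V * c j - c j * V) := by
      rw [← hs_comm_adj hV]
      exact hs_mul_le (hcon j) _
    linarith
  have ha : ∀ j, tr (c j * (Q' j * (V * (Q j - q) * Vᴴ))) ≤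
      √(tr (c j)) * √(hs (V * (Q j - q) * Vᴴ * c j)) := by
    intro j
    have e1 : tr (c j * (Q' j * (V * (Q j - q) * Vᴴ))) =
        tr ((c j * Q' j) * (V * (Q j - q) * Vᴴ * c j)) := by
      have : (c j * Q' j) * (V * (Q j - q) * Vᴴ * c j) =
          (c j * (Q' j * (V * (Q j - q) * Vᴴ))) * c j := by
        simp only [Matrix.mul_assoc]
      rw [this, tr_mul_comm _ (c j), ← Matrix.mul_assoc (c j) (c j), (h.pr j).2]
    rw [e1]
    refine (tr_mul_le _ _).trans ?_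
    refine mul_le_mul_of_nonneg_right (Real.sqrt_le_sqrt ?_) (Real.sqrt_nonneg _)
    rw [pr_tr_eq_hs (h.pr j)]
    exact hs_mul_pr_le_self (hQ' j) _
  have hd : (0 : ℝ) ≤ d := Nat.cast_nonneg d
  have hsum1 : ∑ j, tr (c j) = d := by
    rw [← tr_sum, h.sum, tr_one]
  have hsum2 : ∑ j, hs (V * (Q j - q) * Vᴴ * c j) ≤ 9 * η * d := by
    have h3 := step3 h hη hη1 hD hQ hQA hQc
    rw [← hq] at h3
    calc ∑ j, hs (V * (Q j - q) * Vᴴ * c j) ≤
        ∑ j, (2 * hs ((Q j - q) * c j) + 2 * hs (V * c j - c j * V)) :=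
          Finset.sum_le_sum fun j _ => hb j
      _ = 2 * ∑ j, hs ((Q j - q) * c j) + 2 * ∑ j, hs (V * c j - c j * V) := by
          rw [Finset.sum_add_distrib, Finset.mul_sum, Finset.mul_sum]
      _ ≤ 2 * (3 * η * d) + 2 * (η ^ 2 * d) := by linarith
      _ ≤ 9 * η * d := by
          have : η ^ 2 * (d : ℝ) ≤ η * d := by
            refine mul_le_mul_of_nonneg_right ?_ hd
            nlinarith
          have h5 : 0 ≤ η * (d : ℝ) := mul_nonneg hη hd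
          linarith
  calc ∑ j, tr (c j * (Q' j * (V * (Q j - q) * Vᴴ))) ≤
      ∑ j, √(tr (c j)) * √(hs (V * (Q j - q) * Vᴴ * c j)) := Finset.sum_le_sum fun j _ => ha j
    _ ≤ √(∑ j, tr (c j)) * √(∑ j, hs (V * (Q j - q) * Vᴴ * c j)) :=
        Real.sum_sqrt_mul_sqrt_le _ (fun j => ctr_nonneg h j) (fun j => hs_nonneg _)
    _ ≤ √(d : ℝ) * √(9 * η * d) := by
        rw [hsum1]
        exact mul_le_mul_of_nonneg_left (Real.sqrt_le_sqrt hsum2) (Real.sqrt_nonneg _)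
    _ = 3 * √η * d := by
        have h9 : (9 : ℝ) * η * d = 3 ^ 2 * (η * d) := by ring
        rw [h9, Real.sqrt_mul (by norm_num), Real.sqrt_sq (by norm_num), Real.sqrt_mul hη]
        have := Real.mul_self_sqrt hd
        calc √(d : ℝ) * (3 * (√η * √(d : ℝ))) = 3 * √η * (√(d : ℝ) * √(d : ℝ)) := by ring
          _ = 3 * √η * d := by rw [this]

/-- step (5) -/
lemma step5 (h : Pov A c y D) {η : ℝ} (hη : 0 ≤ η) (hη1 : η ≤ 1) (hD : D ≤ η ^ 2)
    {V : Mt d} (hV : Vᴴ * V = 1) {Q Q' : Fin N → Mt d} (hQ : ∀ j, IsPr (Q j))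
    (hQ' : ∀ j, IsPr (Q' j)) (hQc' : ∀ j, ∀ x ∈ A, x * Q' j = Q' j * x)
    (hcmp : ∑ j, tr ((y j * Q' j) * (y j * Q' j) * (V * (1 - Q j) * Vᴴ)) ≤ η * d) :
    ∑ j, tr (c j * (Q' j * (V * (1 - Q j) * Vᴴ))) ≤ 4 * η * d := by
  have hVV : V * Vᴴ = 1 := unit_symm hV
  have hVc : ((Vᴴ)ᴴ * Vᴴ) = 1 := unit_conj hV
  have hZ : ∀ j, Le ((Q' j * (V * (1 - Q j) * Vᴴ))ᴴ * (Q' j * (V * (1 - Q j) * Vᴴ))) 1 := fun j =>
    contr_mul (pr_sq_le_one (hQ' j)) (contr_mul (contr_mul (contr_unit hV)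
      (pr_sq_le_one (pr_compl (hQ j)))) (contr_unit hVc))
  have h1 := (abs_le.1 (l1_le h hη hD (fun j => Q' j * (V * (1 - Q j) * Vᴴ)) hZ)).2
  have hW : ∀ j, IsPr (V * (1 - Q j) * Vᴴ) := by
    intro j
    constructor
    · rw [Matrix.conjTranspose_mul, Matrix.conjTranspose_mul, Matrix.conjTranspose_conjTranspose,
        (pr_compl (hQ j)).1, Matrix.mul_assoc]
    · calc V * (1 - Q j) * Vᴴ * (V * (1 - Q j) * Vᴴ) = V * (1 - Q j) * (Vᴴ * V) * (1 - Q j) * Vᴴ := by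
            simp only [Matrix.mul_assoc]
        _ = V * ((1 - Q j) * (1 - Q j)) * Vᴴ := by
            rw [hV, Matrix.mul_one]
            simp only [Matrix.mul_assoc]
        _ = V * (1 - Q j) * Vᴴ := by rw [(pr_compl (hQ j)).2]
  have h2 : ∀ j, tr (y j * (Q' j * (V * (1 - Q j) * Vᴴ))) ≤
      tr ((y j * Q' j) * (y j * Q' j) * (V * (1 - Q j) * Vᴴ)) + tr (y j - y j * y j) := by
    intro j
    have hc := hQc' j _ (h.ymem j)
    have e : y j * (Q' j * (V * (1 - Q j) * Vᴴ)) = (y j * Q' j) * (y j * Q' j) * (V * (1 - Q j) * Vᴴ) +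
        ((y j - y j * y j) * Q' j) * (V * (1 - Q j) * Vᴴ) := by
      have e1 : y j * Q' j = (y j * Q' j) * (y j * Q' j) + (y j - y j * y j) * Q' j := by
        have e2 : y j * Q' j * (y j * Q' j) = y j * y j * Q' j := by
          calc y j * Q' j * (y j * Q' j) = y j * (Q' j * y j) * Q' j := by simp only [Matrix.mul_assoc]
            _ = y j * (y j * Q' j) * Q' j := by rw [hc]
            _ = y j * y j * (Q' j * Q' j) := by simp only [Matrix.mul_assoc]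
            _ = y j * y j * Q' j := by rw [(hQ' j).2]
        rw [e2, Matrix.sub_mul]
        abel
      rw [← Matrix.mul_assoc, ← Matrix.add_mul, ← e1]
    rw [e, tr_add]
    have h3 : tr ((y j - y j * y j) * Q' j * (V * (1 - Q j) * Vᴴ)) ≤ tr (y j - y j * y j) :=
      (tr_mul_pr_le_self (tr_sq_pr_nonneg h j (hQ' j) hc) (hW j)).trans
        (tr_mul_pr_le_self (y_sq_psd h j) (hQ' j))
    linarith
  have h3 : ∑ j, tr (y j * (Q' j * (V * (1 - Q j) * Vᴴ))) ≤ η * d + D * d := by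
    calc ∑ j, tr (y j * (Q' j * (V * (1 - Q j) * Vᴴ))) ≤
        ∑ j, (tr ((y j * Q' j) * (y j * Q' j) * (V * (1 - Q j) * Vᴴ)) + tr (y j - y j * y j)) :=
          Finset.sum_le_sum fun j _ => h2 j
      _ = ∑ j, tr ((y j * Q' j) * (y j * Q' j) * (V * (1 - Q j) * Vᴴ)) + ∑ j, tr (y j - y j * y j) := by
          rw [Finset.sum_add_distrib]
      _ ≤ η * d + D * d := add_le_add hcmp h.sq
  have hd : (0 : ℝ) ≤ d := Nat.cast_nonneg d
  have h5 : D * (d : ℝ) ≤ η * d := by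
    refine mul_le_mul_of_nonneg_right (hD.trans ?_) hd
    nlinarith
  linarith

end Q

end GD

theorem q_contr {N : ℕ} {c y : Fin N → Mt d} {D : ℝ} (h : Pov A c y D) (Q : Fin N → Mt d) (hQ : ∀ j, IsPr (Q j))
    (hQA : ∀ j, Q j ∈ A) (hQc : ∀ j, ∀ x ∈ A, x * Q j = Q j * x) :
    Le ((∑ j, y j * Q j)ᴴ * ∑ j, y j * Q j) 1 :=
  sq_le_one (GD.q_psd h hQ hQc) (GD.q_le_one h hQ hQc)

/-- TARGETS -/
theorem disp {N : ℕ} {c y : Fin N → Mt d} {D : ℝ} (h : Pov A c y D) {η : ℝ} (hη : 0 ≤ η) (hη1 : η ≤ 1)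
    (hD : D ≤ η ^ 2) (V : Mt d) (hV : Vᴴ * V = 1) (hVc : ∑ j, hs (V * c j - c j * V) ≤ η ^ 2 * d)
    (Q Q' : Fin N → Mt d) (hQ : ∀ j, IsPr (Q j)) (hQA : ∀ j, Q j ∈ A) (hQc : ∀ j, ∀ x ∈ A, x * Q j = Q j * x)
    (hQ' : ∀ j, IsPr (Q' j)) (hQA' : ∀ j, Q' j ∈ A) (hQc' : ∀ j, ∀ x ∈ A, x * Q' j = Q' j * x)
    (hQQ : ∀ j, Q j * Q' j = Q' j)
    (hcmp : ∑ j, tr ((y j * Q' j) * (y j * Q' j) * (V * (1 - Q j) * Vᴴ)) ≤ η * d) (ρ : ℝ)
    (hρ : tr (∑ j, y j * Q j) - tr (∑ j, y j * Q' j) ≤ ρ * d) :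
    hs (V * (∑ j, y j * Q j) - (∑ j, y j * Q j) * V) ≤ 2 * (ρ + 9 * √η) * d := by
  have h4 := GD.step4 h hη hη1 hD hV hVc hQ hQA hQc hQ'
  have h5 := GD.step5 h hη hη1 hD hV hQ hQ' hQc' hcmp
  have hcon : Le ((1 - ∑ j, y j * Q j)ᴴ * (1 - ∑ j, y j * Q j)) 1 := by
    have hp : (1 - ∑ j, y j * Q j : Mt d).PosSemidef := GD.q_le_one h hQ hQc
    refine sq_le_one hp ?_
    unfold Le
    rw [sub_sub_cancel]
    exact GD.q_psd h hQ hQc
  have hdiff : ((∑ j, y j * Q j) - ∑ j, y j * Q' j).PosSemidef := by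
    have e : (∑ j, y j * Q j) - ∑ j, y j * Q' j = ∑ j, y j * (Q j - Q' j) := by
      rw [← Finset.sum_sub_distrib]
      exact Finset.sum_congr rfl fun j _ => (Matrix.mul_sub _ _ _).symm
    rw [e]
    refine Matrix.posSemidef_sum _ fun j _ => GD.psd_mul_pr (h.ypsd j) (pr_sub (hQ' j) (hQ j) (hQQ j)) ?_
    rw [Matrix.mul_sub, Matrix.sub_mul, hQc j _ (h.ymem j), hQc' j _ (h.ymem j)]
  have hqp : (∑ j, y j * Q j).PosSemidef := GD.q_psd h hQ hQc
  have hq1 : Le (∑ j, y j * Q j) 1 := GD.q_le_one h hQ hQc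
  set q := ∑ j, y j * Q j with hq
  have hVV : V * Vᴴ = 1 := unit_symm hV
  have hVcc : ((Vᴴ)ᴴ * Vᴴ) = 1 := unit_conj hV
  have hX : V * (1 - q) * Vᴴ = 1 - V * q * Vᴴ := by
    rw [Matrix.mul_sub, Matrix.mul_one, Matrix.sub_mul, hVV]
  have hX1 : Le (V * (1 - q) * Vᴴ) 1 := by
    unfold Le
    rw [hX, sub_sub_cancel]
    exact hqp.mul_mul_conjTranspose_same V
  -- the commutator
  have h0 : hs (V * q - q * V) ≤ 2 * tr (q * (V * (1 - q) * Vᴴ)) := by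
    rw [hs_comm_herm hV hqp.1.eq, hX, Matrix.mul_sub, Matrix.mul_one, tr_sub]
    have := hs_le_tr hqp hq1
    linarith
  -- step (1)
  have h1 : tr (q * (V * (1 - q) * Vᴴ)) ≤ ρ * d + ∑ j, tr (y j * (Q' j * (V * (1 - q) * Vᴴ))) := by
    have e : q * (V * (1 - q) * Vᴴ) = (q - ∑ j, y j * Q' j) * (V * (1 - q) * Vᴴ) +
        (∑ j, y j * Q' j) * (V * (1 - q) * Vᴴ) := by
      rw [← Matrix.add_mul, sub_add_cancel]
    have e2 : tr ((∑ j, y j * Q' j) * (V * (1 - q) * Vᴴ)) =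
        ∑ j, tr (y j * (Q' j * (V * (1 - q) * Vᴴ))) := by
      rw [Finset.sum_mul, tr_sum]
      exact Finset.sum_congr rfl fun j _ => by rw [Matrix.mul_assoc]
    have h2 : tr ((q - ∑ j, y j * Q' j) * (V * (1 - q) * Vᴴ)) ≤ tr (q - ∑ j, y j * Q' j) := by
      rw [tr_mul_comm]
      exact tr_mul_le_of_le_one hX1 hdiff
    rw [e, tr_add, e2]
    rw [tr_sub] at h2
    linarith
  -- step (2)
  have h2 : ∑ j, tr (y j * (Q' j * (V * (1 - q) * Vᴴ))) ≤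
      ∑ j, tr (c j * (Q' j * (V * (1 - q) * Vᴴ))) + 2 * η * d := by
    have := (abs_le.1 (GD.l1_le h hη hD (fun j => Q' j * (V * (1 - q) * Vᴴ)) (fun j =>
      GD.contr_mul (pr_sq_le_one (hQ' j)) (GD.contr_mul (GD.contr_mul (GD.contr_unit hV)
      hcon) (GD.contr_unit hVcc))))).1
    linarith
  have h3 : ∑ j, tr (c j * (Q' j * (V * (1 - q) * Vᴴ))) =
      ∑ j, tr (c j * (Q' j * (V * (1 - Q j) * Vᴴ))) + ∑ j, tr (c j * (Q' j * (V * (Q j - q) * Vᴴ))) := by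
    rw [← Finset.sum_add_distrib]
    refine Finset.sum_congr rfl fun j _ => ?_
    rw [← tr_add, ← Matrix.mul_add, ← Matrix.mul_add, ← Matrix.add_mul, ← Matrix.mul_add,
      sub_add_sub_cancel]
  have hd : (0 : ℝ) ≤ d := Nat.cast_nonneg d
  have hs1 : η ≤ √η := by
    have h6 := Real.sqrt_nonneg η
    have h7 : √η ≤ 1 := by
      rw [← Real.sqrt_one]
      exact Real.sqrt_le_sqrt hη1
    have h8 := Real.mul_self_sqrt hη
    nlinarith
  have h9 : η * (d : ℝ) ≤ √η * d := mul_le_mul_of_nonneg_right hs1 hd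
  calc hs (V * q - q * V) ≤ 2 * tr (q * (V * (1 - q) * Vᴴ)) := h0
    _ ≤ 2 * (ρ * d + (4 * η * d + 3 * √η * d + 2 * η * d)) := by linarith
    _ = 2 * (ρ * d + 3 * (√η * d) + 6 * (η * d)) := by ring
    _ ≤ 2 * (ρ * d + 3 * (√η * d) + 6 * (√η * d)) := by linarith
    _ = 2 * (ρ + 9 * √η) * d := by ring

end Pool.Agent.Helper784QA
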