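import Pool.Agent.Helper784QA.D0

set_option autoImplicit false

namespace Pool.Agent.Helper784QA

open Matrix Filter Topology Pool.Agent.W661.RC Pool.Agent.W683.RC Helper418HL
open scoped ComplexOrder

variable {d : ℕ} {A : StarSubalgebra ℂ (Mt d)}

namespace AuxGE

lemma hs_rows {d N : ℕ} (c : Fin N → Mt d) (hc : ∀ j, IsPr (c j)) (hc1 : ∑ j, c j = 1)
    (y : Mt d) : hs y = ∑ j, hs (c j * y) := by
  have h1 : ∀ j, hs (c j * y) = tr (yᴴ * (c j * y)) := by
    intro j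
    rw [hs_eq_tr, Matrix.conjTranspose_mul, (hc j).1, Matrix.mul_assoc, ← Matrix.mul_assoc (c j),
      (hc j).2]
  rw [Finset.sum_congr rfl fun j _ => h1 j, ← tr_sum, ← Finset.mul_sum, ← Finset.sum_mul, hc1,
    Matrix.one_mul, hs_eq_tr]

lemma pinch {d N : ℕ} (c : Fin N → Mt d) (hc : ∀ j, IsPr (c j)) (hc1 : ∑ j, c j = 1)
    (y : Mt d) : ∑ j, hs (c j * y * c j) ≤ hs y := by
  rw [hs_rows c hc hc1 y]
  exact Finset.sum_le_sum fun j _ => hs_mul_le_right (pr_sq_le_one (hc j)) _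

lemma psd_comm_pr {y Q : Mt d} (hy : y.PosSemidef) (hQ : IsPr Q) (hc : y * Q = Q * y) :
    (y * Q).PosSemidef := by
  have h1 := Le_conj' (Le_zero.2 hy) Q
  have h2 : Q * y * Qᴴ = y * Q := by
    rw [hQ.1, ← hc, Matrix.mul_assoc, hQ.2]
  have h3 : Q * (0 : Mt d) * Qᴴ = 0 := by simp
  rw [h2, h3] at h1
  exact Le_zero.1 h1

lemma le_comm_pr {y Q : Mt d} (hy : y.PosSemidef) (hQ : IsPr Q) (hc : y * Q = Q * y) :
    Le (y * Q) y := by
  have h1 := psd_comm_pr hy (pr_compl hQ) (by rw [mul_sub, sub_mul, mul_one, one_mul, hc])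
  have h2 : y * (1 - Q) = y - y * Q := by rw [mul_sub, mul_one]
  rw [h2] at h1
  exact h1

lemma sqrtD {D η : ℝ} (hη : 0 ≤ η) (hD : D ≤ η ^ 2) : √D ≤ η := by
  calc √D ≤ √(η ^ 2) := Real.sqrt_le_sqrt hD
    _ = η := Real.sqrt_sq hη

variable {N : ℕ} {c y : Fin N → Mt d} {D : ℝ}

lemma y_le (h : Pov A c y D) (j : Fin N) : Le (y j) 1 := by
  classical
  have h1 : (1 : Mt d) - y j = ∑ i ∈ Finset.univ.erase j, y i := by
    rw [← h.ysum, ← Finset.add_sum_erase _ _ (Finset.mem_univ j), add_sub_cancel_left]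
  show ((1 : Mt d) - y j).PosSemidef
  rw [h1]
  exact Matrix.posSemidef_sum _ fun i _ => h.ypsd i

lemma y_sq (h : Pov A c y D) (j : Fin N) : (y j - y j * y j).PosSemidef :=
  sq_le_self (h.ypsd j) (y_le h j)

lemma sq_sum (h : Pov A c y D) {η : ℝ} (hD : D ≤ η ^ 2) :
    ∑ j, tr (y j - y j * y j) ≤ η ^ 2 * d :=
  h.sq.trans (mul_le_mul_of_nonneg_right hD (Nat.cast_nonneg d))

lemma l1' (h : Pov A c y D) {η : ℝ} (hη : 0 ≤ η) (hD : D ≤ η ^ 2) (Z : Fin N → Mt d)
    (hZ : ∀ j, Le ((Z j)ᴴ * Z j) 1) : ∑ j, |tr ((c j - y j) * Z j)| ≤ 2 * η * d := by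
  refine (h.l1 Z hZ).trans ?_
  have := sqrtD hη hD
  have hd : (0 : ℝ) ≤ d := Nat.cast_nonneg d
  nlinarith

lemma tr_c_sum (h : Pov A c y D) : ∑ j, tr (c j) = d := by
  rw [← tr_sum, h.sum, tr_one]

/-- step (3) -/
lemma step3 (h : Pov A c y D) {η : ℝ} (hη : 0 ≤ η) (hη1 : η ≤ 1)
    (hD : D ≤ η ^ 2) (Q : Fin N → Mt d) (hQ : ∀ j, IsPr (Q j)) (hQA : ∀ j, Q j ∈ A)
    (hQc : ∀ j, ∀ x ∈ A, x * Q j = Q j * x) :
    ∑ j, hs ((Q j - ∑ i, y i * Q i) * c j) ≤ 3 * η * d := by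
  classical
  set q : Mt d := ∑ i, y i * Q i with hq
  have hyQ : ∀ j, (y j * Q j).PosSemidef := fun j =>
    psd_comm_pr (h.ypsd j) (hQ j) (hQc j _ (h.ymem j))
  have hqp : q.PosSemidef := Matrix.posSemidef_sum _ fun j _ => hyQ j
  have hq1 : Le q 1 := by
    rw [← h.ysum]
    exact Le_sum _ _ _ fun j _ => le_comm_pr (h.ypsd j) (hQ j) (hQc j _ (h.ymem j))
  have hqA : q ∈ A := A.sum_mem fun j _ => A.mul_mem (h.ymem j) (hQA j)
  have hqQ : ∀ j, q * Q j = Q j * q := fun j => hQc j q hqA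
  have hqq : (q - q * q).PosSemidef := sq_le_self hqp hq1
  have hZherm : ∀ j, (Q j - q)ᴴ = Q j - q := fun j => by
    rw [Matrix.conjTranspose_sub, (hQ j).1, hqp.1]
  have hZ1 : ∀ j, Le ((Q j - q) * (Q j - q)) 1 := by
    intro j
    have e1 : (1 : Mt d) - (Q j - q) * (Q j - q) =
        (1 - Q j) * (1 - q * q) * (1 - Q j)ᴴ + Q j * (q + (q - q * q)) * (Q j)ᴴ := by
      rw [(pr_compl (hQ j)).1, (hQ j).1]
      have a1 := (hQ j).2
      have a2 := hqQ j
      have a3 : q * q * Q j = Q j * (q * q) := by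
        rw [mul_assoc, a2, ← mul_assoc, a2, mul_assoc]
      have b1 : (1 - Q j) * (1 - q * q) * (1 - Q j) = 1 - Q j - q * q + Q j * (q * q) := by
        have : (1 - Q j) * (1 - q * q) * (1 - Q j) =
            1 - Q j - q * q + Q j * (q * q) - Q j + Q j * Q j + q * q * Q j - Q j * (q * q * Q j) := by
          noncomm_ring
        rw [this, a3, a1, ← mul_assoc (Q j) (Q j), a1]
        abel
      have b2 : Q j * (q + (q - q * q)) * Q j = 2 • (Q j * q) - Q j * (q * q) := by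
        have : Q j * (q + (q - q * q)) * Q j =
            2 • (Q j * (q * Q j)) - Q j * (q * q * Q j) := by
          noncomm_ring
        rw [this, a3, a2, ← mul_assoc, ← mul_assoc, a1]
      have b3 : (1 : Mt d) - (Q j - q) * (Q j - q) = 1 - Q j * Q j + Q j * q + q * Q j - q * q := by
        noncomm_ring
      rw [b1, b2, b3, a1, a2]
      abel
    show ((1 : Mt d) - (Q j - q) * (Q j - q)).PosSemidef
    rw [e1]
    refine Matrix.PosSemidef.add ?_ ?_
    · have : (1 - q * q).PosSemidef := by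
        have h1 : (1 : Mt d) - q * q = (1 - q) + (q - q * q) := by abel
        rw [h1]
        exact Matrix.PosSemidef.add hq1 hqq
      have h2 := Le_conj' (Le_zero.2 this) (1 - Q j)
      have h3 : (1 - Q j) * (0 : Mt d) * (1 - Q j)ᴴ = 0 := by simp
      rw [h3] at h2
      exact Le_zero.1 h2
    · have : (q + (q - q * q)).PosSemidef := Matrix.PosSemidef.add hqp hqq
      have h2 := Le_conj' (Le_zero.2 this) (Q j)
      have h3 : Q j * (0 : Mt d) * (Q j)ᴴ = 0 := by simp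
      rw [h3] at h2
      exact Le_zero.1 h2
  have hZp : ∀ j, ((Q j - q) * (Q j - q)).PosSemidef := by
    intro j
    have := Matrix.posSemidef_conjTranspose_mul_self (Q j - q)
    rwa [hZherm] at this
  have hZc : ∀ j, Le (((Q j - q) * (Q j - q))ᴴ * ((Q j - q) * (Q j - q))) 1 := fun j =>
    sq_le_one (hZp j) (hZ1 j)
  have e1 : ∀ j, hs ((Q j - q) * c j) = tr (c j * ((Q j - q) * (Q j - q))) := by
    intro j
    rw [hs_eq_tr', Matrix.conjTranspose_mul, hZherm, (h.pr j).1]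
    have : (Q j - q) * c j * (c j * (Q j - q)) = (Q j - q) * (c j * c j) * (Q j - q) := by
      noncomm_ring
    rw [this, (h.pr j).2, tr_mul_cycle, tr_mul_comm]
  have e2 : ∑ j, tr (y j * ((Q j - q) * (Q j - q))) = tr (q - q * q) := by
    rw [← tr_sum]
    congr 1
    have e3 : ∀ j, y j * ((Q j - q) * (Q j - q)) =
        y j * Q j - 2 • (y j * Q j * q) + y j * (q * q) := by
      intro j
      have : y j * ((Q j - q) * (Q j - q)) =
          y j * (Q j * Q j) - y j * (Q j * q) - y j * (q * Q j) + y j * (q * q) := by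
        noncomm_ring
      rw [this, (hQ j).2, hqQ j]
      have : y j * Q j * q = y j * (Q j * q) := by noncomm_ring
      rw [this]
      abel
    rw [Finset.sum_congr rfl fun j _ => e3 j, Finset.sum_add_distrib, Finset.sum_sub_distrib,
      ← Finset.sum_mul, h.ysum, ← Finset.smul_sum, ← Finset.sum_mul, ← hq, one_mul]
    abel
  have e4 : ∑ j, tr (y j * Q j * (y j * Q j)) ≤ tr (q * q) := by
    have : q * q = ∑ i, ∑ j, (y i * Q i) * (y j * Q j) := by
      rw [hq, Finset.sum_mul_sum]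
    rw [this, tr_sum]
    refine Finset.sum_le_sum fun i _ => ?_
    rw [tr_sum]
    exact Finset.single_le_sum (f := fun j => tr (y i * Q i * (y j * Q j)))
      (fun j _ => tr_mul_nonneg (hyQ i) (hyQ j)) (Finset.mem_univ i)
  have e5 : ∀ j, tr (y j * Q j) - tr (y j * Q j * (y j * Q j)) ≤ tr (y j - y j * y j) := by
    intro j
    have e6 : y j * Q j * (y j * Q j) = y j * y j * Q j := by
      have : y j * Q j * (y j * Q j) = y j * (Q j * y j) * Q j := by noncomm_ring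
      rw [this, ← hQc j _ (h.ymem j)]
      have : y j * (y j * Q j) * Q j = y j * y j * (Q j * Q j) := by noncomm_ring
      rw [this, (hQ j).2]
    rw [e6, ← tr_sub, ← sub_mul]
    have := Le_mul_tr (pr_le_one (hQ j)) (y_sq h j)
    rwa [mul_one] at this
  have e7 : tr (q - q * q) ≤ η ^ 2 * d := by
    rw [tr_sub]
    have : tr q = ∑ j, tr (y j * Q j) := by rw [hq, tr_sum]
    rw [this]
    calc ∑ j, tr (y j * Q j) - tr (q * q)
        ≤ ∑ j, tr (y j * Q j) - ∑ j, tr (y j * Q j * (y j * Q j)) := by linarith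
      _ = ∑ j, (tr (y j * Q j) - tr (y j * Q j * (y j * Q j))) := by
          rw [Finset.sum_sub_distrib]
      _ ≤ ∑ j, tr (y j - y j * y j) := Finset.sum_le_sum fun j _ => e5 j
      _ ≤ η ^ 2 * d := sq_sum h hD
  have e8 := l1' h hη hD (fun j => (Q j - q) * (Q j - q)) hZc
  have e9 : ∑ j, hs ((Q j - q) * c j) ≤ ∑ j, tr (y j * ((Q j - q) * (Q j - q))) +
      ∑ j, |tr ((c j - y j) * ((Q j - q) * (Q j - q)))| := by
    rw [← Finset.sum_add_distrib]
    refine Finset.sum_le_sum fun j _ => ?_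
    rw [e1 j]
    have : tr (c j * ((Q j - q) * (Q j - q))) = tr (y j * ((Q j - q) * (Q j - q))) +
        tr ((c j - y j) * ((Q j - q) * (Q j - q))) := by
      rw [← tr_add]; congr 1; noncomm_ring
    rw [this]
    have := le_abs_self (tr ((c j - y j) * ((Q j - q) * (Q j - q))))
    linarith
  rw [e2] at e9
  have hd : (0 : ℝ) ≤ d := Nat.cast_nonneg d
  have : η ^ 2 * d ≤ η * d := mul_le_mul_of_nonneg_right (by nlinarith) hd
  linarith

lemma num_aux {x T δ r : ℝ} (hT : 0 ≤ T) (hx0 : 0 ≤ x) (hxT : x ≤ T)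
    (h : x - 2 * r * x + r ^ 2 * T ≤ δ) (hδ : 0 ≤ δ) :
    (x ≤ T / 2 → x ≤ 2 * δ) ∧ (T / 2 ≤ x → T - x ≤ 2 * δ) := by
  rcases hT.eq_or_lt with h0 | h0
  · subst h0
    have : x = 0 := le_antisymm hxT hx0
    subst this
    constructor <;> intro _ <;> linarith
  · have h1 : x * (T - x) ≤ T * δ := by nlinarith [sq_nonneg (x - r * T)]
    constructor
    · intro h2
      by_contra h3
      push Not at h3
      nlinarith
    · intro h2
      by_contra h3
      push Not at h3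
      nlinarith

/-- the estimate for one `j` -/
lemma one_j {c y Q : Mt d} (hc : IsPr c) (hQ : IsPr Q) (hyQ : y * Q = Q * y) (z : ℂ) :
    tr (c * Q) - 2 * z.re * tr (c * Q) + z.re ^ 2 * tr c ≤
      hs (c * Q * c - z • c) + 4 * hs (c - y) := by
  -- expansion
  have hherm : (c * Q * c)ᴴ = c * Q * c := by
    rw [Matrix.conjTranspose_mul, Matrix.conjTranspose_mul, hc.1, hQ.1, mul_assoc]
  have htr : tr (c * Q * c) = tr (c * Q) := by
    rw [tr_mul_cycle, hc.2]
  have e1 : hs (c * Q * c - z • c) = hs (c * Q * c) - 2 * z.re * tr (c * Q) + ‖z‖ ^ 2 * tr c := by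
    rw [hs_eq_tr, Matrix.conjTranspose_sub, hherm, Matrix.conjTranspose_smul, hc.1]
    have : (c * Q * c - star z • c) * (c * Q * c - z • c) =
        (c * Q * c) * (c * Q * c) - z • (c * Q * c) - star z • (c * Q * c) + (star z * z) • c := by
      rw [sub_mul, mul_sub, mul_sub, Matrix.mul_smul, Matrix.smul_mul, Matrix.smul_mul,
        Matrix.mul_smul, smul_smul, hc.2]
      have g1 : c * Q * c * c = c * Q * c := by rw [mul_assoc, hc.2]
      have g2 : c * (c * Q * c) = c * Q * c := by rw [← mul_assoc, ← mul_assoc, hc.2]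
      rw [g1, g2]
      abel
    rw [this, tr_add, tr_sub, tr_sub]
    have g3 : tr (z • (c * Q * c)) + tr (star z • (c * Q * c)) = 2 * z.re * tr (c * Q) := by
      rw [← tr_add, ← add_smul]
      have : z + star z = ((2 * z.re : ℝ) : ℂ) := by
        apply Complex.ext <;> simp; ring
      rw [this, tr_smul, htr]
    have g4 : tr ((star z * z) • c) = ‖z‖ ^ 2 * tr c := by
      have : star z * z = ((‖z‖ ^ 2 : ℝ) : ℂ) := by
        rw [← Complex.normSq_eq_norm_sq, Complex.normSq_eq_conj_mul_self]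
        rfl
      rw [this, tr_smul]
    have g5 : tr (c * Q * c * (c * Q * c)) = hs (c * Q * c) := by
      rw [hs_eq_tr, hherm]
    rw [g4, g5]
    linarith
  have e2 : tr (c * Q) = hs (c * Q * c) + hs ((1 - c) * (Q * c)) := by
    have : tr (c * Q) = hs (Q * c) := by
      rw [hs_eq_tr, Matrix.conjTranspose_mul, hQ.1, hc.1]
      have : c * Q * (Q * c) = c * (Q * Q) * c := by noncomm_ring
      rw [this, hQ.2, htr]
    rw [this, hs_pyth_left hc (Q * c), mul_assoc]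
  have e3 : hs ((1 - c) * (Q * c)) ≤ 4 * hs (c - y) := by
    have g1 : (1 - c) * (Q * c) = (1 - c) * (Q * c - c * Q) := by
      have : (1 - c) * (Q * c - c * Q) = (1 - c) * (Q * c) - (c * Q - c * c * Q) := by
        noncomm_ring
      rw [this, hc.2, sub_self, sub_zero]
    have g2 : Q * c - c * Q = Q * (c - y) - (c - y) * Q := by
      have : Q * (c - y) - (c - y) * Q = Q * c - c * Q + (y * Q - Q * y) := by noncomm_ring
      rw [this, hyQ, sub_self, add_zero]
    rw [g1]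
    calc hs ((1 - c) * (Q * c - c * Q)) ≤ hs (Q * c - c * Q) := hs_pr_mul_le_self (pr_compl hc) _
      _ = hs (Q * (c - y) - (c - y) * Q) := by rw [g2]
      _ ≤ 2 * hs (Q * (c - y)) + 2 * hs ((c - y) * Q) := hs_sub_le _ _
      _ ≤ 2 * hs (c - y) + 2 * hs (c - y) := by
          have := hs_pr_mul_le_self hQ (c - y)
          have := hs_mul_pr_le_self hQ (c - y)
          linarith
      _ = 4 * hs (c - y) := by ring
  have e4 : z.re ^ 2 * tr c ≤ ‖z‖ ^ 2 * tr c := by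
    refine mul_le_mul_of_nonneg_right ?_ (pr_tr_nonneg hc)
    have := Complex.abs_re_le_norm z
    rw [← sq_abs z.re]
    exact pow_le_pow_left₀ (abs_nonneg _) this 2
  rw [e1]
  linarith

lemma tr_psd_contr {p Z : Mt d} (hp : p.PosSemidef) (hZ : Le (Zᴴ * Z) 1) : |tr (p * Z)| ≤ tr p := by
  obtain ⟨s, hs0, hs1⟩ := exists_sqrt hp
  have h1 : tr (p * Z) = tr (s * (Z * s)) := by
    rw [hs1, mul_assoc, tr_mul_comm, mul_assoc]
  have h2 : hs s = tr p := by rw [hs_eq_tr, hs0.1, ← hs1]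
  rw [h1]
  calc |tr (s * (Z * s))| ≤ √(hs s) * √(hs (Z * s)) := abs_tr_mul_le _ _
    _ ≤ √(hs s) * √(hs s) := by
        refine mul_le_mul_of_nonneg_left ?_ (Real.sqrt_nonneg _)
        exact Real.sqrt_le_sqrt (hs_mul_le hZ s)
    _ = hs s := Real.mul_self_sqrt (hs_nonneg _)
    _ = tr p := h2

lemma contr_mul_pr {e Z : Mt d} (he : IsPr e) (hZ : Le (Zᴴ * Z) 1) : Le ((e * Z)ᴴ * (e * Z)) 1 := by
  have h1 : (e * Z)ᴴ * (e * Z) = Zᴴ * e * Z := by
    rw [Matrix.conjTranspose_mul, he.1]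
    have : Zᴴ * e * (e * Z) = Zᴴ * (e * e) * Z := by noncomm_ring
    rw [this, he.2]
  rw [h1]
  refine Le_trans (Le_conj (pr_le_one he) Z) ?_
  rwa [mul_one]

lemma key (h : Pov A c y D) {η : ℝ} (hη : 0 ≤ η) (hη1 : η ≤ 1)
    (hD : D ≤ η ^ 2) (e : Fin N → Mt d) (he : ∀ j, IsPr (e j))
    (hec : ∀ j, ∀ x ∈ A, x * e j = e j * x) (τ : ℝ)
    (hτ : ∑ j, tr (c j * (1 - e j)) ≤ τ * d) (Z : Fin N → Mt d) (hZ : ∀ j, Le ((Z j)ᴴ * Z j) 1) :
    ∑ j, |tr (((y j * e j) * (y j * e j) - c j) * Z j)| ≤ (3 * η + √τ) * d := by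
  have hd : (0 : ℝ) ≤ d := Nat.cast_nonneg d
  have e1 : ∀ j, ((y j * e j) * (y j * e j) - c j) * Z j =
      -((c j - y j) * (e j * Z j)) - (y j - y j * y j) * (e j * Z j) - c j * (1 - e j) * Z j := by
    intro j
    have : (y j * e j) * (y j * e j) = y j * y j * e j := by
      have : y j * e j * (y j * e j) = y j * (e j * y j) * e j := by noncomm_ring
      rw [this, ← hec j _ (h.ymem j)]
      have : y j * (y j * e j) * e j = y j * y j * (e j * e j) := by noncomm_ring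
      rw [this, (he j).2]
    rw [this]
    noncomm_ring
  have hc0 : ∀ j, 0 ≤ tr (c j) := fun j => pr_tr_nonneg (h.pr j)
  have hce0 : ∀ j, 0 ≤ tr (c j * (1 - e j)) := fun j =>
    tr_mul_nonneg (pr_psd (h.pr j)) (pr_psd (pr_compl (he j)))
  have e3 : ∀ j, |tr (c j * (1 - e j) * Z j)| ≤ √(tr (c j * (1 - e j))) * √(tr (c j)) := by
    intro j
    have g0 : tr ((c j * (1 - e j)) * (Z j * c j)) = tr (c j * (1 - e j) * Z j) := by
      rw [← mul_assoc, tr_mul_comm, ← mul_assoc, ← mul_assoc, (h.pr j).2]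
    have g1 : tr (c j * (1 - e j) * Z j) = tr ((c j * (1 - e j)) * (Z j * c j)) := g0.symm
    have g2 : hs (c j * (1 - e j)) = tr (c j * (1 - e j)) := by
      rw [hs_eq_tr', Matrix.conjTranspose_mul, (pr_compl (he j)).1, (h.pr j).1]
      have : c j * (1 - e j) * ((1 - e j) * c j) = c j * ((1 - e j) * (1 - e j)) * c j := by
        noncomm_ring
      rw [this, (pr_compl (he j)).2, tr_mul_cycle, (h.pr j).2]
    have g3 : hs (Z j * c j) ≤ tr (c j) := by
      rw [pr_tr_eq_hs (h.pr j)]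
      exact hs_mul_le (hZ j) _
    rw [g1]
    refine (abs_tr_mul_le _ _).trans ?_
    rw [g2]
    exact mul_le_mul_of_nonneg_left (Real.sqrt_le_sqrt g3) (Real.sqrt_nonneg _)
  have e4 : ∑ j, √(tr (c j * (1 - e j))) * √(tr (c j)) ≤ √τ * d := by
    have g1 := Real.sum_sqrt_mul_sqrt_le (Finset.univ : Finset (Fin N)) (f := fun j => tr (c j * (1 - e j)))
      (g := fun j => tr (c j)) (fun j => hce0 j) (fun j => hc0 j)
    refine g1.trans ?_
    rw [tr_c_sum h]
    calc √(∑ j, tr (c j * (1 - e j))) * √(d : ℝ) ≤ √(τ * d) * √(d : ℝ) :=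
          mul_le_mul_of_nonneg_right (Real.sqrt_le_sqrt hτ) (Real.sqrt_nonneg _)
      _ = √τ * d := by
          rw [Real.sqrt_mul' _ hd, mul_assoc, Real.mul_self_sqrt hd]
  have e5 := l1' h hη hD (fun j => e j * Z j) (fun j => contr_mul_pr (he j) (hZ j))
  have e6 : ∀ j, |tr ((y j - y j * y j) * (e j * Z j))| ≤ tr (y j - y j * y j) := fun j =>
    tr_psd_contr (y_sq h j) (contr_mul_pr (he j) (hZ j))
  have e7 : ∀ j, |tr (((y j * e j) * (y j * e j) - c j) * Z j)| ≤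
      |tr ((c j - y j) * (e j * Z j))| + tr (y j - y j * y j) +
        √(tr (c j * (1 - e j))) * √(tr (c j)) := by
    intro j
    rw [e1 j, tr_sub, tr_sub, tr_neg]
    refine (abs_sub _ _).trans ?_
    have g1 := abs_sub (-tr ((c j - y j) * (e j * Z j))) (tr ((y j - y j * y j) * (e j * Z j)))
    rw [abs_neg] at g1
    have := e3 j
    have := e6 j
    linarith
  calc ∑ j, |tr (((y j * e j) * (y j * e j) - c j) * Z j)|
      ≤ ∑ j, (|tr ((c j - y j) * (e j * Z j))| + tr (y j - y j * y j) +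
        √(tr (c j * (1 - e j))) * √(tr (c j))) := Finset.sum_le_sum fun j _ => e7 j
    _ = ∑ j, |tr ((c j - y j) * (e j * Z j))| + ∑ j, tr (y j - y j * y j) +
        ∑ j, √(tr (c j * (1 - e j))) * √(tr (c j)) := by
        rw [Finset.sum_add_distrib, Finset.sum_add_distrib]
    _ ≤ 2 * η * d + η ^ 2 * d + √τ * d := add_le_add (add_le_add e5 (sq_sum h hD)) e4
    _ ≤ (3 * η + √τ) * d := by
        have : η ^ 2 * d ≤ η * d := mul_le_mul_of_nonneg_right (by nlinarith) hd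
        linarith

end AuxGE

open AuxGE

/-- TARGETS -/
theorem erg {N : ℕ} {c y : Fin N → Mt d} {D : ℝ} (h : Pov A c y D) {η : ℝ} (hη : 0 ≤ η) (hη1 : η ≤ 1)
    (hD : D ≤ η ^ 2) (Q : Fin N → Mt d) (hQ : ∀ j, IsPr (Q j)) (hQA : ∀ j, Q j ∈ A)
    (hQc : ∀ j, ∀ x ∈ A, x * Q j = Q j * x) (a : Mt d) (ha : ∀ j, ∃ z : ℂ, c j * a * c j = z • c j) (ρ : ℝ)
    (hρ : hs ((∑ j, y j * Q j) - a) ≤ ρ * d) :
    ((∀ j, tr (c j * Q j) ≤ tr (c j) / 2) → ∑ j, tr (c j * Q j) ≤ (4 * ρ + 20 * η) * d) ∧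
    ((∀ j, tr (c j) / 2 ≤ tr (c j * Q j)) → ∑ j, tr (c j * (1 - Q j)) ≤ (4 * ρ + 20 * η) * d) := by
  classical
  have hd : (0 : ℝ) ≤ d := Nat.cast_nonneg d
  choose z hz using ha
  set q : Mt d := ∑ j, y j * Q j with hq
  set δ : Fin N → ℝ := fun j => hs (c j * Q j * c j - z j • c j) + 4 * hs (c j - y j) with hδ
  have hδ0 : ∀ j, 0 ≤ δ j := fun j => by
    have := hs_nonneg (c j * Q j * c j - z j • c j)
    have := hs_nonneg (c j - y j)
    simp only [hδ]
    linarith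
  have hnum : ∀ j, (tr (c j * Q j) ≤ tr (c j) / 2 → tr (c j * Q j) ≤ 2 * δ j) ∧
      (tr (c j) / 2 ≤ tr (c j * Q j) → tr (c j) - tr (c j * Q j) ≤ 2 * δ j) := by
    intro j
    refine num_aux (r := (z j).re) (pr_tr_nonneg (h.pr j))
      (tr_mul_nonneg (pr_psd (h.pr j)) (pr_psd (hQ j))) ?_ ?_ (hδ0 j)
    · have := Le_mul_tr (pr_le_one (hQ j)) (pr_psd (h.pr j))
      rwa [mul_one] at this
    · exact one_j (h.pr j) (hQ j) (hQc j _ (h.ymem j)) (z j)
  have hsum : ∑ j, δ j ≤ (2 * ρ + 10 * η) * d := by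
    have g1 : ∀ j, hs (c j * Q j * c j - z j • c j) ≤
        2 * hs ((Q j - q) * c j) + 2 * hs (c j * (q - a) * c j) := by
      intro j
      have : c j * Q j * c j - z j • c j = c j * ((Q j - q) * c j) + c j * (q - a) * c j := by
        rw [← hz j]; noncomm_ring
      rw [this]
      refine (hs_add_le _ _).trans ?_
      have := hs_pr_mul_le_self (h.pr j) ((Q j - q) * c j)
      linarith
    have g2 := step3 h hη hη1 hD Q hQ hQA hQc
    have g3 := (pinch c h.pr h.sum (q - a)).trans hρ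
    calc ∑ j, δ j ≤ ∑ j, (2 * hs ((Q j - q) * c j) + 2 * hs (c j * (q - a) * c j) +
          4 * hs (c j - y j)) := Finset.sum_le_sum fun j _ => by
            simp only [hδ]; linarith [g1 j]
      _ = 2 * ∑ j, hs ((Q j - q) * c j) + 2 * ∑ j, hs (c j * (q - a) * c j) +
          4 * ∑ j, hs (c j - y j) := by
          rw [Finset.sum_add_distrib, Finset.sum_add_distrib, ← Finset.mul_sum, ← Finset.mul_sum,
            ← Finset.mul_sum]
      _ ≤ 2 * (3 * η * d) + 2 * (ρ * d) + 4 * (η ^ 2 * d) := by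
          have := h.close.trans (mul_le_mul_of_nonneg_right hD hd)
          linarith
      _ ≤ (2 * ρ + 10 * η) * d := by
          have : η ^ 2 * d ≤ η * d := mul_le_mul_of_nonneg_right (by nlinarith) hd
          linarith
  constructor
  · intro hh
    calc ∑ j, tr (c j * Q j) ≤ ∑ j, 2 * δ j := Finset.sum_le_sum fun j _ => (hnum j).1 (hh j)
      _ = 2 * ∑ j, δ j := by rw [← Finset.mul_sum]
      _ ≤ (4 * ρ + 20 * η) * d := by linarith
  · intro hh
    calc ∑ j, tr (c j * (1 - Q j)) ≤ ∑ j, 2 * δ j := by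
          refine Finset.sum_le_sum fun j _ => ?_
          rw [mul_sub, mul_one, tr_sub]
          exact (hnum j).2 (hh j)
      _ = 2 * ∑ j, δ j := by rw [← Finset.mul_sum]
      _ ≤ (4 * ρ + 20 * η) * d := by linarith

theorem overl {N : ℕ} {c y : Fin N → Mt d} {D : ℝ} (h : Pov A c y D) {η : ℝ} (hη : 0 ≤ η) (hη1 : η ≤ 1)
    (hD : D ≤ η ^ 2) (V : Mt d) (hV : Vᴴ * V = 1) (hVc : ∑ j, hs (V * c j - c j * V) ≤ η ^ 2 * d)
    (e : Fin N → Mt d) (he : ∀ j, IsPr (e j)) (heA : ∀ j, e j ∈ A) (hec : ∀ j, ∀ x ∈ A, x * e j = e j * x) (τ : ℝ)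
    (hτ : ∑ j, tr (c j * (1 - e j)) ≤ τ * d) :
    (1 - 7 * η - 2 * √τ) * d ≤
      ∑ j, tr (((y j * e j) * (y j * e j)) * (V * ((y j * e j) * (y j * e j)) * Vᴴ)) := by
  classical
  have hd : (0 : ℝ) ≤ d := Nat.cast_nonneg d
  have hV' : V * Vᴴ = 1 := unit_symm hV
  set k : Fin N → Mt d := fun j => (y j * e j) * (y j * e j) with hk
  have hye : ∀ j, (y j * e j).PosSemidef := fun j =>
    psd_comm_pr (h.ypsd j) (he j) (hec j _ (h.ymem j))
  have hye1 : ∀ j, Le (y j * e j) 1 := fun j =>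
    Le_trans (le_comm_pr (h.ypsd j) (he j) (hec j _ (h.ymem j))) (y_le h j)
  have hkp : ∀ j, (k j).PosSemidef := by
    intro j
    have := Matrix.posSemidef_conjTranspose_mul_self (y j * e j)
    rwa [(hye j).1] at this
  have hk1 : ∀ j, Le (k j) 1 := fun j =>
    Le_trans (sq_le_self (hye j) (hye1 j)) (hye1 j)
  -- contractions
  have hZ1 : ∀ j, Le ((V * k j * Vᴴ)ᴴ * (V * k j * Vᴴ)) 1 := by
    intro j
    have g1 : (V * k j * Vᴴ)ᴴ * (V * k j * Vᴴ) = V * ((k j)ᴴ * k j) * Vᴴ := by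
      rw [Matrix.conjTranspose_mul, Matrix.conjTranspose_mul, Matrix.conjTranspose_conjTranspose]
      have : V * ((k j)ᴴ * Vᴴ) * (V * k j * Vᴴ) = V * (k j)ᴴ * (Vᴴ * V) * k j * Vᴴ := by
        noncomm_ring
      rw [this, hV]
      noncomm_ring
    rw [g1]
    have g2 := Le_conj' (sq_le_one (hkp j) (hk1 j)) V
    rwa [mul_one, hV'] at g2
  have hZ2 : ∀ j, Le ((Vᴴ * c j * V)ᴴ * (Vᴴ * c j * V)) 1 := by
    intro j
    have g1 : (Vᴴ * c j * V)ᴴ * (Vᴴ * c j * V) = Vᴴ * ((c j)ᴴ * c j) * V := by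
      rw [Matrix.conjTranspose_mul, Matrix.conjTranspose_mul, Matrix.conjTranspose_conjTranspose]
      have : Vᴴ * ((c j)ᴴ * V) * (Vᴴ * c j * V) = Vᴴ * (c j)ᴴ * (V * Vᴴ) * c j * V := by
        noncomm_ring
      rw [this, hV']
      noncomm_ring
    rw [g1]
    have g2 := Le_conj (pr_sq_le_one (h.pr j)) V
    rwa [mul_one, hV] at g2
  have a1 : ∑ j, |tr ((k j - c j) * (V * k j * Vᴴ))| ≤ (3 * η + √τ) * d :=
    key h hη hη1 hD e he hec τ hτ (fun j => V * k j * Vᴴ) hZ1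
  have a2 : ∑ j, |tr ((k j - c j) * (Vᴴ * c j * V))| ≤ (3 * η + √τ) * d :=
    key h hη hη1 hD e he hec τ hτ (fun j => Vᴴ * c j * V) hZ2
  have b1 : ∀ j, tr (k j * (V * k j * Vᴴ)) = tr (c j * (Vᴴ * c j * V)) +
      tr ((k j - c j) * (Vᴴ * c j * V)) + tr ((k j - c j) * (V * k j * Vᴴ)) := by
    intro j
    have g1 : tr (c j * (V * k j * Vᴴ)) = tr (k j * (Vᴴ * c j * V)) := by
      have : c j * (V * k j * Vᴴ) = (c j * V) * (k j * Vᴴ) := by noncomm_ring
      rw [this, tr_mul_comm]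
      congr 1
      noncomm_ring
    rw [← tr_add, sub_mul, add_sub_cancel, ← g1, sub_mul, ← tr_add, add_sub_cancel]
  have b2 : ∀ j, tr (c j * (Vᴴ * c j * V)) = tr (c j) - 1 / 2 * hs (V * c j - c j * V) := by
    intro j
    have g1 : tr (c j * (Vᴴ * c j * V)) = tr (c j * (V * c j * Vᴴ)) := by
      have : c j * (Vᴴ * c j * V) = (c j * Vᴴ) * (c j * V) := by noncomm_ring
      rw [this, tr_mul_comm]
      congr 1
      noncomm_ring
    rw [hs_comm_pr hV (h.pr j), g1]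
    ring
  have b3 : ∀ j, tr (c j) - 1 / 2 * hs (V * c j - c j * V) - |tr ((k j - c j) * (Vᴴ * c j * V))| -
      |tr ((k j - c j) * (V * k j * Vᴴ))| ≤ tr (k j * (V * k j * Vᴴ)) := by
    intro j
    rw [b1 j, b2 j]
    have g1 := neg_abs_le (tr ((k j - c j) * (Vᴴ * c j * V)))
    have g2 := neg_abs_le (tr ((k j - c j) * (V * k j * Vᴴ)))
    linarith
  have b4 := Finset.sum_le_sum fun j (_ : j ∈ (Finset.univ : Finset (Fin N))) => b3 j
  rw [Finset.sum_sub_distrib, Finset.sum_sub_distrib, Finset.sum_sub_distrib, ← Finset.mul_sum,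
    tr_c_sum h] at b4
  refine le_trans ?_ b4
  have h5 : η ^ 2 * d ≤ η * d := mul_le_mul_of_nonneg_right (by nlinarith) hd
  have h6 : 0 ≤ η * d := mul_nonneg hη hd
  linarith

end Pool.Agent.Helper784QA
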