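import Pool.Agent.Helper784QA.GF
import Pool.Agent.Helper784QA.GD
import Pool.Agent.Helper784QA.GE

/-!
JOB QA-GG (owner helper784, MP_f0269b_an). Non-ergodic version of `level_thm` (Helper418_HL/HS8.lean).
-/

set_option autoImplicit false

namespace Pool.Agent.Helper784QA

open Matrix Filter Topology Pool.Agent.W661.RC Pool.Agent.W683.RC Helper418HL
open scoped ComplexOrder

namespace GG

/-- the weight of a sum of products with projections -/
lemma tr_sum_bounds {d N : ℕ} {y Q : Fin N → Mt d} (hy : ∀ j, (y j).PosSemidef) (hy1 : ∑ j, y j = 1)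
    (hQ : ∀ j, IsPr (Q j)) : 0 ≤ tr (∑ j, y j * Q j) ∧ tr (∑ j, y j * Q j) ≤ d := by
  constructor
  · rw [tr_sum]
    exact Finset.sum_nonneg fun j _ => tr_mul_nonneg (hy j) (pr_psd (hQ j))
  · have h1 : tr (∑ j, y j * Q j) + tr (∑ j, y j * (1 - Q j)) = d := by
      rw [← tr_add, ← Finset.sum_add_distrib]
      have : ∀ j, y j * Q j + y j * (1 - Q j) = y j := fun j => by
        rw [← Matrix.mul_add, add_sub_cancel, Matrix.mul_one]
      simp only [this]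
      rw [hy1, tr_one]
    have h2 : 0 ≤ tr (∑ j, y j * (1 - Q j)) := by
      rw [tr_sum]
      exact Finset.sum_nonneg fun j _ => tr_mul_nonneg (hy j) (pr_psd (pr_compl (hQ j)))
    linarith

/-- one half of the argument -/
lemma half {G : Type} [Group G] {𝒰 : Ultrafilter ℕ} (M : Mdl G 𝒰) {k : ℕ} (γ : Fin k → G)
    {O : ∀ n, StarSubalgebra ℂ (Mt (M.d n))} {K0 : ℝ} {ε : ℕ → ℝ} (hO : Ctl M γ O K0 ε)
    (P : Set G) (hP : Subgroup.closure P = ⊤)
    (B : ∀ n, StarSubalgebra ℂ (Mt (M.d n)))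
    (N : ℕ → ℕ) (c y : ∀ n, Fin (N n) → Mt (M.d n)) (D : ℕ → ℝ)
    (hpov : ∀ n, Pov (B n) (c n) (y n) (D n))
    (hD : ∀ τ : ℝ, 0 < τ → ∀ᶠ n in (𝒰 : Filter ℕ), D n ≤ τ)
    (hmin : ∀ n, ∀ x ∈ O n, ∀ j, ∃ z : ℂ, c n j * x * c n j = z • c n j)
    (hvc : ∀ v ∈ P, ∀ τ : ℝ, 0 < τ → ∀ᶠ n in (𝒰 : Filter ℕ),
      ∑ j, hs (M.U v n * c n j - c n j * M.U v n) ≤ τ * M.d n) :
    ∃ C : ℝ, 0 ≤ C ∧ ∀ J : ℝ, 1 ≤ J → ∀ Q Q' : ∀ n, Fin (N n) → Mt (M.d n),
      (∀ n j, IsPr (Q n j)) → (∀ n j, Q n j ∈ B n) → (∀ n j, ∀ x ∈ B n, x * Q n j = Q n j * x) →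
      (∀ n j, IsPr (Q' n j)) → (∀ n j, Q' n j ∈ B n) → (∀ n j, ∀ x ∈ B n, x * Q' n j = Q' n j * x) →
      (∀ n j, Q n j * Q' n j = Q' n j) →
      (∀ n, tr (∑ j, y n j * Q n j) - tr (∑ j, y n j * Q' n j) ≤ 1 / J * M.d n) →
      (∀ v ∈ P, ∀ η : ℝ, 0 < η → ∀ᶠ n in (𝒰 : Filter ℕ),
        ∑ j, tr ((y n j * Q' n j) * (y n j * Q' n j) * (M.U v n * (1 - Q n j) * (M.U v n)ᴴ))
          ≤ η * M.d n) →
      ∀ᶠ n in (𝒰 : Filter ℕ),
        ((∀ j, tr (c n j * Q n j) ≤ tr (c n j) / 2) → ∑ j, tr (c n j * Q n j) ≤ C / J * M.d n) ∧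
        ((∀ j, tr (c n j) / 2 ≤ tr (c n j * Q n j)) →
          ∑ j, tr (c n j * (1 - Q n j)) ≤ C / J * M.d n) := by
  have hgen : ∀ s : Fin k, γ s ∈ Subgroup.closure P := fun s => by rw [hP]; trivial
  choose Cs hC0 hCs using fun s => gen_lin M P (γ s) (hgen s)
  have hS0 : 0 ≤ ∑ s, Cs s := Finset.sum_nonneg fun s _ => hC0 s
  have hK := hO.K0pos
  refine ⟨4 * (3 * (K0 * ∑ s, Cs s) + 1) + 20, by have := mul_nonneg hK hS0; linarith, ?_⟩
  intro J hJ Q Q' hQ hQA hQc hQ' hQA' hQc' hQQ hρ hcmp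
  have hJ0 : 0 < J := by linarith
  set η : ℝ := (1 / (18 * J)) ^ 2 with hη
  have hη0 : 0 < η := by positivity
  have hη1 : η ≤ 1 := by
    have h1 : 1 / (18 * J) ≤ 1 := by
      rw [div_le_one (by positivity)]; linarith
    have h2 : (0 : ℝ) ≤ 1 / (18 * J) := by positivity
    nlinarith
  have hsq : √η = 1 / (18 * J) := Real.sqrt_sq (by positivity)
  have hcomm : ∀ v ∈ P, ∀ᶠ n in (𝒰 : Filter ℕ), ∀ x ∈ ({∑ j, y n j * Q n j} : Set (Mt (M.d n))),
      hs (M.U v n * x - x * M.U v n) ≤ 3 / J * M.d n := by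
    intro v hv
    filter_upwards [hD (η ^ 2) (by positivity), hvc v hv (η ^ 2) (by positivity),
      hcmp v hv η hη0] with n h1 h2 h3 x hx
    rw [Set.mem_singleton_iff] at hx
    rw [hx]
    have h4 := disp (hpov n) hη0.le hη1 h1 (M.U v n) (M.un v n) h2 (Q n) (Q' n) (hQ n) (hQA n)
      (hQc n) (hQ' n) (hQA' n) (hQc' n) (hQQ n) h3 (1 / J) (hρ n)
    have e : 2 * (1 / J + 9 * √η) * (M.d n : ℝ) = 3 / J * M.d n := by
      rw [hsq]
      field_simp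
      ring
    rwa [e] at h4
  have h5 : (0 : ℝ) < 3 / J := by positivity
  have hall : ∀ᶠ n in (𝒰 : Filter ℕ), ∀ s : Fin k,
      hs (M.U (γ s) n * (∑ j, y n j * Q n j) - (∑ j, y n j * Q n j) * M.U (γ s) n)
        ≤ Cs s * (3 / J) * M.d n := by
    rw [Filter.eventually_all]
    intro s
    filter_upwards [hCs s (fun n => {∑ j, y n j * Q n j}) (fun n x hx => by
      rw [Set.mem_singleton_iff] at hx
      rw [hx]
      exact q_contr (hpov n) (Q n) (hQ n) (hQA n) (hQc n)) _ h5 hcomm] with n hn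
    exact hn _ rfl
  have hε : ∀ᶠ n in (𝒰 : Filter ℕ), ε n < 1 / J :=
    hO.lim.eventually_lt_const (by positivity)
  have hη' : (0 : ℝ) ≤ 1 / J := by positivity
  have hη1' : 1 / J ≤ 1 := by rw [div_le_one hJ0]; exact hJ
  filter_upwards [hall, hO.near, hε, hD ((1 / J) ^ 2) (by positivity)] with n g1 g2 g3 g4
  obtain ⟨a, haO, _, haq⟩ := g2 (∑ j, y n j * Q n j)
    (q_contr (hpov n) (Q n) (hQ n) (hQA n) (hQc n))
  have g5 : M.e γ n (∑ j, y n j * Q n j) ≤ (∑ s, Cs s) * (3 / J) * M.d n := by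
    unfold Mdl.e en
    rw [Finset.sum_mul, Finset.sum_mul]
    exact Finset.sum_le_sum fun s _ => g1 s
  have hd : (0 : ℝ) ≤ M.d n := Nat.cast_nonneg _
  have g7 : K0 * M.e γ n (∑ j, y n j * Q n j) ≤ K0 * ((∑ s, Cs s) * (3 / J) * M.d n) :=
    mul_le_mul_of_nonneg_left g5 hK
  have g8 : ε n * M.d n ≤ 1 / J * M.d n := mul_le_mul_of_nonneg_right g3.le hd
  have g9 : hs ((∑ j, y n j * Q n j) - a) ≤ (3 * (K0 * ∑ s, Cs s) + 1) / J * M.d n := by
    have e : (3 * (K0 * ∑ s, Cs s) + 1) / J * (M.d n : ℝ) =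
        K0 * ((∑ s, Cs s) * (3 / J) * M.d n) + 1 / J * M.d n := by
      field_simp
    rw [e]
    linarith
  have h10 := erg (hpov n) hη' hη1' g4 (Q n) (hQ n) (hQA n) (hQc n) a (fun j => hmin n a haO j) _ g9
  have e : (4 * ((3 * (K0 * ∑ s, Cs s) + 1) / J) + 20 * (1 / J)) * (M.d n : ℝ)
      = (4 * (3 * (K0 * ∑ s, Cs s) + 1) + 20) / J * M.d n := by
    field_simp
  rw [e] at h10
  exact h10

end GG

/-- TARGET -/
theorem level_glob {G : Type} [Group G] {𝒰 : Ultrafilter ℕ} (M : Mdl G 𝒰) {k : ℕ} (γ : Fin k → G)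
    {O : ∀ n, StarSubalgebra ℂ (Mt (M.d n))} {K0 : ℝ} {ε : ℕ → ℝ} (hO : Ctl M γ O K0 ε)
    (P : Set G) (hP : Subgroup.closure P = ⊤)
    (B : ∀ n, StarSubalgebra ℂ (Mt (M.d n))) (I : ∀ n, Idx (B n))
    (hinc : ∀ v ∈ P, ∀ τ : ℝ, 0 < τ → ∀ᶠ n in (𝒰 : Filter ℕ), ∀ b ∈ B n, Le (bᴴ * b) 1 →
      ∃ b' ∈ B n, hs (b - M.U v n * b' * (M.U v n)ᴴ) ≤ τ * M.d n)
    (N : ℕ → ℕ) (c y : ∀ n, Fin (N n) → Mt (M.d n)) (D : ℕ → ℝ) (hpov : ∀ n, Pov (B n) (c n) (y n) (D n))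
    (hD : ∀ τ : ℝ, 0 < τ → ∀ᶠ n in (𝒰 : Filter ℕ), D n ≤ τ)
    (hmin : ∀ n, ∀ x ∈ O n, ∀ j, ∃ z : ℂ, c n j * x * c n j = z • c n j)
    (hvc : ∀ v ∈ P, ∀ τ : ℝ, 0 < τ → ∀ᶠ n in (𝒰 : Filter ℕ),
      ∑ j, hs (M.U v n * c n j - c n j * M.U v n) ≤ τ * M.d n)
    (ℓ : ℝ) (hℓ : 1 < ℓ) (τ : ℝ) (hτ : 0 < τ) :
    ∃ (e : ∀ n, Fin (N n) → Mt (M.d n)) (s t : ∀ n, Fin (N n) → ℝ), (∀ n j, IsPr (e n j)) ∧ (∀ n j, e n j ∈ B n) ∧
      (∀ n j, ∀ x ∈ B n, x * e n j = e n j * x) ∧ (∀ n j, 0 < s n j ∧ 0 < t n j ∧ s n j * t n j ≤ ℓ) ∧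
      (∀ n j, Le ((I n).r * (I n).r * e n j) ((s n j : ℂ) • e n j)) ∧
      (∀ n j, Le (e n j) ((t n j : ℂ) • ((I n).r * (I n).r * e n j))) ∧
      ∀ᶠ n in (𝒰 : Filter ℕ), ∑ j, tr (c n j * (1 - e n j)) ≤ τ * M.d n := by
  obtain ⟨C, hC0, hC⟩ := GG.half M γ hO P hP B N c y D hpov hD hmin hvc
  -- the choice of `J` and `a`
  obtain ⟨J, hJ1, hJ2⟩ : ∃ J : ℕ, 0 < J ∧ 2 * C / J ≤ τ := by
    obtain ⟨J, hJ⟩ := exists_nat_ge (2 * C / τ)
    refine ⟨J + 1, Nat.succ_pos _, ?_⟩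
    have hJ0 : (0 : ℝ) < ((J + 1 : ℕ) : ℝ) := by positivity
    rw [div_le_iff₀ hJ0]
    rw [div_le_iff₀ hτ] at hJ
    push_cast
    nlinarith
  obtain ⟨a, ha, haℓ⟩ : ∃ a : ℝ, 1 < a ∧ a ^ (2 * J + 1) ≤ ℓ := by
    refine ⟨ℓ ^ (((2 * J + 1 : ℕ) : ℝ)⁻¹), Real.one_lt_rpow hℓ (by positivity), ?_⟩
    rw [Real.rpow_inv_natCast_pow (by linarith) (by omega)]
  have hJr : (1 : ℝ) ≤ J := by exact_mod_cast hJ1
  have hJr0 : (0 : ℝ) < J := by linarith
  have ha0 : 0 < a := by linarith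
  have hai : 0 < 1 - a⁻¹ := by
    have := inv_lt_one_of_one_lt₀ ha
    linarith
  have hcpsd : ∀ n j, (c n j).PosSemidef := fun n j => pr_psd ((hpov n).pr j)
  have hL : ∀ n j, Nonempty (LvC (I n) a (c n j)) := fun n j =>
    exists_LvC (I n) a ha (c n j) (hcpsd n j)
  obtain ⟨L⟩ : Nonempty (∀ n j, LvC (I n) a (c n j)) := ⟨fun n j => Classical.choice (hL n j)⟩
  -- comparison of two consecutive levels
  have hcmp : ∀ v ∈ P, ∀ τ' : ℝ, 0 < τ' → ∀ᶠ n in (𝒰 : Filter ℕ), ∀ i : ℤ,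
      ∑ j, tr ((y n j * (L n j).P (i + 1)) * (y n j * (L n j).P (i + 1)) *
        (M.U v n * (1 - (L n j).P i) * (M.U v n)ᴴ)) ≤ τ' * M.d n := by
    intro v hv τ' hτ'
    filter_upwards [hinc v hv ((1 - a⁻¹) * τ') (by positivity)] with n hn i
    have h1 := cmp_lv (I n) (M.U v n) (M.un v n) _ hn (y n) (c n) (hpov n).ypsd (hpov n).ymem
      (hpov n).ysum (L n) i
    exact le_of_mul_le_mul_left (h1.trans (le_of_eq (mul_assoc _ _ _))) hai
  -- upper half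
  have hup : ∀ᶠ n in (𝒰 : Filter ℕ), ∑ j, tr (c n j * (L n j).P J) ≤ C / J * M.d n := by
    have hr : ∀ n, ∃ r : ℕ, r < J ∧ tr (∑ j, y n j * (L n j).P r)
        - tr (∑ j, y n j * (L n j).P (r + 1)) ≤ 1 / J * M.d n := by
      intro n
      obtain ⟨r, hr, hr2⟩ := HS8.pigeon (fun r : ℕ => tr (∑ j, y n j * (L n j).P r)) J hJ1 (M.d n)
        (by
          have h1 := (GG.tr_sum_bounds (hpov n).ypsd (hpov n).ysum
            (fun j => (L n j).pr ((0 : ℕ) : ℤ))).2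
          have h2 := (GG.tr_sum_bounds (hpov n).ypsd (hpov n).ysum
            (fun j => (L n j).pr (J : ℤ))).1
          linarith)
      refine ⟨r, hr, ?_⟩
      have e : (M.d n : ℝ) / J = 1 / J * M.d n := by ring
      rw [e] at hr2
      simpa using hr2
    choose r hrJ hr2 using hr
    have h := hC J hJr (fun n j => (L n j).P (r n)) (fun n j => (L n j).P (r n + 1))
      (fun n j => (L n j).pr _) (fun n j => (L n j).mem _) (fun n j => (L n j).com _)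
      (fun n j => (L n j).pr _) (fun n j => (L n j).mem _) (fun n j => (L n j).com _)
      (fun n j => (L n j).mono _ _ (by omega)) hr2
      (fun v hv η hη => by
        filter_upwards [hcmp v hv η hη] with n hn
        exact hn _)
    filter_upwards [h] with n hn
    refine (Finset.sum_le_sum fun j _ => ?_).trans (hn.1 fun j => ?_)
    · exact (L n j).weight_le (hcpsd n j) (by have := hrJ n; omega)
    · exact ((L n j).weight_le (hcpsd n j) (by omega)).trans (L n j).half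
  -- lower half
  have hdn : ∀ᶠ n in (𝒰 : Filter ℕ), ∑ j, tr (c n j * (1 - (L n j).P (-1 - J))) ≤ C / J * M.d n := by
    have hr : ∀ n, ∃ r : ℕ, r < J ∧ tr (∑ j, y n j * (L n j).P (-2 - r))
        - tr (∑ j, y n j * (L n j).P (-1 - r)) ≤ 1 / J * M.d n := by
      intro n
      obtain ⟨r, hr, hr2⟩ := HS8.pigeon (fun r : ℕ => - tr (∑ j, y n j * (L n j).P (-1 - r))) J hJ1
        (M.d n) (by
          have h1 := (GG.tr_sum_bounds (hpov n).ypsd (hpov n).ysum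
            (fun j => (L n j).pr (-1 - ((0 : ℕ) : ℤ)))).1
          have h2 := (GG.tr_sum_bounds (hpov n).ypsd (hpov n).ysum
            (fun j => (L n j).pr (-1 - (J : ℤ)))).2
          linarith)
      refine ⟨r, hr, ?_⟩
      have e : (M.d n : ℝ) / J = 1 / J * M.d n := by ring
      rw [e] at hr2
      have e2 : (-1 : ℤ) - ((r + 1 : ℕ) : ℤ) = -2 - r := by push_cast; ring
      simp only [e2] at hr2
      linarith
    choose r hrJ hr2 using hr
    have h := hC J hJr (fun n j => (L n j).P (-2 - r n)) (fun n j => (L n j).P (-1 - r n))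
      (fun n j => (L n j).pr _) (fun n j => (L n j).mem _) (fun n j => (L n j).com _)
      (fun n j => (L n j).pr _) (fun n j => (L n j).mem _) (fun n j => (L n j).com _)
      (fun n j => (L n j).mono _ _ (by omega)) hr2
      (fun v hv η hη => by
        filter_upwards [hcmp v hv η hη] with n hn
        have h1 := hn (-2 - r n)
        have e : (-2 : ℤ) - (r n : ℤ) + 1 = -1 - r n := by ring
        rw [e] at h1
        exact h1)
    filter_upwards [h] with n hn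
    refine (Finset.sum_le_sum fun j _ => ?_).trans (hn.2 fun j => ?_)
    · have h1 := (L n j).weight_le (hcpsd n j) (show (-1 : ℤ) - J ≤ -2 - r n by
        have := hrJ n; omega)
      rw [Matrix.mul_sub, Matrix.mul_sub, tr_sub, tr_sub]
      linarith
    · exact (L n j).half'.trans ((L n j).weight_le (hcpsd n j) (by omega))
  have hij : (-1 : ℤ) - J ≤ J := by omega
  refine ⟨fun n j => (L n j).P (-1 - J) - (L n j).P J, fun n j => ((L n j).m (-1 - J))⁻¹,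
    fun n j => (L n j).m J, fun n j => ((L n j).q_props hij).1, fun n j => ((L n j).q_props hij).2.1,
    fun n j => ((L n j).q_props hij).2.2.1,
    fun n j => ⟨inv_pos.2 ((L n j).pos _), (L n j).pos _, ?_⟩,
    fun n j => ((L n j).q_props hij).2.2.2.1, fun n j => ((L n j).q_props hij).2.2.2.2, ?_⟩
  · have e : (J : ℤ) = (-1 - J) + ((2 * J + 1 : ℕ) : ℤ) := by push_cast; ring
    have h1 : (L n j).m J = a ^ (2 * J + 1) * (L n j).m (-1 - J) := by
      rw [← (L n j).geo', ← e]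
    change ((L n j).m (-1 - J))⁻¹ * (L n j).m J ≤ ℓ
    rw [h1, mul_comm, mul_assoc, mul_inv_cancel₀ ((L n j).pos _).ne', mul_one]
    exact haℓ
  · filter_upwards [hup, hdn] with n h1 h2
    have h3 : 2 * (C / J * M.d n) ≤ τ * M.d n := by
      have : 2 * (C / J * M.d n) = 2 * C / J * M.d n := by ring
      rw [this]
      exact mul_le_mul_of_nonneg_right hJ2 (Nat.cast_nonneg _)
    have h4 : ∑ j, tr (c n j * (1 - ((L n j).P (-1 - J) - (L n j).P J)))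
        = ∑ j, tr (c n j * (1 - (L n j).P (-1 - J))) + ∑ j, tr (c n j * (L n j).P J) := by
      rw [← Finset.sum_add_distrib]
      refine Finset.sum_congr rfl fun j _ => ?_
      rw [← tr_add, ← Matrix.mul_add]
      congr 2
      abel
    rw [h4]
    linarith

end Pool.Agent.Helper784QA
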