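import Pool.Agent.Helper784QA.D0

/-!
JOB QA-GI (target J_loc; owner helper784, MP_f0269b_an). Localised version of `equalize` (Helper418_HL/HS5.lean; read it first). Copy from origin/main:
Pool/Agent/Helper784QA/D0.lean, Pool/Agent/Helper418_HL/, Pool/Agent/Helper418_Sofic/, Pool/Agent/W*/RC/.

PROOF of `J_loc`. Put k_j = y_j e_j (∈ A, PSD, commutes with r, e_j; k_j ≤ y_j, ∑ σ_j k_j is a contraction for all signs; ∑ k_j² ≤ ∑ y_j = 1).
(a) avg_lo' for the family (l, j) ↦ V (b_l k_j) Vᴴ k_j : there is a unitary u ∈ A with ∑_{l,j} ‖tr (uᴴ V (b_l k_j) Vᴴ k_j)‖² ≤ ∑_{l,j,i} ‖tr ((b_i r)ᴴ V (b_l k_j) Vᴴ k_j)‖².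
(b) as in `HS5.J_low`: for fixed j, ∑_l ‖..‖² = hs (I.E (Vᴴ (u k_j) V k_j)) ≥ hs (Vᴴ u k_j V k_j) - hs ((X_j - I.E X_j) k_j), X_j = Vᴴ u k_j V, and ∑_j hs (X_j - I.E X_j) ≤ δ d
    by signs (parallelogram law, as in Helper418_HL/HC2.lean) since u ∑ σ_j k_j ∈ A is a contraction and hinc; hs (Vᴴ u k_j V k_j) = tr (k_j k_j V k_j k_j Vᴴ) (cyclicity).
(c) upper bound for fixed j (as `HS5.step_J`): ∑_{l,i} ‖tr ((b_i r)ᴴ V (b_l k_j) Vᴴ k_j)‖² = ∑_l hs (I.E (V (b_l k_j) Vᴴ) k_j r) ≤ s_j ∑_l hs (I.E (V (b_l k_j) Vᴴ) k_j)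
    [(k_j r)(k_j r)ᴴ = r r k_j k_j = k_j (r r e_j) k_j ≤ s_j k_j k_j].
    Then by `HS5.swap`-like exchange: ∑_l hs (I.E (V (b_l k_j) Vᴴ) k_j) = ∑_{l,i} ‖tr ((b_i)ᴴ V b_l k_j Vᴴ k_j)‖² = ∑_i hs (I.E (Vᴴ b_i k_j V) k_j) [adjoint the other side]
    ≤ t_j ∑_i hs (I.E (Vᴴ b_i k_j V) r k_j) [k_j k_j = k_j e_j k_j ≤ t_j k_j r r k_j] = t_j ∑_{l,i} ‖tr (b_iᴴ V b_l r k_j Vᴴ k_j)‖² = t_j ∑_l hs (I.E (V (b_l r k_j) Vᴴ) k_j)
    ≤ t_j ∑_l hs (I.E (V (b_l r k_j) Vᴴ)) = t_j ∑_i hs (I.E (Vᴴ b_i V) r k_j) [swap].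
(d) ∑_j hs (Y r k_j) = tr (Y r (∑ k_j²) r Yᴴ) ≤ hs (Y r), so ∑_j ∑_i hs (I.E (Vᴴ b_i V) r k_j) ≤ ∑_i hs (I.E (Vᴴ b_i V) r) = ∑_l hs (I.E (V (b_l r) Vᴴ)) (HS5.swap).
Since s_j t_j ≤ ℓ: total ≤ ℓ ∑_l hs (I.E (V (b_l r) Vᴴ)).
-/

set_option autoImplicit false

namespace Pool.Agent.Helper784QA

open Matrix Filter Topology Pool.Agent.W661.RC Pool.Agent.W683.RC Helper418HL
open scoped ComplexOrder

variable {d : ℕ} {A : StarSubalgebra ℂ (Mt d)}

/-! helper lemmas -/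

theorem gi_hs_par {d : ℕ} (x y : Mt d) : hs (x + y) + hs (x - y) = 2 * hs x + 2 * hs y :=
  HC2.hs_par x y

theorem gi_sign {d : ℕ} : ∀ (N : ℕ) (x : Mt d) (c : Fin N → Mt d),
    ∃ σ : Fin N → ℂ, (∀ j, σ j = 1 ∨ σ j = -1) ∧
      hs x + ∑ j, hs (c j) ≤ hs (x + ∑ j, σ j • c j) := by
  intro N
  induction N with
  | zero => intro x c; exact ⟨fun _ => 1, fun _ => Or.inl rfl, by simp⟩
  | succ N ih =>
    intro x c
    have hp := HC2.hs_par x (c 0)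
    have hex : ∃ τ : ℂ, (τ = 1 ∨ τ = -1) ∧ hs x + hs (c 0) ≤ hs (x + τ • c 0) := by
      by_cases h : hs x + hs (c 0) ≤ hs (x + c 0)
      · exact ⟨1, Or.inl rfl, by rwa [one_smul]⟩
      · refine ⟨-1, Or.inr rfl, ?_⟩
        rw [neg_smul, one_smul, ← sub_eq_add_neg]
        push Not at h
        linarith
    obtain ⟨τ, hτ, h1⟩ := hex
    obtain ⟨σ, hσ, h2⟩ := ih (x + τ • c 0) (fun j => c j.succ)
    refine ⟨Fin.cons τ σ, ?_, ?_⟩
    · intro j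
      refine Fin.cases ?_ (fun i => ?_) j
      · simpa using hτ
      · simpa using hσ i
    · rw [Fin.sum_univ_succ, Fin.sum_univ_succ]
      simp only [Fin.cons_zero, Fin.cons_succ]
      rw [← add_assoc, ← add_assoc]
      exact (add_le_add_left h1 _).trans h2

theorem gi_sum_le {d N : ℕ} (c : Fin N → Mt d) (E : ℝ)
    (h : ∀ σ : Fin N → ℂ, (∀ j, σ j = 1 ∨ σ j = -1) → hs (∑ j, σ j • c j) ≤ E) :
    ∑ j, hs (c j) ≤ E := by
  obtain ⟨σ, hσ, h1⟩ := gi_sign N 0 c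
  rw [hs_zero, zero_add, zero_add] at h1
  exact h1.trans (h σ hσ)

theorem gi_sq_le {d : ℕ} {S : Mt d} (hS : Sᴴ = S) (h1 : Le S 1) (h2 : Le (-S) 1) :
    Le (S * S) 1 := by
  unfold Le at *
  have e1 := h1.mul_mul_conjTranspose_same (1 + S)
  have e2 := h2.mul_mul_conjTranspose_same (1 - S)
  rw [Matrix.conjTranspose_add, Matrix.conjTranspose_one, hS] at e1
  rw [Matrix.conjTranspose_sub, Matrix.conjTranspose_one, hS] at e2
  have e3 := psd_smul (e1.add e2) (c := 1 / 2) (by norm_num)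
  have e4 : ((1 / 2 : ℝ) : ℂ) • ((1 + S) * (1 - S) * (1 + S) + (1 - S) * (1 - -S) * (1 - S)) =
      1 - S * S := by
    have e5 : (1 + S) * (1 - S) * (1 + S) + (1 - S) * (1 - -S) * (1 - S) =
        (2 : ℂ) • (1 - S * S) := by
      rw [two_smul]
      noncomm_ring
    rw [e5, smul_smul]
    norm_num
  rwa [e4] at e3

theorem gi_sq_le_self {d : ℕ} {k : Mt d} (hk : k.PosSemidef) (h1 : Le k 1) : Le (k * k) k := by
  unfold Le at *
  have hkh : kᴴ = k := hk.1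
  have e1 := h1.mul_mul_conjTranspose_same k
  have e2 := hk.mul_mul_conjTranspose_same (1 - k)
  rw [Matrix.conjTranspose_sub, Matrix.conjTranspose_one, hkh] at e2
  rw [hkh] at e1
  have e3 : k * (1 - k) * k + (1 - k) * k * (1 - k) = k - k * k := by noncomm_ring
  rw [← e3]
  exact e1.add e2

/-- the elements `y e` -/
structure GiK {d : ℕ} (A : StarSubalgebra ℂ (Mt d)) (e k : Mt d) : Prop where
  mem : k ∈ A
  psd : k.PosSemidef
  ek : e * k = k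
  ke : k * e = k
  le1 : Le k 1

theorem gi_k {y e : Mt d} (hy : y.PosSemidef) (hyA : y ∈ A) (hy1 : Le y 1) (he : IsPr e)
    (heA : e ∈ A) (hec : ∀ x ∈ A, x * e = e * x) : GiK A e (y * e) ∧ Le (y * e) y := by
  have hc := hec y hyA
  have h0 : y * e = e * y * e := by
    rw [← hc, Matrix.mul_assoc, he.2]
  have hle : Le (y * e) y := by
    unfold Le
    have e1 := hy.mul_mul_conjTranspose_same (1 - e)
    rw [Matrix.conjTranspose_sub, Matrix.conjTranspose_one, he.1] at e1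
    have e2 : (1 - e) * y * (1 - e) = y - y * e := by
      have e3 : (1 - e) * y * (1 - e) = y - y * e - e * y + e * y * e := by noncomm_ring
      rw [e3, ← h0, hc]
      abel
    rwa [e2] at e1
  refine ⟨⟨mul_mem hyA heA, ?_, ?_, ?_, Le_trans hle hy1⟩, hle⟩
  · have e1 := hy.mul_mul_conjTranspose_same e
    rw [he.1] at e1
    rwa [h0]
  · rw [← Matrix.mul_assoc, ← h0]
  · rw [Matrix.mul_assoc, he.2]

theorem gi_trace (V u b c k : Mt d) (hc : cᴴ = c) (hk : kᴴ = k) :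
    ‖trace (uᴴ * (V * (b * c) * Vᴴ * k))‖ = ‖trace (bᴴ * (Vᴴ * (u * k) * V * c))‖ := by
  rw [HS5.nt, Matrix.conjTranspose_mul, Matrix.conjTranspose_mul, Matrix.conjTranspose_mul,
    Matrix.conjTranspose_conjTranspose, Matrix.conjTranspose_mul, hk, hc]
  congr 1
  calc trace (k * (V * (c * bᴴ * Vᴴ)) * u) =
        trace ((k * (V * c)) * (bᴴ * (Vᴴ * u))) := by simp only [Matrix.mul_assoc]
    _ = trace ((bᴴ * (Vᴴ * u)) * (k * (V * c))) := Matrix.trace_mul_comm _ _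
    _ = trace (bᴴ * (Vᴴ * (u * k) * V * c)) := by simp only [Matrix.mul_assoc]

theorem gi_ex (I : Idx A) (V : Mt d) {c k : Mt d} (hcA : c ∈ A) (hkA : k ∈ A) (hc : cᴴ = c)
    (hk : kᴴ = k) :
    ∑ l, hs (I.E (V * (I.b l * c) * Vᴴ) * k) = ∑ i, hs (I.E (Vᴴ * (I.b i * k) * V) * c) := by
  have h1 : ∀ l, hs (I.E (V * (I.b l * c) * Vᴴ) * k) =
      ∑ i, ‖trace ((I.b i)ᴴ * (V * (I.b l * c) * Vᴴ * k))‖ ^ 2 := by
    intro l
    rw [← E_mul I hkA, hs_E]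
  have h2 : ∀ i, hs (I.E (Vᴴ * (I.b i * k) * V) * c) =
      ∑ l, ‖trace ((I.b l)ᴴ * (Vᴴ * (I.b i * k) * V * c))‖ ^ 2 := by
    intro i
    rw [← E_mul I hcA, hs_E]
  simp only [h1, h2]
  rw [Finset.sum_comm]
  refine Finset.sum_congr rfl fun i _ => Finset.sum_congr rfl fun l _ => ?_
  rw [gi_trace V (I.b i) (I.b l) c k hc hk]

theorem gi_up (I : Idx A) (V : Mt d) {e k : Mt d} (hk : GiK A e k) {s t : ℝ} (hs0 : 0 ≤ s)
    (ht0 : 0 ≤ t) (h1 : Le (I.r * I.r * e) ((s : ℂ) • e))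
    (h2 : Le e ((t : ℂ) • (I.r * I.r * e))) :
    ∑ l, ∑ i, ‖trace ((I.b i * I.r)ᴴ * (V * (I.b l * k) * Vᴴ * k))‖ ^ 2 ≤
      s * t * ∑ i, hs (I.E (Vᴴ * I.b i * V) * (I.r * k)) := by
  have hr : I.rᴴ = I.r := I.r_psd.1
  have hkh : kᴴ = k := hk.psd.1
  have hkr : k * I.r = I.r * k := I.r_com k hk.mem
  have hrkA : I.r * k ∈ A := mul_mem I.r_mem hk.mem
  have hrkh : (I.r * k)ᴴ = I.r * k := by rw [Matrix.conjTranspose_mul, hr, hkh, hkr]
  have hkk : Le (k * kᴴ) 1 := by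
    rw [hkh]
    exact Le_trans (gi_sq_le_self hk.psd hk.le1) hk.le1
  have s1 : ∀ l, ∑ i, ‖trace ((I.b i * I.r)ᴴ * (V * (I.b l * k) * Vᴴ * k))‖ ^ 2 =
      hs (I.E (V * (I.b l * k) * Vᴴ) * (k * I.r)) := by
    intro l
    rw [← E_mul I (mul_mem hk.mem I.r_mem), hs_E]
    refine Finset.sum_congr rfl fun i _ => ?_
    rw [HS5.tr_r hr, Matrix.mul_assoc (V * (I.b l * k) * Vᴴ)]
  have s2 : ∀ Y : Mt d, hs (Y * (k * I.r)) ≤ s * hs (Y * k) := by
    intro Y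
    have a1 := HS5.hs_le_of Y (k * I.r) (c := (s : ℂ) • (k * k)) (by
      have a2 := Le_conj' h1 k
      rw [hkh] at a2
      have a3 : k * (I.r * I.r * e) * k = k * I.r * (k * I.r)ᴴ := by
        rw [Matrix.conjTranspose_mul, hr, hkh]
        calc k * (I.r * I.r * e) * k = k * (I.r * I.r) * (e * k) := by
              simp only [Matrix.mul_assoc]
          _ = _ := by rw [hk.ek]; simp only [Matrix.mul_assoc]
      have a4 : k * ((s : ℂ) • e) * k = (s : ℂ) • (k * k) := by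
        rw [Matrix.mul_smul, Matrix.smul_mul, Matrix.mul_assoc, hk.ek]
      rwa [a3, a4] at a2)
    rw [Matrix.mul_smul, Matrix.smul_mul, tr_smul] at a1
    refine a1.trans (le_of_eq ?_)
    rw [hs_eq_tr', Matrix.conjTranspose_mul, hkh]
    congr 2
    simp only [Matrix.mul_assoc]
  have s4 : ∀ Y : Mt d, hs (Y * k) ≤ t * hs (Y * (I.r * k)) := by
    intro Y
    have a1 := HS5.hs_le_of Y k (c := (t : ℂ) • (I.r * k * (I.r * k)ᴴ)) (by
      have a2 := Le_conj' h2 k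
      rw [hkh] at a2
      have a3 : k * e * k = k * kᴴ := by
        rw [Matrix.mul_assoc, hk.ek, hkh]
      have a4 : k * ((t : ℂ) • (I.r * I.r * e)) * k = (t : ℂ) • (I.r * k * (I.r * k)ᴴ) := by
        rw [Matrix.mul_smul, Matrix.smul_mul, hrkh]
        congr 1
        calc k * (I.r * I.r * e) * k = (k * I.r) * I.r * (e * k) := by
              simp only [Matrix.mul_assoc]
          _ = (I.r * k) * (I.r * k) := by rw [hk.ek, hkr]; simp only [Matrix.mul_assoc]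
      rwa [a3, a4] at a2)
    rw [Matrix.mul_smul, Matrix.smul_mul, tr_smul] at a1
    refine a1.trans (le_of_eq ?_)
    rw [hs_eq_tr', Matrix.conjTranspose_mul Y (I.r * k)]
    congr 2
    simp only [Matrix.mul_assoc]
  calc ∑ l, ∑ i, ‖trace ((I.b i * I.r)ᴴ * (V * (I.b l * k) * Vᴴ * k))‖ ^ 2
      = ∑ l, hs (I.E (V * (I.b l * k) * Vᴴ) * (k * I.r)) := Finset.sum_congr rfl fun l _ => s1 l
    _ ≤ ∑ l, s * hs (I.E (V * (I.b l * k) * Vᴴ) * k) := Finset.sum_le_sum fun l _ => s2 _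
    _ = s * ∑ i, hs (I.E (Vᴴ * (I.b i * k) * V) * k) := by
        rw [← Finset.mul_sum, gi_ex I V hk.mem hk.mem hkh hkh]
    _ ≤ s * ∑ i, t * hs (I.E (Vᴴ * (I.b i * k) * V) * (I.r * k)) :=
        mul_le_mul_of_nonneg_left (Finset.sum_le_sum fun i _ => s4 _) hs0
    _ = s * (t * ∑ l, hs (I.E (V * (I.b l * (I.r * k)) * Vᴴ) * k)) := by
        rw [← Finset.mul_sum, gi_ex I V hrkA hk.mem hrkh hkh]
    _ ≤ s * (t * ∑ l, hs (I.E (V * (I.b l * (I.r * k)) * Vᴴ))) := by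
        refine mul_le_mul_of_nonneg_left (mul_le_mul_of_nonneg_left ?_ ht0) hs0
        exact Finset.sum_le_sum fun l _ => hs_mul_le_right' hkk _
    _ = s * t * ∑ i, hs (I.E (Vᴴ * I.b i * V) * (I.r * k)) := by
        rw [HS5.swap I V hrkh hrkA, mul_assoc]

theorem gi_E_sum (I : Idx A) {N : ℕ} (σ : Fin N → ℂ) (X : Fin N → Mt d) :
    I.E (∑ j, σ j • X j) = ∑ j, σ j • I.E (X j) := by
  unfold Idx.E
  simp only [Matrix.mul_sum, Matrix.trace_sum, Finset.sum_smul, Matrix.mul_smul,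
    Matrix.trace_smul, Finset.smul_sum, smul_smul, smul_eq_mul]
  rw [Finset.sum_comm]

theorem gi_low (I : Idx A) (V : Mt d) (hV : Vᴴ * V = 1) (δ : ℝ)
    (hinc : ∀ b ∈ A, Le (bᴴ * b) 1 → ∃ b' ∈ A, hs (b - V * b' * Vᴴ) ≤ δ * d)
    {N : ℕ} (k : Fin N → Mt d) (hkA : ∀ j, k j ∈ A) (hkh : ∀ j, (k j)ᴴ = k j)
    (hk1 : ∀ j, Le (k j * k j) 1)
    (hS : ∀ σ : Fin N → ℂ, (∀ j, σ j = 1 ∨ σ j = -1) →
      Le ((∑ j, σ j • k j)ᴴ * (∑ j, σ j • k j)) 1)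
    {u : Mt d} (hu : u ∈ A) (hu1 : uᴴ * u = 1) :
    ∑ j, tr ((k j * k j) * (V * (k j * k j) * Vᴴ)) - δ * d ≤
      ∑ j, ∑ l, ‖trace (uᴴ * (V * (I.b l * k j) * Vᴴ * k j))‖ ^ 2 := by
  have t1 : ∀ j, ∑ l, ‖trace (uᴴ * (V * (I.b l * k j) * Vᴴ * k j))‖ ^ 2 =
      hs (I.E (Vᴴ * (u * k j) * V * k j)) := by
    intro j
    rw [hs_E]
    refine Finset.sum_congr rfl fun l _ => ?_
    rw [gi_trace V u (I.b l) (k j) (k j) (hkh j) (hkh j)]
  have t2 : ∀ j, hs (Vᴴ * (u * k j) * V * k j) = tr ((k j * k j) * (V * (k j * k j) * Vᴴ)) := by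
    intro j
    have e1 : Vᴴ * (u * k j) * V * k j = Vᴴ * (u * (k j * V * k j)) := by
      simp only [Matrix.mul_assoc]
    rw [e1, hs_unit_mul (unit_conj hV), hs_unit_mul hu1, hs_eq_tr', Matrix.conjTranspose_mul,
      Matrix.conjTranspose_mul, hkh]
    have e2 : k j * V * k j * (k j * (Vᴴ * k j)) = k j * (V * (k j * k j) * Vᴴ * k j) := by
      simp only [Matrix.mul_assoc]
    rw [e2, tr_mul_comm, tr_mul_comm (k j * k j)]
    congr 1
    simp only [Matrix.mul_assoc]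
  have t3 : ∀ j, hs (Vᴴ * (u * k j) * V * k j) - hs (Vᴴ * (u * k j) * V -
      I.E (Vᴴ * (u * k j) * V)) ≤ hs (I.E (Vᴴ * (u * k j) * V * k j)) := by
    intro j
    have p := pyth I (Vᴴ * (u * k j) * V * k j) (zero_mem A)
    rw [sub_zero, sub_zero, E_mul I (hkA j), ← Matrix.sub_mul] at p
    have q := hs_mul_le_right' (a := k j) (by rw [hkh]; exact hk1 j)
      (Vᴴ * (u * k j) * V - I.E (Vᴴ * (u * k j) * V))
    rw [E_mul I (hkA j)]
    linarith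
  have t4 : ∑ j, hs (Vᴴ * (u * k j) * V - I.E (Vᴴ * (u * k j) * V)) ≤ δ * d := by
    refine gi_sum_le _ _ fun σ hσ => ?_
    set S := ∑ j, σ j • k j with hSd
    have e1 : ∑ j, σ j • (Vᴴ * (u * k j) * V - I.E (Vᴴ * (u * k j) * V)) =
        Vᴴ * (u * S) * V - I.E (Vᴴ * (u * S) * V) := by
      have e2 : Vᴴ * (u * S) * V = ∑ j, σ j • (Vᴴ * (u * k j) * V) := by
        rw [hSd, Finset.mul_sum, Finset.mul_sum, Finset.sum_mul]
        refine Finset.sum_congr rfl fun j _ => ?_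
        rw [Matrix.mul_smul, Matrix.mul_smul, Matrix.smul_mul]
      rw [e2, gi_E_sum, ← Finset.sum_sub_distrib]
      refine Finset.sum_congr rfl fun j _ => ?_
      rw [smul_sub]
    rw [e1]
    have hSA : S ∈ A := sum_mem fun j _ => A.smul_mem (hkA j) _
    obtain ⟨b', hb', hd⟩ := hinc (u * S) (mul_mem hu hSA) (by
      rw [Matrix.conjTranspose_mul]
      have e3 : Sᴴ * uᴴ * (u * S) = Sᴴ * (uᴴ * u) * S := by simp only [Matrix.mul_assoc]
      rw [e3, hu1, Matrix.mul_one]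
      exact hS σ hσ)
    have e4 : Vᴴ * (u * S) * V - b' = Vᴴ * (u * S - V * b' * Vᴴ) * V := by
      rw [Matrix.mul_sub, Matrix.sub_mul]
      congr 1
      have e5 : Vᴴ * (V * b' * Vᴴ) * V = (Vᴴ * V) * b' * (Vᴴ * V) := by
        simp only [Matrix.mul_assoc]
      rw [e5, hV, Matrix.one_mul, Matrix.mul_one]
    have p := pyth I (Vᴴ * (u * S) * V) hb'
    rw [e4, hs_mul_unit hV, hs_unit_mul (unit_conj hV)] at p
    have := hs_nonneg (I.E (Vᴴ * (u * S) * V) - b')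
    linarith
  simp only [t1]
  have t5 := Finset.sum_le_sum fun j (_ : j ∈ Finset.univ) => t3 j
  rw [Finset.sum_sub_distrib] at t5
  simp only [t2] at t5
  linarith


/-- TARGET -/
theorem J_loc (I : Idx A) (V : Mt d) (hV : Vᴴ * V = 1) (δ : ℝ)
    (hinc : ∀ b ∈ A, Le (bᴴ * b) 1 → ∃ b' ∈ A, hs (b - V * b' * Vᴴ) ≤ δ * d)
    {N : ℕ} (y e : Fin N → Mt d) (hy : ∀ j, (y j).PosSemidef) (hyA : ∀ j, y j ∈ A) (hy1 : ∑ j, y j = 1)
    (he : ∀ j, IsPr (e j)) (heA : ∀ j, e j ∈ A) (hec : ∀ j, ∀ x ∈ A, x * e j = e j * x)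
    (s t : Fin N → ℝ) (ℓ : ℝ) (hs0 : ∀ j, 0 ≤ s j) (ht0 : ∀ j, 0 ≤ t j) (hℓ : ∀ j, s j * t j ≤ ℓ)
    (h1 : ∀ j, Le (I.r * I.r * e j) ((s j : ℂ) • e j)) (h2 : ∀ j, Le (e j) ((t j : ℂ) • (I.r * I.r * e j))) :
    ∑ j, tr (((y j * e j) * (y j * e j)) * (V * ((y j * e j) * (y j * e j)) * Vᴴ)) - δ * d ≤
      ℓ * ∑ j, hs (I.E (V * (I.b j * I.r) * Vᴴ)) := by
  have hy_le : ∀ j, Le (y j) 1 := by
    intro j
    rw [← hy1]
    unfold Le
    rw [← Finset.sum_erase_eq_sub (Finset.mem_univ j)]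
    exact Matrix.posSemidef_sum _ fun i _ => hy i
  have hK : ∀ j, GiK A (e j) (y j * e j) ∧ Le (y j * e j) (y j) := fun j =>
    gi_k (hy j) (hyA j) (hy_le j) (he j) (heA j) (hec j)
  set k : Fin N → Mt d := fun j => y j * e j with hkdef
  have hK1 : ∀ j, GiK A (e j) (k j) := fun j => (hK j).1
  have hK2 : ∀ j, Le (k j) (y j) := fun j => (hK j).2
  have hkh : ∀ j, (k j)ᴴ = k j := fun j => (hK1 j).psd.1
  have hsumk : Le (∑ j, k j) 1 := by
    rw [← hy1]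
    exact Le_sum _ _ _ fun j _ => hK2 j
  have hsq : ∀ j, Le (k j * k j) (k j) := fun j => gi_sq_le_self (hK1 j).psd (hK1 j).le1
  have hk1 : ∀ j, Le (k j * k j) 1 := fun j => Le_trans (hsq j) (hK1 j).le1
  have hsign : ∀ σ : Fin N → ℂ, (∀ j, σ j = 1 ∨ σ j = -1) → Le (∑ j, σ j • k j) 1 := by
    intro σ hσ
    refine Le_trans (Le_sum _ _ _ fun j _ => ?_) hsumk
    rcases hσ j with h | h
    · rw [h, one_smul]; exact Le_refl _
    · rw [h, neg_smul, one_smul]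
      unfold Le
      rw [sub_neg_eq_add]
      exact (hK1 j).psd.add (hK1 j).psd
  have hS : ∀ σ : Fin N → ℂ, (∀ j, σ j = 1 ∨ σ j = -1) →
      Le ((∑ j, σ j • k j)ᴴ * (∑ j, σ j • k j)) 1 := by
    intro σ hσ
    have hSh : (∑ j, σ j • k j)ᴴ = ∑ j, σ j • k j := by
      rw [Matrix.conjTranspose_sum]
      refine Finset.sum_congr rfl fun j _ => ?_
      rw [Matrix.conjTranspose_smul, hkh]
      rcases hσ j with h | h
      · rw [h]; simp
      · rw [h]; simp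
    rw [hSh]
    refine gi_sq_le hSh (hsign σ hσ) ?_
    have e1 : -(∑ j, σ j • k j) = ∑ j, (-σ j) • k j := by
      rw [← Finset.sum_neg_distrib]
      refine Finset.sum_congr rfl fun j _ => ?_
      rw [neg_smul]
    rw [e1]
    refine hsign _ fun j => ?_
    rcases hσ j with h | h
    · right; rw [h]
    · left; rw [h, neg_neg]
  obtain ⟨u, hu, hu1, hle⟩ := HS5.avg_lo' I
    (fun p : Fin N × Fin I.N => V * (I.b p.2 * k p.1) * Vᴴ * k p.1)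
  rw [Fintype.sum_prod_type, Fintype.sum_prod_type] at hle
  simp only at hle
  have hlow := gi_low I V hV δ hinc k (fun j => (hK1 j).mem) hkh hk1 hS hu hu1
  have hup : ∀ j, ∑ l, ∑ i, ‖trace ((I.b i * I.r)ᴴ * (V * (I.b l * k j) * Vᴴ * k j))‖ ^ 2 ≤
      ℓ * ∑ i, hs (I.E (Vᴴ * I.b i * V) * (I.r * k j)) := by
    intro j
    refine (gi_up I V (hK1 j) (hs0 j) (ht0 j) (h1 j) (h2 j)).trans ?_
    exact mul_le_mul_of_nonneg_right (hℓ j) (Finset.sum_nonneg fun i _ => hs_nonneg _)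
  have hup2 := Finset.sum_le_sum fun j (_ : j ∈ Finset.univ) => hup j
  rw [← Finset.mul_sum] at hup2
  have hr : I.rᴴ = I.r := I.r_psd.1
  have hfin : ∑ j, ∑ i, hs (I.E (Vᴴ * I.b i * V) * (I.r * k j)) ≤
      ∑ i, hs (I.E (V * (I.b i * I.r) * Vᴴ)) := by
    rw [HS5.swap I V hr I.r_mem, Finset.sum_comm]
    refine Finset.sum_le_sum fun i _ => ?_
    set Y := I.E (Vᴴ * I.b i * V) with hY
    have e1 : ∀ j, hs (Y * (I.r * k j)) = tr ((Y * I.r) * (k j * k j) * (Y * I.r)ᴴ) := by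
      intro j
      rw [hs_eq_tr', Matrix.conjTranspose_mul Y (I.r * k j), Matrix.conjTranspose_mul I.r (k j),
        Matrix.conjTranspose_mul Y I.r, hkh]
      congr 1
      simp only [Matrix.mul_assoc]
    simp only [e1]
    rw [← tr_sum, ← Finset.sum_mul, ← Finset.mul_sum]
    have e2 : Le (∑ j, k j * k j) 1 := Le_trans (Le_sum _ _ _ fun j _ => hsq j) hsumk
    refine (Le_tr (Le_conj' e2 (Y * I.r))).trans (le_of_eq ?_)
    rw [Matrix.mul_one, hs_eq_tr']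
  have hmain : ∑ j, tr ((k j * k j) * (V * (k j * k j) * Vᴴ)) - δ * d ≤
      ℓ * ∑ j, ∑ i, hs (I.E (Vᴴ * I.b i * V) * (I.r * k j)) := by
    linarith
  refine hmain.trans ?_
  rcases Nat.eq_zero_or_pos N with h0 | h0
  · subst h0
    rw [Finset.univ_eq_empty, Finset.sum_empty] at hy1
    have hz : ∀ z : Mt d, z = 0 := fun z => by
      rw [← Matrix.mul_one z, ← hy1, Matrix.mul_zero]
    have hz2 : ∑ i, hs (I.E (V * (I.b i * I.r) * Vᴴ)) = 0 :=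
      Finset.sum_eq_zero fun i _ => by rw [hz (I.E _), hs_zero]
    rw [hz2]
    simp
  · have hl : 0 ≤ ℓ := (mul_nonneg (hs0 ⟨0, h0⟩) (ht0 ⟨0, h0⟩)).trans (hℓ ⟨0, h0⟩)
    exact mul_le_mul_of_nonneg_left hfin hl

end Pool.Agent.Helper784QA
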