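import Pool.Agent.Helper784QA.D0
import Pool.Agent.Helper418_HL.HS5

set_option autoImplicit false

namespace Pool.Agent.Helper784QA

open Matrix Filter Topology Pool.Agent.W661.RC Pool.Agent.W683.RC Helper418HL
open scoped ComplexOrder

variable {d : ℕ} {A : StarSubalgebra ℂ (Mt d)}

/-- TARGET -/
theorem equalize2 (I : Idx A) (V : Mt d) (hV : Vᴴ * V = 1) (L : ℝ)
    (hL : L ≤ ∑ j, hs (I.E (V * (I.b j * I.r) * Vᴴ))) (x : Mt d) (hx : x ∈ A) (hx1 : Le (xᴴ * x) 1) :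
    ∃ u ∈ A, uᴴ * u = 1 ∧
      hs (V * u * Vᴴ - I.E (V * u * Vᴴ)) + hs (V * (x * u) * Vᴴ - I.E (V * (x * u) * Vᴴ)) ≤ 2 * (d - L) := by
  have hr : I.rᴴ = I.r := I.r_psd.1
  set J1 := ∑ j, hs (I.E (V * (I.b j * I.r) * Vᴴ)) with hJ1
  -- second step
  obtain ⟨u, hu, hu1, hle⟩ := Helper418HL.HS5.avg_lo' I
    (fun l : (Fin d × Fin d) ⊕ (Fin d × Fin d) =>
      Sum.elim (fun m => Vᴴ * Helper418HL.HS5.cm I m * V) (fun m => xᴴ * (Vᴴ * Helper418HL.HS5.cm I m * V)) l)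
  refine ⟨u, hu, hu1, ?_⟩
  rw [Fintype.sum_sum_type, Fintype.sum_sum_type] at hle
  simp only [Sum.elim_inl, Sum.elim_inr] at hle
  have e1 : ∑ m, ‖trace (uᴴ * (Vᴴ * Helper418HL.HS5.cm I m * V))‖ ^ 2 =
      hs (V * u * Vᴴ - I.E (V * u * Vᴴ)) := by
    rw [← Helper418HL.HS5.sum_cm]
    refine Finset.sum_congr rfl fun m _ => ?_
    rw [Helper418HL.HS5.tr_V, Helper418HL.HS5.nt]
  have e2 : ∑ m, ‖trace (uᴴ * (xᴴ * (Vᴴ * Helper418HL.HS5.cm I m * V)))‖ ^ 2 =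
      hs (V * (x * u) * Vᴴ - I.E (V * (x * u) * Vᴴ)) := by
    rw [← Helper418HL.HS5.sum_cm]
    refine Finset.sum_congr rfl fun m _ => ?_
    have e3 : uᴴ * (xᴴ * (Vᴴ * Helper418HL.HS5.cm I m * V)) = (x * u)ᴴ * (Vᴴ * Helper418HL.HS5.cm I m * V) := by
      rw [Matrix.conjTranspose_mul, Matrix.mul_assoc uᴴ xᴴ]
    rw [e3, Helper418HL.HS5.tr_V, Helper418HL.HS5.nt]
  rw [e1, e2] at hle
  refine hle.trans ?_
  -- the first sum
  have e4 : ∑ m, ∑ i, ‖trace ((I.b i * I.r)ᴴ * (Vᴴ * Helper418HL.HS5.cm I m * V))‖ ^ 2 = d - J1 := by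
    rw [Finset.sum_comm]
    have e5 : ∀ i, ∑ m, ‖trace ((I.b i * I.r)ᴴ * (Vᴴ * Helper418HL.HS5.cm I m * V))‖ ^ 2 =
        hs (I.b i * I.r) - hs (I.E (V * (I.b i * I.r) * Vᴴ)) := by
      intro i
      have e6 : ∑ m, ‖trace ((I.b i * I.r)ᴴ * (Vᴴ * Helper418HL.HS5.cm I m * V))‖ ^ 2 =
          hs (V * (I.b i * I.r) * Vᴴ - I.E (V * (I.b i * I.r) * Vᴴ)) := by
        rw [← Helper418HL.HS5.sum_cm]
        refine Finset.sum_congr rfl fun m _ => ?_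
        rw [Helper418HL.HS5.tr_V, Helper418HL.HS5.nt]
      have e7 := pyth I (V * (I.b i * I.r) * Vᴴ) (zero_mem A)
      rw [sub_zero, sub_zero, hs_mul_unit (unit_conj hV), hs_unit_mul hV] at e7
      rw [e6]
      linarith
    simp only [e5]
    rw [Finset.sum_sub_distrib, Helper418HL.HS5.sum_br]
  -- the second sum
  have e8 : ∑ m, ∑ i, ‖trace ((I.b i * I.r)ᴴ * (xᴴ * (Vᴴ * Helper418HL.HS5.cm I m * V)))‖ ^ 2 ≤ d - J1 := by
    rw [← e4]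
    refine Finset.sum_le_sum fun m _ => ?_
    have e9 : ∀ z : Mt d, ∑ i, ‖trace ((I.b i * I.r)ᴴ * z)‖ ^ 2 = hs (I.E (z * I.r)) := by
      intro z
      rw [hs_E]
      refine Finset.sum_congr rfl fun i _ => ?_
      rw [Helper418HL.HS5.tr_r hr]
    have hxs : xᴴ ∈ A := star_mem hx
    rw [e9, e9, Matrix.mul_assoc xᴴ, mul_E I hxs]
    exact hs_mul_le (by
      rw [Matrix.conjTranspose_conjTranspose]
      exact contr_conj hx1) _
  rw [e4]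
  linarith

end Pool.Agent.Helper784QA
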