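import Pool.Agent.Helper784QA.D0

/-!
JOB QA-GM (owner helper784, MP_f0269b_an). Copy from origin/main: Pool/Agent/Helper784QA/D0.lean, Pool/Agent/Helper418_HL/, Pool/Agent/Helper418_Sofic/,
Pool/Agent/W*/RC/. Read Helper418_HL/Defs.lean (Mdl, Ctl, Idx), HG.lean (`gen_lin`), HS9.lean (`incl`, `dpos`), HC2.lean (`en_sum_le`).

PROOF. For signs σ put x = ∑ σ_j c_j ∈ O n; xᴴ x = 1 so it is a contraction.
`com_all`: hO.com gives M.e γ n x ≤ ε n d, so hs ([U (γ s), x]) ≤ ε n d; gen_lin with X n = {a ∈ O n | contraction} and g ∈ closure (range γ) = ⊤ gives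
hs (U g n * a - a * U g n) ≤ τ d eventually, for all contractions a ∈ O n at once.
`vcom`: ∑_j hs (U g c_j - c_j U g) ≤ sup over signs of hs (U g x - x U g): `en_sum_le` with k = 1, u = fun _ => U g n.
`near_all`: hB.near gives b ∈ B n with hs (x - b) ≤ K1 * M.e κ n x + ε1 n d; M.e κ n x = ∑_j hs([U (κ j), x]) is small by com_all; hs (x - I.E x) ≤ hs (x - b) by
`pyth` (Helper418HL.pyth).
-/

set_option autoImplicit false

namespace Pool.Agent.Helper784QA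

open Matrix Filter Topology Pool.Agent.W661.RC Pool.Agent.W683.RC Helper418HL
open scoped ComplexOrder

theorem gm_dpos {G : Type} [Group G] {𝒰 : Ultrafilter ℕ} (M : Mdl G 𝒰) (n : ℕ) :
    (0 : ℝ) < M.d n := by
  exact_mod_cast M.pos n

/-- sums of orthogonal projections with signs are selfadjoint unitary -/
theorem gm_sign {d N : ℕ} (c : Fin N → Mt d) (hpr : ∀ j, IsPr (c j))
    (horth : ∀ i j, i ≠ j → c i * c j = 0) (hsum : ∑ j, c j = 1) (σ : Fin N → ℂ)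
    (hσ : ∀ j, σ j = 1 ∨ σ j = -1) : (∑ j, σ j • c j)ᴴ * (∑ j, σ j • c j) = 1 := by
  have h1 : (∑ j, σ j • c j)ᴴ = ∑ j, σ j • c j := by
    rw [Matrix.conjTranspose_sum]
    refine Finset.sum_congr rfl fun j _ => ?_
    rw [Matrix.conjTranspose_smul, (hpr j).1]
    rcases hσ j with h | h <;> rw [h] <;> simp
  rw [h1, Finset.sum_mul]
  have h2 : ∀ i, (σ i • c i) * (∑ j, σ j • c j) = c i := by
    intro i
    rw [Finset.mul_sum, Finset.sum_eq_single i]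
    · rw [Matrix.smul_mul, Matrix.mul_smul, (hpr i).2, smul_smul]
      rcases hσ i with h | h <;> rw [h] <;> simp
    · intro j _ hj
      rw [Matrix.smul_mul, Matrix.mul_smul, horth i j (Ne.symm hj), smul_zero, smul_zero]
    · intro h
      exact absurd (Finset.mem_univ i) h
  simp only [h2]
  exact hsum

theorem gm_mem {d N : ℕ} {O : StarSubalgebra ℂ (Mt d)} (c : Fin N → Mt d) (hc : ∀ j, c j ∈ O)
    (σ : Fin N → ℂ) : (∑ j, σ j • c j) ∈ O :=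
  sum_mem fun j _ => O.smul_mem (hc j) (σ j)

/-- TARGETS -/
theorem com_all {G : Type} [Group G] {𝒰 : Ultrafilter ℕ} (M : Mdl G 𝒰) {k : ℕ} (γ : Fin k → G)
    (hγ : Subgroup.closure (Set.range γ) = ⊤) {O : ∀ n, StarSubalgebra ℂ (Mt (M.d n))} {K0 : ℝ} {ε : ℕ → ℝ}
    (hO : Ctl M γ O K0 ε) (g : G) (τ : ℝ) (hτ : 0 < τ) :
    ∀ᶠ n in (𝒰 : Filter ℕ), ∀ a ∈ O n, Le (aᴴ * a) 1 → hs (M.U g n * a - a * M.U g n) ≤ τ * M.d n := by
  obtain ⟨C, hC0, hC⟩ := gen_lin M (Set.range γ) g (by rw [hγ]; exact Subgroup.mem_top g)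
  have hden : 0 < C + 1 := by linarith
  have ht : 0 < τ / (C + 1) := div_pos hτ hden
  have h1 : ∀ v ∈ Set.range γ, ∀ᶠ n in (𝒰 : Filter ℕ),
      ∀ x ∈ {a : Mt (M.d n) | a ∈ O n ∧ Le (aᴴ * a) 1},
      hs (M.U v n * x - x * M.U v n) ≤ τ / (C + 1) * M.d n := by
    rintro v ⟨i, rfl⟩
    filter_upwards [hO.com, hO.lim.eventually (ge_mem_nhds ht)] with n h2 h3
    rintro x ⟨hx1, hx2⟩
    have h4 := h2 x hx1 hx2
    have h5 : hs (M.U (γ i) n * x - x * M.U (γ i) n) ≤ M.e γ n x := by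
      unfold Mdl.e en
      exact Finset.single_le_sum (f := fun s => hs (M.U (γ s) n * x - x * M.U (γ s) n))
        (fun j _ => hs_nonneg _) (Finset.mem_univ i)
    exact (h5.trans h4).trans (mul_le_mul_of_nonneg_right h3 (gm_dpos M n).le)
  have h2 := hC (fun n => {a : Mt (M.d n) | a ∈ O n ∧ Le (aᴴ * a) 1}) (fun n x hx => hx.2) _ ht h1
  refine h2.mono fun n hn a ha hac => (hn a ⟨ha, hac⟩).trans ?_
  refine mul_le_mul_of_nonneg_right ?_ (gm_dpos M n).le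
  rw [← mul_div_assoc, div_le_iff₀ hden]
  nlinarith

theorem vcom {G : Type} [Group G] {𝒰 : Ultrafilter ℕ} (M : Mdl G 𝒰) {k : ℕ} (γ : Fin k → G)
    (hγ : Subgroup.closure (Set.range γ) = ⊤) {O : ∀ n, StarSubalgebra ℂ (Mt (M.d n))} {K0 : ℝ} {ε : ℕ → ℝ}
    (hO : Ctl M γ O K0 ε) (N : ℕ → ℕ) (c : ∀ n, Fin (N n) → Mt (M.d n)) (hcO : ∀ n j, c n j ∈ O n)
    (hpr : ∀ n j, IsPr (c n j)) (horth : ∀ n i j, i ≠ j → c n i * c n j = 0) (hsum : ∀ n, ∑ j, c n j = 1)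
    (g : G) (τ : ℝ) (hτ : 0 < τ) :
    ∀ᶠ n in (𝒰 : Filter ℕ), ∑ j, hs (M.U g n * c n j - c n j * M.U g n) ≤ τ * M.d n := by
  filter_upwards [com_all M γ hγ hO g τ hτ] with n hn
  have hen : ∀ x : Mt (M.d n), en (fun _ : Fin 1 => M.U g n) x =
      hs (M.U g n * x - x * M.U g n) := by
    intro x
    unfold en
    simp
  have h1 := en_sum_le (fun _ : Fin 1 => M.U g n) (c n) (τ * M.d n) (by
    intro σ hσ
    rw [hen]
    refine hn _ (gm_mem (c n) (hcO n) σ) ?_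
    rw [gm_sign (c n) (hpr n) (horth n) (hsum n) σ hσ]
    exact Le_refl _)
  simpa only [hen] using h1

theorem near_all {G : Type} [Group G] {𝒰 : Ultrafilter ℕ} (M : Mdl G 𝒰) {k l : ℕ} (γ : Fin k → G)
    (hγ : Subgroup.closure (Set.range γ) = ⊤) {O : ∀ n, StarSubalgebra ℂ (Mt (M.d n))} {K0 : ℝ} {ε : ℕ → ℝ}
    (hO : Ctl M γ O K0 ε) (κ : Fin l → G) {B : ∀ n, StarSubalgebra ℂ (Mt (M.d n))} {K1 : ℝ} {ε1 : ℕ → ℝ}
    (hB : Ctl M κ B K1 ε1) (I : ∀ n, Idx (B n)) (N : ℕ → ℕ) (c : ∀ n, Fin (N n) → Mt (M.d n))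
    (hcO : ∀ n j, c n j ∈ O n)
    (hpr : ∀ n j, IsPr (c n j)) (horth : ∀ n i j, i ≠ j → c n i * c n j = 0) (hsum : ∀ n, ∑ j, c n j = 1)
    (τ : ℝ) (hτ : 0 < τ) :
    ∀ᶠ n in (𝒰 : Filter ℕ), ∀ σ : Fin (N n) → ℂ, (∀ j, σ j = 1 ∨ σ j = -1) →
      hs (∑ j, σ j • c n j - (I n).E (∑ j, σ j • c n j)) ≤ τ * M.d n := by
  have hK := hB.K0pos
  have hden : 0 < K1 * l + 1 := by positivity
  have ht : 0 < τ / (K1 * l + 1) := div_pos hτ hden
  filter_upwards [hB.near, hB.lim.eventually (ge_mem_nhds ht),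
    Filter.eventually_all.2 fun j : Fin l => com_all M γ hγ hO (κ j) _ ht] with n h1 h2 h3
  intro σ hσ
  have hd := gm_dpos M n
  have hmem := gm_mem (c n) (hcO n) σ
  have hcon : Le ((∑ j, σ j • c n j)ᴴ * (∑ j, σ j • c n j)) 1 := by
    rw [gm_sign (c n) (hpr n) (horth n) (hsum n) σ hσ]
    exact Le_refl _
  obtain ⟨b, hb, -, hbh⟩ := h1 _ hcon
  have h4 : M.e κ n (∑ j, σ j • c n j) ≤ l * (τ / (K1 * l + 1) * M.d n) := by
    unfold Mdl.e en
    refine (Finset.sum_le_sum fun j _ => h3 j _ hmem hcon).trans (le_of_eq ?_)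
    rw [Finset.sum_const, Finset.card_univ, Fintype.card_fin, nsmul_eq_mul]
  have h5 := pyth (I n) (∑ j, σ j • c n j) hb
  have h6 := hs_nonneg ((I n).E (∑ j, σ j • c n j) - b)
  have h7 : ε1 n * M.d n ≤ τ / (K1 * l + 1) * M.d n := mul_le_mul_of_nonneg_right h2 hd.le
  have h8 := mul_le_mul_of_nonneg_left h4 hK
  have h9 : K1 * (l * (τ / (K1 * l + 1) * M.d n)) + τ / (K1 * l + 1) * M.d n = τ * M.d n := by
    have e : K1 * (l * (τ / (K1 * l + 1) * M.d n)) + τ / (K1 * l + 1) * M.d n =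
        ((K1 * l + 1) * (τ / (K1 * l + 1))) * M.d n := by ring
    rw [e, mul_div_cancel₀ _ hden.ne']
  linarith

end Pool.Agent.Helper784QA
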