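import Pool.Agent.Helper784QA.GC
import Pool.Agent.Helper784QA.GG
import Pool.Agent.Helper784QA.GI
import Pool.Agent.Helper784QA.GI0
import Pool.Agent.Helper784QA.GM
import Pool.Agent.Helper418_HL.HC1

/-!
# The global size theorem
-/

set_option autoImplicit false

namespace Pool.Agent.Helper784QA

open Matrix Filter Topology Pool.Agent.W661.RC Pool.Agent.W683.RC Helper418HL
open scoped ComplexOrder

theorem size_glob {G : Type} [Group G] {𝒰 : Ultrafilter ℕ} (M : Mdl G 𝒰) {k l : ℕ} (γ : Fin k → G)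
    (hγ : Subgroup.closure (Set.range γ) = ⊤)
    (κ : Fin l → G) {K0 K1 : ℝ} {ε ε1 : ℕ → ℝ} {O : ∀ n, StarSubalgebra ℂ (Mt (M.d n))} (hO : Ctl M γ O K0 ε)
    {B : ∀ n, StarSubalgebra ℂ (Mt (M.d n))} (hB : Ctl M κ B K1 ε1) (P : Set G)
    (hP : Subgroup.closure P = ⊤)
    (hPκ : ∀ v ∈ P, ∀ j, v * κ j * v⁻¹ ∈ Subgroup.closure (Set.range κ)) (v : G) (hv : v ∈ P)
    (x : ∀ n, Mt (M.d n)) (hx : ∀ n, Le ((x n)ᴴ * x n) 1)
    (hcom : ∀ j, ∀ τ : ℝ, 0 < τ → ∀ᶠ n in (𝒰 : Filter ℕ),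
      hs (M.U (v * κ j * v⁻¹) n * x n - x n * M.U (v * κ j * v⁻¹) n) ≤ τ * M.d n)
    (j : Fin l) (τ : ℝ) (hτ : 0 < τ) :
    ∀ᶠ n in (𝒰 : Filter ℕ), hs (M.U (κ j) n * x n - x n * M.U (κ j) n) ≤ τ * M.d n := by
  classical
  have I : ∀ n, Idx (B n) := fun n => Classical.choice (idx_exists (B n))
  have hinc : ∀ v ∈ P, ∀ τ : ℝ, 0 < τ → ∀ᶠ n in (𝒰 : Filter ℕ), ∀ b ∈ B n, Le (bᴴ * b) 1 →
      ∃ b' ∈ B n, hs (b - M.U v n * b' * (M.U v n)ᴴ) ≤ τ * M.d n :=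
    fun v hv τ hτ => incl M κ hB v (hPκ v hv) τ hτ
  choose N c hc1 hc2 hc3 hc4 hc5 hc6 using fun n => min_proj (O n)
  have hdp : ∀ n, (0 : ℝ) < M.d n := fun n => by exact_mod_cast M.pos n
  obtain ⟨D, hDdef⟩ : ∃ D : ℕ → ℝ, ∀ n, D n = (∑ j, hs (c n j - (I n).E (c n j))) / M.d n := ⟨_, fun _ => rfl⟩
  have hDmul : ∀ n, ∑ j, hs (c n j - (I n).E (c n j)) = D n * M.d n := by
    intro n
    rw [hDdef, div_mul_cancel₀ _ (hdp n).ne']
  have hpov : ∀ n, Pov (B n) (c n) (fun j => (I n).E (c n j)) (D n) := fun n =>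
    pov_exists (I n) (c n) (hc2 n) (hc4 n) (hc5 n) (D n)
      (by rw [hDdef]; exact div_nonneg (Finset.sum_nonneg fun _ _ => hs_nonneg _) (hdp n).le) (hDmul n).le
  have hD : ∀ τ : ℝ, 0 < τ → ∀ᶠ n in (𝒰 : Filter ℕ), D n ≤ τ := by
    intro τ hτ
    filter_upwards [near_all M γ hγ hO κ hB I N c hc1 hc2 hc4 hc5 τ hτ] with n hn
    have h1 := sign_sum (I n) (c n) (τ * M.d n) hn
    rw [hDmul] at h1
    exact le_of_mul_le_mul_right h1 (hdp n)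
  have hvc : ∀ v ∈ P, ∀ τ : ℝ, 0 < τ → ∀ᶠ n in (𝒰 : Filter ℕ),
      ∑ j, hs (M.U v n * c n j - c n j * M.U v n) ≤ τ * M.d n :=
    fun v _ τ hτ => vcom M γ hγ hO N c hc1 hc2 hc4 hc5 v τ hτ
  obtain ⟨τ1, hτ1, hτ3, hττ⟩ : ∃ τ1 : ℝ, 0 < τ1 ∧ 3 * τ1 ≤ 1 ∧ 520 * τ1 ≤ τ / 2 :=
    ⟨min (1 / 3) (τ / 1040), by positivity, by
      have := min_le_left (1 / 3 : ℝ) (τ / 1040)
      linarith, by
      have := min_le_right (1 / 3 : ℝ) (τ / 1040)
      linarith⟩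
  have hη : 0 < τ1 / 7 := by positivity
  have hη1 : τ1 / 7 ≤ 1 := by linarith
  obtain ⟨e, s, t, he, heB, hec, hst, hr1, hr2, htr⟩ :=
    level_glob M γ hO P hP B I hinc N c (fun n j => (I n).E (c n j)) D hpov hD hc6 hvc (1 + τ1) (by linarith)
      (τ1 ^ 2 / 4) (by positivity)
  have hpull := pull M κ hB v x hx hcom τ1 hτ1
  have hincv := hinc v hv τ1 hτ1
  have hε : ∀ᶠ n in (𝒰 : Filter ℕ), ε1 n ≤ τ / 32 :=
    (hB.lim.eventually (eventually_le_nhds (by positivity)))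
  filter_upwards [htr, hpull, hincv, hε, hB.com, hD ((τ1 / 7) ^ 2) (by positivity),
    hvc v hv ((τ1 / 7) ^ 2) (by positivity)] with n htr hpull hincv hε hcomB hDn hvcn
  obtain ⟨b, hbB, hb1, hxb⟩ := hpull
  have hV := M.un v n
  have hw := M.un (κ j) n
  set V := M.U v n with hVdef
  set w := M.U (κ j) n with hwdef
  have hd0 : (0 : ℝ) ≤ M.d n := Nat.cast_nonneg _
  have hov := overl (hpov n) hη.le hη1 hDn V hV hvcn (e n) (he n) (heB n) (hec n) (τ1 ^ 2 / 4) htr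
  have hsq : √(τ1 ^ 2 / 4) = τ1 / 2 := by
    rw [show τ1 ^ 2 / 4 = (τ1 / 2) ^ 2 by ring, Real.sqrt_sq (by positivity)]
  rw [hsq] at hov
  have hJ := J_loc (I n) V hV τ1 hincv (fun j => (I n).E (c n j)) (e n) (hpov n).ypsd (hpov n).ymem (hpov n).ysum
    (he n) (heB n) (hec n) (s n) (t n) (1 + τ1) (fun j => (hst n j).1.le) (fun j => (hst n j).2.1.le)
    (fun j => (hst n j).2.2) (hr1 n) (hr2 n)
  have hL : (1 - 4 * τ1) * M.d n ≤ ∑ j, hs ((I n).E (V * ((I n).b j * (I n).r) * Vᴴ)) := by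
    have h1 : (1 - 3 * τ1) * M.d n ≤ (1 + τ1) * ∑ j, hs ((I n).E (V * ((I n).b j * (I n).r) * Vᴴ)) := by
      refine le_trans ?_ hJ
      refine le_trans (le_of_eq ?_) (sub_le_sub_right hov _)
      ring
    have h2 : (1 + τ1) * ((1 - 4 * τ1) * M.d n) ≤ (1 - 3 * τ1) * M.d n := by
      nlinarith [mul_nonneg hd0 (sq_nonneg τ1)]
    exact le_of_mul_le_mul_left (h2.trans h1) (by linarith)
  obtain ⟨u, huB, hu1, hsum⟩ := equalize2 (I n) V hV _ hL b hbB hb1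
  have hnum : 2 * ((M.d n : ℝ) - (1 - 4 * τ1) * M.d n) = 8 * τ1 * M.d n := by ring
  rw [hnum] at hsum
  set a := V * u * Vᴴ with ha
  set c' := V * (b * u) * Vᴴ with hc'
  have ha1 : aᴴ * a = 1 := HS10.conj_unit hV hu1
  have hc'1 : Le (c'ᴴ * c') 1 := HS10.conj_contr hV hb1 hu1
  have hcm : ∀ y : Mt (M.d n), Le (yᴴ * y) 1 → hs (y - (I n).E y) ≤ 8 * τ1 * M.d n →
      hs (w * y - y * w) ≤ 2 * (ε1 n * M.d n) + 64 * τ1 * M.d n := by
    intro y hy1 hy2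
    have h1 := HS10.cm_add hw y ((I n).E y)
    have h2 := hcomB _ (E_mem (I n) y) (E_contr (I n) hy1)
    have h3 : hs (w * (I n).E y - (I n).E y * w) ≤ M.e κ n ((I n).E y) := by
      unfold Mdl.e en
      exact Finset.single_le_sum (f := fun s => hs (M.U (κ s) n * (I n).E y -
        (I n).E y * M.U (κ s) n)) (fun _ _ => hs_nonneg _) (Finset.mem_univ j)
    linarith
  have hna := hs_nonneg (a - (I n).E a)
  have hnc := hs_nonneg (c' - (I n).E c')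
  have hA := hcm a (by rw [ha1]; exact Le_refl _) (by linarith)
  have hC := hcm c' hc'1 (by linarith)
  have hca := HS10.cm_mul (w := w) hc'1 ha1
  rw [hs_comm_conj hw, HS10.conj_eq hV hu1] at hca
  have hfin := HS10.cm_add hw (x n) (V * b * Vᴴ)
  have hεd : ε1 n * M.d n ≤ τ / 32 * M.d n := mul_le_mul_of_nonneg_right hε hd0
  have hττd : 520 * τ1 * M.d n ≤ τ / 2 * M.d n := mul_le_mul_of_nonneg_right hττ hd0
  linarith

end Pool.Agent.Helper784QA
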