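import Pool.Agent.Helper418_HL.NoMdl
import Pool.Agent.Helper784QA.GK

/-!
# No models with an element centralising `v K v⁻¹` but not `K`
-/

set_option autoImplicit false

namespace Pool.Agent.Helper784QA

open Matrix Filter Topology Pool.Agent.W661.RC Pool.Agent.W683.RC Helper418HL

/-- TARGET -/
theorem no_model2 {H : Type} [Group H] [Countable H] {ι ι' : Type} [Fintype ι] [Fintype ι']
    {p D p' D' : ℕ} {s : ι → H} {k : ι' → H} (hsT : Helper418.IsTSystem p D s)
    (hk : Helper418.IsTSystem p' D' k) (hkG : ∀ j, k j ∈ Subgroup.closure (Set.range s))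
    (P : Set H) (hP : P ⊆ Subgroup.closure (Set.range s)) (hPs : ∀ i, s i ∈ Subgroup.closure P)
    (hPk : ∀ v ∈ P, ∀ j, v * k j * v⁻¹ ∈ Subgroup.closure (Set.range k)) {v z w : H} (hv : v ∈ P)
    (hz : ∀ j, Commute z (v * k j * v⁻¹))
    (hw : w ∈ Subgroup.closure (Set.range k)) {𝒰 : Ultrafilter ℕ} (hU : (𝒰 : Filter ℕ) ≤ cofinite)
    (M : Mdl H 𝒰) {c0 : ℝ} (hc0 : 0 < c0)
    (hM : ∀ᶠ n in (𝒰 : Filter ℕ), c0 * M.d n ≤ Pool.Agent.W661.RC.hs (M.U (z * w * z⁻¹ * w⁻¹) n - 1)) :
    False := by
  set G : Subgroup H := Subgroup.closure (Set.range s) with hG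
  have hinjG : Function.Injective G.subtype := Subgroup.subtype_injective G
  have hmapG : Function.Injective (Subgroup.map G.subtype) := Subgroup.map_injective hinjG
  -- the system `s` in `G`
  let s' : ι → G := fun i => ⟨s i, Subgroup.subset_closure ⟨i, rfl⟩⟩
  have hs' : Helper418.IsTSystem p D s' := Helper418.Alg2.tsystem_comap G.subtype hinjG hsT
  have hs'2 : Subgroup.closure (Set.range s') = ⊤ := by
    apply hmapG
    rw [MonoidHom.map_closure, ← Set.range_comp, ← MonoidHom.range_eq_map, Subgroup.range_subtype]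
    rfl
  have hTG : HasT G := hasT_of_tsystem hs' hs'2
  -- the system `k` in `G`
  let k' : ι' → G := fun j => ⟨k j, hkG j⟩
  have hk' : Helper418.IsTSystem p' D' k' := Helper418.Alg2.tsystem_comap G.subtype hinjG hk
  have hmapK : Subgroup.map G.subtype (Subgroup.closure (Set.range k')) =
      Subgroup.closure (Set.range k) := by
    rw [MonoidHom.map_closure, ← Set.range_comp]
    rfl
  have hmemK : ∀ x : G, (x : H) ∈ Subgroup.closure (Set.range k) →
      x ∈ Subgroup.closure (Set.range k') := by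
    intro x hx
    rw [← hmapK, Subgroup.mem_map] at hx
    obtain ⟨y, hy, hyx⟩ := hx
    have : y = x := Subtype.ext hyx
    rwa [← this]
  let e : Fin (Fintype.card ι) ≃ ι := (Fintype.equivFin ι).symm
  let e' : Fin (Fintype.card ι') ≃ ι' := (Fintype.equivFin ι').symm
  have hrs : Set.range (s' ∘ e) = Set.range s' := e.surjective.range_comp s'
  have hrk : Set.range (k' ∘ e') = Set.range k' := e'.surjective.range_comp k'
  have hTK : HasT (Subgroup.closure (Set.range (k' ∘ e'))) := by
    rw [hrk]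
    let k'' : ι' → Subgroup.closure (Set.range k') := fun j =>
      ⟨k' j, Subgroup.subset_closure ⟨j, rfl⟩⟩
    have hk'' : Helper418.IsTSystem p' D' k'' :=
      Helper418.Alg2.tsystem_comap (Subgroup.subtype _) (Subgroup.subtype_injective _) hk'
    have hk2 : Subgroup.closure (Set.range k'') = ⊤ := by
      apply Subgroup.map_injective (Subgroup.subtype_injective (Subgroup.closure (Set.range k')))
      rw [MonoidHom.map_closure, ← Set.range_comp, ← MonoidHom.range_eq_map, Subgroup.range_subtype]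
      rfl
    exact hasT_of_tsystem hk'' hk2
  -- the generating set `P`
  let P' : Set G := G.subtype ⁻¹' P
  have hP' : Subgroup.closure P' = ⊤ := by
    apply hmapG
    rw [MonoidHom.map_closure, ← MonoidHom.range_eq_map, Subgroup.range_subtype]
    have e1 : G.subtype '' P' = P := by
      rw [Set.image_preimage_eq_iff]
      intro x hx
      exact ⟨⟨x, hP hx⟩, rfl⟩
    rw [e1]
    apply le_antisymm
    · rw [Subgroup.closure_le]; exact hP
    · rw [hG, Subgroup.closure_le]
      rintro _ ⟨i, rfl⟩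
      exact hPs i
  have hsG : ∀ x ∈ Subgroup.closure (Set.range k), x ∈ G := by
    intro x hx
    have : Subgroup.closure (Set.range k) ≤ G := by
      rw [Subgroup.closure_le]
      rintro _ ⟨j, rfl⟩
      exact hkG j
    exact this hx
  have hPκ' : ∀ u ∈ P', ∀ j, u * (k' ∘ e') j * u⁻¹ ∈ Subgroup.closure (Set.range (k' ∘ e')) := by
    intro u hu j
    rw [hrk]
    exact hmemK _ (hPk (u : H) hu (e' j))
  have hγ : Subgroup.closure (Set.range (s' ∘ e)) = ⊤ := by rw [hrs]; exact hs'2
  obtain ⟨O, K0, ε, hO⟩ := ctl_exists All.mid All.alg hU hTG (M.res G) (s' ∘ e) hγ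
  set K := Subgroup.closure (Set.range (k' ∘ e')) with hK
  let κ' : Fin (Fintype.card ι') → K := fun j => ⟨(k' ∘ e') j, Subgroup.subset_closure ⟨j, rfl⟩⟩
  have hκ' : Subgroup.closure (Set.range κ') = ⊤ := by
    have hinj : Function.Injective (Subgroup.map K.subtype) := Subgroup.map_injective K.subtype_injective
    apply hinj
    rw [MonoidHom.map_closure, ← Set.range_comp, ← MonoidHom.range_eq_map, Subgroup.range_subtype]
    rfl
  obtain ⟨B, K1, ε1, hB'⟩ := ctl_exists All.mid All.alg hU hTK ((M.res G).res K) κ' hκ'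
  have hB : Ctl (M.res G) (k' ∘ e') B K1 ε1 := ⟨hB'.K0pos, hB'.lim, hB'.com, hB'.near⟩
  have hsz : ∀ j : Fin (Fintype.card ι'), ∀ τ : ℝ, 0 < τ → ∀ᶠ n in (𝒰 : Filter ℕ),
      hs (M.U (k (e' j)) n * M.U z n - M.U z n * M.U (k (e' j)) n) ≤ τ * M.d n := by
    intro j τ hτ
    exact size_glob (M.res G) (s' ∘ e) hγ (k' ∘ e') hO hB P' hP' hPκ' (⟨v, hP hv⟩ : G) hv
      (fun n => M.U z n) (fun n => un_contr M z n)
      (fun j τ hτ => comm_small M (hz (e' j)).symm hτ) j τ hτ
  -- `z` nearly commutes with `w`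
  obtain ⟨C, hC0, hC1⟩ := gen_lin M (Set.range k) w hw
  have hzw : ∀ τ : ℝ, 0 < τ → ∀ᶠ n in (𝒰 : Filter ℕ),
      hs (M.U w n * M.U z n - M.U z n * M.U w n) ≤ τ * M.d n := by
    intro τ hτ
    have ht : (0:ℝ) < τ / (C + 1) := by positivity
    have := hC1 (fun n => {M.U z n}) (by
      rintro n x rfl
      exact un_contr M z n) (τ / (C + 1)) ht (by
      rintro _ ⟨j, rfl⟩
      filter_upwards [hsz (e'.symm j) (τ / (C + 1)) ht] with n hn
      rintro x rfl
      rw [Equiv.apply_symm_apply] at hn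
      exact hn)
    filter_upwards [this] with n hn
    refine (hn _ rfl).trans ?_
    apply mul_le_mul_of_nonneg_right _ (Nat.cast_nonneg _)
    rw [mul_div_assoc', div_le_iff₀ (by positivity)]
    nlinarith
  -- the commutator is nearly trivial
  set x0 := z * w * z⁻¹ * w⁻¹ with hx0def
  have hrel : x0 * (w * z) = z * w := by rw [hx0def]; group
  have h64 : (0:ℝ) < c0 / 1000 := by positivity
  have hfalse : ∀ᶠ n in (𝒰 : Filter ℕ), False := by
    filter_upwards [hM, hzw _ h64, mul_small M x0 (w * z) h64, mul_small M w z h64,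
      mul_small M z w h64] with n h1 h2 h3 h4 h5
    have hd : (0:ℝ) < M.d n := by exact_mod_cast M.pos n
    rw [hrel] at h3
    have e1 : hs (M.U x0 n - 1) = hs ((M.U x0 n - 1) * M.U (w * z) n) := by
      rw [hs_mul_unit (M.un (w * z) n)]
    have e2 : (M.U x0 n - 1) * M.U (w * z) n =
        (M.U (z * w) n - M.U z n * M.U w n) - (M.U (z * w) n - M.U x0 n * M.U (w * z) n) -
        (M.U (w * z) n - M.U w n * M.U z n) -
        (M.U w n * M.U z n - M.U z n * M.U w n) := by
      rw [Matrix.sub_mul, Matrix.one_mul]; abel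
    rw [e1, e2] at h1
    have i1 := hs_sub_le ((M.U (z * w) n - M.U z n * M.U w n) -
      (M.U (z * w) n - M.U x0 n * M.U (w * z) n) - (M.U (w * z) n - M.U w n * M.U z n))
      (M.U w n * M.U z n - M.U z n * M.U w n)
    have i2 := hs_sub_le ((M.U (z * w) n - M.U z n * M.U w n) -
      (M.U (z * w) n - M.U x0 n * M.U (w * z) n)) (M.U (w * z) n - M.U w n * M.U z n)
    have i3 := hs_sub_le (M.U (z * w) n - M.U z n * M.U w n)
      (M.U (z * w) n - M.U x0 n * M.U (w * z) n)
    have : c0 / 8 * M.d n ≤ 22 * (c0 / 1000 * M.d n) := by linarith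
    nlinarith [mul_pos hc0 hd]
  exact hfalse.exists.elim fun _ h => h

end Pool.Agent.Helper784QA
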