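import Mathlib

/-!
JOB QA-P1 (owner helper784, MP_f0269b_an). The amalgamated free product of two copies of a group. Imports only Mathlib.

HINTS. Monoid.PushoutI (Mathlib/GroupTheory/PushoutI.lean) with index Bool, G i = G, φ i = K.subtype : K →* G. ι i = PushoutI.of i (injective: PushoutI.of_injective).
ι false k = ι true k for k ∈ K: PushoutI.of_comp_eq_base / of_apply_eq_base. σ = lift (fun i => of (!i)) (base), its own inverse (hom_ext). Universal property: PushoutI.lift.
Countable: PushoutI is a quotient (Con.Quotient) of a countable monoid coproduct (words are lists), or: the map List (Bool × G) → Γ, w ↦ (w.map fun p => ι p.1 p.2).prod is surjective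
by the 5th clause (plus K), so Γ is countable.
5th clause: by induction (PushoutI.induction_on, or Subgroup.closure_induction, multiplying on the left by a generator ι i g): if γ = ι false k then ι i g * γ = ι i (g k); if
γ = product of ((i', g') :: w) then for i = i' replace g' by g g' (if g g' ∈ K absorb it in the next letter: k g'' ∉ K) and for i ≠ i', g ∉ K, cons; g ∈ K: absorb in g'.
6th clause: PushoutI.Reduced.eq_empty_of_mem_range for the Monoid.CoprodI.Word with the letters of w (all ≠ 1 since not in K, alternating).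
-/

set_option autoImplicit false

namespace Pool.Agent.Helper784QA


section amalgam

variable {G : Type} [Group G] (K : Subgroup G)

/-- the two inclusions of the amalgamated subgroup -/
abbrev amφ : ∀ _ : Bool, K →* G := fun _ => K.subtype

/-- the amalgamated free product -/
abbrev Am : Type := Monoid.PushoutI (ι := Bool) (G := fun _ => G) (H := K) (amφ K)

/-- the two factors -/
abbrev amι (i : Bool) : G →* Am K :=
  Monoid.PushoutI.of (ι := Bool) (G := fun _ => G) (H := K) (φ := amφ K) i

abbrev amBase : K →* Am K :=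
  Monoid.PushoutI.base (ι := Bool) (G := fun _ => G) (H := K) (amφ K)

theorem amι_base (i : Bool) (k : G) (hk : k ∈ K) : amι K i k = amBase K ⟨k, hk⟩ :=
  Monoid.PushoutI.of_apply_eq_base (ι := Bool) (G := fun _ => G) (H := K) (amφ K) i ⟨k, hk⟩

theorem amι_eq (i j : Bool) (k : G) (hk : k ∈ K) : amι K i k = amι K j k := by
  rw [amι_base K i k hk, amι_base K j k hk]

theorem amι_inj (i : Bool) : Function.Injective (amι K i) :=
  Monoid.PushoutI.of_injective (ι := Bool) (G := fun _ => G) (H := K) (φ := amφ K)
    (fun _ => Subtype.val_injective) i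

noncomputable def amSwap : Am K →* Am K :=
  Monoid.PushoutI.lift (ι := Bool) (G := fun _ => G) (H := K) (φ := amφ K)
    (fun i => amι K (!i)) (amBase K) (fun i =>
      Monoid.PushoutI.of_comp_eq_base (ι := Bool) (G := fun _ => G) (H := K) (φ := amφ K) (!i))

theorem amSwap_ι (i : Bool) (g : G) : amSwap K (amι K i g) = amι K (!i) g :=
  Monoid.PushoutI.lift_of (ι := Bool) (G := fun _ => G) (H := K) (φ := amφ K) _ _ _ g

theorem amSwap_amSwap : (amSwap K).comp (amSwap K) = MonoidHom.id (Am K) := by
  apply Monoid.PushoutI.hom_ext_nonempty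
  intro i
  ext g
  show amSwap K (amSwap K (amι K i g)) = amι K i g
  rw [amSwap_ι, amSwap_ι, Bool.not_not]

def AmGood (γ : Am K) : Prop :=
  (∃ k ∈ K, γ = amι K false k) ∨ ∃ w : List (Bool × G), w ≠ [] ∧
        w.IsChain (fun p q => p.1 ≠ q.1) ∧ (∀ p ∈ w, p.2 ∉ K) ∧
          γ = (w.map fun p => amι K p.1 p.2).prod

theorem not_mem_mul {k h : G} (hk : k ∈ K) (hh : h ∉ K) : k * h ∉ K := by
  intro hc
  exact hh ((K.mul_mem_cancel_left hk).1 hc)

theorem amGood_cons (j : Bool) (h : G) (w : List (Bool × G)) (hh : h ∉ K)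
    (hc : ((j, h) :: w).IsChain (fun p q => p.1 ≠ q.1)) (hw : ∀ p ∈ w, p.2 ∉ K) :
    AmGood K (amι K j h * (w.map fun p => amι K p.1 p.2).prod) := by
  right
  refine ⟨(j, h) :: w, by simp, hc, ?_, by simp⟩
  intro p hp
  rcases List.mem_cons.1 hp with rfl | hp
  · exact hh
  · exact hw p hp

theorem amGood_absorb (i : Bool) (k : G) (hk : k ∈ K) (w : List (Bool × G))
    (hc : w.IsChain (fun p q => p.1 ≠ q.1)) (hw : ∀ p ∈ w, p.2 ∉ K) :
    AmGood K (amι K i k * (w.map fun p => amι K p.1 p.2).prod) := by
  cases w with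
  | nil =>
    left
    exact ⟨k, hk, by rw [List.map_nil, List.prod_nil, mul_one]; exact amι_eq K i false k hk⟩
  | cons p w' =>
    obtain ⟨j, h⟩ := p
    have h1 : amι K i k * (((j, h) :: w').map fun p => amι K p.1 p.2).prod
        = amι K j (k * h) * (w'.map fun p => amι K p.1 p.2).prod := by
      rw [List.map_cons, List.prod_cons, amι_eq K i j k hk, map_mul, mul_assoc]
    rw [h1]
    apply amGood_cons K j (k * h) w'
    · exact not_mem_mul K hk (hw (j, h) (List.mem_cons_self))
    · rw [List.isChain_cons] at hc ⊢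
      exact hc
    · exact fun p hp => hw p (List.mem_cons_of_mem _ hp)

theorem amGood_step (i : Bool) (g : G) (γ : Am K) (hγ : AmGood K γ) :
    AmGood K (amι K i g * γ) := by
  rcases hγ with ⟨k, hk, rfl⟩ | ⟨w, hne, hc, hw, rfl⟩
  · rw [amι_eq K false i k hk, ← map_mul]
    by_cases hg : g * k ∈ K
    · exact Or.inl ⟨g * k, hg, amι_eq K i false _ hg⟩
    · have := amGood_cons K i (g * k) [] hg (by simp) (by simp)
      simpa using this
  · cases w with
    | nil => exact absurd rfl hne
    | cons p w' =>
      obtain ⟨j, h⟩ := p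
      have hc' : w'.IsChain (fun p q => p.1 ≠ q.1) := hc.tail
      have hw' : ∀ p ∈ w', p.2 ∉ K := fun p hp => hw p (List.mem_cons_of_mem _ hp)
      by_cases hij : i = j
      · subst hij
        have h1 : amι K i g * (((i, h) :: w').map fun p => amι K p.1 p.2).prod
            = amι K i (g * h) * (w'.map fun p => amι K p.1 p.2).prod := by
          rw [List.map_cons, List.prod_cons, map_mul, mul_assoc]
        rw [h1]
        by_cases hg : g * h ∈ K
        · exact amGood_absorb K i (g * h) hg w' hc' hw'
        · apply amGood_cons K i (g * h) w' hg _ hw'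
          rw [List.isChain_cons] at hc ⊢
          exact hc
      · by_cases hg : g ∈ K
        · exact amGood_absorb K i g hg _ hc hw
        · apply amGood_cons K i g _ hg _ hw
          rw [List.isChain_cons_cons]
          exact ⟨hij, hc⟩

theorem amGood_all (γ : Am K) : AmGood K γ := by
  have key : ∀ γ : Am K, ∀ δ : Am K, AmGood K δ → AmGood K (γ * δ) := by
    intro γ
    induction γ using Monoid.PushoutI.induction_on with
    | of i g => exact fun δ hδ => amGood_step K i g δ hδ
    | base h =>
      intro δ hδ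
      have := amGood_step K false (h : G) δ hδ
      rwa [amι_base K false (h : G) h.2] at this
    | mul x y hx hy =>
      intro δ hδ
      rw [mul_assoc]
      exact hx _ (hy _ hδ)
  have := key γ 1 (Or.inl ⟨1, K.one_mem, by simp⟩)
  rwa [mul_one] at this

theorem am_reduced (w : List (Bool × G)) (hne : w ≠ [])
    (hc : w.IsChain (fun p q => p.1 ≠ q.1)) (hw : ∀ p ∈ w, p.2 ∉ K) (k : G) (hk : k ∈ K) :
    (w.map fun p => amι K p.1 p.2).prod ≠ amι K false k := by
  intro heq
  let W : Monoid.CoprodI.Word (fun _ : Bool => G) :=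
    { toList := w.map fun p => ⟨p.1, p.2⟩
      ne_one := by
        intro l hl
        rw [List.mem_map] at hl
        obtain ⟨p, hp, rfl⟩ := hl
        intro h1
        apply hw p hp
        have h2 : p.2 = 1 := h1
        rw [h2]
        exact K.one_mem
      chain_ne := by
        rw [List.isChain_map]
        exact hc }
  have hprod : (Monoid.PushoutI.ofCoprodI W.prod : Am K)
      = (w.map fun p => amι K p.1 p.2).prod := by
    simp only [Monoid.CoprodI.Word.prod, W, List.map_map, map_list_prod]
    congr 1
  have hred : Monoid.PushoutI.Reduced (amφ K) W := by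
    intro g hg
    have hg' : g ∈ w.map (fun p => (⟨p.1, p.2⟩ : Σ _ : Bool, G)) := hg
    rw [List.mem_map] at hg'
    obtain ⟨p, hp, rfl⟩ := hg'
    have := hw p hp
    simpa [amφ] using this
  have := hred.eq_empty_of_mem_range (fun _ => Subtype.val_injective) (by
    rw [hprod, heq, amι_base K false k hk]
    exact ⟨_, rfl⟩)
  have h2 : W.toList = [] := by rw [this]; rfl
  have h3 : w.map (fun p => (⟨p.1, p.2⟩ : Σ _ : Bool, G)) = [] := h2
  rw [List.map_eq_nil_iff] at h3
  exact hne h3

end amalgam

/-- TARGET -/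
theorem exists_amalgam (G : Type) [Group G] [Countable G] (K : Subgroup G) :
    ∃ (Γ : Type) (_ : Group Γ) (ι : Bool → G →* Γ) (σ : Γ ≃* Γ), Countable Γ ∧
      (∀ i, Function.Injective (ι i)) ∧ (∀ k ∈ K, ι false k = ι true k) ∧
      (∀ i g, σ (ι i g) = ι (!i) g) ∧
      (∀ γ : Γ, (∃ k ∈ K, γ = ι false k) ∨ ∃ w : List (Bool × G), w ≠ [] ∧
        w.IsChain (fun p q => p.1 ≠ q.1) ∧ (∀ p ∈ w, p.2 ∉ K) ∧ γ = (w.map fun p => ι p.1 p.2).prod) ∧
      (∀ w : List (Bool × G), w ≠ [] → w.IsChain (fun p q => p.1 ≠ q.1) → (∀ p ∈ w, p.2 ∉ K) →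
        ∀ k ∈ K, (w.map fun p => ι p.1 p.2).prod ≠ ι false k) ∧
      ∀ (H : Type) [Group H] (f : Bool → G →* H), (∀ k ∈ K, f false k = f true k) →
        ∃ F : Γ →* H, ∀ i g, F (ι i g) = f i g := by
  refine ⟨Am K, inferInstance, amι K,
    MonoidHom.toMulEquiv (amSwap K) (amSwap K) (amSwap_amSwap K) (amSwap_amSwap K), ?_,
    amι_inj K, fun k hk => amι_eq K false true k hk, fun i g => amSwap_ι K i g,
    amGood_all K, am_reduced K, ?_⟩
  · have hs : Function.Surjective (fun w : List (Bool × G) => (w.map fun p => amι K p.1 p.2).prod) := by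
      intro γ
      rcases amGood_all K γ with ⟨k, _, rfl⟩ | ⟨w, _, _, _, rfl⟩
      · exact ⟨[(false, k)], by simp⟩
      · exact ⟨w, rfl⟩
    exact hs.countable
  · intro H _ f hf
    refine ⟨Monoid.PushoutI.lift (ι := Bool) (G := fun _ => G) (H := K) (φ := amφ K)
      f ((f false).comp K.subtype) ?_, ?_⟩
    · intro i
      ext k
      cases i with
      | false => rfl
      | true => exact (hf k k.2).symm
    · intro i g
      exact Monoid.PushoutI.lift_of (ι := Bool) (G := fun _ => G) (H := K) (φ := amφ K) _ _ _ g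

end Pool.Agent.Helper784QA
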