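import Pool.Agent.Helper784QA.R3
import Pool.Agent.Helper784QW.V2

/-!
JOB QA-P2: the group von Neumann algebra of an amalgam is the amalgamated free product.
-/

set_option autoImplicit false

open scoped InnerProductSpace ComplexOrder ENNReal

namespace Pool.Agent.Helper784QA

open Pool.Agent.Helper784QW Filter Topology

namespace P2

variable {G Γ : Type} [Group G] [Group Γ]

/-- the two automorphisms: the identity and `σ` -/
def tau (σ : Γ ≃* Γ) : Bool → MulAut Γ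
  | false => 1
  | true => σ

lemma tau_iota (ι : Bool → G →* Γ) (σ : Γ ≃* Γ) (h4 : ∀ i g, σ (ι i g) = ι (!i) g) (i : Bool) (g : G) :
    tau σ i (ι false g) = ι i g := by
  cases i
  · rfl
  · exact h4 false g

/-- the two embeddings -/
noncomputable def jj (σ : Γ ≃* Γ) (i : Bool) (x : L2N Γ →L[ℂ] L2N Γ) : L2N Γ →L[ℂ] L2N Γ :=
  alp (MonoidHom.id (MulAut Γ)) (tau σ i) x

lemma jj_false (σ : Γ ≃* Γ) (x : L2N Γ →L[ℂ] L2N Γ) : jj σ false x = x := by
  unfold jj alp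
  show Vop (MonoidHom.id (MulAut Γ)) 1 * x * Vop (MonoidHom.id (MulAut Γ)) 1⁻¹ = x
  rw [inv_one, alp_action_one, one_mul, mul_one]

lemma jj_lamL (σ : Γ ≃* Γ) (i : Bool) (γ : Γ) : jj σ i (lamL γ) = lamL (tau σ i γ) := by
  unfold jj alp
  rw [alp_action_lamL, mul_assoc, alp_action_inv, mul_one]
  rfl

lemma jj_coef (σ : Γ ≃* Γ) (i : Bool) (x : L2N Γ →L[ℂ] L2N Γ) (t : Γ) :
    ⟪dl t, jj σ i x (dl 1)⟫_ℂ = ⟪dl ((tau σ i)⁻¹ t), x (dl 1)⟫_ℂ := by
  unfold jj alp
  have e : (Vop (MonoidHom.id (MulAut Γ)) (tau σ i) * x *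
      Vop (MonoidHom.id (MulAut Γ)) (tau σ i)⁻¹) (dl (1 : Γ)) =
      Vop (MonoidHom.id (MulAut Γ)) (tau σ i) (x (dl 1)) := by
    show Vop (MonoidHom.id (MulAut Γ)) (tau σ i) (x (Vop (MonoidHom.id (MulAut Γ)) (tau σ i)⁻¹ (dl 1))) = _
    rw [alp_action_dl, map_one]
  rw [e]
  have e2 : ⟪dl t, Vop (MonoidHom.id (MulAut Γ)) (tau σ i) (x (dl 1))⟫_ℂ =
      ⟪star (Vop (MonoidHom.id (MulAut Γ)) (tau σ i)) (dl t), x (dl 1)⟫_ℂ := by
    rw [ContinuousLinearMap.star_eq_adjoint, ContinuousLinearMap.adjoint_inner_left]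
  rw [e2, alp_action_star, alp_action_dl]
  rfl

/-- products of alternating words which start with a letter of index `i` -/
def SS (K : Subgroup G) (ι : Bool → G →* Γ) (i : Bool) : Set Γ :=
  {γ | ∃ (g : G) (w : List (Bool × G)), ((i, g) :: w).IsChain (fun p q => p.1 ≠ q.1) ∧
    (∀ p ∈ (i, g) :: w, p.2 ∉ K) ∧ γ = (((i, g) :: w).map fun p => ι p.1 p.2).prod}

lemma one_not_mem (K : Subgroup G) (ι : Bool → G →* Γ)
    (h6 : ∀ w : List (Bool × G), w ≠ [] → w.IsChain (fun p q => p.1 ≠ q.1) → (∀ p ∈ w, p.2 ∉ K) →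
      ∀ k ∈ K, (w.map fun p => ι p.1 p.2).prod ≠ ι false k) (i : Bool) : (1 : Γ) ∉ SS K ι i := by
  rintro ⟨g, w, h1, h2, h3⟩
  refine h6 _ (by simp) h1 h2 1 K.one_mem ?_
  rw [← h3, map_one]

lemma letter_mem (K : Subgroup G) (ι : Bool → G →* Γ) (i : Bool) (g : G) (hg : g ∉ K) :
    ι i g ∈ SS K ι i := by
  refine ⟨g, [], by simp, ?_, by simp⟩
  intro p hp
  rw [List.mem_singleton] at hp
  rw [hp]
  exact hg

lemma cons_mem (K : Subgroup G) (ι : Bool → G →* Γ) (i i' : Bool) (hii : i ≠ i') (g : G) (hg : g ∉ K)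
    (γ : Γ) (hγ : γ ∈ SS K ι i') : ι i g * γ ∈ SS K ι i := by
  obtain ⟨g', w, h1, h2, h3⟩ := hγ
  refine ⟨g, (i', g') :: w, ?_, ?_, ?_⟩
  · rw [List.isChain_cons_cons]
    exact ⟨hii, h1⟩
  · intro p hp
    rw [List.mem_cons] at hp
    rcases hp with hp | hp
    · rw [hp]; exact hg
    · exact h2 p hp
  · rw [h3, List.map_cons (a := (i, g)), List.prod_cons]

/-- the coefficients of a letter -/
lemma letter_coef (K : Subgroup G) (ι : Bool → G →* Γ) (σ : Γ ≃* Γ)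
    (h4 : ∀ i g, σ (ι i g) = ι (!i) g) (i : Bool) (x : L2N Γ →L[ℂ] L2N Γ)
    (hx : x ∈ LS (ι false).range)
    (hx0 : ∀ b ∈ LS (K.map (ι false)), ⟪dl (1 : Γ), (x * b) (dl 1)⟫_ℂ = 0) (t : Γ)
    (ht : ⟪dl t, jj σ i x (dl 1)⟫_ℂ ≠ 0) : ∃ g, g ∉ K ∧ t = ι i g := by
  rw [jj_coef] at ht
  have h1 : (tau σ i)⁻¹ t ∈ (ι false).range := by
    by_contra h
    exact ht (LS_supp _ hx h)
  obtain ⟨g, hg⟩ := h1
  have h2 : t = ι i g := by
    rw [← tau_iota ι σ h4 i g, hg, MulAut.apply_inv_self]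
  refine ⟨g, ?_, h2⟩
  intro hgK
  apply ht
  rw [← hg]
  have h3 := hx0 (lamL (ι false g⁻¹)) (lamL_mem_LS ⟨g⁻¹, K.inv_mem hgK, rfl⟩)
  have h4' : (x * lamL (ι false g⁻¹)) (dl (1 : Γ)) = x (dl (ι false g⁻¹)) := by
    show x (lamL (ι false g⁻¹) (dl 1)) = _
    rw [lamL_dl, mul_one]
  rw [h4', LN_coef (LS_le _ hx), one_mul, map_inv, inv_inv] at h3
  exact h3

omit [Group Γ] in
lemma inner_zero (v w : L2N Γ) (h : ∀ γ, (v : Γ → ℂ) γ = 0 ∨ (w : Γ → ℂ) γ = 0) : ⟪v, w⟫_ℂ = 0 := by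
  rw [lp.inner_eq_tsum]
  have : ∀ γ, ⟪(v : Γ → ℂ) γ, (w : Γ → ℂ) γ⟫_ℂ = 0 := by
    intro γ
    rcases h γ with h | h
    · rw [h, inner_zero_left]
    · rw [h, inner_zero_right]
  rw [tsum_congr this, tsum_zero]

/-- support of the image of a vector -/
lemma supp_step (K : Subgroup G) (ι : Bool → G →* Γ) (i i' : Bool) (hii : i ≠ i')
    (X : L2N Γ →L[ℂ] L2N Γ) (hX : X ∈ LN Γ)
    (hc : ∀ t, ⟪dl t, X (dl 1)⟫_ℂ ≠ 0 → ∃ g, g ∉ K ∧ t = ι i g)
    (v : L2N Γ) (hv : ∀ γ, γ ∉ SS K ι i' → (v : Γ → ℂ) γ = 0) (t : Γ) (ht : t ∉ SS K ι i) :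
    (X v : Γ → ℂ) t = 0 := by
  rw [← inner_dl t (X v)]
  have e : ⟪dl t, X v⟫_ℂ = ⟪star X (dl t), v⟫_ℂ := by
    rw [ContinuousLinearMap.star_eq_adjoint, ContinuousLinearMap.adjoint_inner_left]
  rw [e]
  apply inner_zero
  intro γ
  by_cases hγ : γ ∈ SS K ι i'
  · left
    rw [← inner_dl γ (star X (dl t)), ContinuousLinearMap.star_eq_adjoint,
      ContinuousLinearMap.adjoint_inner_right, ← inner_conj_symm, LN_coef hX]
    by_contra hne
    have h1 : ⟪dl (t * γ⁻¹), X (dl 1)⟫_ℂ ≠ 0 := by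
      intro h0
      apply hne
      rw [h0, map_zero]
    obtain ⟨g, hg, hg2⟩ := hc _ h1
    apply ht
    have : t = ι i g * γ := by rw [← hg2, inv_mul_cancel_right]
    rw [this]
    exact cons_mem K ι i i' hii g hg γ hγ
  · right
    exact hv γ hγ

end P2

open P2

/-- TARGET -/
theorem amalgam_LN {G Γ : Type} [Group G] [Group Γ] (K : Subgroup G) (ι : Bool → G →* Γ) (σ : Γ ≃* Γ)
    (h2 : ∀ i, Function.Injective (ι i)) (h3 : ∀ k ∈ K, ι false k = ι true k)
    (h4 : ∀ i g, σ (ι i g) = ι (!i) g)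
    (h5 : ∀ γ : Γ, (∃ k ∈ K, γ = ι false k) ∨ ∃ w : List (Bool × G), w ≠ [] ∧
      w.IsChain (fun p q => p.1 ≠ q.1) ∧ (∀ p ∈ w, p.2 ∉ K) ∧ γ = (w.map fun p => ι p.1 p.2).prod)
    (h6 : ∀ w : List (Bool × G), w ≠ [] → w.IsChain (fun p q => p.1 ≠ q.1) → (∀ p ∈ w, p.2 ∉ K) →
      ∀ k ∈ K, (w.map fun p => ι p.1 p.2).prod ≠ ι false k) :
    ∃ j : Bool → (L2N Γ →L[ℂ] L2N Γ) → (L2N Γ →L[ℂ] L2N Γ),
      IsAmalgam (LS (ι false).range) (LS (K.map (ι false))) (dl (1 : Γ)) (LN Γ) (dl (1 : Γ)) j := by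
  have act := alp_action (MonoidHom.id (MulAut Γ))
  refine ⟨jj σ, ?_⟩
  refine
    { tracial := LN_tracial
      mem := fun i x hx => act.mem _ x (LS_le _ hx)
      map_one := fun i => act.map_one _
      map_add := fun i x hx y hy => act.map_add _ x (LS_le _ hx) y (LS_le _ hy)
      map_smul := fun i c x hx => act.map_smul _ c x (LS_le _ hx)
      map_mul := fun i x hx y hy => act.map_mul _ x (LS_le _ hx) y (LS_le _ hy)
      map_star := fun i x hx => act.map_star _ x (LS_le _ hx)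
      pres := fun i x hx => act.trace _ x (LS_le _ hx)
      agree := ?_
      gen := ?_
      free := ?_ }
  · intro x hx
    rw [jj_false]
    have hW : Vop (MonoidHom.id (MulAut Γ)) (tau σ true) ∈
        Set.centralizer (lamL '' ((K.map (ι false) : Subgroup Γ) : Set Γ)) := by
      rw [Set.mem_centralizer_iff]
      rintro _ ⟨_, ⟨k, hk, rfl⟩, rfl⟩
      rw [alp_action_lamL]
      have : (MonoidHom.id (MulAut Γ)) (tau σ true) ((ι false) k) = ι false k := by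
        show σ (ι false k) = ι false k
        rw [h4 false k, h3 k hk]
        rfl
      rw [this]
    rw [← SetLike.mem_coe, coe_LS, Set.mem_centralizer_iff] at hx
    have h := hx _ hW
    unfold jj alp
    rw [h, mul_assoc, alp_action_inv, mul_one]
  · apply Set.Subset.antisymm
    · have hsub : {y | ∃ i, ∃ x ∈ LS (ι false).range, y = jj σ i x} ⊆
          (LN Γ : Set (L2N Γ →L[ℂ] L2N Γ)) := by
        rintro _ ⟨i, x, hx, rfl⟩
        exact act.mem _ x (LS_le _ hx)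
      have h := Set.centralizer_subset (Set.centralizer_subset hsub)
      rw [VonNeumannAlgebra.centralizer_centralizer] at h
      exact h
    · rw [coe_LN]
      apply Set.centralizer_subset
      intro T hT
      rw [Set.mem_centralizer_iff] at hT ⊢
      have hlet : ∀ (i : Bool) (g : G), lamL (ι i g) * T = T * lamL (ι i g) := by
        intro i g
        refine hT _ ⟨i, lamL (ι false g), lamL_mem_LS ⟨g, rfl⟩, ?_⟩
        rw [jj_lamL, tau_iota ι σ h4]
      rintro _ ⟨γ, rfl⟩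
      rcases h5 γ with ⟨k, -, rfl⟩ | ⟨w, -, -, -, rfl⟩
      · exact hlet false k
      · induction w with
        | nil =>
          rw [List.map_nil, List.prod_nil, lamL_one, one_mul, mul_one]
        | cons p w ih =>
          rw [List.map_cons, List.prod_cons, lamL_mul, mul_assoc, ih, ← mul_assoc, hlet, mul_assoc]
  · intro w hw hch hlet
    have key : ∀ (w : List (Bool × (L2N Γ →L[ℂ] L2N Γ))) (p : Bool × (L2N Γ →L[ℂ] L2N Γ)),
        (p :: w).IsChain (fun p q => p.1 ≠ q.1) →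
        (∀ r ∈ p :: w, r.2 ∈ LS (ι false).range ∧ ∀ b ∈ LS (K.map (ι false)),
          ⟪dl (1 : Γ), (r.2 * b) (dl 1)⟫_ℂ = 0) →
        ∀ t, t ∉ SS K ι p.1 →
          ((((p :: w).map fun p => jj σ p.1 p.2).prod (dl 1) : L2N Γ) : Γ → ℂ) t = 0 := by
      intro w
      induction w with
      | nil =>
        intro p _ hl t ht
        obtain ⟨hx, hx0⟩ := hl p (by simp)
        rw [List.map_cons, List.map_nil, List.prod_singleton, ← inner_dl]
        by_contra hne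
        obtain ⟨g, hg, rfl⟩ := letter_coef K ι σ h4 p.1 p.2 hx hx0 t hne
        exact ht (letter_mem K ι p.1 g hg)
      | cons q w ih =>
        intro p hch hl t ht
        obtain ⟨hx, hx0⟩ := hl p (by simp)
        rw [List.isChain_cons_cons] at hch
        have ih' := ih q hch.2 (fun r hr => hl r (by
          rw [List.mem_cons]; right; exact hr))
        rw [List.map_cons, List.prod_cons]
        exact supp_step K ι p.1 q.1 hch.1 (jj σ p.1 p.2) (act.mem _ _ (LS_le _ hx))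
          (fun t ht => letter_coef K ι σ h4 p.1 p.2 hx hx0 t ht) _ ih' t ht
    cases w with
    | nil => exact absurd rfl hw
    | cons p w =>
      rw [inner_dl]
      exact key w p hch hlet 1 (one_not_mem K ι h6 p.1)

end Pool.Agent.Helper784QA
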