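import Pool.Agent.Helper784QA.R3
import Pool.Agent.Helper784QW.Spec

/-!
JOB QA-P3 (owner helper784, MP_f0269b_an). If some amalgamated free product of L(G), L(G) over L(K) is QWEP then the group G *_K G is hyperlinear. Copy from origin/main:
Pool/Agent/Helper784QA/{Defs,S0}.lean, Pool/Agent/Helper784QW/*.lean. Job QA-R3 is given (stub at the end). S6 is in Helper784QW/Spec.lean.

PROOF. f i g := j i (lamL (ι false g)) is a unitary of M (map_mul, map_one, map_star on A; lamL (ι false g) ∈ A by lamL_mem_LS), a homomorphism G →* unitary (L →L[ℂ] L) (a group in Type), and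
f false k = f true k for k ∈ K (agree). h7 gives F : Γ →* unitary (L →L[ℂ] L) with F (ι i g) = f i g. Apply S6 with u γ = F γ: in M (F γ is a product of f i g, by h5), u 1 = 1,
multiplicative, star (u γ) = u γ⁻¹. Trace: γ ≠ 1. If γ = ι false k, k ∈ K, k ≠ 1: ⟪η, j false (lamL (ι false k)) η⟫ = ⟪dl 1, lamL (ι false k) dl 1⟫ = 0 (pres; ι false injective).
If γ = alternating product with letters g ∉ K: free, applied to the list of (i, lamL (ι false g)): for b ∈ B = LS (K.map (ι false)) we need ⟪dl 1, lamL (ι false g) b dl 1⟫ =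
⟪dl (ι false g)⁻¹, b dl 1⟫ = 0, which is LS_supp ((ι false g)⁻¹ ∉ K.map (ι false)). M'' = M for a von Neumann algebra (VonNeumannAlgebra.centralizer_centralizer).
-/

set_option autoImplicit false

open scoped InnerProductSpace ComplexOrder ENNReal

namespace Pool.Agent.Helper784QA

open Pool.Agent.Helper784QW Filter Topology

/-- TARGET -/
theorem hyperlinear_of_amalgam (hS6 : S6) {G Γ : Type} [Group G] [Group Γ] (K : Subgroup G) (ι : Bool → G →* Γ)
    (h2 : ∀ i, Function.Injective (ι i))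
    (h5 : ∀ γ : Γ, (∃ k ∈ K, γ = ι false k) ∨ ∃ w : List (Bool × G), w ≠ [] ∧
      w.IsChain (fun p q => p.1 ≠ q.1) ∧ (∀ p ∈ w, p.2 ∉ K) ∧ γ = (w.map fun p => ι p.1 p.2).prod)
    (h7 : ∀ (H : Type) [Group H] (f : Bool → G →* H), (∀ k ∈ K, f false k = f true k) →
        ∃ F : Γ →* H, ∀ i g, F (ι i g) = f i g)
    {L : Type} [NormedAddCommGroup L] [InnerProductSpace ℂ L] [CompleteSpace L] (M : VonNeumannAlgebra L) (η : L)
    (j : Bool → (L2N Γ →L[ℂ] L2N Γ) → (L →L[ℂ] L))
    (hj : IsAmalgam (LS (ι false).range) (LS (K.map (ι false))) (dl (1 : Γ)) M η j)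
    (hQ : QWEP (M : Set (L →L[ℂ] L))) : Hyperlinear Γ := by
  have ha : ∀ g : G, lamL (ι false g) ∈ LS (ι false).range := fun g => lamL_mem_LS ⟨g, rfl⟩
  have U1 : ∀ i, j i (lamL (ι false 1)) = 1 := by
    intro i
    rw [map_one, lamL_one, hj.map_one]
  have Umul : ∀ i g h, j i (lamL (ι false (g * h))) = j i (lamL (ι false g)) * j i (lamL (ι false h)) := by
    intro i g h
    rw [map_mul, lamL_mul, hj.map_mul i _ (ha g) _ (ha h)]
  have Ustar : ∀ i g, star (j i (lamL (ι false g))) = j i (lamL (ι false g⁻¹)) := by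
    intro i g
    rw [← hj.map_star i _ (ha g), star_lamL, map_inv]
  have Uu : ∀ i g, j i (lamL (ι false g)) ∈ unitary (L →L[ℂ] L) := by
    intro i g
    rw [Unitary.mem_iff, Ustar, ← Umul, ← Umul, inv_mul_cancel, mul_inv_cancel, U1]
    exact ⟨rfl, rfl⟩
  let f : Bool → G →* unitary (L →L[ℂ] L) := fun i =>
    { toFun := fun g => ⟨j i (lamL (ι false g)), Uu i g⟩
      map_one' := Subtype.ext (U1 i)
      map_mul' := fun g h => Subtype.ext (Umul i g h) }
  have hf : ∀ i g, ((f i g : unitary (L →L[ℂ] L)) : L →L[ℂ] L) = j i (lamL (ι false g)) :=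
    fun i g => rfl
  obtain ⟨F, hF⟩ := h7 (unitary (L →L[ℂ] L)) f (by
    intro k hk
    apply Subtype.ext
    rw [hf, hf]
    exact hj.agree _ (lamL_mem_LS ⟨k, hk, rfl⟩))
  have hFj : ∀ i g, ((F (ι i g) : unitary (L →L[ℂ] L)) : L →L[ℂ] L) = j i (lamL (ι false g)) := by
    intro i g
    rw [hF, hf]
  have hFw : ∀ w : List (Bool × G), ((F ((w.map fun p => ι p.1 p.2).prod) : unitary (L →L[ℂ] L)) : L →L[ℂ] L) =
      (w.map fun p => j p.1 (lamL (ι false p.2))).prod := by
    intro w
    induction w with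
    | nil => simp
    | cons p w ih =>
      rw [List.map_cons, List.prod_cons, map_mul, Submonoid.coe_mul, ih, hFj, List.map_cons,
        List.prod_cons]
  refine hS6 L (M : Set (L →L[ℂ] L)) M.centralizer_centralizer η hj.tracial.unit
    hj.tracial.trace hQ Γ (fun γ => ((F γ : unitary (L →L[ℂ] L)) : L →L[ℂ] L)) ?_ ?_ ?_ ?_ ?_
  · intro γ
    rcases h5 γ with ⟨k, hk, rfl⟩ | ⟨w, -, -, -, rfl⟩
    · show ((F (ι false k) : unitary (L →L[ℂ] L)) : L →L[ℂ] L) ∈ (M : Set (L →L[ℂ] L))
      rw [hFj]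
      exact hj.mem _ _ (ha k)
    · show ((F ((w.map fun p => ι p.1 p.2).prod) : unitary (L →L[ℂ] L)) : L →L[ℂ] L) ∈
        (M : Set (L →L[ℂ] L))
      rw [hFw]
      induction w with
      | nil => simpa using one_mem M.toStarSubalgebra
      | cons p w ih =>
        rw [List.map_cons, List.prod_cons]
        exact mul_mem (S := StarSubalgebra ℂ (L →L[ℂ] L)) (s := M.toStarSubalgebra)
          (hj.mem _ _ (ha p.2)) ih
  · simp
  · intro g h
    simp
  · intro g
    rw [map_inv]
    rfl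
  · intro γ hγ
    rcases h5 γ with ⟨k, hk, rfl⟩ | ⟨w, hw, hc, hK, rfl⟩
    · show ⟪η, ((F (ι false k) : unitary (L →L[ℂ] L)) : L →L[ℂ] L) η⟫_ℂ = 0
      rw [hFj, hj.pres _ _ (ha k), lamL_dl, inner_dl, dl_apply, if_neg]
      rw [mul_one]
      exact fun h => hγ h.symm
    · show ⟪η, ((F ((w.map fun p => ι p.1 p.2).prod) : unitary (L →L[ℂ] L)) : L →L[ℂ] L) η⟫_ℂ = 0
      rw [hFw]
      have h := hj.free (w.map fun p => (p.1, lamL (ι false p.2))) (by simpa using hw) (by
        rw [List.isChain_map]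
        exact hc) (by
        intro p hp
        rw [List.mem_map] at hp
        obtain ⟨q, hq, rfl⟩ := hp
        refine ⟨ha q.2, fun b hb => ?_⟩
        have e : ⟪dl (1 : Γ), (lamL (ι false q.2) * b) (dl 1)⟫_ℂ =
            ⟪dl (ι false q.2)⁻¹, b (dl 1)⟫_ℂ := by
          have e1 : dl (ι false q.2)⁻¹ = star (lamL (ι false q.2)) (dl (1 : Γ)) := by
            rw [star_lamL, lamL_dl, mul_one]
          rw [e1, ContinuousLinearMap.star_eq_adjoint, ContinuousLinearMap.adjoint_inner_left]
          rfl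
        rw [e]
        refine LS_supp _ hb ?_
        rintro ⟨k, hk, hk2⟩
        refine hK q hq ?_
        have : q.2 = k⁻¹ := by
          apply h2 false
          rw [map_inv, hk2, inv_inv]
        rw [this]
        exact K.inv_mem hk)
      rw [List.map_map] at h
      exact h

end Pool.Agent.Helper784QA
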