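import Pool.Agent.Helper784QA.R6
import Pool.Agent.Helper784QA.P1
import Pool.Agent.Helper784QA.P2
import Pool.Agent.Helper784QA.P3
import Pool.Agent.Helper784QA.GN
import Pool.Agent.Helper784QW.Asm
import Pool.Agent.Helper418_Sofic.BMain

/-!
# Assembly (MP_f0269b_an)
-/

set_option autoImplicit false

open scoped InnerProductSpace ComplexOrder ENNReal

namespace Pool.Agent.Helper784QA

open Pool.Agent.Helper784QW Filter Topology Helper418 Helper418HL

/-- the amalgamated free product of two copies of `GB` over `KB` is not hyperlinear -/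
theorem amalgam_not_hyp {Γ : Type} [Group Γ] [Countable Γ] (ι : Bool → GB →* Γ)
    (h3 : ∀ k ∈ KB, ι false k = ι true k)
    (h6 : ∀ w : List (Bool × GB), w ≠ [] → w.IsChain (fun p q => p.1 ≠ q.1) → (∀ p ∈ w, p.2 ∉ KB) →
      ∀ k ∈ KB, (w.map fun p => ι p.1 p.2).prod ≠ ι false k) : ¬ Hyperlinear Γ := by
  intro h
  obtain ⟨M, hM⟩ := mdl_of_hyp h (hyperfilter_le_cofinite (α := ℕ))
  have hd : dG ∉ KB := by
    intro hd
    apply uG_not_mem
    exact KB.mul_mem (KB.mul_mem (KB.inv_mem hd) eG_mem) hd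
  have hdP : dG ∈ PB := fun l => (closure_lift kG _).1 (dB_conj l)
  have hclS : Subgroup.closure (Set.range fun i => ι false (sG' i)) = (ι false).range := by
    have e : (Set.range fun i => ι false (sG' i)) = (ι false) '' Set.range sG' := by
      rw [← Set.range_comp]; rfl
    rw [e, ← MonoidHom.map_closure, sG'_closure, ← MonoidHom.range_eq_map]
  have hclK : Subgroup.closure (Set.range fun i => ι false (kG i)) = KB.map (ι false) := by
    have e : (Set.range fun i => ι false (kG i)) = (ι false) '' Set.range kG := by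
      rw [← Set.range_comp]; rfl
    rw [e, ← MonoidHom.map_closure]
    rfl
  have hne : (ι false dG * (ι true dG)⁻¹) * ι false eG * (ι false dG * (ι true dG)⁻¹)⁻¹ *
      (ι false eG)⁻¹ ≠ 1 := by
    intro hc
    refine h6 [(false, dG), (true, dG⁻¹ * eG * dG), (false, dG⁻¹ * eG⁻¹)] (by simp) (by simp) ?_ 1
      KB.one_mem ?_
    · intro p hp
      simp only [List.mem_cons, List.not_mem_nil, or_false] at hp
      rcases hp with rfl | rfl | rfl
      · exact hd
      · exact uG_not_mem
      · intro hp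
        apply hd
        have h1 : dG⁻¹ ∈ KB := by
          have := KB.mul_mem hp eG_mem
          rwa [inv_mul_cancel_right] at this
        have := KB.inv_mem h1
        rwa [inv_inv] at this
    · simp only [List.map_cons, List.map_nil, List.prod_cons, List.prod_nil, mul_one, map_one,
        map_mul, map_inv]
      rw [← h3 eG eG_mem]
      rw [← hc]
      group
  refine no_model2 (H := Γ) (Alg2.tsystem_map sG'_tsystem (ι false))
    (Alg2.tsystem_map kG_tsystem (ι false)) ?_ ((ι false) '' PB) ?_ ?_ ?_ (v := ι false dG)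
    (z := ι false dG * (ι true dG)⁻¹) (w := ι false eG) ⟨dG, hdP, rfl⟩ ?_ ?_
    (hyperfilter_le_cofinite (α := ℕ)) M one_pos ?_
  · intro j
    rw [hclS]
    exact ⟨_, rfl⟩
  · rw [hclS]
    rintro _ ⟨v, -, rfl⟩
    exact ⟨v, rfl⟩
  · intro i
    rw [← MonoidHom.map_closure, PB_closure]
    exact ⟨sG' i, trivial, rfl⟩
  · rintro _ ⟨v, hv, rfl⟩ j
    rw [hclK]
    exact ⟨v * kG j * v⁻¹, hv j, by simp⟩
  · intro j
    have h1 : ι false (dG * kG j * dG⁻¹) = ι true (dG * kG j * dG⁻¹) := h3 _ (hdP j)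
    have h2 : ι false (kG j) = ι true (kG j) := h3 _ (Subgroup.subset_closure ⟨j, rfl⟩)
    rw [← map_inv (ι false), ← map_mul, ← map_mul]
    show _ * _ = _ * _
    have e1 : (ι true dG)⁻¹ * ι false (dG * kG j * dG⁻¹) = ι false (kG j) * (ι true dG)⁻¹ := by
      rw [h1, h2, map_mul, map_mul, map_inv]
      group
    rw [mul_assoc, e1, ← mul_assoc, map_mul, map_mul, map_inv]
    group
  · rw [hclK]
    exact ⟨eG, eG_mem, rfl⟩
  · filter_upwards [hM _ hne] with n hn
    rw [one_mul]
    exact hn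

theorem GB_RF' : ResiduallyFinite GB := GB_RF

theorem KB_RF : ResiduallyFinite KB := by
  intro g hg
  obtain ⟨Q, i1, i2, f, hf⟩ := GB_RF (g : GB) (fun h => hg (Subtype.ext h))
  exact ⟨Q, i1, i2, f.comp KB.subtype, hf⟩

theorem main : ∃ (H : Type) (_ : NormedAddCommGroup H) (_ : InnerProductSpace ℂ H)
    (_ : CompleteSpace H) (A B : VonNeumannAlgebra H) (ξ : H),
    TopologicalSpace.SeparableSpace H ∧ IsTracial A ξ ∧ (∀ x ∈ B, x ∈ A) ∧
    QWEP (A : Set (H →L[ℂ] H)) ∧ QWEP (B : Set (H →L[ℂ] H)) ∧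
    (∃ (L : Type) (_ : NormedAddCommGroup L) (_ : InnerProductSpace ℂ L) (_ : CompleteSpace L)
      (M : VonNeumannAlgebra L) (η : L) (j : Bool → (H →L[ℂ] H) → (L →L[ℂ] L)), IsAmalgam A B ξ M η j) ∧
    ∀ (L : Type) (_ : NormedAddCommGroup L) (_ : InnerProductSpace ℂ L) (_ : CompleteSpace L)
      (M : VonNeumannAlgebra L) (η : L) (j : Bool → (H →L[ℂ] H) → (L →L[ℂ] L)), IsAmalgam A B ξ M η j →
      ¬ QWEP (M : Set (L →L[ℂ] L)) := by
  obtain ⟨Γ, iΓ, ι, σ, hc, h2, h3, h4, h5, h6, h7⟩ := exists_amalgam GB KB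
  haveI := hc
  have hB : KB.map (ι false) = ((ι false).comp KB.subtype).range := by
    rw [MonoidHom.range_comp, Subgroup.range_subtype]
  have hle : KB.map (ι false) ≤ (ι false).range := Subgroup.map_le_range _ _
  refine ⟨L2N Γ, inferInstance, inferInstance, inferInstance, LS (ι false).range, LS (KB.map (ι false)),
    dl 1, ?_, LS_tracial _, fun x hx => LS_mono hle hx, qwep_LS _ (h2 false) GB_RF', ?_, ?_, ?_⟩
  · rw [← TopologicalSpace.isSeparable_univ_iff]
    have h1 : TopologicalSpace.IsSeparable (Set.range (dl : Γ → L2N Γ)) :=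
      (Set.countable_range _).isSeparable
    have h2 := (h1.span (R := ℂ)).closure
    have h3 : closure (Submodule.span ℂ (Set.range (dl : Γ → L2N Γ)) : Set (L2N Γ)) = Set.univ := by
      rw [← Submodule.topologicalClosure_coe, span_dl, Submodule.top_coe]
    rwa [h3] at h2
  · rw [hB]
    refine qwep_LS _ ?_ KB_RF
    rw [MonoidHom.coe_comp]
    exact (h2 false).comp (Subgroup.subtype_injective _)
  · obtain ⟨j, hj⟩ := amalgam_LN KB ι σ h2 h3 h4 h5 h6
    exact ⟨L2N Γ, inferInstance, inferInstance, inferInstance, LN Γ, dl 1, j, hj⟩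
  · intro L i1 i2 i3 M η j hj hQ
    exact amalgam_not_hyp ι h3 h6 (hyperlinear_of_amalgam specK KB ι h2 h5 h7 M η j hj hQ)

end Pool.Agent.Helper784QA
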