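import Pool.Agent.Helper784QA.D0

/-!
JOB QA-GC (owner helper784, MP_f0269b_an). Properties of the conditional expectation `I.E` (Helper418_HL/Defs.lean) and its values on a partition of
unity by projections. Copy from origin/main: Pool/Agent/Helper784QA/D0.lean, Pool/Agent/Helper418_HL/, Pool/Agent/Helper418_Sofic/, Pool/Agent/W*/RC/.

HINTS. Existing: `pyth`, `hs_E`, `E_mem`, `E_mul`, `mul_E`, `E_contr`, `HS5.E_adj` (trace ((I.E a)ᴴ * y) = trace (aᴴ * I.E y)), HC2 (signs).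
* `E_of_mem`: I.span. `E_one` from it. `E_star`: I.E xᴴ and (I.E x)ᴴ are both in A and have the same trace against all a ∈ A (or hs of the difference
  is 0 through E_adj). `E_psd`: p = I.E x is hermitian; if not PSD, for a ∈ A: tr (aᴴ * I.E x * a) = tr (aᴴ x a) ≥ 0 for all a ∈ A, and for a hermitian
  element of A nonnegative on A its negative part is in A (Helper418HL.HS3.eig_nonneg / HC1 have similar arguments; or: v : vector, use
  `I.E x = b - c` with b, c ∈ A PSD, b*c = 0 by functional calculus, take a = c).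
* `pov_exists`: y j = I.E (c j). With D = (∑ j, hs (c j - y j)) / d ... `hD` gives close. tr (y j * y j) = hs (y j) = tr (c j * y j) (E_adj), tr (y j) = tr (c j)
  since 1 ∈ A. hs (c j - y j) = tr (c j) - tr (y j * y j), hence `sq`.
  `l1`: c - y = c(1-y) - (1-c)y. Let b, b' PSD with b*b = 1 - y, b'*b' = y (exists_sqrt; 0 ≤ y ≤ 1 because ∑ y = 1).
  |tr (c(1-y)Z)| = |tr ((c b) (b Z c))| ≤ √hs(c b) √hs(b Z c) ≤ √(tr (c(1-y))) √(tr c), |tr ((1-c) y Z)| ≤ √hs((1-c) b') √hs(b' Z) ≤ √(tr((1-c)y)) √(tr y),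
  and tr (c(1-y)) = tr ((1-c)y) = hs (c - y). Sum over j with Cauchy-Schwarz (Finset.sum_mul_le_sqrt_mul_sqrt or inner_mul_le_norm_mul_norm), ∑ tr (c j) = d.
* `sign_sum`: as HC2 (`HC2.exists_sign`, `en_sum_le`) for the quadratic form x ↦ hs (x - I.E x), which satisfies the parallelogram law.
-/

set_option autoImplicit false

namespace Pool.Agent.Helper784QA

open Matrix Filter Topology Pool.Agent.W661.RC Pool.Agent.W683.RC Helper418HL
open scoped ComplexOrder

variable {d : ℕ} {A : StarSubalgebra ℂ (Mt d)}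

/-- TARGETS -/
theorem E_one (I : Idx A) : I.E 1 = 1 := E_id I (one_mem A)

theorem GC_zero (I : Idx A) : I.E 0 = 0 := E_id I (zero_mem A)

theorem GC_sum (I : Idx A) {ι : Type*} (s : Finset ι) (f : ι → Mt d) :
    I.E (∑ j ∈ s, f j) = ∑ j ∈ s, I.E (f j) := by
  classical
  induction s using Finset.induction_on with
  | empty => rw [Finset.sum_empty, Finset.sum_empty, GC_zero]
  | insert a s ha ih => rw [Finset.sum_insert ha, Finset.sum_insert ha, E_add, ih]

theorem E_star (I : Idx A) (x : Mt d) : (I.E x)ᴴ = I.E xᴴ := by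
  have h : ∀ a ∈ A, trace (aᴴ * (I.E x)ᴴ) = trace (aᴴ * I.E xᴴ) := by
    intro a ha
    rw [HS3.trace_E I ha]
    have h1 := HS3.trace_E I (HS3.star_mem' ha) x
    rw [Matrix.conjTranspose_conjTranspose] at h1
    rw [← Matrix.conjTranspose_mul, ← Matrix.conjTranspose_mul, Matrix.trace_conjTranspose,
      Matrix.trace_conjTranspose, Matrix.trace_mul_comm, h1, Matrix.trace_mul_comm]
  have hz : (I.E x)ᴴ - I.E xᴴ ∈ A := sub_mem (HS3.star_mem' (E_mem I x)) (E_mem I xᴴ)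
  have h2 := h _ hz
  have h3 : trace (((I.E x)ᴴ - I.E xᴴ)ᴴ * ((I.E x)ᴴ - I.E xᴴ)) = 0 := by
    rw [Matrix.mul_sub, Matrix.trace_sub, h2, sub_self]
  have h4 : hs ((I.E x)ᴴ - I.E xᴴ) = 0 := by
    rw [hs_eq, h3]; rfl
  exact sub_eq_zero.1 (hs_eq_zero_iff.1 h4)

theorem E_psd (I : Idx A) {x : Mt d} (hx : x.PosSemidef) : (I.E x).PosSemidef := by
  refine HS3.psd_of_tests (E_mem I x) ?_ ?_
  · have h := E_star I x
    rw [hx.1.eq] at h
    exact h
  · intro b hb
    have hbb : b * bᴴ ∈ A := mul_mem hb (HS3.star_mem' hb)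
    have h1 := HS3.trace_E I hbb x
    rw [Matrix.conjTranspose_mul, Matrix.conjTranspose_conjTranspose] at h1
    have h2 : ∀ z : Mt d, tr (bᴴ * z * b) = (trace (b * bᴴ * z)).re := by
      intro z
      unfold tr
      rw [Matrix.trace_mul_comm, ← Matrix.mul_assoc]
    rw [h2, h1, ← h2]
    exact tr_nonneg (hx.conjTranspose_mul_mul_same b)

theorem GC_par (I : Idx A) (x y : Mt d) :
    hs (x + y - I.E (x + y)) + hs (x - y - I.E (x - y))
      = 2 * hs (x - I.E x) + 2 * hs (y - I.E y) := by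
  rw [← HC2.hs_par, E_add, E_sub]
  congr 2 <;> abel

theorem GC_sign (I : Idx A) : ∀ (N : ℕ) (x : Mt d) (c : Fin N → Mt d),
    ∃ σ : Fin N → ℂ, (∀ j, σ j = 1 ∨ σ j = -1) ∧
      hs (x - I.E x) + ∑ j, hs (c j - I.E (c j))
        ≤ hs (x + ∑ j, σ j • c j - I.E (x + ∑ j, σ j • c j)) := by
  intro N
  induction N with
  | zero => intro x c; exact ⟨fun _ => 1, fun _ => Or.inl rfl, by simp⟩
  | succ N ih =>
    intro x c
    have hp := GC_par I x (c 0)
    have hex : ∃ τ : ℂ, (τ = 1 ∨ τ = -1) ∧ hs (x - I.E x) + hs (c 0 - I.E (c 0))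
        ≤ hs (x + τ • c 0 - I.E (x + τ • c 0)) := by
      by_cases h : hs (x - I.E x) + hs (c 0 - I.E (c 0)) ≤ hs (x + c 0 - I.E (x + c 0))
      · exact ⟨1, Or.inl rfl, by rwa [one_smul]⟩
      · refine ⟨-1, Or.inr rfl, ?_⟩
        rw [neg_smul, one_smul, ← sub_eq_add_neg]
        push Not at h
        linarith
    obtain ⟨τ, hτ, h1⟩ := hex
    obtain ⟨σ, hσ, h2⟩ := ih (x + τ • c 0) (fun j => c j.succ)
    refine ⟨Fin.cons τ σ, ?_, ?_⟩
    · intro j
      refine Fin.cases ?_ (fun i => ?_) j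
      · simpa using hτ
      · simpa using hσ i
    · rw [Fin.sum_univ_succ, Fin.sum_univ_succ]
      simp only [Fin.cons_zero, Fin.cons_succ]
      rw [← add_assoc, ← add_assoc]
      exact (add_le_add_left h1 _).trans h2

theorem sign_sum (I : Idx A) {N : ℕ} (c : Fin N → Mt d) (D : ℝ)
    (h : ∀ σ : Fin N → ℂ, (∀ j, σ j = 1 ∨ σ j = -1) → hs (∑ j, σ j • c j - I.E (∑ j, σ j • c j)) ≤ D) :
    ∑ j, hs (c j - I.E (c j)) ≤ D := by
  obtain ⟨σ, hσ, h1⟩ := GC_sign I N 0 c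
  have h2 : hs ((0 : Mt d) - I.E 0) = 0 := by rw [GC_zero, sub_zero, hs_zero]
  rw [h2, zero_add, zero_add] at h1
  exact h1.trans (h σ hσ)

/-- the basic identity -/
theorem GC_tr (I : Idx A) {c : Mt d} (hc : IsPr c) :
    tr (I.E c) = tr c ∧ tr (c * I.E c) = tr (I.E c * I.E c) ∧
      hs (c - I.E c) = tr c - tr (I.E c * I.E c) := by
  have hy : (I.E c)ᴴ = I.E c := by rw [E_star, hc.1]
  have h1 : tr (I.E c) = tr c := by
    have := HS3.trace_E I (one_mem A) c
    rw [Matrix.conjTranspose_one, Matrix.one_mul, Matrix.one_mul] at this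
    unfold tr
    rw [this]
  have h2 : tr (c * I.E c) = tr (I.E c * I.E c) := by
    have := HS3.trace_E I (E_mem I c) c
    rw [hy] at this
    rw [tr_mul_comm]
    unfold tr
    rw [this]
  refine ⟨h1, h2, ?_⟩
  rw [hs_eq_tr, Matrix.conjTranspose_sub, hc.1, hy, Matrix.sub_mul, Matrix.mul_sub, Matrix.mul_sub,
    tr_sub, tr_sub, tr_sub, hc.2, tr_mul_comm (I.E c) c, h2]
  ring

theorem GC_term (I : Idx A) {c : Mt d} (hc : IsPr c) {Z : Mt d} (hZ : Le (Zᴴ * Z) 1) :
    |tr ((c - I.E c) * Z)| ≤ 2 * (√(hs (c - I.E c)) * √(tr c)) := by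
  obtain ⟨h1, h2, h3⟩ := GC_tr I hc
  have hc' := pr_compl hc
  have hyp : (I.E c).PosSemidef := E_psd I (pr_psd hc)
  have hyp' : (1 - I.E c).PosSemidef := by
    have := E_psd I (pr_psd hc')
    rwa [E_sub, E_one] at this
  obtain ⟨b, hb, hbb⟩ := exists_sqrt hyp'
  obtain ⟨b', hb', hbb'⟩ := exists_sqrt hyp
  have hbh : bᴴ = b := hb.1
  have hbh' : b'ᴴ = b' := hb'.1
  have hbc : Le (bᴴ * b) 1 := by
    rw [hbh, ← hbb]
    unfold Le
    rw [sub_sub_cancel]
    exact hyp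
  have e : (c - I.E c) * Z = c * (1 - I.E c) * Z - (1 - c) * I.E c * Z := by
    noncomm_ring
  -- first part
  have p1 : |tr (c * (1 - I.E c) * Z)| ≤ √(hs (c - I.E c)) * √(tr c) := by
    have q1 : tr (c * (1 - I.E c) * Z) = tr ((c * b) * (b * (Z * c))) := by
      have q2 : (c * b) * (b * (Z * c)) = (c * (b * b) * Z) * c := by
        simp only [Matrix.mul_assoc]
      rw [q2, tr_mul_comm (c * (b * b) * Z) c, ← hbb, ← Matrix.mul_assoc, ← Matrix.mul_assoc, hc.2]
    have q3 : hs (c * b) = hs (c - I.E c) := by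
      rw [hs_eq_tr', Matrix.conjTranspose_mul, hc.1, hbh]
      have q4 : c * b * (b * c) = c * (b * b) * c := by simp only [Matrix.mul_assoc]
      rw [q4, ← hbb, tr_mul_comm, ← Matrix.mul_assoc, hc.2, Matrix.mul_sub, Matrix.mul_one, tr_sub,
        h2, h3]
    have q5 : hs (b * (Z * c)) ≤ tr c := by
      refine (hs_mul_le hbc _).trans ((hs_mul_le hZ _).trans (le_of_eq ?_))
      rw [hs_eq_tr, hc.1, hc.2]
    rw [q1]
    refine (abs_tr_mul_le _ _).trans ?_
    rw [q3]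
    exact mul_le_mul_of_nonneg_left (Real.sqrt_le_sqrt q5) (Real.sqrt_nonneg _)
  have p2 : |tr ((1 - c) * I.E c * Z)| ≤ √(hs (c - I.E c)) * √(tr c) := by
    have q1 : (1 - c) * I.E c * Z = ((1 - c) * b') * (b' * Z) := by
      rw [hbb']
      simp only [Matrix.mul_assoc]
    have q3 : hs ((1 - c) * b') = hs (c - I.E c) := by
      rw [hs_eq_tr', Matrix.conjTranspose_mul, hc'.1, hbh']
      have q4 : (1 - c) * b' * (b' * (1 - c)) = (1 - c) * (b' * b') * (1 - c) := by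
        simp only [Matrix.mul_assoc]
      rw [q4, ← hbb', tr_mul_comm, ← Matrix.mul_assoc, hc'.2, Matrix.sub_mul, Matrix.one_mul,
        tr_sub, h2, h3, h1]
    have q5 : hs (b' * Z) ≤ tr c := by
      refine (hs_mul_le_right hZ _).trans (le_of_eq ?_)
      rw [hs_eq_tr, hbh', ← hbb', h1]
    rw [q1]
    refine (abs_tr_mul_le _ _).trans ?_
    rw [q3]
    exact mul_le_mul_of_nonneg_left (Real.sqrt_le_sqrt q5) (Real.sqrt_nonneg _)
  rw [e, tr_sub]
  rw [abs_le] at p1 p2 ⊢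
  constructor <;> linarith [p1.1, p1.2, p2.1, p2.2]

theorem pov_exists (I : Idx A) {N : ℕ} (c : Fin N → Mt d) (hpr : ∀ j, IsPr (c j))
    (horth : ∀ i j, i ≠ j → c i * c j = 0) (hsum : ∑ j, c j = 1) (D : ℝ) (hD : 0 ≤ D)
    (h : ∑ j, hs (c j - I.E (c j)) ≤ D * d) : Pov A c (fun j => I.E (c j)) D := by
  refine ⟨hpr, horth, hsum, fun j => E_mem I _, fun j => E_psd I (pr_psd (hpr j)), ?_, hD,
    fun j => (GC_tr I (hpr j)).1, h, ?_, ?_⟩
  · rw [← GC_sum, hsum, E_one]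
  · refine le_trans (le_of_eq ?_) h
    refine Finset.sum_congr rfl fun j _ => ?_
    obtain ⟨h1, h2, h3⟩ := GC_tr I (hpr j)
    rw [tr_sub, h1, h3]
  · intro Z hZ
    have h1 : ∑ j, |tr ((c j - I.E (c j)) * Z j)|
        ≤ ∑ j, 2 * (√(hs (c j - I.E (c j))) * √(tr (c j))) :=
      Finset.sum_le_sum fun j _ => GC_term I (hpr j) (hZ j)
    refine h1.trans ?_
    rw [← Finset.mul_sum]
    have h2 := Real.sum_sqrt_mul_sqrt_le Finset.univ (f := fun j => hs (c j - I.E (c j)))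
      (g := fun j => tr (c j)) (fun j => hs_nonneg _) (fun j => tr_nonneg (pr_psd (hpr j)))
    have h3 : ∑ j, tr (c j) = d := by rw [← tr_sum, hsum, tr_one]
    rw [h3] at h2
    have h4 : √(∑ j, hs (c j - I.E (c j))) ≤ √D * √(d : ℝ) := by
      rw [← Real.sqrt_mul hD]
      exact Real.sqrt_le_sqrt h
    have h5 : √(d : ℝ) * √(d : ℝ) = d := Real.mul_self_sqrt (Nat.cast_nonneg d)
    have h6 := mul_le_mul_of_nonneg_right h4 (Real.sqrt_nonneg (d : ℝ))
    have h7 : √D * √(d : ℝ) * √(d : ℝ) = √D * d := by rw [mul_assoc, h5]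
    rw [h7] at h6
    have h8 := h2.trans h6
    linarith

end Pool.Agent.Helper784QA
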