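import Pool.Agent.Helper784QA.GF0

/-!
JOB QA-GF (owner helper784, MP_f0269b_an). Weighted levels and the localised comparison. Copy from origin/main: Pool/Agent/Helper784QA/D0.lean,
Pool/Agent/Helper418_HL/, Pool/Agent/Helper418_Sofic/, Pool/Agent/W*/RC/.

HINTS. `exists_LvC`, `LvC.tr_le`, `LvC.q_props`: copy the proofs of `exists_Lv`, `Lv.tr_le`, `Lv.q_props`, `rr_le`, `le_rr` of Helper418_HL/HS8.lean
(weight c in place of 1: tr (c * 1) = tr c ≥ tr c / 2, tr (c * 0) = 0 ≤ tr c / 2).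
`cmp_lv`: `cmp_loc` (job QA-GF0, statement at the end of this file's import, given) with e_j = P_j(i+1), f_j = 1 - P_j(i), s_j = (m_j(i+1))⁻¹, t_j = m_j(i),
θ = a⁻¹, as in `Lv.cmp` of HS8.
-/

set_option autoImplicit false

namespace Pool.Agent.Helper784QA

open Matrix Filter Topology Pool.Agent.W661.RC Pool.Agent.W683.RC Helper418HL
open scoped ComplexOrder
open Helper418HL.HS8

variable {d : ℕ} {A : StarSubalgebra ℂ (Mt d)}

/-- TARGETS -/
theorem exists_LvC (I : Idx A) (a : ℝ) (ha : 1 < a) (c : Mt d) (hc : c.PosSemidef) : Nonempty (LvC I a c) := by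
  classical
  have ha0 : 0 < a := by linarith
  obtain ⟨p, h1, h2, h3, h4, h5, h6, ⟨t0, ht0, hp0⟩, ⟨T, hT⟩⟩ :=
    spec_proj A I.w I.w_psd I.w_mem I.w_com ⟨I.r * I.r, I.rrw⟩
  have hc0 : 0 ≤ tr c := tr_nonneg hc
  have hex : ∃ j : ℕ, tr (c * p (t0 * a ^ (j + 1))) ≤ tr c / 2 := by
    obtain ⟨j, hj⟩ := pow_unbounded_of_one_lt (T / t0) ha
    refine ⟨j, ?_⟩
    have : p (t0 * a ^ (j + 1)) = 0 := by
      apply hT
      have h7 : T / t0 ≤ a ^ (j + 1) := hj.le.trans (pow_le_pow_right₀ ha.le (Nat.le_succ j))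
      rw [div_le_iff₀ ht0] at h7
      linarith
    rw [this, Matrix.mul_zero, tr_zero]
    positivity
  let j0 := Nat.find hex
  have hj0 : tr (c * p (t0 * a ^ (j0 + 1))) ≤ tr c / 2 := Nat.find_spec hex
  have hj1 : tr c / 2 ≤ tr (c * p (t0 * a ^ j0)) := by
    rcases Nat.eq_zero_or_pos j0 with h | h
    · rw [h, pow_zero, mul_one, hp0, Matrix.mul_one]
      linarith
    · have := Nat.find_min hex (m := j0 - 1) (by omega)
      have e : j0 - 1 + 1 = j0 := by omega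
      rw [e] at this
      linarith
  have hm : ∀ i : ℤ, 0 < t0 * a ^ ((j0 : ℤ) + 1 + i) := fun i => mul_pos ht0 (zpow_pos ha0 _)
  refine ⟨⟨fun i => t0 * a ^ ((j0 : ℤ) + 1 + i), fun i => p (t0 * a ^ ((j0 : ℤ) + 1 + i)), hm,
    ?_, fun i => h1 _, fun i => h2 _, fun i => h3 _, ?_, fun i => h5 _, fun i => h6 _, ?_, ?_⟩⟩
  · intro i
    have e : (j0 : ℤ) + 1 + (i + 1) = ((j0 : ℤ) + 1 + i) + 1 := by ring
    simp only [e]
    rw [zpow_add_one₀ ha0.ne']
    ring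
  · intro i j hij
    apply h4
    have := zpow_le_zpow_right₀ ha.le (show (j0 : ℤ) + 1 + i ≤ (j0 : ℤ) + 1 + j by omega)
    exact mul_le_mul_of_nonneg_left this ht0.le
  · have e : (j0 : ℤ) + 1 + 0 = ((j0 + 1 : ℕ) : ℤ) := by push_cast; ring
    simp only [e, zpow_natCast]
    exact hj0
  · have e : (j0 : ℤ) + 1 + (-1) = ((j0 : ℕ) : ℤ) := by ring
    simp only [e, zpow_natCast]
    exact hj1

theorem LvC.weight_le {I : Idx A} {a : ℝ} {c : Mt d} (hc : c.PosSemidef) (L : LvC I a c) {i j : ℤ} (h : i ≤ j) :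
    tr (c * L.P j) ≤ tr (c * L.P i) :=
  Le_mul_tr (pr_le (L.pr j) (L.pr i) (L.mono i j h)) hc

theorem LvC.geo' {I : Idx A} {a : ℝ} {c : Mt d} (L : LvC I a c) (i : ℤ) (k : ℕ) : L.m (i + k) = a ^ k * L.m i := by
  induction k with
  | zero => simp
  | succ k ih =>
    have e : i + ((k + 1 : ℕ) : ℤ) = (i + k) + 1 := by push_cast; ring
    rw [e, L.geo, ih, pow_succ]
    ring

theorem LvC.q_props {I : Idx A} {a : ℝ} {c : Mt d} (L : LvC I a c) {i j : ℤ} (hij : i ≤ j) :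
    IsPr (L.P i - L.P j) ∧ (L.P i - L.P j) ∈ A ∧
    (∀ x ∈ A, x * (L.P i - L.P j) = (L.P i - L.P j) * x) ∧
    Le (I.r * I.r * (L.P i - L.P j)) ((((L.m i)⁻¹ : ℝ) : ℂ) • (L.P i - L.P j)) ∧
    Le (L.P i - L.P j) ((L.m j : ℂ) • (I.r * I.r * (L.P i - L.P j))) := by
  have hpr : IsPr (L.P i - L.P j) := pr_sub (L.pr j) (L.pr i) (L.mono i j hij)
  have hmem : (L.P i - L.P j) ∈ A := A.sub_mem (L.mem i) (L.mem j)
  have hq1 : L.P i * (L.P i - L.P j) = L.P i - L.P j := by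
    rw [Matrix.mul_sub, (L.pr i).2, L.mono i j hij]
  have hq2 : (1 - L.P j) * (L.P i - L.P j) = L.P i - L.P j := by
    rw [Matrix.sub_mul, Matrix.one_mul, Matrix.mul_sub, pr_mul_symm (L.pr j) (L.pr i) (L.mono i j hij), (L.pr j).2, sub_self, sub_zero]
  have hwq : I.w * (L.P i - L.P j) = (L.P i - L.P j) * I.w := (I.w_com _ hmem).symm
  refine ⟨hpr, hmem, ?_, rr_le I hmem (L.pos i) ?_, le_rr I hmem ?_⟩
  · intro x hx
    rw [Matrix.mul_sub, Matrix.sub_mul, L.com i x hx, L.com j x hx]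
  · have h := Le_conj (L.lo i) (L.P i - L.P j)
    rw [hpr.1] at h
    have e1 : (L.P i - L.P j) * ((L.m i : ℂ) • L.P i) * (L.P i - L.P j) =
        (L.m i : ℂ) • (L.P i - L.P j) := by
      rw [Matrix.mul_smul, Matrix.smul_mul, Matrix.mul_assoc, hq1, hpr.2]
    have e2 : (L.P i - L.P j) * (I.w * L.P i) * (L.P i - L.P j) = I.w * (L.P i - L.P j) := by
      rw [Matrix.mul_assoc, Matrix.mul_assoc, hq1, ← Matrix.mul_assoc, ← hwq, Matrix.mul_assoc,
        hpr.2]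
    rwa [e1, e2] at h
  · have h := Le_conj (L.hi j) (L.P i - L.P j)
    rw [hpr.1] at h
    have e1 : (L.P i - L.P j) * ((L.m j : ℂ) • (1 - L.P j)) * (L.P i - L.P j) =
        (L.m j : ℂ) • (L.P i - L.P j) := by
      rw [Matrix.mul_smul, Matrix.smul_mul, Matrix.mul_assoc, hq2, hpr.2]
    have e2 : (L.P i - L.P j) * (I.w * (1 - L.P j)) * (L.P i - L.P j) = I.w * (L.P i - L.P j) := by
      rw [Matrix.mul_assoc, Matrix.mul_assoc, hq2, ← Matrix.mul_assoc, ← hwq, Matrix.mul_assoc,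
        hpr.2]
    rwa [e1, e2] at h

/-- comparison of two consecutive levels -/
theorem cmp_lv (I : Idx A) (V : Mt d) (hV : Vᴴ * V = 1) (δ : ℝ)
    (hinc : ∀ b ∈ A, Le (bᴴ * b) 1 → ∃ b' ∈ A, hs (b - V * b' * Vᴴ) ≤ δ * d)
    {N : ℕ} (y c : Fin N → Mt d) (hy : ∀ j, (y j).PosSemidef) (hyA : ∀ j, y j ∈ A) (hy1 : ∑ j, y j = 1)
    {a : ℝ} (L : ∀ j, LvC I a (c j)) (i : ℤ) :
    (1 - a⁻¹) * ∑ j, tr ((y j * (L j).P (i + 1)) * (y j * (L j).P (i + 1)) * (V * (1 - (L j).P i) * Vᴴ)) ≤ δ * d :=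
  cmp_loc I V hV δ hinc y (fun j => (L j).P (i + 1)) (fun j => 1 - (L j).P i) hy hyA hy1
    (fun j => (L j).pr _) (fun j => (L j).mem _) (fun j => (L j).com _)
    (fun j => pr_compl ((L j).pr i)) (fun j => one_sub_mem ((L j).mem i))
    (fun j => com_one_sub ((L j).com i)) (fun j => ((L j).m (i + 1))⁻¹) (fun j => (L j).m i) a⁻¹
    (fun j => inv_nonneg.2 ((L j).pos _).le) (fun j => ((L j).pos i).le)
    (fun j => by
      rw [(L j).geo, mul_inv, mul_assoc, inv_mul_cancel₀ ((L j).pos i).ne', mul_one])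
    (fun j => rr_le I ((L j).mem _) ((L j).pos _) ((L j).lo _)) (fun j => (L j).hi i)

end Pool.Agent.Helper784QA

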