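import Pool.Agent.Helper784QA.D0

set_option autoImplicit false

namespace Pool.Agent.Helper784QA

open Matrix Filter Topology Pool.Agent.W661.RC Pool.Agent.W683.RC Helper418HL
open scoped ComplexOrder

variable {d : ℕ} {A : StarSubalgebra ℂ (Mt d)}

namespace GF0

theorem exists_sign : ∀ (N : ℕ) (x : Mt d) (c : Fin N → Mt d),
    ∃ σ : Fin N → ℝ, (∀ j, σ j = 1 ∨ σ j = -1) ∧
      hs x + ∑ j, hs (c j) ≤ hs (x + ∑ j, (σ j : ℂ) • c j) := by
  intro N
  induction N with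
  | zero => intro x c; exact ⟨fun _ => 1, fun _ => Or.inl rfl, by simp⟩
  | succ N ih =>
    intro x c
    have hp := HC2.hs_par x (c 0)
    have hex : ∃ τ : ℝ, (τ = 1 ∨ τ = -1) ∧ hs x + hs (c 0) ≤ hs (x + (τ : ℂ) • c 0) := by
      by_cases h : hs x + hs (c 0) ≤ hs (x + c 0)
      · exact ⟨1, Or.inl rfl, by rwa [Complex.ofReal_one, one_smul]⟩
      · refine ⟨-1, Or.inr rfl, ?_⟩
        rw [Complex.ofReal_neg, Complex.ofReal_one, neg_smul, one_smul, ← sub_eq_add_neg]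
        push Not at h
        linarith
    obtain ⟨τ, hτ, h1⟩ := hex
    obtain ⟨σ, hσ, h2⟩ := ih (x + (τ : ℂ) • c 0) (fun j => c j.succ)
    refine ⟨Fin.cons τ σ, ?_, ?_⟩
    · intro j
      refine Fin.cases ?_ (fun i => ?_) j
      · simpa using hτ
      · simpa using hσ i
    · rw [Fin.sum_univ_succ, Fin.sum_univ_succ]
      simp only [Fin.cons_zero, Fin.cons_succ]
      rw [← add_assoc, ← add_assoc]
      exact (add_le_add_left h1 _).trans h2

/-- the upper bound for the double sum -/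
theorem upper (I : Idx A) {V : Mt d} (hV : Vᴴ * V = 1) {e f a : Mt d}
    (hf : IsPr f) (hfc : ∀ x ∈ A, x * f = f * x) (ha : aᴴ = a) (hea : e * a = a) {s t : ℝ}
    (ht0 : 0 ≤ t) (hes : Le (I.r * I.r * e) ((s : ℂ) • e)) (hft : Le (I.w * f) ((t : ℂ) • f)) :
    ∑ l, ∑ i, ‖trace ((I.b i * I.r)ᴴ * ((V * I.b l * Vᴴ) * (V * f * Vᴴ) * a))‖ ^ 2 ≤
      s * t * tr (a * a * (V * f * Vᴴ)) := by
  have hr : (I.r)ᴴ = I.r := I.r_psd.1
  have hF : IsPr (V * f * Vᴴ) := by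
    refine ⟨by rw [HS4.conj_conj, hf.1], by rw [HS4.conj_mul_conj hV, hf.2]⟩
  set F := V * f * Vᴴ with hFdef
  -- step 1
  have h1 : ∀ l, ∑ i, ‖trace ((I.b i * I.r)ᴴ * ((V * I.b l * Vᴴ) * F * a))‖ ^ 2 ≤
      hs ((V * I.b l * Vᴴ) * F * a * I.r) := by
    intro l
    have h2 : ∑ i, ‖trace ((I.b i * I.r)ᴴ * ((V * I.b l * Vᴴ) * F * a))‖ ^ 2 =
        hs (I.E ((V * I.b l * Vᴴ) * F * a * I.r)) := by
      rw [hs_E]
      refine Finset.sum_congr rfl fun i _ => ?_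
      rw [Matrix.conjTranspose_mul, hr, Matrix.mul_assoc I.r, Matrix.trace_mul_comm I.r,
        Matrix.mul_assoc ((I.b i)ᴴ)]
    rw [h2]
    exact HS4.hs_E_le I _
  refine (Finset.sum_le_sum fun l _ => h1 l).trans ?_
  -- step 2
  have h3 : ∑ l, hs ((V * I.b l * Vᴴ) * F * a * I.r) =
      tr ((a * I.r)ᴴ * (F * (V * I.w * Vᴴ) * F) * (a * I.r)) := by
    have h4 : ∀ l, hs ((V * I.b l * Vᴴ) * F * a * I.r) =
        tr ((a * I.r)ᴴ * (F * (V * ((I.b l)ᴴ * I.b l) * Vᴴ) * F) * (a * I.r)) := by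
      intro l
      rw [hs_eq_tr, ← HS4.conj_mul_conj hV ((I.b l)ᴴ), ← HS4.conj_conj, Matrix.mul_assoc _ a I.r,
        Matrix.conjTranspose_mul _ (a * I.r), Matrix.conjTranspose_mul _ F, hF.1]
      simp only [Matrix.mul_assoc]
    rw [Finset.sum_congr rfl fun l _ => h4 l, ← tr_sum, I.w_eq']
    congr 1
    simp only [Finset.mul_sum, Finset.sum_mul]
  rw [h3]
  have h5 : Le (F * (V * I.w * Vᴴ) * F) ((t : ℂ) • F) := by
    have h6 : F * (V * I.w * Vᴴ) * F = V * (I.w * f) * Vᴴ := by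
      rw [hFdef, HS4.conj_mul_conj hV, HS4.conj_mul_conj hV, ← hfc I.w I.w_mem,
        Matrix.mul_assoc I.w, hf.2]
    have h7 : (t : ℂ) • F = V * ((t : ℂ) • f) * Vᴴ := by
      rw [Matrix.mul_smul, Matrix.smul_mul]
    rw [h6, h7]
    exact Le_conj' hft V
  have h8 := Le_tr (Le_conj h5 (a * I.r))
  refine h8.trans ?_
  have h9 : tr ((a * I.r)ᴴ * ((t : ℂ) • F) * (a * I.r)) =
      t * tr (F * (a * (I.r * I.r * e) * aᴴ)) := by
    rw [Matrix.mul_smul, Matrix.smul_mul, tr_smul, tr_mul_comm, ← Matrix.mul_assoc, tr_mul_comm,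
      Matrix.conjTranspose_mul, hr, ha]
    congr 3
    calc a * I.r * (I.r * a) = a * (I.r * I.r) * a := by simp only [Matrix.mul_assoc]
      _ = a * (I.r * I.r) * (e * a) := by rw [hea]
      _ = _ := by simp only [Matrix.mul_assoc]
  rw [h9]
  have h11 := Le_mul_tr (Le_conj' hes a) (pr_psd hF)
  have h12 : tr (F * (a * ((s : ℂ) • e) * aᴴ)) = s * tr (a * a * F) := by
    rw [Matrix.mul_smul, Matrix.smul_mul, Matrix.mul_smul, tr_smul, ha, Matrix.mul_assoc a e a,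
      hea, tr_mul_comm F]
  rw [h12] at h11
  calc t * tr (F * (a * (I.r * I.r * e) * aᴴ)) ≤ t * (s * tr (a * a * F)) :=
        mul_le_mul_of_nonneg_left h11 ht0
    _ = s * t * tr (a * a * F) := by ring

/-- the lower bound -/
theorem lower (I : Idx A) {V : Mt d} (hV : Vᴴ * V = 1)
    {a f : Mt d} (ha : aᴴ = a) (hf : IsPr f) (hfA : f ∈ A)
    {u : Mt d} (hu : uᴴ * u = 1) :
    tr (a * a * (V * f * Vᴴ)) ≤ hs (Vᴴ * (u * a) * V - I.E (Vᴴ * (u * a) * V)) +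
      ∑ l, ‖trace (uᴴ * ((V * I.b l * Vᴴ) * (V * f * Vᴴ) * a))‖ ^ 2 := by
  have hV' : V * Vᴴ = 1 := unit_symm hV
  have hF : IsPr (V * f * Vᴴ) := by
    refine ⟨by rw [HS4.conj_conj, hf.1], by rw [HS4.conj_mul_conj hV, hf.2]⟩
  set F := V * f * Vᴴ with hFdef
  have h1 : ∑ l, ‖trace (uᴴ * ((V * I.b l * Vᴴ) * F * a))‖ ^ 2 =
      hs (I.E (Vᴴ * (u * a * F) * V)) := by
    rw [hs_E]
    refine Finset.sum_congr rfl fun l _ => ?_
    have h2 : trace (uᴴ * ((V * I.b l * Vᴴ) * F * a)) =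
        star (trace ((I.b l)ᴴ * (Vᴴ * (u * a * F) * V))) := by
      rw [← Matrix.trace_conjTranspose]
      have h3 : ((I.b l)ᴴ * (Vᴴ * (u * a * F) * V))ᴴ = Vᴴ * F * (a * uᴴ * V * I.b l) := by
        simp only [Matrix.conjTranspose_mul, Matrix.conjTranspose_conjTranspose, ha, hF.1]
        simp only [Matrix.mul_assoc]
      rw [h3, Matrix.trace_mul_comm (Vᴴ * F)]
      have h4 : a * uᴴ * V * I.b l * (Vᴴ * F) = a * (uᴴ * ((V * I.b l * Vᴴ) * F)) := by
        simp only [Matrix.mul_assoc]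
      rw [h4, Matrix.trace_mul_comm a]
      simp only [Matrix.mul_assoc]
    rw [h2, norm_star]
  rw [h1]
  have h5 := HS4.hs_sub_E_le I (Vᴴ * (u * a * F) * V)
    (A.mul_mem (E_mem I (Vᴴ * (u * a) * V)) hfA)
  have h6 : hs (Vᴴ * (u * a * F) * V) = tr (a * a * F) := by
    rw [hs_mul_unit hV, hs_unit_mul (unit_conj hV), Matrix.mul_assoc, hs_unit_mul hu, hs_eq_tr',
      Matrix.conjTranspose_mul, ha, hF.1, Matrix.mul_assoc, ← Matrix.mul_assoc F F, hF.2,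
      ← Matrix.mul_assoc, tr_mul_comm, ← Matrix.mul_assoc]
  have h7 : Vᴴ * (u * a * F) * V = Vᴴ * (u * a) * V * f := by
    calc Vᴴ * (u * a * F) * V = Vᴴ * (u * a) * V * f * (Vᴴ * V) := by
          rw [hFdef]; simp only [Matrix.mul_assoc]
      _ = _ := by rw [hV, Matrix.mul_one]
  have h8 : hs (Vᴴ * (u * a * F) * V - I.E (Vᴴ * (u * a) * V) * f) ≤
      hs (Vᴴ * (u * a) * V - I.E (Vᴴ * (u * a) * V)) := by
    rw [h7, ← Matrix.sub_mul]
    exact hs_mul_pr_le_self hf _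
  rw [h6] at h5
  linarith

theorem E_smul (I : Idx A) (c : ℂ) (x : Mt d) : I.E (c • x) = c • I.E x := by
  unfold Idx.E
  rw [Finset.smul_sum]
  refine Finset.sum_congr rfl fun i _ => ?_
  rw [Matrix.mul_smul, Matrix.trace_smul, smul_eq_mul, mul_smul]

theorem E_sum (I : Idx A) {ι : Type} (s : Finset ι) (x : ι → Mt d) :
    I.E (∑ j ∈ s, x j) = ∑ j ∈ s, I.E (x j) := by
  classical
  induction s using Finset.induction_on with
  | empty => simp [Idx.E]
  | insert j s hj ih => rw [Finset.sum_insert hj, Finset.sum_insert hj, E_add, ih]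

/-- a Hermitian matrix between `-1` and `1` is a contraction -/
theorem contr_of {h : Mt d} (hh : hᴴ = h) (h1 : Le h 1) (h2 : Le (-h) 1) : Le (hᴴ * h) 1 := by
  have hp : (((1 / 2 : ℝ) : ℂ) • (1 + h)).PosSemidef := by
    refine psd_smul ?_ (by norm_num)
    have : (1 + h : Mt d) = 1 - (-h) := by abel
    rw [this]; exact h2
  have hq : Le (((1 / 2 : ℝ) : ℂ) • (1 + h)) 1 := by
    unfold Le
    have : (1 : Mt d) - ((1 / 2 : ℝ) : ℂ) • (1 + h) = ((1 / 2 : ℝ) : ℂ) • (1 - h) := by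
      rw [smul_add, smul_sub]
      have h3 : (1 : Mt d) = ((1 / 2 : ℝ) : ℂ) • (1 : Mt d) + ((1 / 2 : ℝ) : ℂ) • (1 : Mt d) := by
        rw [← add_smul, ← Complex.ofReal_add]; norm_num
      nth_rewrite 1 [h3]
      abel
    rw [this]
    exact psd_smul h1 (by norm_num)
  have h3 := sq_le_self hp hq
  unfold Le at h3 ⊢
  have h4 : (1 : Mt d) - hᴴ * h = ((4 : ℝ) : ℂ) • (((1 / 2 : ℝ) : ℂ) • (1 + h) -
      ((1 / 2 : ℝ) : ℂ) • (1 + h) * ((1 / 2 : ℝ) : ℂ) • (1 + h)) := by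
    rw [hh, Matrix.smul_mul, Matrix.mul_smul, smul_sub, smul_smul, smul_smul, smul_smul]
    have e1 : ((4 : ℝ) : ℂ) * ((1 / 2 : ℝ) : ℂ) = 2 := by push_cast; norm_num
    have e2 : (2 : ℂ) * ((1 / 2 : ℝ) : ℂ) = 1 := by
      push_cast; norm_num
    rw [e1, e2, one_smul, two_smul]
    noncomm_ring
  rw [h4]
  exact psd_smul h3 (by norm_num)

end GF0

open GF0 in
/-- TARGET. The sum of the traces in the lower bound below is over all `j`; `θ` bounds all `s j * t j` -/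
theorem cmp_loc (I : Idx A) (V : Mt d) (hV : Vᴴ * V = 1) (δ : ℝ)
    (hinc : ∀ b ∈ A, Le (bᴴ * b) 1 → ∃ b' ∈ A, hs (b - V * b' * Vᴴ) ≤ δ * d)
    {N : ℕ} (y e f : Fin N → Mt d) (hy : ∀ j, (y j).PosSemidef) (hyA : ∀ j, y j ∈ A) (hy1 : ∑ j, y j = 1)
    (he : ∀ j, IsPr (e j)) (heA : ∀ j, e j ∈ A) (hec : ∀ j, ∀ x ∈ A, x * e j = e j * x)
    (hf : ∀ j, IsPr (f j)) (hfA : ∀ j, f j ∈ A) (hfc : ∀ j, ∀ x ∈ A, x * f j = f j * x)
    (s t : Fin N → ℝ) (θ : ℝ) (hs0 : ∀ j, 0 ≤ s j) (ht0 : ∀ j, 0 ≤ t j) (hθ : ∀ j, s j * t j ≤ θ)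
    (hes : ∀ j, Le (I.r * I.r * e j) ((s j : ℂ) • e j)) (hft : ∀ j, Le (I.w * f j) ((t j : ℂ) • f j)) :
    (1 - θ) * ∑ j, tr ((y j * e j) * (y j * e j) * (V * f j * Vᴴ)) ≤ δ * d := by
  have _ := hs0
  obtain ⟨a, haj⟩ : ∃ a : Fin N → Mt d, ∀ j, a j = y j * e j := ⟨_, fun _ => rfl⟩
  have haA : ∀ j, a j ∈ A := fun j => by rw [haj]; exact A.mul_mem (hyA j) (heA j)
  have hah : ∀ j, (a j)ᴴ = a j := by
    intro j
    rw [haj, Matrix.conjTranspose_mul, (hy j).1.eq, (he j).1, ← hec j _ (hyA j)]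
  have hea : ∀ j, e j * a j = a j := by
    intro j
    rw [haj, hec j _ (hyA j), ← Matrix.mul_assoc, (he j).2]
  have hapsd : ∀ j, (a j).PosSemidef := by
    intro j
    have h1 : a j = (e j) * y j * (e j)ᴴ := by
      rw [(he j).1, ← hec j _ (hyA j), Matrix.mul_assoc, (he j).2, haj]
    rw [h1]
    exact (hy j).mul_mul_conjTranspose_same (e j)
  have hale : ∀ j, Le (a j) (y j) := by
    intro j
    unfold Le
    have h1 : y j - a j = (1 - e j) * y j * (1 - e j)ᴴ := by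
      rw [(pr_compl (he j)).1, Matrix.sub_mul, Matrix.one_mul, Matrix.mul_sub, Matrix.mul_one,
        Matrix.sub_mul, Matrix.mul_assoc (e j) (y j) (e j), ← haj, hea, ← hec j _ (hyA j), ← haj]
      abel
    rw [h1]
    exact (hy j).mul_mul_conjTranspose_same (1 - e j)
  obtain ⟨u, huA, hu, h1⟩ := HS5.avg_lo' I
    (fun q : Fin N × Fin I.N => (V * I.b q.2 * Vᴴ) * (V * f q.1 * Vᴴ) * a q.1)
  rw [Fintype.sum_prod_type, Fintype.sum_prod_type] at h1
  dsimp only at h1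
  have h2 : ∀ j, ∑ l, ∑ i,
      ‖trace ((I.b i * I.r)ᴴ * ((V * I.b l * Vᴴ) * (V * f j * Vᴴ) * a j))‖ ^ 2 ≤
      s j * t j * tr (a j * a j * (V * f j * Vᴴ)) := fun j =>
    upper I hV (hf j) (hfc j) (hah j) (hea j) (ht0 j) (hes j) (hft j)
  have h3 : ∀ j, tr (a j * a j * (V * f j * Vᴴ)) ≤
      hs (Vᴴ * (u * a j) * V - I.E (Vᴴ * (u * a j) * V)) +
      ∑ l, ‖trace (uᴴ * ((V * I.b l * Vᴴ) * (V * f j * Vᴴ) * a j))‖ ^ 2 := fun j =>
    lower I hV (hah j) (hf j) (hfA j) hu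
  -- the nonnegativity
  have h4 : ∀ j, 0 ≤ tr (a j * a j * (V * f j * Vᴴ)) := by
    intro j
    have h5 : (a j * a j).PosSemidef := by
      have := Matrix.posSemidef_conjTranspose_mul_self (a j)
      rwa [hah j] at this
    exact tr_mul_nonneg h5 ((pr_psd (hf j)).mul_mul_conjTranspose_same V)
  -- signs
  have h5 : ∑ j, hs (Vᴴ * (u * a j) * V - I.E (Vᴴ * (u * a j) * V)) ≤ δ * d := by
    obtain ⟨σ, hσ, h6⟩ := exists_sign N 0
      (fun j => Vᴴ * (u * a j) * V - I.E (Vᴴ * (u * a j) * V))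
    rw [hs_zero, zero_add, zero_add] at h6
    refine h6.trans ?_
    have h7 : ∑ j, (σ j : ℂ) • (Vᴴ * (u * a j) * V - I.E (Vᴴ * (u * a j) * V)) =
        Vᴴ * (u * ∑ j, (σ j : ℂ) • a j) * V - I.E (Vᴴ * (u * ∑ j, (σ j : ℂ) • a j) * V) := by
      have h8 : Vᴴ * (u * ∑ j, (σ j : ℂ) • a j) * V =
          ∑ j, (σ j : ℂ) • (Vᴴ * (u * a j) * V) := by
        rw [Finset.mul_sum, Finset.mul_sum, Finset.sum_mul]
        refine Finset.sum_congr rfl fun j _ => ?_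
        rw [Matrix.mul_smul, Matrix.mul_smul, Matrix.smul_mul]
      rw [h8, E_sum, ← Finset.sum_sub_distrib]
      refine Finset.sum_congr rfl fun j _ => ?_
      rw [E_smul, smul_sub]
    rw [h7]
    obtain ⟨c, hc⟩ : ∃ c : Mt d, c = ∑ j, (σ j : ℂ) • a j := ⟨_, rfl⟩
    rw [← hc]
    have hch : cᴴ = c := by
      rw [hc, Matrix.conjTranspose_sum]
      refine Finset.sum_congr rfl fun j _ => ?_
      rw [Matrix.conjTranspose_smul, hah j, RCLike.star_def, Complex.conj_ofReal]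
    have hcA : c ∈ A := by
      rw [hc]; exact sum_mem fun j _ => A.smul_mem (haA j) _
    have hc1 : Le c 1 := by
      rw [hc, ← hy1]
      refine Le_sum _ _ _ fun j _ => ?_
      rcases hσ j with h | h
      · rw [h, Complex.ofReal_one, one_smul]; exact hale j
      · rw [h, Complex.ofReal_neg, Complex.ofReal_one, neg_smul, one_smul]
        unfold Le
        rw [sub_neg_eq_add]
        exact (hy j).add (hapsd j)
    have hc2 : Le (-c) 1 := by
      rw [hc, ← hy1, ← Finset.sum_neg_distrib]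
      refine Le_sum _ _ _ fun j _ => ?_
      rcases hσ j with h | h
      · rw [h, Complex.ofReal_one, one_smul]
        unfold Le
        rw [sub_neg_eq_add]
        exact (hy j).add (hapsd j)
      · rw [h, Complex.ofReal_neg, Complex.ofReal_one, neg_smul, one_smul, neg_neg]
        exact hale j
    have hcc := contr_of hch hc1 hc2
    obtain ⟨b', hb'A, hb'⟩ := hinc (u * c) (A.mul_mem huA hcA) (by
      rw [Matrix.conjTranspose_mul, Matrix.mul_assoc, ← Matrix.mul_assoc uᴴ, hu, Matrix.one_mul]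
      exact hcc)
    have h9 := pyth I (Vᴴ * (u * c) * V) hb'A
    have h10 : hs (Vᴴ * (u * c) * V - b') = hs (u * c - V * b' * Vᴴ) := by
      rw [← hs_unit_mul hV (Vᴴ * (u * c) * V - b'),
        ← hs_mul_unit (unit_conj hV) (V * (Vᴴ * (u * c) * V - b'))]
      congr 1
      rw [Matrix.mul_sub, Matrix.sub_mul]
      congr 1
      calc V * (Vᴴ * (u * c) * V) * Vᴴ = (V * Vᴴ) * (u * c) * (V * Vᴴ) := by
            simp only [Matrix.mul_assoc]
        _ = _ := by rw [unit_symm hV, Matrix.one_mul, Matrix.mul_one]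
    have h11 := hs_nonneg (I.E (Vᴴ * (u * c) * V) - b')
    linarith
  -- conclusion
  have h6 : ∑ j, tr (a j * a j * (V * f j * Vᴴ)) ≤
      δ * d + θ * ∑ j, tr (a j * a j * (V * f j * Vᴴ)) := by
    calc ∑ j, tr (a j * a j * (V * f j * Vᴴ)) ≤
        ∑ j, (hs (Vᴴ * (u * a j) * V - I.E (Vᴴ * (u * a j) * V)) +
          ∑ l, ‖trace (uᴴ * ((V * I.b l * Vᴴ) * (V * f j * Vᴴ) * a j))‖ ^ 2) :=
          Finset.sum_le_sum fun j _ => h3 j
      _ = ∑ j, hs (Vᴴ * (u * a j) * V - I.E (Vᴴ * (u * a j) * V)) +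
          ∑ j, ∑ l, ‖trace (uᴴ * ((V * I.b l * Vᴴ) * (V * f j * Vᴴ) * a j))‖ ^ 2 :=
          Finset.sum_add_distrib
      _ ≤ δ * d + ∑ j, s j * t j * tr (a j * a j * (V * f j * Vᴴ)) :=
          add_le_add h5 (h1.trans (Finset.sum_le_sum fun j _ => h2 j))
      _ ≤ δ * d + ∑ j, θ * tr (a j * a j * (V * f j * Vᴴ)) := by
          refine add_le_add_right (Finset.sum_le_sum fun j _ => ?_) _
          exact mul_le_mul_of_nonneg_right (hθ j) (h4 j)
      _ = _ := by rw [Finset.mul_sum]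
  have h7 : ∑ j, tr ((y j * e j) * (y j * e j) * (V * f j * Vᴴ)) =
      ∑ j, tr (a j * a j * (V * f j * Vᴴ)) :=
    Finset.sum_congr rfl fun j _ => by rw [haj]
  rw [h7]
  linarith

end Pool.Agent.Helper784QA
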