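import Pool.Agent.Helper784QA.S0

/-!
JOB QA-R0 (owner helper784, MP_f0269b_an). Completely positive maps between algebras B(K), B(L): Kadison-Schwarz and the
multiplicative domain.
-/

set_option autoImplicit false
set_option linter.unusedSectionVars false

open scoped InnerProductSpace ComplexOrder ENNReal

namespace Pool.Agent.Helper784QA

open Pool.Agent.Helper784QW Filter Topology

variable {K : Type} [NormedAddCommGroup K] [InnerProductSpace ℂ K] [CompleteSpace K]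
variable {L : Type} [NormedAddCommGroup L] [InnerProductSpace ℂ L] [CompleteSpace L]

namespace R0

lemma cp_one_pos {Ψ : (K →L[ℂ] K) →ₗ[ℂ] (L →L[ℂ] L)} (hΨ : IsCP Ψ) (T : K →L[ℂ] K) (η : L) :
    0 ≤ ⟪η, Ψ (star T * T) η⟫_ℂ := by
  have h := hΨ 1 (fun _ => T) (fun _ => η)
  simpa using h

lemma cp_two {Ψ : (K →L[ℂ] K) →ₗ[ℂ] (L →L[ℂ] L)} (hΨ : IsCP Ψ) (T0 T1 : K →L[ℂ] K) (a b : L) :
    0 ≤ (⟪a, Ψ (star T0 * T0) a⟫_ℂ + ⟪a, Ψ (star T0 * T1) b⟫_ℂ) +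
      (⟪b, Ψ (star T1 * T0) a⟫_ℂ + ⟪b, Ψ (star T1 * T1) b⟫_ℂ) := by
  have h := hΨ 2 ![T0, T1] ![a, b]
  simpa [Fin.sum_univ_two] using h

lemma cp_three {Ψ : (K →L[ℂ] K) →ₗ[ℂ] (L →L[ℂ] L)} (hΨ : IsCP Ψ) (T0 T1 T2 : K →L[ℂ] K)
    (a b c : L) :
    0 ≤ (⟪a, Ψ (star T0 * T0) a⟫_ℂ + ⟪a, Ψ (star T0 * T1) b⟫_ℂ + ⟪a, Ψ (star T0 * T2) c⟫_ℂ) +
      (⟪b, Ψ (star T1 * T0) a⟫_ℂ + ⟪b, Ψ (star T1 * T1) b⟫_ℂ + ⟪b, Ψ (star T1 * T2) c⟫_ℂ) +
      (⟪c, Ψ (star T2 * T0) a⟫_ℂ + ⟪c, Ψ (star T2 * T1) b⟫_ℂ + ⟪c, Ψ (star T2 * T2) c⟫_ℂ) := by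
  have h := hΨ 3 ![T0, T1, T2] ![a, b, c]
  simpa [Fin.sum_univ_three] using h

/-- the sum of the mixed terms is real -/
lemma cross_im {Ψ : (K →L[ℂ] K) →ₗ[ℂ] (L →L[ℂ] L)} (hΨ : IsCP Ψ) (T : K →L[ℂ] K) (a b : L) :
    (⟪a, Ψ (star T) b⟫_ℂ).im + (⟪b, Ψ T a⟫_ℂ).im = 0 := by
  have h := cp_two hΨ T 1 a b
  rw [mul_one, star_one, one_mul, one_mul] at h
  have h0 := cp_one_pos hΨ T a
  have h1 := cp_one_pos hΨ (1 : K →L[ℂ] K) b
  rw [star_one, one_mul] at h1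
  have e := (Complex.le_def.mp h).2
  have e0 := (Complex.le_def.mp h0).2
  have e1 := (Complex.le_def.mp h1).2
  simp only [Complex.zero_im, Complex.add_im] at e e0 e1
  linarith

end R0

open R0

/-- TARGETS -/
theorem cp_star {Ψ : (K →L[ℂ] K) →ₗ[ℂ] (L →L[ℂ] L)} (hΨ : IsCP Ψ) (T : K →L[ℂ] K) :
    Ψ (star T) = star (Ψ T) := by
  refine ContinuousLinearMap.ext fun b => ext_inner_left ℂ fun a => ?_
  rw [ContinuousLinearMap.star_eq_adjoint (Ψ T), ContinuousLinearMap.adjoint_inner_right,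
    ← inner_conj_symm (Ψ T a) b]
  have h1 := cross_im hΨ T a b
  have h2 := cross_im hΨ T a (Complex.I • b)
  rw [map_smul, inner_smul_right, inner_smul_left] at h2
  simp only [Complex.conj_I, Complex.mul_im, Complex.I_re, Complex.I_im, Complex.neg_re,
    Complex.neg_im] at h2
  apply Complex.ext
  · simp only [Complex.conj_re]
    linarith
  · simp only [Complex.conj_im]
    linarith

theorem cp_ks {Ψ : (K →L[ℂ] K) →ₗ[ℂ] (L →L[ℂ] L)} (hΨ : IsCP Ψ) (h1 : Ψ 1 = 1) (T : K →L[ℂ] K) (η : L) :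
    ‖Ψ T η‖ ^ 2 ≤ (⟪η, Ψ (star T * T) η⟫_ℂ).re := by
  have h := cp_two hΨ T 1 η (-(Ψ T η))
  rw [mul_one, star_one, one_mul, one_mul, h1, cp_star hΨ T, one_apply_eq_self,
    ContinuousLinearMap.star_eq_adjoint (Ψ T), ContinuousLinearMap.adjoint_inner_right] at h
  simp only [inner_neg_right, inner_neg_left, neg_neg] at h
  have e := (Complex.le_def.mp h).1
  simp only [Complex.zero_re, Complex.add_re, Complex.neg_re] at e
  have e2 : (⟪Ψ T η, Ψ T η⟫_ℂ).re = ‖Ψ T η‖ ^ 2 := by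
    rw [inner_self_eq_norm_sq_to_K]
    norm_cast
  linarith

theorem cp_norm {Ψ : (K →L[ℂ] K) →ₗ[ℂ] (L →L[ℂ] L)} (hΨ : IsCP Ψ) (h1 : Ψ 1 = 1) (T : K →L[ℂ] K) :
    ‖Ψ T‖ ≤ ‖T‖ := by
  have h0 : star T * T ≤ algebraMap ℝ (K →L[ℂ] K) (‖T‖ ^ 2) :=
    CStarAlgebra.star_mul_le_algebraMap_norm_sq
  rw [← sub_nonneg, CStarAlgebra.nonneg_iff_eq_star_mul_self] at h0
  obtain ⟨R, hR⟩ := h0
  have hc : algebraMap ℝ (K →L[ℂ] K) (‖T‖ ^ 2) = ((‖T‖ ^ 2 : ℝ) : ℂ) • (1 : K →L[ℂ] K) := by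
    rw [Algebra.algebraMap_eq_smul_one]
    rfl
  refine ContinuousLinearMap.opNorm_le_bound _ (norm_nonneg _) fun η => ?_
  have h2 := cp_one_pos hΨ R η
  rw [← hR, hc, map_sub, map_smul, h1, sub_apply,
    smul_apply, one_apply_eq_self, inner_sub_right,
    inner_smul_right] at h2
  have e := (Complex.le_def.mp h2).1
  have h3 := cp_ks hΨ h1 T η
  have e2 : (⟪η, η⟫_ℂ).re = ‖η‖ ^ 2 := by
    rw [inner_self_eq_norm_sq_to_K]
    norm_cast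
  rw [Complex.sub_re, Complex.re_ofReal_mul, e2, Complex.zero_re] at e
  have h4 : ‖Ψ T η‖ ^ 2 ≤ (‖T‖ * ‖η‖) ^ 2 := by
    rw [mul_pow]; linarith
  exact le_of_sq_le_sq h4 (by positivity)

theorem md_mul {Ψ : (K →L[ℂ] K) →ₗ[ℂ] (L →L[ℂ] L)} (hΨ : IsCP Ψ) (h1 : Ψ 1 = 1) {x : K →L[ℂ] K}
    (hx : Ψ (star x * x) = star (Ψ x) * Ψ x) (T : K →L[ℂ] K) : Ψ (T * x) = Ψ T * Ψ x := by
  refine ContinuousLinearMap.ext fun ζ => ext_inner_left ℂ fun η => ?_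
  rw [← sub_eq_zero]
  set D : ℂ := ⟪η, Ψ (T * x) ζ⟫_ℂ - ⟪η, (Ψ T * Ψ x) ζ⟫_ℂ with hD
  set a : L := star (Ψ T) η with ha
  set b : L := Ψ x ζ with hb
  have hTa : ∀ w : L, ⟪η, Ψ T w⟫_ℂ = ⟪a, w⟫_ℂ := fun w => by
    rw [ha, ContinuousLinearMap.star_eq_adjoint, ContinuousLinearMap.adjoint_inner_left]
  have hxb : ∀ w : L, ⟪ζ, star (Ψ x) w⟫_ℂ = ⟪b, w⟫_ℂ := fun w => by
    rw [hb, ContinuousLinearMap.star_eq_adjoint, ContinuousLinearMap.adjoint_inner_right]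
  have key : ∀ t : ℝ, 0 ≤ (⟪η, Ψ (T * star T) η⟫_ℂ).re - ‖a‖ ^ 2 - 2 * t * ‖D‖ ^ 2 := by
    intro t
    set c : ℂ := -(t : ℂ) * (starRingEnd ℂ) D with hc
    have h := cp_three hΨ (star T) x 1 η (c • ζ) (-(a + c • b))
    have e0 : Ψ (star x * star T) = star (Ψ (T * x)) := by rw [← star_mul, cp_star hΨ]
    have e1 : ⟪η, Ψ (T * x) ζ⟫_ℂ = D + ⟪a, b⟫_ℂ := by
      rw [hD, mul_apply_eq_comp, ← hb, hTa]
      ring
    have e2 : ⟪ζ, star (Ψ (T * x)) η⟫_ℂ = (starRingEnd ℂ) D + ⟪b, a⟫_ℂ := by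
      rw [ContinuousLinearMap.star_eq_adjoint, ContinuousLinearMap.adjoint_inner_right,
        ← inner_conj_symm, e1, map_add, inner_conj_symm]
    have e3 : ⟪ζ, (star (Ψ x) * Ψ x) ζ⟫_ℂ = ⟪b, b⟫_ℂ := by
      rw [mul_apply_eq_comp, hxb]
    rw [star_star, mul_one, mul_one, star_one, one_mul, one_mul, one_mul, h1, e0, hx, cp_star hΨ,
      cp_star hΨ, map_smul, map_smul, map_smul, ← ha, ← hb, one_apply_eq_self, hTa,
      inner_smul_left, inner_smul_left, inner_smul_left, hxb, e2, inner_smul_right,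
      inner_smul_right, e1, e3] at h
    simp only [inner_neg_right, inner_neg_left, inner_add_right, inner_add_left, inner_smul_left,
      inner_smul_right] at h
    have e4 : c * D = ((-(t * ‖D‖ ^ 2) : ℝ) : ℂ) := by
      rw [hc, mul_assoc, mul_comm _ D, Complex.mul_conj, Complex.normSq_eq_norm_sq]
      push_cast
      ring
    have e5 : (starRingEnd ℂ) c * (starRingEnd ℂ) D = ((-(t * ‖D‖ ^ 2) : ℝ) : ℂ) := by
      rw [← map_mul, e4, Complex.conj_ofReal]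
    have e6 : ⟪a, a⟫_ℂ = ((‖a‖ ^ 2 : ℝ) : ℂ) := by
      rw [inner_self_eq_norm_sq_to_K]
      norm_cast
    have e7 : (0 : ℂ) ≤ ⟪η, Ψ (T * star T) η⟫_ℂ - ⟪a, a⟫_ℂ + c * D +
        (starRingEnd ℂ) c * (starRingEnd ℂ) D := by
      convert h using 1
      ring
    rw [e4, e5, e6] at e7
    have e8 := (Complex.le_def.mp e7).1
    simp only [Complex.zero_re, Complex.add_re, Complex.sub_re, Complex.ofReal_re] at e8
    linarith
  by_contra hne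
  have hpos : 0 < ‖D‖ ^ 2 := by positivity
  set M : ℝ := (⟪η, Ψ (T * star T) η⟫_ℂ).re - ‖a‖ ^ 2 with hM
  have h := key ((M + 1) / ‖D‖ ^ 2)
  have h0 := key 0
  have e : 2 * ((M + 1) / ‖D‖ ^ 2) * ‖D‖ ^ 2 = 2 * (M + 1) := by
    field_simp
  rw [e] at h
  linarith

theorem md_alg {Ψ : (K →L[ℂ] K) →ₗ[ℂ] (L →L[ℂ] L)} (hΨ : IsCP Ψ) (h1 : Ψ 1 = 1)
    (C : StarSubalgebra ℂ (K →L[ℂ] K)) (hC : IsClosed (C : Set (K →L[ℂ] K))) :
    ∃ S : StarSubalgebra ℂ (K →L[ℂ] K), IsClosed (S : Set (K →L[ℂ] K)) ∧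
      ∀ x, x ∈ S ↔ x ∈ C ∧ Ψ (star x * x) = star (Ψ x) * Ψ x ∧ Ψ (x * star x) = Ψ x * star (Ψ x) := by
  have hL : ∀ x, Ψ (star x * x) = star (Ψ x) * Ψ x → ∀ T, Ψ (T * x) = Ψ T * Ψ x :=
    fun x hx T => md_mul hΨ h1 hx T
  have hR : ∀ x, Ψ (x * star x) = Ψ x * star (Ψ x) → ∀ T, Ψ (x * T) = Ψ x * Ψ T := by
    intro x hx T
    have h := md_mul hΨ h1 (x := star x) (by rw [star_star, cp_star hΨ, star_star, hx]) (star T)
    have h2 := congrArg star h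
    rw [← cp_star hΨ, star_mul, star_star, star_star, star_mul, cp_star hΨ, cp_star hΨ, star_star,
      star_star] at h2
    exact h2
  have hiff : ∀ x, (Ψ (star x * x) = star (Ψ x) * Ψ x ∧ Ψ (x * star x) = Ψ x * star (Ψ x)) ↔
      ((∀ T, Ψ (T * x) = Ψ T * Ψ x) ∧ ∀ T, Ψ (x * T) = Ψ x * Ψ T) := by
    intro x
    constructor
    · rintro ⟨h, h'⟩
      exact ⟨hL x h, hR x h'⟩
    · rintro ⟨h, h'⟩
      exact ⟨by rw [h, cp_star hΨ], by rw [h', cp_star hΨ]⟩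
  let Ψc : (K →L[ℂ] K) →L[ℂ] (L →L[ℂ] L) := Ψ.mkContinuous 1 (fun T => by
    rw [one_mul]; exact cp_norm hΨ h1 T)
  have hcont : Continuous (fun T => Ψ T) := Ψc.continuous
  refine ⟨{ carrier := {x | x ∈ C ∧ ((∀ T, Ψ (T * x) = Ψ T * Ψ x) ∧ ∀ T, Ψ (x * T) = Ψ x * Ψ T)}
            mul_mem' := ?_
            add_mem' := ?_
            algebraMap_mem' := ?_
            star_mem' := ?_ }, ?_, ?_⟩
  · rintro x y ⟨hx, hx1, hx2⟩ ⟨hy, hy1, hy2⟩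
    refine ⟨mul_mem hx hy, fun T => ?_, fun T => ?_⟩
    · rw [← mul_assoc, hy1, hx1, hy1, mul_assoc]
    · rw [mul_assoc, hx2, hy2, hx2, mul_assoc]
  · rintro x y ⟨hx, hx1, hx2⟩ ⟨hy, hy1, hy2⟩
    refine ⟨add_mem hx hy, fun T => ?_, fun T => ?_⟩
    · rw [mul_add, map_add, map_add, mul_add, hx1, hy1]
    · rw [add_mul, map_add, map_add, add_mul, hx2, hy2]
  · intro r
    refine ⟨algebraMap_mem C r, fun T => ?_, fun T => ?_⟩
    · rw [Algebra.algebraMap_eq_smul_one, mul_smul_comm, mul_one, map_smul, map_smul, h1,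
        mul_smul_comm, mul_one]
    · rw [Algebra.algebraMap_eq_smul_one, smul_mul_assoc, one_mul, map_smul, map_smul, h1,
        smul_mul_assoc, one_mul]
  · rintro x ⟨hx, hx1, hx2⟩
    refine ⟨star_mem hx, fun T => ?_, fun T => ?_⟩
    · have h := congrArg star (hx2 (star T))
      rw [← cp_star hΨ, star_mul, star_star, star_mul, ← cp_star hΨ, ← cp_star hΨ, star_star] at h
      exact h
    · have h := congrArg star (hx1 (star T))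
      rw [← cp_star hΨ, star_mul, star_star, star_mul, ← cp_star hΨ, ← cp_star hΨ, star_star] at h
      exact h
  · have he : {x | x ∈ C ∧ ((∀ T, Ψ (T * x) = Ψ T * Ψ x) ∧ ∀ T, Ψ (x * T) = Ψ x * Ψ T)} =
        (C : Set (K →L[ℂ] K)) ∩ ((⋂ T, {x | Ψ (T * x) = Ψ T * Ψ x}) ∩
          ⋂ T, {x | Ψ (x * T) = Ψ x * Ψ T}) := by
      ext x
      simp only [Set.mem_ofPred_eq, Set.mem_inter_iff, SetLike.mem_coe, Set.mem_iInter]
    show IsClosed {x | x ∈ C ∧ ((∀ T, Ψ (T * x) = Ψ T * Ψ x) ∧ ∀ T, Ψ (x * T) = Ψ x * Ψ T)}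
    rw [he]
    refine hC.inter ((isClosed_iInter fun T => ?_).inter (isClosed_iInter fun T => ?_))
    · exact isClosed_eq (hcont.comp (continuous_const.mul continuous_id))
        (continuous_const.mul hcont)
    · exact isClosed_eq (hcont.comp (continuous_id.mul continuous_const))
        (hcont.mul continuous_const)
  · intro x
    show (x ∈ C ∧ ((∀ T, Ψ (T * x) = Ψ T * Ψ x) ∧ ∀ T, Ψ (x * T) = Ψ x * Ψ T)) ↔ _
    rw [← hiff]

end Pool.Agent.Helper784QA
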