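import Pool.Agent.Helper784QA.S1

/-!
# Block-diagonal operators: the expectation onto the block-diagonal operators
-/

set_option autoImplicit false

open scoped InnerProductSpace ComplexOrder ENNReal

namespace Pool.Agent.Helper784QA

open Pool.Agent.Helper784QW Filter Topology

variable (F : ℕ → Type) [∀ n, Fintype (F n)]

open Classical in
theorem blk_dl (n m : ℕ) (a : F m) : blk F n (dl ⟨m, a⟩) = if n = m then dl ⟨m, a⟩ else 0 := by
  by_cases h : n = m
  · subst h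
    rw [if_pos rfl]
    unfold blk
    rw [Submodule.starProjection_eq_self_iff]
    exact Submodule.subset_span ⟨a, rfl⟩
  · rw [if_neg h]
    unfold blk
    rw [Submodule.starProjection_apply_eq_zero_iff, Submodule.mem_orthogonal]
    intro u hu
    unfold bs at hu
    induction hu using Submodule.span_induction with
    | mem x hx =>
      obtain ⟨b, rfl⟩ := hx
      show ⟪(dl ⟨n, b⟩ : KF F), dl ⟨m, a⟩⟫_ℂ = 0
      rw [inner_dl, dl_apply, if_neg]
      intro h'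
      exact h (congrArg Sigma.fst h')
    | zero => simp
    | add x y _ _ hx hy => rw [inner_add_left, hx, hy, add_zero]
    | smul c x _ hx => rw [inner_smul_left, hx, mul_zero]

lemma inner_blk (n : ℕ) (f g : KF F) : ⟪blk F n f, g⟫_ℂ = ⟪f, blk F n g⟫_ℂ :=
  Submodule.inner_starProjection_left_eq_right _ _ _

open Classical in
lemma blk_apply (n : ℕ) (f : KF F) (x : Σ n, F n) :
    (blk F n f : (Σ n, F n) → ℂ) x = if n = x.1 then (f : (Σ n, F n) → ℂ) x else 0 := by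
  obtain ⟨m, a⟩ := x
  rw [← inner_dl, ← inner_blk, blk_dl]
  split_ifs with h
  · rw [inner_dl]
  · rw [inner_zero_left]

lemma blk_apply_same (n : ℕ) (f : KF F) (a : F n) :
    (blk F n f : (Σ n, F n) → ℂ) ⟨n, a⟩ = (f : (Σ n, F n) → ℂ) ⟨n, a⟩ := by
  classical
  rw [blk_apply, if_pos rfl]

lemma blk_apply_ne (n m : ℕ) (h : n ≠ m) (f : KF F) (a : F m) :
    (blk F n f : (Σ n, F n) → ℂ) ⟨m, a⟩ = 0 := by
  classical
  rw [blk_apply, if_neg h]

lemma star_blk (n : ℕ) : star (blk F n) = blk F n := by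
  rw [ContinuousLinearMap.star_eq_adjoint]
  symm
  rw [ContinuousLinearMap.eq_adjoint_iff]
  intro u v
  exact inner_blk F n u v

lemma star_range_blk : star (Set.range (blk F)) = Set.range (blk F) := by
  ext T
  rw [Set.mem_star]
  constructor
  · rintro ⟨n, hn⟩
    exact ⟨n, by rw [← star_blk, hn, star_star]⟩
  · rintro ⟨n, rfl⟩
    exact ⟨n, by rw [star_blk]⟩

lemma coe_CB : (CB F : Set (KF F →L[ℂ] KF F)) = Set.centralizer (Set.range (blk F)) := by
  unfold CB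
  rw [StarSubalgebra.coe_centralizer, star_range_blk, Set.union_self]

theorem closed_CB : IsClosed (CB F : Set (KF F →L[ℂ] KF F)) := by
  rw [coe_CB]
  exact Set.isClosed_centralizer _

lemma ext_dl {X : Type} {S T : L2N X →L[ℂ] L2N X} (h : ∀ x, S (dl x) = T (dl x)) : S = T := by
  classical
  refine ContinuousLinearMap.ext fun f => ?_
  have h1 := lp.hasSum_single (p := 2) (by norm_num) f
  have h2 : ∀ x : X, lp.single 2 x ((f : X → ℂ) x) = (f : X → ℂ) x • dl x := by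
    intro x
    refine lp.ext (funext fun y => ?_)
    rw [lp.coeFn_smul, Pi.smul_apply, dl_apply]
    by_cases hy : y = x
    · subst hy
      rw [lp.single_apply_self]
      simp
    · rw [lp.single_apply_ne _ _ _ hy, if_neg hy]
      simp
  have hS := h1.mapL S
  have hT := h1.mapL T
  refine hS.unique ?_
  convert hT using 2 with x
  rw [h2, map_smul, map_smul, h]

theorem mem_CB (T : KF F →L[ℂ] KF F) : T ∈ CB F ↔
    ∀ n m, m ≠ n → ∀ (a : F n) (b : F m), ⟪dl (⟨m, b⟩ : Σ n, F n), T (dl ⟨n, a⟩)⟫_ℂ = 0 := by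
  classical
  rw [← SetLike.mem_coe, coe_CB, Set.mem_centralizer_iff]
  constructor
  · intro h n m hmn a b
    have h1 := congrArg (fun S : KF F →L[ℂ] KF F => S (dl ⟨n, a⟩)) (h (blk F n) ⟨n, rfl⟩)
    simp only [mul_apply_eq_comp] at h1
    rw [blk_dl, if_pos rfl] at h1
    rw [← h1, inner_dl, blk_apply_ne F n m (Ne.symm hmn)]
  · rintro h _ ⟨k, rfl⟩
    refine ext_dl fun x => ?_
    obtain ⟨n, a⟩ := x
    rw [mul_apply_eq_comp, mul_apply_eq_comp, blk_dl]
    refine lp.ext (funext fun y => ?_)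
    obtain ⟨m, b⟩ := y
    by_cases hk : k = n
    · subst hk
      rw [if_pos rfl]
      by_cases hm : m = k
      · subst hm
        rw [blk_apply_same]
      · rw [blk_apply_ne F k m (Ne.symm hm), ← inner_dl, h k m hm a b]
    · rw [if_neg hk, map_zero]
      by_cases hm : m = k
      · subst hm
        rw [blk_apply_same, ← inner_dl, h n m hk a b]
        simp
      · rw [blk_apply_ne F k m (Ne.symm hm)]
        simp

/-- the norm of a block -/
lemma norm_blk_sq (n : ℕ) (f : KF F) :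
    ‖blk F n f‖ ^ (2 : ℝ≥0∞).toReal = ∑ a : F n, ‖(f : (Σ n, F n) → ℂ) ⟨n, a⟩‖ ^ (2 : ℝ≥0∞).toReal := by
  classical
  have hp : 0 < (2 : ℝ≥0∞).toReal := by norm_num
  rw [lp.norm_rpow_eq_tsum hp]
  let e : F n ↪ (Σ n, F n) := ⟨Sigma.mk n, sigma_mk_injective⟩
  rw [tsum_eq_sum (s := Finset.univ.map e)]
  · rw [Finset.sum_map]
    refine Finset.sum_congr rfl fun a _ => ?_
    show ‖(blk F n f : (Σ n, F n) → ℂ) ⟨n, a⟩‖ ^ _ = _
    rw [blk_apply_same]
  · rintro ⟨m, a⟩ hx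
    have hm : n ≠ m := by
      rintro rfl
      exact hx (Finset.mem_map.mpr ⟨a, Finset.mem_univ _, rfl⟩)
    rw [blk_apply_ne F n m hm, norm_zero, Real.zero_rpow hp.ne']

lemma sum_block_le (n : ℕ) (f : KF F) :
    ∑ a : F n, ‖(f : (Σ n, F n) → ℂ) ⟨n, a⟩‖ ^ (2 : ℝ≥0∞).toReal ≤ ‖f‖ ^ (2 : ℝ≥0∞).toReal := by
  classical
  have hp : 0 < (2 : ℝ≥0∞).toReal := by norm_num
  let e : F n ↪ (Σ n, F n) := ⟨Sigma.mk n, sigma_mk_injective⟩
  have h := lp.sum_rpow_le_norm_rpow hp f (Finset.univ.map e)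
  rwa [Finset.sum_map] at h

lemma sum_norm_blk_le (N : Finset ℕ) (f : KF F) :
    ∑ n ∈ N, ‖blk F n f‖ ^ (2 : ℝ≥0∞).toReal ≤ ‖f‖ ^ (2 : ℝ≥0∞).toReal := by
  classical
  have hp : 0 < (2 : ℝ≥0∞).toReal := by norm_num
  have h := lp.sum_rpow_le_norm_rpow hp f (N.sigma fun _ => Finset.univ)
  rw [Finset.sum_sigma] at h
  refine le_trans (le_of_eq ?_) h
  exact Finset.sum_congr rfl fun n _ => norm_blk_sq F n f

lemma EE_bound (T : KF F →L[ℂ] KF F) (f : KF F) (s : Finset (Σ n, F n)) :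
    ∑ x ∈ s, ‖(T (blk F x.1 f) : (Σ n, F n) → ℂ) x‖ ^ (2 : ℝ≥0∞).toReal ≤
      (‖T‖ * ‖f‖) ^ (2 : ℝ≥0∞).toReal := by
  classical
  have hp : 0 < (2 : ℝ≥0∞).toReal := by norm_num
  set N : Finset ℕ := s.image Sigma.fst with hN
  have h1 : s ⊆ N.sigma fun _ => Finset.univ := by
    intro x hx
    rw [Finset.mem_sigma]
    exact ⟨Finset.mem_image_of_mem _ hx, Finset.mem_univ _⟩
  calc ∑ x ∈ s, ‖(T (blk F x.1 f) : (Σ n, F n) → ℂ) x‖ ^ (2 : ℝ≥0∞).toReal
      ≤ ∑ x ∈ N.sigma fun _ => Finset.univ,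
          ‖(T (blk F x.1 f) : (Σ n, F n) → ℂ) x‖ ^ (2 : ℝ≥0∞).toReal :=
        Finset.sum_le_sum_of_subset_of_nonneg h1 fun _ _ _ => by positivity
    _ = ∑ n ∈ N, ∑ a : F n, ‖(T (blk F n f) : (Σ n, F n) → ℂ) ⟨n, a⟩‖ ^ (2 : ℝ≥0∞).toReal := by
        rw [Finset.sum_sigma]
    _ ≤ ∑ n ∈ N, ‖T (blk F n f)‖ ^ (2 : ℝ≥0∞).toReal :=
        Finset.sum_le_sum fun n _ => sum_block_le F n _
    _ ≤ ∑ n ∈ N, ‖T‖ ^ (2 : ℝ≥0∞).toReal * ‖blk F n f‖ ^ (2 : ℝ≥0∞).toReal := by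
        refine Finset.sum_le_sum fun n _ => ?_
        rw [← Real.mul_rpow (norm_nonneg _) (norm_nonneg _)]
        exact Real.rpow_le_rpow (norm_nonneg _) (T.le_opNorm _) hp.le
    _ = ‖T‖ ^ (2 : ℝ≥0∞).toReal * ∑ n ∈ N, ‖blk F n f‖ ^ (2 : ℝ≥0∞).toReal := by
        rw [Finset.mul_sum]
    _ ≤ ‖T‖ ^ (2 : ℝ≥0∞).toReal * ‖f‖ ^ (2 : ℝ≥0∞).toReal := by
        refine mul_le_mul_of_nonneg_left (sum_norm_blk_le F N f) ?_
        positivity
    _ = (‖T‖ * ‖f‖) ^ (2 : ℝ≥0∞).toReal := by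
        rw [Real.mul_rpow (norm_nonneg _) (norm_nonneg _)]

/-- the block-diagonal part of `T` -/
noncomputable def diagOp (T : KF F →L[ℂ] KF F) : KF F →L[ℂ] KF F :=
  LinearMap.mkContinuous
    { toFun := fun f => ⟨fun x => (T (blk F x.1 f) : (Σ n, F n) → ℂ) x,
        memℓp_gen' (EE_bound F T f)⟩
      map_add' := fun f g => by
        refine lp.ext (funext fun x => ?_)
        show (T (blk F x.1 (f + g)) : (Σ n, F n) → ℂ) x = _
        rw [map_add, map_add, lp.coeFn_add, Pi.add_apply]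
        rfl
      map_smul' := fun c f => by
        refine lp.ext (funext fun x => ?_)
        show (T (blk F x.1 (c • f)) : (Σ n, F n) → ℂ) x = _
        rw [map_smul, map_smul, lp.coeFn_smul, Pi.smul_apply]
        rfl } ‖T‖ (by
    intro f
    have hp : 0 < (2 : ℝ≥0∞).toReal := by norm_num
    exact lp.norm_le_of_forall_sum_le hp (by positivity) (EE_bound F T f))

lemma diagOp_apply (T : KF F →L[ℂ] KF F) (f : KF F) (x : Σ n, F n) :
    (diagOp F T f : (Σ n, F n) → ℂ) x = (T (blk F x.1 f) : (Σ n, F n) → ℂ) x := rfl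

lemma hasSum_inner_diagOp (S : KF F →L[ℂ] KF F) (η ζ : KF F) :
    HasSum (fun n => ⟪blk F n η, S (blk F n ζ)⟫_ℂ) ⟪η, diagOp F S ζ⟫_ℂ := by
  classical
  have h1 := lp.hasSum_inner (𝕜 := ℂ) η (diagOp F S ζ)
  have h2 : ∀ n, HasSum (fun a : F n => ⟪(η : (Σ n, F n) → ℂ) ⟨n, a⟩,
      (diagOp F S ζ : (Σ n, F n) → ℂ) ⟨n, a⟩⟫_ℂ)
      (⟪blk F n η, S (blk F n ζ)⟫_ℂ) := by
    intro n
    have h3 : ⟪blk F n η, S (blk F n ζ)⟫_ℂ = ∑ a : F n, ⟪(η : (Σ n, F n) → ℂ) ⟨n, a⟩,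
        (diagOp F S ζ : (Σ n, F n) → ℂ) ⟨n, a⟩⟫_ℂ := by
      rw [lp.inner_eq_tsum]
      let e : F n ↪ (Σ n, F n) := ⟨Sigma.mk n, sigma_mk_injective⟩
      rw [tsum_eq_sum (s := Finset.univ.map e)]
      · rw [Finset.sum_map]
        refine Finset.sum_congr rfl fun a _ => ?_
        show ⟪(blk F n η : (Σ n, F n) → ℂ) ⟨n, a⟩, (S (blk F n ζ) : (Σ n, F n) → ℂ) ⟨n, a⟩⟫_ℂ = _
        rw [blk_apply_same, diagOp_apply]
      · rintro ⟨m, a⟩ hx
        have hm : n ≠ m := by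
          rintro rfl
          exact hx (Finset.mem_map.mpr ⟨a, Finset.mem_univ _, rfl⟩)
        rw [blk_apply_ne F n m hm, inner_zero_left]
    rw [h3]
    exact hasSum_fintype _
  exact h1.sigma h2

/-- the expectation onto the block-diagonal operators, as a linear map -/
noncomputable def diagL : (KF F →L[ℂ] KF F) →ₗ[ℂ] (KF F →L[ℂ] KF F) where
  toFun := diagOp F
  map_add' S T := by
    refine ContinuousLinearMap.ext fun f => lp.ext (funext fun x => ?_)
    rw [diagOp_apply, add_apply, add_apply,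
      lp.coeFn_add, lp.coeFn_add, Pi.add_apply, Pi.add_apply, diagOp_apply, diagOp_apply]
  map_smul' c T := by
    refine ContinuousLinearMap.ext fun f => lp.ext (funext fun x => ?_)
    rw [diagOp_apply, RingHom.id_apply, smul_apply,
      smul_apply, lp.coeFn_smul, lp.coeFn_smul, Pi.smul_apply, Pi.smul_apply,
      diagOp_apply]

lemma diagL_apply (T : KF F →L[ℂ] KF F) : diagL F T = diagOp F T := rfl

theorem exists_EE : ∃ EE : (KF F →L[ℂ] KF F) →ₗ[ℂ] (KF F →L[ℂ] KF F), IsCP EE ∧ (∀ T, EE T ∈ CB F) ∧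
    ∀ x ∈ CB F, EE x = x := by
  refine ⟨diagL F, ?_, ?_, ?_⟩
  · intro n T η
    have h1 : HasSum (fun k => ∑ i, ∑ j, ⟪blk F k (η i), (star (T i) * T j) (blk F k (η j))⟫_ℂ)
        (∑ i, ∑ j, ⟪η i, diagL F (star (T i) * T j) (η j)⟫_ℂ) :=
      hasSum_sum fun i _ => hasSum_sum fun j _ => hasSum_inner_diagOp F _ _ _
    have h2 : ∀ k, 0 ≤ ∑ i, ∑ j, ⟪blk F k (η i), (star (T i) * T j) (blk F k (η j))⟫_ℂ := by
      intro k
      have h3 : ∑ i, ∑ j, ⟪blk F k (η i), (star (T i) * T j) (blk F k (η j))⟫_ℂ =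
          ⟪∑ i, T i (blk F k (η i)), ∑ j, T j (blk F k (η j))⟫_ℂ := by
        rw [sum_inner]
        refine Finset.sum_congr rfl fun i _ => ?_
        rw [inner_sum]
        refine Finset.sum_congr rfl fun j _ => ?_
        rw [mul_apply_eq_comp, ContinuousLinearMap.star_eq_adjoint,
          ContinuousLinearMap.adjoint_inner_right]
      rw [h3, inner_self_eq_norm_sq_to_K]
      have : (0 : ℂ) ≤ ((‖∑ i, T i (blk F k (η i))‖ ^ 2 : ℝ) : ℂ) := by
        rw [Complex.zero_le_real]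
        positivity
      simpa using this
    have : OrderClosedTopology ℂ := Complex.orderClosedTopology
    exact h1.nonneg h2
  · intro T
    rw [mem_CB]
    intro n m hmn a b
    rw [inner_dl, diagL_apply, diagOp_apply]
    classical
    show (T (blk F m (dl ⟨n, a⟩)) : (Σ n, F n) → ℂ) ⟨m, b⟩ = 0
    rw [blk_dl, if_neg hmn, map_zero]
    simp
  · intro x hx
    rw [← SetLike.mem_coe, coe_CB, Set.mem_centralizer_iff] at hx
    refine ContinuousLinearMap.ext fun f => lp.ext (funext fun y => ?_)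
    obtain ⟨n, a⟩ := y
    rw [diagL_apply, diagOp_apply]
    have h1 := congrArg (fun S : KF F →L[ℂ] KF F => S f) (hx (blk F n) ⟨n, rfl⟩)
    simp only [mul_apply_eq_comp] at h1
    show (x (blk F n f) : (Σ n, F n) → ℂ) ⟨n, a⟩ = _
    rw [← h1, blk_apply_same]

end Pool.Agent.Helper784QA
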