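import Pool.Agent.Helper784QA.S1
import Pool.Agent.Helper784QA.R1a

/-!
JOB QA-R1b (owner helper784, MP_f0269b_an). The trace.
-/

set_option autoImplicit false

open scoped InnerProductSpace ComplexOrder ENNReal

namespace Pool.Agent.Helper784QA

open Pool.Agent.Helper784QW Filter Topology

variable (F : ℕ → Type) [∀ n, Fintype (F n)] [∀ n, Nonempty (F n)]

/-- TARGETS -/
theorem trn_star_mul (n : ℕ) (T : KF F →L[ℂ] KF F) :
    trn F n (star T * T) = (((Fintype.card (F n) : ℝ)⁻¹ * ∑ a : F n, ‖T (dl ⟨n, a⟩)‖ ^ 2 : ℝ) : ℂ) := by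
  unfold trn
  have h1 : ∀ a : F n, ⟪dl (⟨n, a⟩ : Σ n, F n), (star T * T) (dl ⟨n, a⟩)⟫_ℂ
      = ((‖T (dl ⟨n, a⟩)‖ ^ 2 : ℝ) : ℂ) := by
    intro a
    rw [mul_apply_eq_comp, ContinuousLinearMap.star_eq_adjoint,
      ContinuousLinearMap.adjoint_inner_right, inner_self_eq_norm_sq_to_K]
    push_cast
    rfl
  simp only [h1]
  push_cast
  rfl

/-- the image of a basis vector under a block-diagonal operator -/
theorem trn_comm_expand (n : ℕ) {z : KF F →L[ℂ] KF F} (hz : z ∈ CB F) (a : F n) :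
    z (dl ⟨n, a⟩) = ∑ b : F n, ⟪dl (⟨n, b⟩ : Σ n, F n), z (dl ⟨n, a⟩)⟫_ℂ • dl (⟨n, b⟩ : Σ n, F n) := by
  classical
  rw [mem_CB] at hz
  have key : ∀ y : Σ n, F n, ⟪dl y, z (dl ⟨n, a⟩)⟫_ℂ
      = ⟪dl y, ∑ b : F n, ⟪dl (⟨n, b⟩ : Σ n, F n), z (dl ⟨n, a⟩)⟫_ℂ • dl (⟨n, b⟩ : Σ n, F n)⟫_ℂ := by
    rintro ⟨m, c⟩
    rw [inner_sum]
    simp only [inner_smul_right]
    by_cases hmn : m = n
    · subst hmn
      rw [Finset.sum_eq_single c]
      · rw [inner_dl (⟨m, c⟩ : Σ n, F n) (dl (⟨m, c⟩ : Σ n, F n)), dl_apply, if_pos rfl, mul_one]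
      · intro b _ hbc
        rw [inner_dl (⟨m, c⟩ : Σ n, F n) (dl (⟨m, b⟩ : Σ n, F n)), dl_apply, if_neg, mul_zero]
        intro h
        apply hbc
        simpa using h.symm
      · intro h
        exact absurd (Finset.mem_univ c) h
    · rw [hz n m hmn a c]
      symm
      refine Finset.sum_eq_zero fun b _ => ?_
      rw [inner_dl (⟨m, c⟩ : Σ n, F n) (dl (⟨n, b⟩ : Σ n, F n)), dl_apply, if_neg, mul_zero]
      intro h
      exact hmn (congrArg Sigma.fst h)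
  refine lp.ext (funext fun y => ?_)
  have h1 := key y
  rw [inner_dl, inner_dl] at h1
  exact h1

theorem trn_comm (n : ℕ) {x : KF F →L[ℂ] KF F} (hx : x ∈ CB F) (T : KF F →L[ℂ] KF F) :
    trn F n (x * T) = trn F n (T * x) := by
  unfold trn
  congr 1
  have h1 : ∀ a : F n, ⟪dl (⟨n, a⟩ : Σ n, F n), (x * T) (dl ⟨n, a⟩)⟫_ℂ
      = ∑ b : F n, ⟪dl (⟨n, a⟩ : Σ n, F n), x (dl ⟨n, b⟩)⟫_ℂ *
        ⟪dl (⟨n, b⟩ : Σ n, F n), T (dl ⟨n, a⟩)⟫_ℂ := by
    intro a
    have hs : star x ∈ CB F := star_mem hx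
    have h2 := trn_comm_expand F n hs a
    have h3 : ⟪dl (⟨n, a⟩ : Σ n, F n), (x * T) (dl ⟨n, a⟩)⟫_ℂ
        = ⟪(star x) (dl (⟨n, a⟩ : Σ n, F n)), T (dl ⟨n, a⟩)⟫_ℂ := by
      rw [mul_apply_eq_comp, ContinuousLinearMap.star_eq_adjoint,
        ContinuousLinearMap.adjoint_inner_left]
    rw [h3, h2, sum_inner]
    refine Finset.sum_congr rfl fun b _ => ?_
    rw [inner_smul_left, inner_conj_symm, ContinuousLinearMap.star_eq_adjoint,
      ContinuousLinearMap.adjoint_inner_left]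
  have h2 : ∀ a : F n, ⟪dl (⟨n, a⟩ : Σ n, F n), (T * x) (dl ⟨n, a⟩)⟫_ℂ
      = ∑ b : F n, ⟪dl (⟨n, b⟩ : Σ n, F n), x (dl ⟨n, a⟩)⟫_ℂ *
        ⟪dl (⟨n, a⟩ : Σ n, F n), T (dl ⟨n, b⟩)⟫_ℂ := by
    intro a
    rw [mul_apply_eq_comp]
    conv_lhs => rw [trn_comm_expand F n hx a]
    rw [map_sum, inner_sum]
    refine Finset.sum_congr rfl fun b _ => ?_
    rw [map_smul, inner_smul_right]
  simp only [h1, h2]
  rw [Finset.sum_comm]

theorem exists_phi_norm (n : ℕ) (T : KF F →L[ℂ] KF F) : ‖trn F n T‖ ≤ ‖T‖ := by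
  unfold trn
  have hc : (0 : ℝ) < Fintype.card (F n) := by exact_mod_cast Fintype.card_pos
  rw [norm_mul, norm_inv, Complex.norm_natCast]
  have h1 : ‖∑ a : F n, ⟪dl (⟨n, a⟩ : Σ n, F n), T (dl ⟨n, a⟩)⟫_ℂ‖ ≤ Fintype.card (F n) * ‖T‖ := by
    refine (norm_sum_le _ _).trans ?_
    have h2 : ∀ a ∈ (Finset.univ : Finset (F n)),
        ‖⟪dl (⟨n, a⟩ : Σ n, F n), T (dl ⟨n, a⟩)⟫_ℂ‖ ≤ ‖T‖ := by
      intro a _
      refine (norm_inner_le_norm _ _).trans ?_
      rw [norm_dl, one_mul]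
      refine (T.le_opNorm _).trans ?_
      rw [norm_dl, mul_one]
    refine (Finset.sum_le_sum h2).trans ?_
    rw [Finset.sum_const, Finset.card_univ, nsmul_eq_mul]
  calc (Fintype.card (F n) : ℝ)⁻¹ * _ ≤ (Fintype.card (F n) : ℝ)⁻¹ * (Fintype.card (F n) * ‖T‖) :=
        mul_le_mul_of_nonneg_left h1 (by positivity)
    _ = ‖T‖ := by rw [← mul_assoc, inv_mul_cancel₀ hc.ne', one_mul]

theorem exists_phi (𝒰 : Ultrafilter ℕ) : ∃ φ : (KF F →L[ℂ] KF F) →ₗ[ℂ] ℂ,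
    (∀ T, Tendsto (fun n => trn F n T) 𝒰 (𝓝 (φ T))) ∧ (∀ T, 0 ≤ φ (star T * T)) ∧ φ 1 = 1 ∧
    ∀ x ∈ CB F, ∀ T, φ (x * T) = φ (T * x) := by
  have hlim : ∀ T : KF F →L[ℂ] KF F, ∃ z : ℂ, Tendsto (fun n => trn F n T) 𝒰 (𝓝 z) := by
    intro T
    obtain ⟨z, _, hz⟩ := (isCompact_closedBall (0 : ℂ) ‖T‖).ultrafilter_le_nhds
      (𝒰.map fun n => trn F n T) (by
        rw [Filter.le_principal_iff, Ultrafilter.coe_map, Filter.mem_map]
        refine Filter.mem_of_superset Filter.univ_mem fun n _ => ?_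
        show trn F n T ∈ Metric.closedBall (0 : ℂ) ‖T‖
        rw [mem_closedBall_zero_iff]
        exact exists_phi_norm F n T)
    exact ⟨z, hz⟩
  choose φ hφ using hlim
  have hadd : ∀ S T, φ (S + T) = φ S + φ T := by
    intro S T
    have h1 : Tendsto (fun n => trn F n (S + T)) 𝒰 (𝓝 (φ S + φ T)) := by
      refine ((hφ S).add (hφ T)).congr fun n => ?_
      unfold trn
      rw [← mul_add, ← Finset.sum_add_distrib]
      congr 1
      refine Finset.sum_congr rfl fun a _ => ?_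
      rw [add_apply, inner_add_right]
    exact tendsto_nhds_unique (hφ _) h1
  have hsmul : ∀ (c : ℂ) T, φ (c • T) = c • φ T := by
    intro c T
    have h1 : Tendsto (fun n => trn F n (c • T)) 𝒰 (𝓝 (c • φ T)) := by
      refine ((hφ T).const_smul c).congr fun n => ?_
      unfold trn
      rw [smul_eq_mul, mul_left_comm, Finset.mul_sum]
      congr 1
      refine Finset.sum_congr rfl fun a _ => ?_
      rw [smul_apply, inner_smul_right]
    exact tendsto_nhds_unique (hφ _) h1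
  refine ⟨{ toFun := φ, map_add' := hadd, map_smul' := hsmul }, hφ, ?_, ?_, ?_⟩
  · intro T
    show 0 ≤ φ (star T * T)
    have h1 := hφ (star T * T)
    rw [Complex.nonneg_iff]
    constructor
    · refine ge_of_tendsto' ((Complex.continuous_re.tendsto _).comp h1) fun n => ?_
      show 0 ≤ (trn F n (star T * T)).re
      rw [trn_star_mul, Complex.ofReal_re]
      positivity
    · refine (tendsto_nhds_unique ((Complex.continuous_im.tendsto _).comp h1) ?_).symm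
      refine tendsto_const_nhds.congr fun n => ?_
      show 0 = (trn F n (star T * T)).im
      rw [trn_star_mul, Complex.ofReal_im]
  · show φ 1 = 1
    refine tendsto_nhds_unique (hφ 1) (tendsto_const_nhds.congr fun n => ?_)
    unfold trn
    have hc : (Fintype.card (F n) : ℂ) ≠ 0 := by exact_mod_cast Fintype.card_pos.ne'
    have h1 : ∀ a : F n, ⟪dl (⟨n, a⟩ : Σ n, F n), (1 : KF F →L[ℂ] KF F) (dl ⟨n, a⟩)⟫_ℂ = 1 := by
      intro a
      rw [one_apply_eq_self, inner_self_eq_norm_sq_to_K, norm_dl]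
      simp
    simp only [h1]
    rw [Finset.sum_const, Finset.card_univ, nsmul_eq_mul, mul_one, inv_mul_cancel₀ hc]
  · intro x hx T
    show φ (x * T) = φ (T * x)
    refine tendsto_nhds_unique (hφ (x * T)) ((hφ (T * x)).congr fun n => ?_)
    exact (trn_comm F n hx T).symm

end Pool.Agent.Helper784QA
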