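import Pool.Agent.Helper784QA.S1
import Pool.Agent.Helper784QA.R1a
import Pool.Agent.Helper784QA.R1b

set_option autoImplicit false
set_option linter.unusedSectionVars false

open scoped InnerProductSpace ComplexOrder ENNReal

namespace Pool.Agent.Helper784QA

open Pool.Agent.Helper784QW Filter Topology

namespace R1c

lemma summ {X : Type} (h : L2N X) : Summable fun x => ‖(h : X → ℂ) x‖ ^ 2 := by
  have hp : 0 < (2 : ℝ≥0∞).toReal := by norm_num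
  have h1 := (memℓp_gen_iff hp).mp h.2
  simpa using h1

lemma nsq {X : Type} (h : L2N X) : ‖h‖ ^ 2 = ∑' x, ‖(h : X → ℂ) x‖ ^ 2 := by
  have hp : 0 < (2 : ℝ≥0∞).toReal := by norm_num
  have h1 := lp.norm_rpow_eq_tsum hp h
  simpa using h1

variable (F : ℕ → Type) [∀ n, Fintype (F n)]

lemma blk_apply (n : ℕ) (f : KF F) (k : ℕ) (x : F k) :
    (blk F n f : (Σ n, F n) → ℂ) ⟨k, x⟩ = if n = k then (f : (Σ n, F n) → ℂ) ⟨k, x⟩ else 0 := by
  have h1 : ⟪(dl ⟨k, x⟩ : KF F), blk F n f⟫_ℂ = ⟪blk F n (dl ⟨k, x⟩), f⟫_ℂ := by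
    unfold blk
    exact (Submodule.inner_starProjection_left_eq_right _ _ _).symm
  rw [← inner_dl, h1, blk_dl]
  by_cases h : n = k
  · simp only [h, if_true]
    rw [inner_dl]
  · simp only [h, if_false]
    rw [inner_zero_left]

lemma comm_blk {b : KF F →L[ℂ] KF F} (hb : b ∈ CB F) (n : ℕ) (f : KF F) :
    b (blk F n f) = blk F n (b f) := by
  unfold CB at hb
  rw [StarSubalgebra.mem_centralizer_iff] at hb
  have h1 := (hb (blk F n) ⟨n, rfl⟩).1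
  have h2 := congrArg (fun T : KF F →L[ℂ] KF F => T f) h1
  exact h2.symm

lemma blk_nsq (n : ℕ) (f : KF F) :
    ‖blk F n f‖ ^ 2 = ∑ x : F n, ‖(f : (Σ n, F n) → ℂ) ⟨n, x⟩‖ ^ 2 := by
  classical
  rw [nsq]
  have h1 : ∑ x : F n, ‖(f : (Σ n, F n) → ℂ) ⟨n, x⟩‖ ^ 2 =
      ∑ p ∈ (Finset.univ : Finset (F n)).map ⟨Sigma.mk n, sigma_mk_injective⟩,
        ‖(blk F n f : (Σ n, F n) → ℂ) p‖ ^ 2 := by
    rw [Finset.sum_map]
    refine Finset.sum_congr rfl fun x _ => ?_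
    show _ = ‖(blk F n f : (Σ n, F n) → ℂ) ⟨n, x⟩‖ ^ 2
    rw [blk_apply, if_pos rfl]
  rw [h1]
  refine tsum_eq_sum fun p hp => ?_
  obtain ⟨k, x⟩ := p
  rw [blk_apply]
  have hne : ¬ n = k := by
    rintro rfl
    exact hp (Finset.mem_map.2 ⟨x, Finset.mem_univ _, rfl⟩)
  rw [if_neg hne]
  simp

lemma sum_blk_le (f : KF F) (S : Finset ℕ) : ∑ n ∈ S, ‖blk F n f‖ ^ 2 ≤ ‖f‖ ^ 2 := by
  classical
  have h1 : ∑ n ∈ S, ‖blk F n f‖ ^ 2 =
      ∑ p ∈ S.sigma (fun n => (Finset.univ : Finset (F n))), ‖(f : (Σ n, F n) → ℂ) p‖ ^ 2 := by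
    rw [Finset.sum_sigma]
    exact Finset.sum_congr rfl fun n _ => blk_nsq F n f
  rw [h1, nsq]
  exact (summ f).sum_le_tsum _ fun p _ => by positivity

/-- the sum over a finite set of coordinates of the glued vector -/
lemma glue_le (b : ℕ → (KF F →L[ℂ] KF F)) (hb : ∀ k, b k ∈ CB F) (hb1 : ∀ k, ‖b k‖ ≤ 1)
    (m : ℕ → ℕ) (f : KF F) (s : Finset (Σ n, F n)) :
    ∑ p ∈ s, ‖(b (m p.1) f : (Σ n, F n) → ℂ) p‖ ^ 2 ≤ ‖f‖ ^ 2 := by
  classical
  have h1 : s ⊆ (s.image Sigma.fst).sigma (fun n => (Finset.univ : Finset (F n))) := by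
    intro p hp
    rw [Finset.mem_sigma]
    exact ⟨Finset.mem_image_of_mem _ hp, Finset.mem_univ _⟩
  refine (Finset.sum_le_sum_of_subset_of_nonneg h1 fun p _ _ => by positivity).trans ?_
  rw [Finset.sum_sigma]
  refine le_trans (Finset.sum_le_sum fun n _ => ?_) (sum_blk_le F f (s.image Sigma.fst))
  show ∑ x : F n, ‖(b (m n) f : (Σ n, F n) → ℂ) ⟨n, x⟩‖ ^ 2 ≤ ‖blk F n f‖ ^ 2
  rw [← blk_nsq F n (b (m n) f), ← comm_blk F (hb _)]
  have h2 : ‖b (m n) (blk F n f)‖ ≤ ‖blk F n f‖ := by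
    have := (b (m n)).le_of_opNorm_le (hb1 (m n)) (blk F n f)
    simpa using this
  exact pow_le_pow_left₀ (norm_nonneg _) h2 2

/-- the glued vector -/
noncomputable def gv (b : ℕ → (KF F →L[ℂ] KF F)) (hb : ∀ k, b k ∈ CB F) (hb1 : ∀ k, ‖b k‖ ≤ 1)
    (m : ℕ → ℕ) (f : KF F) : KF F :=
  ⟨fun p => (b (m p.1) f : (Σ n, F n) → ℂ) p, by
    have hp : 0 < (2 : ℝ≥0∞).toReal := by norm_num
    refine (memℓp_gen_iff hp).2 ?_
    have h1 : Summable fun p : (Σ n, F n) => ‖(b (m p.1) f : (Σ n, F n) → ℂ) p‖ ^ 2 :=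
      summable_of_sum_le (fun p => by positivity) (glue_le F b hb hb1 m f)
    simpa using h1⟩

/-- the glued operator -/
noncomputable def go (b : ℕ → (KF F →L[ℂ] KF F)) (hb : ∀ k, b k ∈ CB F) (hb1 : ∀ k, ‖b k‖ ≤ 1)
    (m : ℕ → ℕ) : KF F →L[ℂ] KF F :=
  LinearMap.mkContinuous
    { toFun := gv F b hb hb1 m
      map_add' := fun f g => by
        refine lp.ext (funext fun p => ?_)
        show (b (m p.1) (f + g) : (Σ n, F n) → ℂ) p = _
        rw [map_add]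
        rfl
      map_smul' := fun c f => by
        refine lp.ext (funext fun p => ?_)
        show (b (m p.1) (c • f) : (Σ n, F n) → ℂ) p = _
        rw [map_smul]
        rfl } 1 (by
    intro f
    rw [one_mul]
    have h1 : ‖gv F b hb hb1 m f‖ ^ 2 ≤ ‖f‖ ^ 2 := by
      rw [nsq]
      exact (summ _).tsum_le_of_sum_le (glue_le F b hb hb1 m f)
    exact (pow_le_pow_iff_left₀ (norm_nonneg _) (norm_nonneg _) two_ne_zero).1 h1)

lemma go_apply (b : ℕ → (KF F →L[ℂ] KF F)) (hb : ∀ k, b k ∈ CB F) (hb1 : ∀ k, ‖b k‖ ≤ 1)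
    (m : ℕ → ℕ) (f : KF F) (p : Σ n, F n) :
    (go F b hb hb1 m f : (Σ n, F n) → ℂ) p = (b (m p.1) f : (Σ n, F n) → ℂ) p := rfl

lemma go_norm (b : ℕ → (KF F →L[ℂ] KF F)) (hb : ∀ k, b k ∈ CB F) (hb1 : ∀ k, ‖b k‖ ≤ 1)
    (m : ℕ → ℕ) : ‖go F b hb hb1 m‖ ≤ 1 :=
  LinearMap.mkContinuous_norm_le _ zero_le_one _

lemma off (b : KF F →L[ℂ] KF F) (hb : b ∈ CB F) {n k : ℕ} (h : k ≠ n) (a : F n) (x : F k) :
    (b (dl ⟨n, a⟩) : (Σ n, F n) → ℂ) ⟨k, x⟩ = 0 := by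
  rw [← inner_dl]
  exact (mem_CB F b).1 hb n k h a x

lemma go_mem (b : ℕ → (KF F →L[ℂ] KF F)) (hb : ∀ k, b k ∈ CB F) (hb1 : ∀ k, ‖b k‖ ≤ 1)
    (m : ℕ → ℕ) : go F b hb hb1 m ∈ CB F := by
  rw [mem_CB]
  intro n k h a x
  rw [inner_dl, go_apply]
  exact off F _ (hb _) h a x

lemma go_dl (b : ℕ → (KF F →L[ℂ] KF F)) (hb : ∀ k, b k ∈ CB F) (hb1 : ∀ k, ‖b k‖ ≤ 1)
    (m : ℕ → ℕ) (n : ℕ) (a : F n) : go F b hb hb1 m (dl ⟨n, a⟩) = b (m n) (dl ⟨n, a⟩) := by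
  refine lp.ext (funext fun p => ?_)
  obtain ⟨k, x⟩ := p
  rw [go_apply]
  by_cases h : k = n
  · subst h
    rfl
  · rw [off F _ (hb _) h, off F _ (hb _) h]

/-- the vector of the images of the basis vectors of a block -/
noncomputable def vv (n : ℕ) (T : KF F →L[ℂ] KF F) : PiLp 2 (fun _ : F n => KF F) :=
  WithLp.toLp 2 (fun a => T (dl ⟨n, a⟩))

lemma vv_add (n : ℕ) (T S : KF F →L[ℂ] KF F) : vv F n (T + S) = vv F n T + vv F n S := rfl

lemma vv_sub (n : ℕ) (T S : KF F →L[ℂ] KF F) : vv F n (T - S) = vv F n T - vv F n S := rfl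

lemma vv_nsq (n : ℕ) (T : KF F →L[ℂ] KF F) :
    ‖vv F n T‖ ^ 2 = ∑ a : F n, ‖T (dl ⟨n, a⟩)‖ ^ 2 := by
  rw [PiLp.norm_sq_eq_of_L2]
  rfl

/-- the normalised Hilbert-Schmidt norm on a block -/
noncomputable def N2 (n : ℕ) (T : KF F →L[ℂ] KF F) : ℝ :=
  ‖vv F n T‖ / Real.sqrt (Fintype.card (F n))

lemma N2_nonneg (n : ℕ) (T : KF F →L[ℂ] KF F) : 0 ≤ N2 F n T := by
  unfold N2; positivity

lemma N2_sq (n : ℕ) (T : KF F →L[ℂ] KF F) :
    N2 F n T ^ 2 = (Fintype.card (F n) : ℝ)⁻¹ * ∑ a : F n, ‖T (dl ⟨n, a⟩)‖ ^ 2 := by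
  unfold N2
  rw [div_pow, vv_nsq, Real.sq_sqrt (by positivity), div_eq_inv_mul]

lemma N2_add (n : ℕ) (T S : KF F →L[ℂ] KF F) : N2 F n (T + S) ≤ N2 F n T + N2 F n S := by
  unfold N2
  rw [← add_div, vv_add]
  exact div_le_div_of_nonneg_right (norm_add_le _ _) (Real.sqrt_nonneg _)

lemma N2_sub_comm (n : ℕ) (T S : KF F →L[ℂ] KF F) : N2 F n (T - S) = N2 F n (S - T) := by
  unfold N2
  rw [vv_sub, vv_sub, norm_sub_rev]

lemma N2_add_sq (n : ℕ) (T S : KF F →L[ℂ] KF F) :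
    N2 F n (T + S) ^ 2 ≤ 2 * N2 F n T ^ 2 + 2 * N2 F n S ^ 2 := by
  have h1 := N2_add F n T S
  have h2 := N2_nonneg F n (T + S)
  have h3 := N2_nonneg F n T
  have h4 := N2_nonneg F n S
  nlinarith [sq_nonneg (N2 F n T - N2 F n S)]

lemma N2_congr (n : ℕ) (T S : KF F →L[ℂ] KF F) (h : ∀ a : F n, T (dl ⟨n, a⟩) = S (dl ⟨n, a⟩)) :
    N2 F n T = N2 F n S := by
  have h1 : vv F n T = vv F n S := by
    unfold vv
    congr 1
    exact funext h
  unfold N2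
  rw [h1]

lemma telescope (n : ℕ) (b : ℕ → (KF F →L[ℂ] KF F)) (i m : ℕ) (him : i ≤ m)
    (h : ∀ l, i ≤ l → l < m → N2 F n (b l - b (l + 1)) ≤ (1 / 2) ^ l) :
    N2 F n (b m - b i) ≤ 2 * (1 / 2) ^ i - 2 * (1 / 2) ^ m := by
  induction m, him using Nat.le_induction with
  | base =>
    rw [sub_self, sub_self]
    unfold N2
    have : vv F n (0 : KF F →L[ℂ] KF F) = 0 := rfl
    rw [this, norm_zero, zero_div]
  | succ m hm ih =>
    have h1 := ih fun l hl hlm => h l hl (by omega)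
    have h2 := h m hm (by omega)
    rw [N2_sub_comm] at h2
    have h3 : b (m + 1) - b i = (b (m + 1) - b m) + (b m - b i) := by abel
    rw [h3]
    have h4 := N2_add F n (b (m + 1) - b m) (b m - b i)
    have h5 : (2 : ℝ) * (1 / 2) ^ (m + 1) = (1 / 2) ^ m := by ring
    linarith

end R1c

variable (F : ℕ → Type) [∀ n, Fintype (F n)] [∀ n, Nonempty (F n)]

open R1c in
/-- TARGET -/
theorem phi_complete {𝒰 : Ultrafilter ℕ} (hU : (𝒰 : Filter ℕ) ≤ cofinite) (φ : (KF F →L[ℂ] KF F) →ₗ[ℂ] ℂ)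
    (hφ : ∀ T, Tendsto (fun n => trn F n T) 𝒰 (𝓝 (φ T)))
    (b : ℕ → (KF F →L[ℂ] KF F)) (hb : ∀ k, b k ∈ CB F) (hb1 : ∀ k, ‖b k‖ ≤ 1)
    (hc : ∀ ε : ℝ, 0 < ε → ∃ N, ∀ k, N ≤ k → ∀ l, N ≤ l → (φ (star (b k - b l) * (b k - b l))).re ≤ ε) :
    ∃ c ∈ CB F, ‖c‖ ≤ 1 ∧ ∀ ε : ℝ, 0 < ε → ∃ N, ∀ k, N ≤ k →
      (φ (star (c - b k) * (c - b k))).re ≤ ε := by
  classical
  -- limits of the norms
  have hlim : ∀ T : KF F →L[ℂ] KF F, Tendsto (fun n => N2 F n T ^ 2) 𝒰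
      (𝓝 (φ (star T * T)).re) := by
    intro T
    have h1 := (Complex.continuous_re.tendsto _).comp (hφ (star T * T))
    refine h1.congr fun n => ?_
    show (trn F n (star T * T)).re = _
    rw [trn_star_mul, Complex.ofReal_re, N2_sq]
  have hadd : ∀ T S : KF F →L[ℂ] KF F, (φ (star (T + S) * (T + S))).re ≤
      2 * (φ (star T * T)).re + 2 * (φ (star S * S)).re := by
    intro T S
    refine le_of_tendsto_of_tendsto (hlim (T + S)) (((hlim T).const_mul 2).add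
      ((hlim S).const_mul 2)) (Filter.Eventually.of_forall fun n => N2_add_sq F n T S)
  -- the subsequence
  have hex : ∀ i : ℕ, ∃ N, ∀ k, N ≤ k → ∀ l, N ≤ l →
      (φ (star (b k - b l) * (b k - b l))).re ≤ ((1 : ℝ) / 4) ^ i / 2 :=
    fun i => hc _ (by positivity)
  choose K hK using hex
  set ks : ℕ → ℕ := fun i => i + ∑ j ∈ Finset.range (i + 1), K j with hks
  have hks1 : ∀ i, K i ≤ ks i := by
    intro i
    have : K i ≤ ∑ j ∈ Finset.range (i + 1), K j :=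
      Finset.single_le_sum (f := K) (fun _ _ => Nat.zero_le _) (Finset.self_mem_range_succ i)
    simp only [hks]
    omega
  have hks2 : ∀ i, K i ≤ ks (i + 1) := by
    intro i
    have : K i ≤ ∑ j ∈ Finset.range (i + 1 + 1), K j :=
      Finset.single_le_sum (f := K) (fun _ _ => Nat.zero_le _)
        (Finset.mem_range.2 (by omega))
    simp only [hks]
    omega
  have hks3 : ∀ i, i ≤ ks i := fun i => by simp only [hks]; omega
  set b' : ℕ → (KF F →L[ℂ] KF F) := fun i => b (ks i) with hb'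
  set A : ℕ → Set ℕ := fun i => {n | N2 F n (b' i - b' (i + 1)) ≤ (1 / 2) ^ i} with hA
  have hA1 : ∀ i, A i ∈ (𝒰 : Filter ℕ) := by
    intro i
    have h1 : (φ (star (b' i - b' (i + 1)) * (b' i - b' (i + 1)))).re < ((1 : ℝ) / 4) ^ i := by
      have h2 := hK i (ks i) (hks1 i) (ks (i + 1)) (hks2 i)
      have h3 : (0 : ℝ) < ((1 : ℝ) / 4) ^ i := by positivity
      exact lt_of_le_of_lt h2 (by linarith)
    have h4 := (hlim (b' i - b' (i + 1))).eventually (gt_mem_nhds h1)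
    refine Filter.mem_of_superset h4 fun n hn => ?_
    have hn' : N2 F n (b' i - b' (i + 1)) ^ 2 < ((1 : ℝ) / 4) ^ i := hn
    have h5 : ((1 : ℝ) / 4) ^ i = ((1 / 2 : ℝ) ^ i) ^ 2 := by
      rw [← pow_mul, mul_comm, pow_mul]
      norm_num
    rw [h5] at hn'
    exact (lt_of_pow_lt_pow_left₀ 2 (by positivity) hn').le
  set m : ℕ → ℕ := fun n => Nat.findGreatest (fun j => ∀ i < j, n ∈ A i) n with hm
  have hmP : ∀ n, ∀ i < m n, n ∈ A i := by
    intro n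
    have h1 := Nat.findGreatest_spec (P := fun j => ∀ i < j, n ∈ A i) (Nat.zero_le n)
      (fun i hi => absurd hi (Nat.not_lt_zero i))
    exact h1
  have hmge : ∀ i, {n | i ≤ m n} ∈ (𝒰 : Filter ℕ) := by
    intro i
    have h1 : {n : ℕ | i ≤ n} ∈ (𝒰 : Filter ℕ) := by
      refine hU ?_
      rw [Filter.mem_cofinite]
      refine (Set.finite_lt_nat i).subset fun n hn => ?_
      simp only [Set.mem_compl_iff, Set.mem_ofPred_eq, not_le] at hn
      exact hn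
    have h2 : (⋂ l ∈ Finset.range i, A l) ∈ (𝒰 : Filter ℕ) :=
      (Filter.biInter_finset_mem _).2 fun l _ => hA1 l
    refine Filter.mem_of_superset (Filter.inter_mem h1 h2) fun n hn => ?_
    refine Nat.le_findGreatest hn.1 fun l hl => ?_
    exact Set.mem_iInter₂.1 hn.2 l (Finset.mem_range.2 hl)
  set c : KF F →L[ℂ] KF F := go F b' (fun i => hb _) (fun i => hb1 _) m with hcdef
  have hfin : ∀ i, (φ (star (c - b' i) * (c - b' i))).re ≤ (2 * (1 / 2) ^ i) ^ 2 := by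
    intro i
    refine le_of_tendsto (hlim (c - b' i)) (Filter.mem_of_superset (hmge i) fun n hn => ?_)
    show N2 F n (c - b' i) ^ 2 ≤ _
    have h1 : N2 F n (c - b' i) = N2 F n (b' (m n) - b' i) := by
      refine N2_congr F n _ _ fun a => ?_
      rw [ContinuousLinearMap.sub_apply, ContinuousLinearMap.sub_apply, hcdef, go_dl]
    have h2 := telescope F n b' i (m n) hn fun l _ hl => hmP n l hl
    rw [← h1] at h2
    have h3 : (0 : ℝ) < (1 / 2 : ℝ) ^ (m n) := by positivity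
    exact pow_le_pow_left₀ (N2_nonneg F n _) (by linarith) 2
  refine ⟨c, go_mem F b' _ _ m, go_norm F b' _ _ m, fun ε hε => ?_⟩
  obtain ⟨N0, hN0⟩ := hc (ε / 4) (by positivity)
  obtain ⟨i0, hi0⟩ := exists_pow_lt_of_lt_one (show (0 : ℝ) < ε / 16 by positivity)
    (show (1 / 4 : ℝ) < 1 by norm_num)
  refine ⟨N0, fun k hk => ?_⟩
  set i := max N0 i0 with hi
  have h1 := hfin i
  have h2 : ((2 : ℝ) * (1 / 2) ^ i) ^ 2 ≤ ε / 4 := by
    have h3 : ((2 : ℝ) * (1 / 2) ^ i) ^ 2 = 4 * (1 / 4) ^ i := by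
      rw [mul_pow, ← pow_mul, mul_comm i 2, pow_mul]
      norm_num
    have h4 : (1 / 4 : ℝ) ^ i ≤ (1 / 4) ^ i0 :=
      pow_le_pow_of_le_one (by norm_num) (by norm_num) (le_max_right _ _)
    rw [h3]
    linarith
  have h5 := hN0 (ks i) ((le_max_left N0 i0).trans (hks3 i)) k hk
  have h6 := hadd (c - b' i) (b' i - b k)
  rw [sub_add_sub_cancel] at h6
  have h7 : (φ (star (b' i - b k) * (b' i - b k))).re ≤ ε / 4 := h5
  linarith

end Pool.Agent.Helper784QA
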