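import Pool.Agent.Helper784QA.S1
import Pool.Agent.Helper784QA.R1a
import Pool.Agent.Helper784QA.R1b
import Pool.Agent.Helper784QA.R1c

set_option autoImplicit false

open scoped InnerProductSpace ComplexOrder ENNReal

namespace Pool.Agent.Helper784QA

open Pool.Agent.Helper784QW Filter Topology

/-- TARGET -/
theorem md_of_RF {G : Type} [Group G] [Countable G] (hG : ResiduallyFinite G) :
    ∃ (K : Type) (_ : NormedAddCommGroup K) (_ : InnerProductSpace ℂ K) (_ : CompleteSpace K),
      Nonempty (MD G K) := by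
  classical
  obtain ⟨e, he⟩ := exists_surjective_nat G
  have hex : ∀ i : ℕ, ∃ (Q : Type) (_ : Group Q) (_ : Finite Q) (f : G →* Q),
      e i ≠ 1 → f (e i) ≠ 1 := by
    intro i
    by_cases h : e i = 1
    · exact ⟨PUnit, inferInstance, inferInstance, 1, fun h' => absurd h h'⟩
    · obtain ⟨Q, i1, i2, f, hf⟩ := hG (e i) h
      exact ⟨Q, i1, i2, f, fun _ => hf⟩
  choose Q gQ fQ f hf using hex
  let F : ℕ → Type := fun n => ∀ i : Fin n, Q i
  let gF : ∀ n, Group (F n) := fun n => Pi.group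
  have : ∀ n, Finite (F n) := fun n => Pi.finite
  let fF : ∀ n, Fintype (F n) := fun n => Fintype.ofFinite _
  have nF : ∀ n, Nonempty (F n) := fun n => ⟨1⟩
  let r : ∀ n, G → F n := fun n g i => f i g
  have r_one : ∀ n, r n 1 = 1 := by
    intro n; funext i; exact map_one (f i)
  have r_mul : ∀ n g h, r n (g * h) = r n g * r n h := by
    intro n g h; funext i; exact map_mul (f i) g h
  have r_ne : ∀ i n, i < n → e i ≠ 1 → r n (e i) ≠ 1 := by
    intro i n hin h h'
    exact hf i h (congrFun h' ⟨i, hin⟩)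
  let σ : G → Equiv.Perm (Σ n, F n) := fun g =>
    Equiv.sigmaCongrRight fun n => Equiv.mulLeft (r n g)
  have σ_apply : ∀ g n (a : F n), σ g ⟨n, a⟩ = ⟨n, r n g * a⟩ := fun g n a => rfl
  have σ_one : σ 1 = 1 := by
    ext1 ⟨n, a⟩
    rw [σ_apply, r_one, one_mul]; rfl
  have σ_mul : ∀ g h, σ (g * h) = σ g * σ h := by
    intro g h
    ext1 ⟨n, a⟩
    rw [Equiv.Perm.mul_apply, σ_apply, σ_apply, σ_apply, r_mul, mul_assoc]
  have σ_inv : ∀ g, (σ g)⁻¹ = σ g⁻¹ := by
    intro g
    refine inv_eq_of_mul_eq_one_right ?_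
    rw [← σ_mul, mul_inv_cancel, σ_one]
  obtain ⟨EE, hcp, hEEmem, hEEid⟩ := exists_EE F
  let 𝒰 : Ultrafilter ℕ := hyperfilter ℕ
  have h𝒰 : (𝒰 : Filter ℕ) ≤ cofinite := hyperfilter_le_cofinite
  obtain ⟨φ, hφ, hpos, hone, htr⟩ := exists_phi F 𝒰
  have hUdl : ∀ g n (a : F n), permOp (σ g) (dl ⟨n, a⟩) = dl ⟨n, r n g * a⟩ := by
    intro g n a
    rw [permOp_dl]
    exact congrArg _ (σ_apply g n a)
  refine ⟨KF F, inferInstance, inferInstance, inferInstance, ⟨{
    C := CB F
    closed := closed_CB F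
    EE := EE
    cp := hcp
    EEmem := hEEmem
    EEid := hEEid
    φ := φ
    pos := hpos
    one := hone
    tr := htr
    U := fun g => permOp (σ g)
    Umem := ?_
    Uone := ?_
    Umul := ?_
    Ustar := ?_
    Utr := ?_
    compl := ?_ }⟩⟩
  · intro g
    rw [mem_CB]
    intro n m hmn a b
    rw [hUdl, inner_dl, dl_apply, if_neg]
    intro h
    exact hmn (congrArg Sigma.fst h)
  · rw [σ_one, permOp_one]
  · intro g h
    rw [σ_mul, permOp_mul]
  · intro g
    rw [star_permOp, σ_inv]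
  · intro g hg
    obtain ⟨i, rfl⟩ := he g
    have h1 := hφ (permOp (σ (e i)))
    have h2 : ∀ᶠ n in (𝒰 : Filter ℕ), trn F n (permOp (σ (e i))) = 0 := by
      have h3 : ∀ᶠ n in (𝒰 : Filter ℕ), i < n := by
        apply h𝒰
        rw [Nat.cofinite_eq_atTop]
        exact eventually_gt_atTop i
      filter_upwards [h3] with n hn
      unfold trn
      rw [Finset.sum_eq_zero, mul_zero]
      intro a _
      rw [hUdl, inner_dl, dl_apply, if_neg]
      intro h
      have h4 : a = r n (e i) * a := eq_of_heq (Sigma.mk.inj h).2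
      exact r_ne i n hn hg (mul_right_cancel (b := a) (by rw [one_mul]; exact h4.symm))
    exact tendsto_nhds_unique h1 ((tendsto_const_nhds (x := (0 : ℂ))).congr' (h2.mono fun n hn => hn.symm))
  · intro b hb hb1 hc
    exact phi_complete F h𝒰 φ hφ b hb hb1 hc

end Pool.Agent.Helper784QA
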