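import Pool.Agent.Helper784QA.S0

set_option autoImplicit false

open scoped InnerProductSpace ComplexOrder ENNReal

namespace Pool.Agent.Helper784QA

open Pool.Agent.Helper784QW Filter Topology

variable {K : Type} [NormedAddCommGroup K] [InnerProductSpace ℂ K] [CompleteSpace K]

/-- compression of a representation by an orthonormal family indexed by `Γ` -/
theorem coef_of_rep {Γ H : Type} [NormedAddCommGroup H] [InnerProductSpace ℂ H] [CompleteSpace H]
    (P : (K →L[ℂ] K) →ₗ[ℂ] (H →L[ℂ] H))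
    (hP : ∀ (S T : K →L[ℂ] K) (x y : H), ⟪x, P (star S * T) y⟫_ℂ = ⟪P S x, P T y⟫_ℂ)
    (v : Γ → H) (hv : Orthonormal ℂ v) :
    ∃ Ψ : (K →L[ℂ] K) →ₗ[ℂ] (L2N Γ →L[ℂ] L2N Γ), IsCP Ψ ∧
      ∀ (T : K →L[ℂ] K) (s t : Γ), ⟪dl t, Ψ T (dl s)⟫_ℂ = ⟪v t, P T (v s)⟫_ℂ := by
  classical
  obtain ⟨V, hV⟩ : ∃ V : L2N Γ →L[ℂ] H, ∀ s, V (dl s) = v s := by
    refine ⟨(hv.orthogonalFamily.linearIsometry).toContinuousLinearMap, fun s => ?_⟩
    show hv.orthogonalFamily.linearIsometry (dl s) = v s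
    unfold dl
    rw [OrthogonalFamily.linearIsometry_apply_single]
    simp
  have hin : ∀ (T : K →L[ℂ] K) (x y : L2N Γ),
      ⟪x, (ContinuousLinearMap.adjoint V) (P T (V y))⟫_ℂ = ⟪V x, P T (V y)⟫_ℂ := fun T x y =>
    ContinuousLinearMap.adjoint_inner_right V x (P T (V y))
  refine ⟨{ toFun := fun T => (ContinuousLinearMap.adjoint V) ∘L (P T) ∘L V
            map_add' := ?_, map_smul' := ?_ }, ?_, ?_⟩
  · intro S T
    rw [map_add]
    ext x
    simp
  · intro c T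
    rw [map_smul]
    ext x
    simp
  · intro n T η
    have h1 : ∀ i j, ⟪η i, ((ContinuousLinearMap.adjoint V) ∘L (P (star (T i) * T j)) ∘L V) (η j)⟫_ℂ
        = ⟪P (T i) (V (η i)), P (T j) (V (η j))⟫_ℂ := by
      intro i j
      rw [← hP]
      exact hin _ _ _
    show 0 ≤ ∑ i, ∑ j, ⟪η i, ((ContinuousLinearMap.adjoint V) ∘L (P (star (T i) * T j)) ∘L V)
      (η j)⟫_ℂ
    simp only [h1]
    have h2 : ∑ i, ∑ j, ⟪P (T i) (V (η i)), P (T j) (V (η j))⟫_ℂ
        = ⟪∑ i, P (T i) (V (η i)), ∑ j, P (T j) (V (η j))⟫_ℂ := by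
      rw [sum_inner]
      refine Finset.sum_congr rfl fun i _ => ?_
      rw [inner_sum]
    rw [h2, inner_self_eq_norm_sq_to_K]
    norm_cast
    positivity
  · intro T s t
    show ⟪dl t, (ContinuousLinearMap.adjoint V) (P T (V (dl s)))⟫_ℂ = _
    rw [hin, hV, hV]

/-- amplification of a representation -/
theorem exists_ampl {Q H : Type} [NormedAddCommGroup H] [InnerProductSpace ℂ H] [CompleteSpace H]
    (π : (K →L[ℂ] K) →⋆ₐ[ℂ] (H →L[ℂ] H)) :
    ∃ P : (K →L[ℂ] K) →ₗ[ℂ] (lp (fun _ : Q => H) 2 →L[ℂ] lp (fun _ : Q => H) 2),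
      (∀ (S T : K →L[ℂ] K) (x y : lp (fun _ : Q => H) 2),
        ⟪x, P (star S * T) y⟫_ℂ = ⟪P S x, P T y⟫_ℂ) ∧
      ∀ (T : K →L[ℂ] K) (x : lp (fun _ : Q => H) 2) (q : Q),
        (P T x : Q → H) q = π T ((x : Q → H) q) := by
  refine ⟨{ toFun := fun T => lp.mapCLM (E := fun _ : Q => H) (F := fun _ : Q => H) 2
              (fun _ => π T) (norm_nonneg (π T)) (fun _ => le_rfl)
            map_add' := ?_, map_smul' := ?_ }, ?_, ?_⟩
  · intro S T
    refine ContinuousLinearMap.ext fun x => lp.ext (funext fun q => ?_)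
    show π (S + T) ((x : Q → H) q) = π S ((x : Q → H) q) + π T ((x : Q → H) q)
    rw [map_add]
    rfl
  · intro c T
    refine ContinuousLinearMap.ext fun x => lp.ext (funext fun q => ?_)
    show π (c • T) ((x : Q → H) q) = c • π T ((x : Q → H) q)
    rw [map_smul]
    rfl
  · intro S T x y
    rw [lp.inner_eq_tsum, lp.inner_eq_tsum]
    refine tsum_congr fun q => ?_
    show ⟪(x : Q → H) q, π (star S * T) ((y : Q → H) q)⟫_ℂ
      = ⟪π S ((x : Q → H) q), π T ((y : Q → H) q)⟫_ℂ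
    rw [map_mul, map_star]
    exact ContinuousLinearMap.adjoint_inner_right (π S) ((x : Q → H) q) (π T ((y : Q → H) q))
  · intro T x q
    rfl

/-- TARGET -/
theorem exists_coef {G Γ : Type} [Group G] [Group Γ] (ι : G →* Γ) (hι : Function.Injective ι) (D : MD G K) :
    ∃ Ψ : (K →L[ℂ] K) →ₗ[ℂ] (L2N Γ →L[ℂ] L2N Γ), IsCP Ψ ∧ IsCoef ι D Ψ := by
  classical
  -- the positive functional
  obtain ⟨f, hf⟩ : ∃ f : (K →L[ℂ] K) →ₚ[ℂ] ℂ, ∀ T, f T = D.φ T := by
    refine ⟨PositiveLinearMap.mk₀ D.φ ?_, fun T => rfl⟩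
    intro T hT
    obtain ⟨S, rfl⟩ := CStarAlgebra.nonneg_iff_eq_star_mul_self.1 hT
    exact D.pos S
  have hin : ∀ S T : K →L[ℂ] K, ⟪(f.toPreGNS S : f.GNS), (f.toPreGNS T : f.GNS)⟫_ℂ
      = D.φ (star S * T) := by
    intro S T
    rw [UniformSpace.Completion.inner_coe, PositiveLinearMap.preGNS_inner_def, hf]
    rfl
  have hact : ∀ S T : K →L[ℂ] K, f.gnsStarAlgHom S (f.toPreGNS T : f.GNS)
      = (f.toPreGNS (S * T) : f.GNS) := by
    intro S T
    show f.gnsNonUnitalStarAlgHom S (f.toPreGNS T : f.GNS) = _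
    rw [PositiveLinearMap.gnsNonUnitalStarAlgHom_apply_coe]
    rfl
  -- the right cosets
  obtain ⟨Q, q, a, r, hq, har⟩ : ∃ (Q : Type) (q : Γ → Q) (a : Γ → G) (r : Q → Γ),
      (∀ s t, q s = q t ↔ t * s⁻¹ ∈ ι.range) ∧ ∀ s, ι (a s) * r (q s) = s := by
    have h1 : ∀ s : Γ, ∃ b : G, ι b * (Quotient.out (Quotient.mk (QuotientGroup.rightRel ι.range) s)) = s := by
      intro s
      have h2 : (QuotientGroup.rightRel ι.range)
          (Quotient.out (Quotient.mk (QuotientGroup.rightRel ι.range) s)) s :=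
        Quotient.exact (Quotient.out_eq _)
      rw [QuotientGroup.rightRel_apply] at h2
      obtain ⟨b, hb⟩ := h2
      exact ⟨b, by rw [hb, inv_mul_cancel_right]⟩
    choose a ha using h1
    refine ⟨Quotient (QuotientGroup.rightRel ι.range), Quotient.mk _, a, Quotient.out, ?_, ha⟩
    intro s t
    rw [Quotient.eq, ← QuotientGroup.rightRel_apply]
  obtain ⟨P, hP1, hP2⟩ := exists_ampl (Q := Q) f.gnsStarAlgHom
  obtain ⟨v, hvdef⟩ : ∃ v : Γ → lp (fun _ : Q => f.GNS) 2,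
      ∀ s, v s = lp.single 2 (q s) (f.toPreGNS (D.U (a s)) : f.GNS) := ⟨_, fun s => rfl⟩
  have hcoef : ∀ (T : K →L[ℂ] K) (s t : Γ), ⟪v t, P T (v s)⟫_ℂ
      = if q s = q t then D.φ (star (D.U (a t)) * (T * D.U (a s))) else 0 := by
    intro T s t
    rw [hvdef t, lp.inner_single_left, hP2, hvdef s]
    split_ifs with h
    · rw [h, lp.single_apply_self, hact, hin]
    · rw [lp.single_apply_ne _ _ _ (fun h' => h h'.symm), map_zero, inner_zero_right]
  have hv0 : ∀ s t : Γ, ⟪v t, v s⟫_ℂ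
      = if q s = q t then D.φ (star (D.U (a t)) * D.U (a s)) else 0 := by
    intro s t
    rw [hvdef t, lp.inner_single_left, hvdef s]
    split_ifs with h
    · rw [h, lp.single_apply_self, hin]
    · rw [lp.single_apply_ne _ _ _ (fun h' => h h'.symm), inner_zero_right]
  have hv : Orthonormal ℂ v := by
    rw [orthonormal_iff_ite]
    intro t s
    rw [hv0]
    split_ifs with h1 h2 h2
    · subst h2
      rw [D.Ustar, ← D.Umul, inv_mul_cancel, D.Uone, D.one]
    · rw [D.Ustar, ← D.Umul]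
      apply D.Utr
      intro h3
      apply h2
      have h4 : a t = a s := by rw [inv_mul_eq_one] at h3; exact h3
      rw [← har t, ← har s, h4, h1]
    · exact absurd (by rw [h2]) h1
    · rfl
  obtain ⟨Ψ, hΨ1, hΨ2⟩ := coef_of_rep P hP1 v hv
  refine ⟨Ψ, hΨ1, ?_, ?_⟩
  · intro T g s
    have h1 : q s = q (ι g * s) := by
      rw [hq, mul_inv_cancel_right]
      exact ⟨g, rfl⟩
    have h2 : a (ι g * s) = g * a s := by
      apply hι
      rw [map_mul]
      have h3 := har (ι g * s)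
      rw [← h1] at h3
      have h4 := har s
      have h5 : ι (a (ι g * s)) * r (q s) = ι g * ι (a s) * r (q s) := by
        rw [h3, mul_assoc, h4]
      exact mul_right_cancel h5
    rw [hΨ2, hcoef, if_pos h1, h2, D.Umul, star_mul]
    have h6 : star (D.U (a s)) * star (D.U g) * (T * D.U (a s))
        = (star (D.U (a s)) * (star (D.U g) * T)) * D.U (a s) := by
      simp only [mul_assoc]
    rw [h6, ← D.tr _ (D.Umem _), ← mul_assoc, D.Ustar (a s), ← D.Umul, mul_inv_cancel, D.Uone, one_mul]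
  · intro T s t h
    rw [hΨ2, hcoef, if_neg]
    rw [hq]
    exact h

end Pool.Agent.Helper784QA
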