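import Pool.Agent.Helper784QA.S0
import Pool.Agent.Helper784QW.V1a

set_option autoImplicit false

open scoped InnerProductSpace ComplexOrder ENNReal

namespace Pool.Agent.Helper784QA

open Pool.Agent.Helper784QW Filter Topology

variable {Γ : Type} [Group Γ]

theorem R3_trace {x y : L2N Γ →L[ℂ] L2N Γ} (hx : x ∈ LN Γ) (hy : y ∈ LN Γ) :
    ⟪dl (1 : Γ), (x * y) (dl 1)⟫_ℂ = ⟪dl (1 : Γ), (y * x) (dl 1)⟫_ℂ := by
  rw [V1a_trace_formula hx, V1a_trace_formula hy,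
      ← (Equiv.inv Γ).tsum_eq (fun m => (y (dl 1) : Γ → ℂ) m⁻¹ * (x (dl 1) : Γ → ℂ) m)]
  refine tsum_congr fun m => ?_
  simp [mul_comm]

/-- TARGETS -/
theorem LN_tracial : IsTracial (LN Γ) (dl (1 : Γ)) where
  unit := norm_dl 1
  trace := fun x hx y hy => R3_trace hx hy
  faithful := fun x hx h => V1a_faithful hx h

theorem LS_le (G0 : Subgroup Γ) {X : L2N Γ →L[ℂ] L2N Γ} (hX : X ∈ LS G0) : X ∈ LN Γ := by
  rw [← SetLike.mem_coe, coe_LS] at hX
  rw [← SetLike.mem_coe, coe_LN]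
  exact Set.centralizer_subset (Set.centralizer_subset (Set.image_subset_range _ _)) hX

theorem LS_mono {G0 G1 : Subgroup Γ} (h : G0 ≤ G1) {X : L2N Γ →L[ℂ] L2N Γ} (hX : X ∈ LS G0) : X ∈ LS G1 := by
  rw [← SetLike.mem_coe, coe_LS] at hX ⊢
  exact Set.centralizer_subset (Set.centralizer_subset (Set.image_mono h)) hX

theorem LS_tracial (G0 : Subgroup Γ) : IsTracial (LS G0) (dl (1 : Γ)) where
  unit := norm_dl 1
  trace := fun x hx y hy => R3_trace (LS_le G0 hx) (LS_le G0 hy)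
  faithful := fun x hx h => V1a_faithful (LS_le G0 hx) h

theorem R3_star_apply (X : L2N Γ →L[ℂ] L2N Γ) (s t : Γ) :
    ⟪dl t, (star X) (dl s)⟫_ℂ = (starRingEnd ℂ) ⟪dl s, X (dl t)⟫_ℂ := by
  rw [ContinuousLinearMap.star_eq_adjoint, ContinuousLinearMap.adjoint_inner_right,
    inner_conj_symm]

open Classical in
/-- multiplication by the indicator of `G0` -/
noncomputable def R3_proj (G0 : Subgroup Γ) : L2N Γ →L[ℂ] L2N Γ :=
  LinearMap.mkContinuous
    { toFun := fun f => ⟨fun x => if x ∈ G0 then (f : Γ → ℂ) x else 0, by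
        have hp : 0 < (2 : ℝ≥0∞).toReal := by norm_num
        show Memℓp _ 2
        rw [memℓp_gen_iff hp]
        refine Summable.of_nonneg_of_le (fun x => by positivity) (fun x => ?_)
          ((memℓp_gen_iff hp).mp f.2)
        by_cases hx : x ∈ G0
        · rw [if_pos hx]
        · rw [if_neg hx, norm_zero, Real.zero_rpow (ne_of_gt hp)]
          positivity⟩
      map_add' := fun f g => by
        refine lp.ext (funext fun x => ?_)
        show (if x ∈ G0 then ((f + g : L2N Γ) : Γ → ℂ) x else 0) =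
          (if x ∈ G0 then (f : Γ → ℂ) x else 0) + (if x ∈ G0 then (g : Γ → ℂ) x else 0)
        rw [lp.coeFn_add, Pi.add_apply]
        split_ifs <;> simp
      map_smul' := fun c f => by
        refine lp.ext (funext fun x => ?_)
        show (if x ∈ G0 then ((c • f : L2N Γ) : Γ → ℂ) x else 0) =
          c • (if x ∈ G0 then (f : Γ → ℂ) x else 0)
        rw [lp.coeFn_smul, Pi.smul_apply]
        split_ifs <;> simp } 1 (by
    intro f
    rw [one_mul]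
    have hp : 0 < (2 : ℝ≥0∞).toReal := by norm_num
    rw [lp.norm_eq_tsum_rpow hp, lp.norm_eq_tsum_rpow hp]
    refine Real.rpow_le_rpow (tsum_nonneg fun x => by positivity) ?_ (by positivity)
    have hs := (memℓp_gen_iff hp).mp f.2
    have hle : ∀ x : Γ, ‖(if x ∈ G0 then (f : Γ → ℂ) x else 0)‖ ^ (2 : ℝ≥0∞).toReal ≤
        ‖(f : Γ → ℂ) x‖ ^ (2 : ℝ≥0∞).toReal := by
      intro x
      by_cases hx : x ∈ G0
      · rw [if_pos hx]
      · rw [if_neg hx, norm_zero, Real.zero_rpow (ne_of_gt hp)]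
        positivity
    exact Summable.tsum_le_tsum hle
      (Summable.of_nonneg_of_le (fun x => by positivity) hle hs) hs)

open Classical in
theorem R3_proj_apply (G0 : Subgroup Γ) (f : L2N Γ) (x : Γ) :
    (R3_proj G0 f : Γ → ℂ) x = if x ∈ G0 then (f : Γ → ℂ) x else 0 := rfl

theorem R3_proj_comm (G0 : Subgroup Γ) : R3_proj G0 ∈ Set.centralizer (lamL '' (G0 : Set Γ)) := by
  classical
  rw [Set.mem_centralizer_iff]
  rintro _ ⟨g, hg, rfl⟩
  refine ContinuousLinearMap.ext fun f => lp.ext (funext fun x => ?_)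
  show (lamL g (R3_proj G0 f) : Γ → ℂ) x = (R3_proj G0 (lamL g f) : Γ → ℂ) x
  rw [V1a_lamL_apply, R3_proj_apply, R3_proj_apply, V1a_lamL_apply]
  have : g⁻¹ * x ∈ G0 ↔ x ∈ G0 := G0.mul_mem_cancel_left (G0.inv_mem hg)
  simp only [this]

theorem R3_proj_one (G0 : Subgroup Γ) : R3_proj G0 (dl 1) = dl 1 := by
  classical
  refine lp.ext (funext fun x => ?_)
  rw [R3_proj_apply, dl_apply]
  by_cases hx : x = 1
  · subst hx; simp [G0.one_mem]
  · rw [if_neg hx]; simp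

theorem LS_supp (G0 : Subgroup Γ) {X : L2N Γ →L[ℂ] L2N Γ} (hX : X ∈ LS G0) {g : Γ} (hg : g ∉ G0) :
    ⟪dl g, X (dl 1)⟫_ℂ = 0 := by
  classical
  rw [← SetLike.mem_coe, coe_LS, Set.mem_centralizer_iff] at hX
  have h1 := hX _ (R3_proj_comm G0)
  have h2 := congrArg (fun T : L2N Γ →L[ℂ] L2N Γ => (T (dl 1) : Γ → ℂ) g) h1
  have h3 : (R3_proj G0 (X (dl 1)) : Γ → ℂ) g = (X (R3_proj G0 (dl 1)) : Γ → ℂ) g := h2
  rw [R3_proj_one, R3_proj_apply, if_neg hg] at h3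
  rw [inner_dl, ← h3]

/-- the coefficients of an element of `LN Γ` -/
theorem LN_coef {X : L2N Γ →L[ℂ] L2N Γ} (hX : X ∈ LN Γ) (s t : Γ) :
    ⟪dl t, X (dl s)⟫_ℂ = ⟪dl (t * s⁻¹), X (dl 1)⟫_ℂ := by
  rw [inner_dl, inner_dl, V1a_dl_apply hX]

/-- an expansion -/
theorem R3_hasSum (v : L2N Γ) : HasSum (fun u : Γ => ((v : Γ → ℂ) u) • dl u) v := by
  classical
  have h1 : HasSum (fun i : Γ => lp.single 2 i ((v : Γ → ℂ) i)) v :=
    lp.hasSum_single (by norm_num) v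
  refine h1.congr_fun ?_ |> fun h => h
  intro i
  unfold dl
  rw [← lp.single_smul]
  simp

theorem mem_LS (G0 : Subgroup Γ) (X : L2N Γ →L[ℂ] L2N Γ) (f : Γ → ℂ) (hf : ∀ g, g ∉ G0 → f g = 0)
    (hX : ∀ s t : Γ, ⟪dl t, X (dl s)⟫_ℂ = f (t * s⁻¹)) : X ∈ LS G0 := by
  classical
  rw [← SetLike.mem_coe, coe_LS, Set.mem_centralizer_iff]
  intro S hS
  rw [Set.mem_centralizer_iff] at hS
  -- `S` is invariant
  have hinv : ∀ g ∈ G0, ∀ s t : Γ, ⟪dl (g * t), S (dl (g * s))⟫_ℂ = ⟪dl t, S (dl s)⟫_ℂ := by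
    intro g hg s t
    have h1 := congrArg (fun T : L2N Γ →L[ℂ] L2N Γ => (T (dl s) : Γ → ℂ) (g * t)) (hS _ ⟨g, hg, rfl⟩)
    have h2 : (lamL g (S (dl s)) : Γ → ℂ) (g * t) = (S (lamL g (dl s)) : Γ → ℂ) (g * t) := h1
    rw [V1a_lamL_apply, lamL_dl, inv_mul_cancel_left] at h2
    rw [inner_dl, inner_dl, h2]
  rw [← sub_eq_zero]
  refine V1a_ext fun s => ?_
  refine lp.ext (funext fun t => ?_)
  rw [ContinuousLinearMap.sub_apply, lp.coeFn_sub, Pi.sub_apply, lp.coeFn_zero, Pi.zero_apply,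
    sub_eq_zero]
  show (S (X (dl s)) : Γ → ℂ) t = (X (S (dl s)) : Γ → ℂ) t
  rw [← inner_dl, ← inner_dl]
  -- left side
  have hL : HasSum (fun u : Γ => f (u * s⁻¹) * ⟪dl t, S (dl u)⟫_ℂ) ⟪dl t, S (X (dl s))⟫_ℂ := by
    have h1 := ((R3_hasSum (X (dl s))).mapL S).mapL (innerSL ℂ (dl t))
    refine h1.congr_fun ?_ |> fun h => h
    intro u
    rw [map_smul, map_smul, innerSL_apply_apply, smul_eq_mul, ← inner_dl, hX]
  -- right side
  have hR : HasSum (fun u : Γ => f (t * u⁻¹) * ⟪dl u, S (dl s)⟫_ℂ) ⟪dl t, X (S (dl s))⟫_ℂ := by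
    have h1 := ((R3_hasSum (S (dl s))).mapL X).mapL (innerSL ℂ (dl t))
    refine h1.congr_fun ?_ |> fun h => h
    intro u
    rw [map_smul, map_smul, innerSL_apply_apply, smul_eq_mul, ← inner_dl, hX, mul_comm]
  have hL2 := (Equiv.mulRight s).hasSum_iff.2 hL
  have hR2 := ((Equiv.inv Γ).trans (Equiv.mulRight t)).hasSum_iff.2 hR
  refine hL2.unique (hR2.congr_fun ?_ |> fun h => h)
  intro g
  show f ((g * s) * s⁻¹) * ⟪dl t, S (dl (g * s))⟫_ℂ = f (t * (g⁻¹ * t)⁻¹) * ⟪dl (g⁻¹ * t), S (dl s)⟫_ℂ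
  have e1 : (g * s) * s⁻¹ = g := by group
  have e2 : t * (g⁻¹ * t)⁻¹ = g := by group
  rw [e1, e2]
  by_cases hg : g ∈ G0
  · rw [← hinv g hg s (g⁻¹ * t), mul_inv_cancel_left]
  · rw [hf g hg, zero_mul, zero_mul]

theorem R3_pos {H : Type} [NormedAddCommGroup H] [InnerProductSpace ℂ H] [CompleteSpace H]
    {X : H →L[ℂ] H} (hpos : ∀ v, 0 ≤ ⟪v, X v⟫_ℂ) {w : H} (hw : ⟪w, X w⟫_ℂ = 0) : X w = 0 := by
  have hp : ContinuousLinearMap.IsPositive X := by
    rw [ContinuousLinearMap.isPositive_iff_complex]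
    intro v
    have h1 := hpos v
    have h2 : ⟪X v, v⟫_ℂ = ⟪v, X v⟫_ℂ := by
      rw [← inner_conj_symm]
      exact Complex.conj_eq_iff_im.2 (Complex.nonneg_iff.1 h1).2.symm
    rw [h2]
    exact ⟨(Complex.nonneg_iff.1 h1) |> fun h => Complex.ext (by simp) (by simpa using h.2),
      (Complex.nonneg_iff.1 h1).1⟩
  have hn : 0 ≤ X := (ContinuousLinearMap.nonneg_iff_isPositive X).2 hp
  have hsq : CFC.sqrt X * CFC.sqrt X = X := CFC.sqrt_mul_sqrt_self X hn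
  have hsa : IsSelfAdjoint (CFC.sqrt X) := (CFC.sqrt_nonneg X).isSelfAdjoint
  have h4 : ⟪w, X w⟫_ℂ = ⟪(CFC.sqrt X) w, (CFC.sqrt X) w⟫_ℂ := by
    conv_lhs => rw [← hsq]
    rw [ContinuousLinearMap.mul_apply, ← ContinuousLinearMap.adjoint_inner_left,
      ← ContinuousLinearMap.star_eq_adjoint, hsa.star_eq]
  have h5 : (CFC.sqrt X) w = 0 := by
    rw [hw] at h4
    exact inner_self_eq_zero.1 h4.symm
  rw [← hsq, ContinuousLinearMap.mul_apply, h5, map_zero]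

/-- positive elements with trace zero vanish -/
theorem LN_pos_zero {X : L2N Γ →L[ℂ] L2N Γ} (hX : X ∈ LN Γ) (hpos : ∀ v, 0 ≤ ⟪v, X v⟫_ℂ)
    (h0 : ⟪dl (1 : Γ), X (dl 1)⟫_ℂ = 0) : X = 0 := by
  refine V1a_ext fun s => R3_pos hpos ?_
  rw [LN_coef hX, mul_inv_cancel, h0]

end Pool.Agent.Helper784QA
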