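import Pool.Agent.Helper784QA.R0
import Pool.Agent.Helper784QA.R3

/-!
JOB QA-R4 (owner helper784, MP_f0269b_an). The multiplicative domain of Ψ inside D.C. Copy from origin/main:
Pool/Agent/Helper784QA/{Defs,S0}.lean, Pool/Agent/Helper784QW/*.lean. Jobs QA-R0 (cp_star, cp_ks, cp_norm, md_mul, md_alg) and QA-R3 (LS_..., LN_...) are given
(stubs at the end).

PROOF. `psi_one`, `psi_U`: coefficients: ⟪dl (ι g s), Ψ T (dl s)⟫ = φ(U g* T) and 0 off range ι; for T = U h: φ(U(g⁻¹ h)) = 1 if g = h and 0 otherwise; an operator is determined by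
its coefficients (V1a_ext in Helper784QW/V1a.lean, inner_dl). `psi_mem`: `mem_LS` with f (ι g) = φ(U g* T), f = 0 off range ι.
`psi_trace`: s = 1, g = 1. `S_exists`: S from md_alg with C = D.C. U g ∈ S: Ψ(U g* U g) = 1 = Ψ(U g)* Ψ(U g). q x = Ψ x: multiplicative by md_mul, *-preserving by cp_star.
Ideal: x ∈ S, Ψ x = 0, c ∈ D.C: 0 ≤ Ψ((cx)* (cx)) ≤ ‖c‖² Ψ(x* x) = ‖c‖² Ψ(x)* Ψ(x) = 0 so Ψ(cx) = 0 (cp_ks) and Ψ((cx)*(cx)) = 0 = Ψ(cx)* Ψ(cx); and X = Ψ((cx)(cx)*) is a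
positive element of LN Γ with trace φ(c x x* c*) = φ(x* c* c x) ≤ ‖c‖² φ(x* x) = ‖c‖² trace Ψ(x* x) = 0 (D.tr: cx ∈ C), so X = 0 by LN_pos_zero.
Last clause: x ∈ C with φ(x* x) = ‖Ψ x dl 1‖²: X = Ψ(x* x) - Ψ(x)* Ψ(x) ≥ 0 (cp_ks), in LN Γ, trace φ(x* x) - ‖Ψ(x) dl 1‖² = 0, so X = 0; similarly for star x:
φ(x x*) = φ(x* x) and ‖Ψ(x)* dl 1‖ = ‖Ψ(x) dl 1‖ (LN_tracial).
-/

set_option autoImplicit false

open scoped InnerProductSpace ComplexOrder ENNReal

namespace Pool.Agent.Helper784QA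

open Pool.Agent.Helper784QW Filter Topology

variable {K : Type} [NormedAddCommGroup K] [InnerProductSpace ℂ K] [CompleteSpace K]
variable {G Γ : Type} [Group G] [Group Γ] {ι : G →* Γ} {D : MD G K}
variable {Ψ : (K →L[ℂ] K) →ₗ[ℂ] (L2N Γ →L[ℂ] L2N Γ)}

theorem r4_ext {X Y : L2N Γ →L[ℂ] L2N Γ} (h : ∀ s t : Γ, ⟪dl t, X (dl s)⟫_ℂ = ⟪dl t, Y (dl s)⟫_ℂ) : X = Y := by
  have h0 : X - Y = 0 := by
    apply V1a_ext
    intro m
    rw [ContinuousLinearMap.sub_apply, sub_eq_zero]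
    refine lp.ext (funext fun y => ?_)
    rw [← inner_dl, ← inner_dl]
    exact h m y
  exact sub_eq_zero.mp h0

open Classical in
theorem r4_dl_dl (s t : Γ) : ⟪dl t, (dl s : L2N Γ)⟫_ℂ = if t = s then 1 else 0 := by
  rw [inner_dl, dl_apply]

/-- TARGETS -/
theorem psi_U (hι : Function.Injective ι) (hco : IsCoef ι D Ψ) (g : G) : Ψ (D.U g) = lamL (ι g) := by
  classical
  apply r4_ext
  intro s t
  rw [lamL_dl, r4_dl_dl]
  by_cases h : t * s⁻¹ ∈ ι.range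
  · obtain ⟨k, hk⟩ := h
    have ht : t = ι k * s := by rw [hk]; group
    rw [ht, hco.1, D.Ustar, ← D.Umul]
    by_cases hkg : k = g
    · subst hkg
      rw [inv_mul_cancel, D.Uone, D.one, if_pos rfl]
    · rw [D.Utr, if_neg]
      · intro h'
        exact hkg (hι (mul_right_cancel h'))
      · intro h'
        exact hkg (inv_mul_eq_one.mp h')
  · rw [hco.2 _ _ _ h, if_neg]
    intro h'
    apply h
    refine ⟨g, ?_⟩
    rw [h']
    group

theorem psi_one (hι : Function.Injective ι) (hco : IsCoef ι D Ψ) : Ψ 1 = 1 := by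
  have := psi_U hι hco 1
  rw [D.Uone, map_one ι, lamL_one] at this
  exact this

theorem psi_mem (hι : Function.Injective ι) (hco : IsCoef ι D Ψ) (T : K →L[ℂ] K) : Ψ T ∈ LS ι.range := by
  classical
  refine mem_LS ι.range (Ψ T) (fun γ => if h : γ ∈ ι.range then D.φ (star (D.U h.choose) * T) else 0) ?_ ?_
  · intro g hg
    exact dif_neg hg
  · intro s t
    by_cases h : t * s⁻¹ ∈ ι.range
    · simp only [dif_pos h]
      have hk : ι h.choose = t * s⁻¹ := h.choose_spec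
      have ht : t = ι h.choose * s := by rw [hk]; group
      conv_lhs => rw [ht]
      rw [hco.1]
    · simp only [dif_neg h]
      exact hco.2 _ _ _ h

theorem psi_trace (hι : Function.Injective ι) (hco : IsCoef ι D Ψ) (T : K →L[ℂ] K) :
    ⟪dl (1 : Γ), Ψ T (dl 1)⟫_ℂ = D.φ T := by
  have := hco.1 T 1 1
  rw [map_one, one_mul, D.Uone, star_one, one_mul] at this
  exact this

theorem r4_pos (hcp : IsCP Ψ) (T : K →L[ℂ] K) (v : L2N Γ) : 0 ≤ ⟪v, Ψ (star T * T) v⟫_ℂ := by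
  have := hcp 1 (fun _ => T) (fun _ => v)
  simpa using this

theorem r4_normsq (X : L2N Γ →L[ℂ] L2N Γ) (v : L2N Γ) : ⟪v, (star X * X) v⟫_ℂ = ((‖X v‖ ^ 2 : ℝ) : ℂ) := by
  rw [ContinuousLinearMap.mul_apply, ContinuousLinearMap.star_eq_adjoint, ContinuousLinearMap.adjoint_inner_right,
    inner_self_eq_norm_sq_to_K]
  norm_cast

theorem r4_key (hι : Function.Injective ι) (hcp : IsCP Ψ) (hco : IsCoef ι D Ψ) (x : K →L[ℂ] K)
    (h : (D.φ (star x * x)).re = ‖Ψ x (dl 1)‖ ^ 2) : Ψ (star x * x) = star (Ψ x) * Ψ x := by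
  have hX : Ψ (star x * x) - star (Ψ x) * Ψ x ∈ LN Γ := by
    refine sub_mem (LS_le _ (psi_mem hι hco _)) (mul_mem (star_mem (LS_le _ (psi_mem hι hco _))) (LS_le _ (psi_mem hι hco _)))
  have hpos : ∀ v : L2N Γ, 0 ≤ ⟪v, (Ψ (star x * x) - star (Ψ x) * Ψ x) v⟫_ℂ := by
    intro v
    rw [ContinuousLinearMap.sub_apply, inner_sub_right, r4_normsq]
    have h1 := r4_pos hcp x v
    have h2 := cp_ks hcp (psi_one hι hco) x v
    rw [Complex.le_def] at h1 ⊢
    simp only [Complex.zero_re, Complex.zero_im, Complex.sub_re, Complex.sub_im, Complex.ofReal_re,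
      Complex.ofReal_im] at h1 ⊢
    refine ⟨by linarith, ?_⟩
    rw [← h1.2, sub_zero]
  have h0 : ⟪dl (1 : Γ), (Ψ (star x * x) - star (Ψ x) * Ψ x) (dl 1)⟫_ℂ = 0 := by
    rw [ContinuousLinearMap.sub_apply, inner_sub_right, r4_normsq, psi_trace hι hco, ← h]
    have h1 := D.pos x
    rw [Complex.le_def] at h1
    apply Complex.ext
    · simp
    · simp only [Complex.sub_im, Complex.ofReal_im, Complex.zero_im, sub_zero]
      exact h1.2.symm
  exact sub_eq_zero.mp (LN_pos_zero hX hpos h0)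

theorem S_exists (hι : Function.Injective ι) (hcp : IsCP Ψ) (hco : IsCoef ι D Ψ) :
    ∃ (S : StarSubalgebra ℂ (K →L[ℂ] K)) (q : S →⋆ₐ[ℂ] (L2N Γ →L[ℂ] L2N Γ)), IsClosed (S : Set (K →L[ℂ] K)) ∧
      S ≤ D.C ∧ (∀ g, D.U g ∈ S) ∧ (∀ x : S, Ψ x = q x) ∧
      (∀ c ∈ D.C, ∀ x : S, q x = 0 → ∃ h : c * x ∈ S, q ⟨c * x, h⟩ = 0) ∧
      (∀ x ∈ S, (D.φ (star x * x)).re = ‖Ψ x (dl 1)‖ ^ 2) ∧
      ∀ x ∈ D.C, (D.φ (star x * x)).re = ‖Ψ x (dl 1)‖ ^ 2 → x ∈ S := by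
  have h1 := psi_one hι hco
  obtain ⟨S, hScl, hS⟩ := md_alg hcp h1 D.C D.closed
  let q : S →⋆ₐ[ℂ] (L2N Γ →L[ℂ] L2N Γ) :=
    { toFun := fun x => Ψ x
      map_one' := h1
      map_mul' := fun x y => md_mul hcp h1 ((hS y).1 y.2).2.1 x
      map_zero' := map_zero Ψ
      map_add' := fun x y => map_add Ψ (x : K →L[ℂ] K) (y : K →L[ℂ] K)
      commutes' := fun c => by
        show Ψ ((algebraMap ℂ S c : S) : K →L[ℂ] K) = _
        have e : ((algebraMap ℂ S c : S) : K →L[ℂ] K) = c • (1 : K →L[ℂ] K) := by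
          rw [Algebra.algebraMap_eq_smul_one]
          rfl
        rw [e, map_smul, h1, Algebra.algebraMap_eq_smul_one]
      map_star' := fun x => cp_star hcp (x : K →L[ℂ] K) }
  have hq : ∀ x : S, q x = Ψ (x : K →L[ℂ] K) := fun x => rfl
  refine ⟨S, q, hScl, fun x hx => ((hS x).1 hx).1, ?_, fun x => rfl, ?_, ?_, ?_⟩
  · intro g
    rw [hS]
    refine ⟨D.Umem g, ?_, ?_⟩
    · rw [psi_U hι hco, D.Ustar, ← D.Umul, inv_mul_cancel, D.Uone, h1, star_lamL, ← lamL_mul, inv_mul_cancel, lamL_one]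
    · rw [psi_U hι hco, D.Ustar, ← D.Umul, mul_inv_cancel, D.Uone, h1, star_lamL, ← lamL_mul, mul_inv_cancel, lamL_one]
  · intro c hc x hx
    have hx' : Ψ (x : K →L[ℂ] K) = 0 := by rw [← hq, hx]
    have hxS := (hS x).1 x.2
    have e1 : ∀ T : K →L[ℂ] K, Ψ (T * x) = 0 := fun T => by
      rw [md_mul hcp h1 hxS.2.1, hx', mul_zero]
    have hcx : Ψ (c * x) = 0 := e1 c
    have hcxC : c * (x : K →L[ℂ] K) ∈ D.C := mul_mem hc hxS.1
    have e2 : Ψ (star (c * (x : K →L[ℂ] K)) * (c * x)) = 0 := by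
      rw [← mul_assoc]
      exact e1 _
    have e3 : Ψ ((c * (x : K →L[ℂ] K)) * star (c * (x : K →L[ℂ] K))) = 0 := by
      refine LN_pos_zero (LS_le _ (psi_mem hι hco _)) (fun v => ?_) ?_
      · have := r4_pos hcp (star (c * (x : K →L[ℂ] K))) v
        rwa [star_star] at this
      · rw [psi_trace hι hco, D.tr _ hcxC, ← psi_trace hι hco, e2]
        simp
    have hmem : c * (x : K →L[ℂ] K) ∈ S := by
      rw [hS]
      refine ⟨hcxC, ?_, ?_⟩
      · rw [e2, hcx, mul_zero]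
      · rw [e3, hcx, zero_mul]
    exact ⟨hmem, hcx⟩
  · intro x hx
    have hxS := (hS x).1 hx
    rw [← psi_trace hι hco, hxS.2.1, r4_normsq, Complex.ofReal_re]
  · intro x hxC h
    rw [hS]
    refine ⟨hxC, r4_key hι hcp hco x h, ?_⟩
    have h2 : (D.φ (star (star x) * star x)).re = ‖Ψ (star x) (dl 1)‖ ^ 2 := by
      rw [star_star, D.tr x hxC, h, cp_star hcp]
      have h3 := LN_tracial.trace (Ψ x) (LS_le _ (psi_mem hι hco x)) (star (Ψ x))
        (star_mem (LS_le _ (psi_mem hι hco x)))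
      have h4 := r4_normsq (star (Ψ x)) (dl (1 : Γ))
      rw [star_star, h3, r4_normsq] at h4
      exact_mod_cast h4
    have h5 := r4_key hι hcp hco (star x) h2
    rw [star_star, cp_star hcp, star_star] at h5
    exact h5

end Pool.Agent.Helper784QA
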