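import Pool.Agent.Helper784QA.S0

set_option autoImplicit false

open scoped InnerProductSpace ComplexOrder ENNReal

namespace Pool.Agent.Helper784QA

open Pool.Agent.Helper784QW Filter Topology

variable {K : Type} [NormedAddCommGroup K] [InnerProductSpace ℂ K] [CompleteSpace K]
variable {L : Type} [NormedAddCommGroup L] [InnerProductSpace ℂ L] [CompleteSpace L]

theorem hh_pos (x : ℝ) : 0 < 1 + x * x := by nlinarith [mul_self_nonneg x]

theorem hh_nn (a : K →L[ℂ] K) (ha : star a = a) {x : ℝ} (hx : x ∈ spectrum ℝ a) : |x| ≤ ‖a‖ := by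
  have ha' : IsSelfAdjoint a := ha
  have := norm_apply_le_norm_cfc (𝕜 := ℝ) (fun x => x) a hx continuous_id.continuousOn ha'
  rwa [cfc_id' ℝ a, Real.norm_eq_abs] at this

theorem hh_a1 {y : K →L[ℂ] K} (hy : star y = y) :
    cfc (fun t : ℝ => 1 + t * t) y = 1 + y * y := by
  have hy' : IsSelfAdjoint y := hy
  rw [cfc_add (R := ℝ) (a := y) (fun _ => (1 : ℝ)) (fun t => t * t), cfc_const (1 : ℝ) y,
    cfc_mul (R := ℝ) (fun t => t) (fun t => t) y, cfc_id' ℝ y]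
  simp

theorem hh_a2 {y : K →L[ℂ] K} (hy : star y = y) :
    Ring.inverse (1 + y * y) = cfc (fun t : ℝ => (1 + t * t)⁻¹) y := by
  have hy' : IsSelfAdjoint y := hy
  rw [← hh_a1 hy]
  refine (cfc_inv (R := ℝ) (fun t : ℝ => 1 + t * t) y ?_).symm
  intro x _
  exact (hh_pos x).ne'

theorem hh_cont : Continuous (fun t : ℝ => (1 + t * t)⁻¹) :=
  (continuous_const.add (continuous_id.mul continuous_id)).inv₀ fun x => by
    exact (hh_pos x).ne'

theorem hh_a3 {y : K →L[ℂ] K} (hy : star y = y) :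
    y * Ring.inverse (1 + y * y) = cfc (fun t : ℝ => t * (1 + t * t)⁻¹) y := by
  have hy' : IsSelfAdjoint y := hy
  have hc := hh_cont
  rw [hh_a2 hy, cfc_mul (R := ℝ) (fun t => t) (fun t => (1 + t * t)⁻¹) y
    continuous_id.continuousOn hc.continuousOn, cfc_id' ℝ y]

theorem hh_a4 {y : K →L[ℂ] K} (hy : star y = y) :
    Ring.inverse (1 + y * y) * y = cfc (fun t : ℝ => t * (1 + t * t)⁻¹) y := by
  have hy' : IsSelfAdjoint y := hy
  have hc := hh_cont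
  have e : (fun t : ℝ => t * (1 + t * t)⁻¹) = fun t : ℝ => (1 + t * t)⁻¹ * t := by
    funext t; ring
  rw [e, hh_a2 hy, cfc_mul (R := ℝ) (fun t => (1 + t * t)⁻¹) (fun t => t) y
    hc.continuousOn continuous_id.continuousOn, cfc_id' ℝ y]

theorem hh_a5 {y : K →L[ℂ] K} (hy : star y = y) :
    hh y = cfc (fun t : ℝ => 2 * (t * (1 + t * t)⁻¹)) y := by
  have hy' : IsSelfAdjoint y := hy
  have hc : Continuous (fun t : ℝ => t * (1 + t * t)⁻¹) := continuous_id.mul hh_cont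
  rw [cfc_const_mul (R := ℝ) 2 (fun t => t * (1 + t * t)⁻¹) y hc.continuousOn, ← hh_a3 hy, hh]
  rw [← Complex.coe_smul]
  norm_num

theorem hh_a6 {y : K →L[ℂ] K} (hy : star y = y) : ‖Ring.inverse (1 + y * y)‖ ≤ 1 := by
  rw [hh_a2 hy]
  refine norm_cfc_le zero_le_one fun x _ => ?_
  rw [Real.norm_eq_abs, abs_of_pos (inv_pos.2 (hh_pos x))]
  exact inv_le_one_of_one_le₀ (by nlinarith [mul_self_nonneg x])

theorem hh_half (x : ℝ) : |x * (1 + x * x)⁻¹| ≤ 1 / 2 := by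
  have h : (0 : ℝ) < 1 + x * x := hh_pos x
  rw [abs_le]
  constructor
  · rw [← div_eq_mul_inv, le_div_iff₀ h]; nlinarith [mul_self_nonneg (x + 1)]
  · rw [← div_eq_mul_inv, div_le_iff₀ h]; nlinarith [mul_self_nonneg (x - 1)]

theorem hh_a7 {y : K →L[ℂ] K} (hy : star y = y) :
    ‖y * Ring.inverse (1 + y * y)‖ ≤ 1 / 2 ∧ ‖Ring.inverse (1 + y * y) * y‖ ≤ 1 / 2 := by
  rw [hh_a3 hy, hh_a4 hy, and_self]
  refine norm_cfc_le (by norm_num) fun x _ => ?_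
  rw [Real.norm_eq_abs]
  exact hh_half x

theorem hh_a8 {y : K →L[ℂ] K} (hy : star y = y) : IsUnit (1 + y * y) := by
  have hy' : IsSelfAdjoint y := hy
  have hc := hh_cont
  have hc' : Continuous (fun t : ℝ => 1 + t * t) := by fun_prop
  have e : ∀ t : ℝ, (1 + t * t) * (1 + t * t)⁻¹ = 1 := fun t =>
    mul_inv_cancel₀ (hh_pos t).ne'
  have e' : ∀ t : ℝ, (1 + t * t)⁻¹ * (1 + t * t) = 1 := fun t =>
    inv_mul_cancel₀ (hh_pos t).ne'
  refine ⟨⟨1 + y * y, cfc (fun t : ℝ => (1 + t * t)⁻¹) y, ?_, ?_⟩, rfl⟩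
  · rw [← hh_a1 hy, ← cfc_mul (R := ℝ) _ _ y hc'.continuousOn hc.continuousOn]
    simp only [e]
    rw [cfc_const (1 : ℝ) y, map_one]
  · rw [← hh_a1 hy, ← cfc_mul (R := ℝ) _ _ y hc.continuousOn hc'.continuousOn]
    simp only [e']
    rw [cfc_const (1 : ℝ) y, map_one]

/-- TARGETS -/
theorem hh_norm {y : K →L[ℂ] K} (hy : star y = y) : ‖hh y‖ ≤ 1 := by
  rw [hh_a5 hy]
  refine norm_cfc_le zero_le_one fun x _ => ?_
  rw [Real.norm_eq_abs, abs_mul, abs_of_pos (by norm_num : (0 : ℝ) < 2)]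
  linarith [hh_half x]

theorem hh_star {y : K →L[ℂ] K} (hy : star y = y) : star (hh y) = hh y := by
  rw [hh_a5 hy]
  exact cfc_predicate (R := ℝ) (fun t : ℝ => 2 * (t * (1 + t * t)⁻¹)) y

theorem hh_cfcmem (C : StarSubalgebra ℂ (K →L[ℂ] K)) (hC : IsClosed (C : Set (K →L[ℂ] K)))
    {y : K →L[ℂ] K} (hyC : y ∈ C) (f : ℝ → ℝ) : cfc f y ∈ C := by
  have := hC
  exact cfc_mem (hs := hC) (𝕜' := ℂ) f hyC

theorem hh_mem (C : StarSubalgebra ℂ (K →L[ℂ] K)) (hC : IsClosed (C : Set (K →L[ℂ] K))) {y : K →L[ℂ] K}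
    (hy : star y = y) (hyC : y ∈ C) : hh y ∈ C := by
  rw [hh_a5 hy]
  exact hh_cfcmem C hC hyC _

theorem hh_inv {A : Type} [Ring A] (a b : A) (h1 : a * b = 1) (h2 : b * a = 1) :
    Ring.inverse a = b := by
  have : a = ((⟨a, b, h1, h2⟩ : Aˣ) : A) := rfl
  rw [this, Ring.inverse_unit]
  rfl

theorem hh_map (S : StarSubalgebra ℂ (K →L[ℂ] K)) (hS : IsClosed (S : Set (K →L[ℂ] K)))
    (q : S →⋆ₐ[ℂ] (L →L[ℂ] L)) {y : K →L[ℂ] K} (hy : star y = y) (hyS : y ∈ S) :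
    q ⟨hh y, hh_mem S hS hy hyS⟩ = hh (q ⟨y, hyS⟩) := by
  have hrS : Ring.inverse (1 + y * y) ∈ S := by
    rw [hh_a2 hy]; exact hh_cfcmem S hS hyS _
  obtain ⟨Y, hY⟩ : ∃ Y : S, Y = ⟨y, hyS⟩ := ⟨_, rfl⟩
  obtain ⟨r, hr⟩ : ∃ r : S, r = ⟨Ring.inverse (1 + y * y), hrS⟩ := ⟨_, rfl⟩
  have h1 : (1 + Y * Y) * r = 1 := by
    rw [hY, hr]
    exact Subtype.ext (Ring.mul_inverse_cancel _ (hh_a8 hy))
  have h2 : r * (1 + Y * Y) = 1 := by
    rw [hY, hr]
    exact Subtype.ext (Ring.inverse_mul_cancel _ (hh_a8 hy))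
  have h3 : (⟨hh y, hh_mem S hS hy hyS⟩ : S) = (2 : ℂ) • (Y * r) := by
    rw [hY, hr]
    exact Subtype.ext rfl
  have h4 : (1 + q Y * q Y) * q r = 1 := by
    rw [← map_one q, ← map_mul, ← map_add, ← map_mul, h1]
  have h5 : q r * (1 + q Y * q Y) = 1 := by
    rw [← map_one q, ← map_mul, ← map_add, ← map_mul, h2]
  rw [h3, ← hY, hh, hh_inv _ _ h4 h5, map_smul, map_mul]

theorem hh_fac (a : K →L[ℂ] K) : ∃ R : K →L[ℂ] K,
    star R * R = ((‖a‖ ^ 2 : ℝ) : ℂ) • (1 : K →L[ℂ] K) - star a * a := by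
  have hsa : IsSelfAdjoint (star a * a) := IsSelfAdjoint.star_mul_self a
  have hc : Continuous (fun t : ℝ => √(‖a‖ ^ 2 - t)) := by fun_prop
  refine ⟨cfc (fun t : ℝ => √(‖a‖ ^ 2 - t)) (star a * a), ?_⟩
  have hs : star (cfc (fun t : ℝ => √(‖a‖ ^ 2 - t)) (star a * a)) =
      cfc (fun t : ℝ => √(‖a‖ ^ 2 - t)) (star a * a) :=
    cfc_predicate (R := ℝ) (fun t : ℝ => √(‖a‖ ^ 2 - t)) (star a * a)
  rw [hs, ← cfc_mul (R := ℝ) _ _ (star a * a) hc.continuousOn hc.continuousOn]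
  have e : cfc (fun t : ℝ => √(‖a‖ ^ 2 - t) * √(‖a‖ ^ 2 - t)) (star a * a) =
      cfc (fun t : ℝ => ‖a‖ ^ 2 - t) (star a * a) := by
    refine cfc_congr fun t ht => ?_
    have h1 : |t| ≤ ‖star a * a‖ := hh_nn _ hsa ht
    rw [CStarRing.norm_star_mul_self] at h1
    have h2 := (le_abs_self t).trans h1
    exact Real.mul_self_sqrt (by nlinarith)
  rw [e, cfc_sub (R := ℝ) (fun _ => ‖a‖ ^ 2) (fun t => t) (star a * a), cfc_const (‖a‖ ^ 2) (star a * a) hsa, cfc_id' ℝ (star a * a),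
    Algebra.algebraMap_eq_smul_one, Complex.coe_smul]

theorem hh_n1 (φ : (K →L[ℂ] K) →ₗ[ℂ] ℂ) (hpos : ∀ T, 0 ≤ φ (star T * T)) (a T : K →L[ℂ] K) :
    (φ (star (a * T) * (a * T))).re ≤ ‖a‖ ^ 2 * (φ (star T * T)).re := by
  obtain ⟨R, hR⟩ := hh_fac a
  have h := (Complex.le_def.1 (hpos (R * T))).1
  have e : star (R * T) * (R * T) =
      ((‖a‖ ^ 2 : ℝ) : ℂ) • (star T * T) - star (a * T) * (a * T) := by
    calc star (R * T) * (R * T) = star T * (star R * R) * T := by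
          rw [star_mul]; noncomm_ring
      _ = _ := by
          rw [hR, star_mul, mul_sub, sub_mul, mul_smul_comm, mul_one, smul_mul_assoc]
          noncomm_ring
  rw [e, map_sub, map_smul, smul_eq_mul, Complex.sub_re, Complex.re_ofReal_mul] at h
  simp only [Complex.zero_re] at h
  linarith

theorem hh_n2 (C : StarSubalgebra ℂ (K →L[ℂ] K))
    (φ : (K →L[ℂ] K) →ₗ[ℂ] ℂ) (hpos : ∀ T, 0 ≤ φ (star T * T))
    (htr : ∀ x ∈ C, ∀ T ∈ C, φ (x * T) = φ (T * x)) {b T : K →L[ℂ] K} (hb : b ∈ C) (hT : T ∈ C) :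
    (φ (star (T * b) * (T * b))).re ≤ ‖b‖ ^ 2 * (φ (star T * T)).re := by
  have hTs : star T ∈ C := star_mem hT
  have hbs : star b ∈ C := star_mem hb
  have e1 : φ (star (T * b) * (T * b)) = φ (star (star b * star T) * (star b * star T)) := by
    rw [star_mul, star_mul, star_star, star_star]
    exact htr _ (C.mul_mem hbs hTs) _ (C.mul_mem hT hb)
  have e2 : φ (star (star T) * star T) = φ (star T * T) := by
    rw [star_star]; exact htr _ hT _ hTs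
  have h := hh_n1 φ hpos (star b) (star T)
  rw [norm_star, e2] at h
  rw [e1]
  exact h

theorem hh_n3 (φ : (K →L[ℂ] K) →ₗ[ℂ] ℂ) (hpos : ∀ T, 0 ≤ φ (star T * T)) (S T : K →L[ℂ] K) :
    (φ (star (S + T) * (S + T))).re ≤
      5 / 4 * (φ (star S * S)).re + 5 * (φ (star T * T)).re := by
  have h := (Complex.le_def.1 (hpos ((1 / 2 : ℂ) • S - (2 : ℂ) • T))).1
  have e : star ((1 / 2 : ℂ) • S - (2 : ℂ) • T) * ((1 / 2 : ℂ) • S - (2 : ℂ) • T) =
      ((5 / 4 : ℝ) : ℂ) • (star S * S) + ((5 : ℝ) : ℂ) • (star T * T) - star (S + T) * (S + T) := by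
    rw [star_sub, star_smul, star_smul, star_add]
    have e1 : star (1 / 2 : ℂ) = 1 / 2 := by
      rw [Complex.star_def, map_div₀, map_one]
      exact congrArg _ (map_ofNat (starRingEnd ℂ) 2)
    have e2 : star (2 : ℂ) = 2 := by
      rw [Complex.star_def]; exact map_ofNat (starRingEnd ℂ) 2
    rw [e1, e2]
    simp only [mul_sub, sub_mul, mul_add, add_mul, smul_mul_assoc, mul_smul_comm, smul_smul,
      smul_sub]
    have : ((5 / 4 : ℝ) : ℂ) = 1 / 2 * (1 / 2) + 1 := by push_cast; norm_num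
    rw [this]
    have : ((5 : ℝ) : ℂ) = 2 * 2 + 1 := by push_cast; norm_num
    rw [this, add_smul, add_smul, one_smul, one_smul]
    have e3 : (1 / 2 * 2 : ℂ) = 1 := by norm_num
    have e4 : (2 * (1 / 2) : ℂ) = 1 := by norm_num
    rw [e3, e4, one_smul, one_smul]
    abel
  rw [e, map_sub, map_add, map_smul, map_smul, smul_eq_mul, smul_eq_mul, Complex.sub_re,
    Complex.add_re, Complex.re_ofReal_mul, Complex.re_ofReal_mul] at h
  simp only [Complex.zero_re] at h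
  linarith

theorem hh_n4 (φ : (K →L[ℂ] K) →ₗ[ℂ] ℂ) (c : ℂ) (T : K →L[ℂ] K) :
    (φ (star (c • T) * (c • T))).re = ‖c‖ ^ 2 * (φ (star T * T)).re := by
  rw [star_smul, smul_mul_assoc, mul_smul_comm, smul_smul, map_smul, smul_eq_mul]
  have : star c * c = ((‖c‖ ^ 2 : ℝ) : ℂ) := by
    rw [Complex.star_def, Complex.conj_mul']
    push_cast
    rfl
  rw [this, Complex.re_ofReal_mul]

theorem hh_lip (C : StarSubalgebra ℂ (K →L[ℂ] K)) (hC : IsClosed (C : Set (K →L[ℂ] K)))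
    (φ : (K →L[ℂ] K) →ₗ[ℂ] ℂ) (hpos : ∀ T, 0 ≤ φ (star T * T)) (htr : ∀ x ∈ C, ∀ T ∈ C, φ (x * T) = φ (T * x))
    {y y' : K →L[ℂ] K} (hy : star y = y) (hy' : star y' = y') (hyC : y ∈ C) (hyC' : y' ∈ C) :
    (φ (star (hh y - hh y') * (hh y - hh y'))).re ≤ 25 / 4 * (φ (star (y - y') * (y - y'))).re := by
  obtain ⟨r, hr⟩ : ∃ r, r = Ring.inverse (1 + y * y) := ⟨_, rfl⟩
  obtain ⟨r', hr'⟩ : ∃ r', r' = Ring.inverse (1 + y' * y') := ⟨_, rfl⟩
  have hrC : r ∈ C := by rw [hr, hh_a2 hy]; exact hh_cfcmem C hC hyC _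
  have hrC' : r' ∈ C := by rw [hr', hh_a2 hy']; exact hh_cfcmem C hC hyC' _
  have hzC : y - y' ∈ C := C.sub_mem hyC hyC'
  have hn : ‖r‖ ≤ 1 := by rw [hr]; exact hh_a6 hy
  have hn' : ‖r'‖ ≤ 1 := by rw [hr']; exact hh_a6 hy'
  have hm : ‖r * y‖ ≤ 1 / 2 := by rw [hr]; exact (hh_a7 hy).2
  have hm' : ‖y' * r'‖ ≤ 1 / 2 := by rw [hr']; exact (hh_a7 hy').1
  have hcomm : y * r = r * y := by rw [hr, hh_a3 hy, hh_a4 hy]
  have hi : r * (1 + y * y) = 1 := by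
    rw [hr]; exact Ring.inverse_mul_cancel _ (hh_a8 hy)
  have hi' : (1 + y' * y') * r' = 1 := by
    rw [hr']; exact Ring.mul_inverse_cancel _ (hh_a8 hy')
  have key : hh y - hh y' = (2 : ℂ) • (r * ((y - y') * r')) +
      (-2 : ℂ) • ((r * y) * ((y - y') * (y' * r'))) := by
    have e1 : y * r - y' * r' = r * ((y - y') * r') - (r * y) * ((y - y') * (y' * r')) := by
      calc y * r - y' * r' = r * y * 1 - 1 * (y' * r') := by rw [hcomm, mul_one, one_mul]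
        _ = r * y * ((1 + y' * y') * r') - (r * (1 + y * y)) * (y' * r') := by rw [hi, hi']
        _ = _ := by noncomm_ring
    rw [hh, hh, ← hr, ← hr', ← smul_sub, e1, smul_sub, neg_smul, ← sub_eq_add_neg]
  obtain ⟨Z, hZ⟩ : ∃ Z, Z = (φ (star (y - y') * (y - y'))).re := ⟨_, rfl⟩
  have hZ0 : 0 ≤ Z := by
    rw [hZ]; exact (Complex.le_def.1 (hpos (y - y'))).1
  have b1 : (φ (star ((y - y') * r') * ((y - y') * r'))).re ≤ Z := by
    have h := hh_n2 C φ hpos htr hrC' hzC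
    rw [← hZ] at h
    refine h.trans ?_
    have : ‖r'‖ ^ 2 ≤ 1 := pow_le_one₀ (norm_nonneg _) hn'
    nlinarith
  have b1' : 0 ≤ (φ (star ((y - y') * r') * ((y - y') * r'))).re :=
    (Complex.le_def.1 (hpos _)).1
  have b2 : (φ (star (r * ((y - y') * r')) * (r * ((y - y') * r')))).re ≤ Z := by
    refine (hh_n1 φ hpos r _).trans ?_
    have : ‖r‖ ^ 2 ≤ 1 := pow_le_one₀ (norm_nonneg _) hn
    nlinarith
  have b3 : (φ (star ((y - y') * (y' * r')) * ((y - y') * (y' * r')))).re ≤ 1 / 4 * Z := by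
    have h := hh_n2 C φ hpos htr (C.mul_mem hyC' hrC') hzC
    rw [← hZ] at h
    refine h.trans ?_
    have : ‖y' * r'‖ ^ 2 ≤ 1 / 4 := by
      have := pow_le_pow_left₀ (norm_nonneg _) hm' 2
      norm_num at this ⊢
      exact this
    nlinarith
  have b3' : 0 ≤ (φ (star ((y - y') * (y' * r')) * ((y - y') * (y' * r')))).re :=
    (Complex.le_def.1 (hpos _)).1
  have b4 : (φ (star ((r * y) * ((y - y') * (y' * r'))) *
      ((r * y) * ((y - y') * (y' * r'))))).re ≤ 1 / 16 * Z := by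
    refine (hh_n1 φ hpos (r * y) _).trans ?_
    have : ‖r * y‖ ^ 2 ≤ 1 / 4 := by
      have := pow_le_pow_left₀ (norm_nonneg _) hm 2
      norm_num at this ⊢
      exact this
    nlinarith
  rw [key, ← hZ]
  refine (hh_n3 φ hpos _ _).trans ?_
  rw [hh_n4, hh_n4]
  have e1 : ‖(2 : ℂ)‖ = 2 := by simp
  have e2 : ‖(-2 : ℂ)‖ = 2 := by simp
  rw [e1, e2]
  linarith

theorem hh_surj (C : StarSubalgebra ℂ (K →L[ℂ] K)) (hC : IsClosed (C : Set (K →L[ℂ] K))) {a : K →L[ℂ] K}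
    (ha : star a = a) (ha1 : ‖a‖ ≤ 1) (haC : a ∈ C) : ∃ X ∈ C, star X = X ∧ hh X = a := by
  have ha' : IsSelfAdjoint a := ha
  have hf : Continuous (fun s : ℝ => s / (1 + √(1 - s * s))) := by
    refine continuous_id.div (by fun_prop) fun x => ?_
    positivity
  have hg : Continuous (fun t : ℝ => 2 * (t * (1 + t * t)⁻¹)) :=
    continuous_const.mul (continuous_id.mul hh_cont)
  have hX : star (cfc (fun s : ℝ => s / (1 + √(1 - s * s))) a) =
      cfc (fun s : ℝ => s / (1 + √(1 - s * s))) a :=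
    cfc_predicate (R := ℝ) (fun s : ℝ => s / (1 + √(1 - s * s))) a
  refine ⟨cfc (fun s : ℝ => s / (1 + √(1 - s * s))) a, hh_cfcmem C hC haC _, hX, ?_⟩
  rw [hh_a5 hX, ← cfc_comp' (R := ℝ) (fun t : ℝ => 2 * (t * (1 + t * t)⁻¹))
    (fun s : ℝ => s / (1 + √(1 - s * s))) a hg.continuousOn hf.continuousOn]
  have e : cfc (fun s : ℝ => 2 * (s / (1 + √(1 - s * s)) *
      (1 + s / (1 + √(1 - s * s)) * (s / (1 + √(1 - s * s))))⁻¹)) a =
      cfc (fun s : ℝ => s) a := by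
    refine cfc_congr fun s hs => ?_
    have h1 : |s| ≤ 1 := (hh_nn _ ha hs).trans ha1
    rw [abs_le] at h1
    have h2 : 0 ≤ 1 - s * s := by nlinarith
    have h3 := Real.mul_self_sqrt h2
    have h4 : 0 ≤ √(1 - s * s) := Real.sqrt_nonneg _
    show 2 * (s / (1 + √(1 - s * s)) *
      (1 + s / (1 + √(1 - s * s)) * (s / (1 + √(1 - s * s))))⁻¹) = s
    obtain ⟨c, hc⟩ : ∃ c, c = √(1 - s * s) := ⟨_, rfl⟩
    rw [← hc] at h3 h4 ⊢
    have h5 : (0 : ℝ) < 1 + c := by linarith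
    have h6 : 1 + s / (1 + c) * (s / (1 + c)) = 2 / (1 + c) := by
      field_simp
      nlinarith
    rw [h6]
    field_simp
  rw [e, cfc_id' ℝ a]

end Pool.Agent.Helper784QA
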