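import Pool.Agent.Helper784QA.R4
import Pool.Agent.Helper784QA.R5a

set_option autoImplicit false

open scoped InnerProductSpace ComplexOrder ENNReal

namespace Pool.Agent.Helper784QA

open Pool.Agent.Helper784QW Filter Topology

namespace R5

section

variable {Γ : Type} [Group Γ]

/-- the vector functional -/
noncomputable def vf (Γ : Type) [Group Γ] : (L2N Γ →L[ℂ] L2N Γ) →ₗ[ℂ] ℂ where
  toFun T := ⟪dl (1 : Γ), T (dl 1)⟫_ℂ
  map_add' S T := by rw [_root_.add_apply, inner_add_right]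
  map_smul' c T := by rw [_root_.smul_apply, inner_smul_right]; rfl

lemma vf_apply (T : L2N Γ →L[ℂ] L2N Γ) : vf Γ T = ⟪dl (1 : Γ), T (dl 1)⟫_ℂ := rfl

lemma vf_sq (T : L2N Γ →L[ℂ] L2N Γ) : vf Γ (star T * T) = ((‖T (dl 1)‖ ^ 2 : ℝ) : ℂ) := by
  rw [vf_apply]
  change ⟪dl (1 : Γ), (star T) (T (dl 1))⟫_ℂ = _
  rw [ContinuousLinearMap.star_eq_adjoint,
    ContinuousLinearMap.adjoint_inner_right, inner_self_eq_norm_sq_to_K]
  push_cast
  rfl

lemma closed_LS (G0 : Subgroup Γ) :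
    IsClosed ((LS G0).toStarSubalgebra : Set (L2N Γ →L[ℂ] L2N Γ)) := by
  have h : ((LS G0).toStarSubalgebra : Set (L2N Γ →L[ℂ] L2N Γ)) =
    Set.centralizer (Set.centralizer (lamL '' (G0 : Set Γ))) := coe_LS G0
  rw [h]
  exact Set.isClosed_centralizer _

end

section

variable {K : Type} [NormedAddCommGroup K] [InnerProductSpace ℂ K] [CompleteSpace K]

/-- triangle inequality -/
lemma tri (φ : (K →L[ℂ] K) →ₗ[ℂ] ℂ) (hpos : ∀ T, 0 ≤ φ (star T * T)) (T1 T2 : K →L[ℂ] K)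
    {t : ℝ} (ht : 0 < t) :
    (φ (star (T1 + T2) * (T1 + T2))).re ≤ (1 + t) * (φ (star T1 * T1)).re +
      (1 + t⁻¹) * (φ (star T2 * T2)).re := by
  have h1 := hpos ((t : ℂ) • T1 - T2)
  have h2 : 0 ≤ (φ (star ((t : ℂ) • T1 - T2) * ((t : ℂ) • T1 - T2))).re := (Complex.le_def.1 h1).1
  have e1 : star ((t : ℂ) • T1 - T2) * ((t : ℂ) • T1 - T2) =
      ((t : ℂ) * t) • (star T1 * T1) - (t : ℂ) • (star T1 * T2 + star T2 * T1) + star T2 * T2 := by
    rw [star_sub, star_smul]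
    simp only [Complex.star_def, Complex.conj_ofReal, sub_mul, mul_sub, smul_mul_assoc,
      mul_smul_comm, smul_add]
    module
  have e2 : star (T1 + T2) * (T1 + T2) = star T1 * T1 + (star T1 * T2 + star T2 * T1) +
      star T2 * T2 := by
    rw [star_add]
    simp only [add_mul, mul_add]
    abel
  rw [e1] at h2
  rw [e2]
  simp only [map_add, map_sub, map_smul, smul_eq_mul, Complex.add_re, Complex.sub_re,
    Complex.mul_re, Complex.ofReal_re, Complex.ofReal_im, zero_mul, sub_zero, mul_zero,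
    Complex.mul_im, add_zero] at h2 ⊢
  have e3 : (t * t * (φ (star T1 * T1)).re - t * ((φ (star T1 * T2)).re + (φ (star T2 * T1)).re) +
      (φ (star T2 * T2)).re) * t⁻¹ = t * (φ (star T1 * T1)).re -
      ((φ (star T1 * T2)).re + (φ (star T2 * T1)).re) + t⁻¹ * (φ (star T2 * T2)).re := by
    field_simp
  have h3 := mul_nonneg h2 (inv_pos.2 ht).le
  rw [e3] at h3
  linarith

end

section

variable {K : Type} [NormedAddCommGroup K] [InnerProductSpace ℂ K] [CompleteSpace K]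
variable {G Γ : Type} [Group G] [Group Γ] {ι : G →* Γ} {D : MD G K}
variable {Ψ : (K →L[ℂ] K) →ₗ[ℂ] (L2N Γ →L[ℂ] L2N Γ)}

/-- the element attached to a finite set -/
noncomputable def yy (D : MD G K) (x : G → ℂ) (E : Finset G) : K →L[ℂ] K := ∑ g ∈ E, x g • D.U g

lemma yy_mem (S : StarSubalgebra ℂ (K →L[ℂ] K)) (hU : ∀ g, D.U g ∈ S) (x : G → ℂ) (E : Finset G) :
    yy D x E ∈ S :=
  sum_mem fun g _ => S.smul_mem (hU g) _

lemma yy_star {x : G → ℂ} (hx : ∀ g, x g⁻¹ = (starRingEnd ℂ) (x g)) {E : Finset G}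
    (hE : ∀ g ∈ E, g⁻¹ ∈ E) : star (yy D x E) = yy D x E := by
  unfold yy
  rw [star_sum]
  refine Finset.sum_bij' (fun g _ => g⁻¹) (fun g _ => g⁻¹) (fun g hg => hE g hg)
    (fun g hg => hE g hg) (fun g _ => inv_inv g) (fun g _ => inv_inv g) fun g _ => ?_
  rw [star_smul, D.Ustar, hx]
  rfl

lemma psi_yy (hι : Function.Injective ι) (hco : IsCoef ι D Ψ) (x : G → ℂ) (E : Finset G) :
    Ψ (yy D x E) (dl 1) = ∑ g ∈ E, x g • dl (ι g) := by
  unfold yy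
  rw [map_sum, _root_.sum_apply]
  refine Finset.sum_congr rfl fun g _ => ?_
  rw [map_smul, psi_U hι hco, _root_.smul_apply, lamL_dl, mul_one]

/-- approximation of `X δ_1` -/
lemma approx (hι : Function.Injective ι) {X : L2N Γ →L[ℂ] L2N Γ} (hX : X ∈ LS ι.range)
    {ε : ℝ} (hε : 0 < ε) : ∃ E : Finset G, (∀ g ∈ E, g⁻¹ ∈ E) ∧
      ‖(∑ g ∈ E, ⟪dl (ι g), X (dl 1)⟫_ℂ • dl (ι g)) - X (dl 1)‖ < ε := by
  classical
  have h1 : HasSum (fun γ : Γ => ⟪dl γ, X (dl 1)⟫_ℂ • dl γ) (X (dl 1)) := by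
    have h2 := lp.hasSum_single (p := 2) (by norm_num) (X (dl (1 : Γ)))
    have h3 : (fun γ : Γ => ⟪dl γ, X (dl 1)⟫_ℂ • dl γ) =
        fun γ : Γ => lp.single 2 γ ((X (dl (1 : Γ)) : Γ → ℂ) γ) := by
      funext γ
      rw [inner_dl]
      unfold dl
      rw [← lp.single_smul, smul_eq_mul, mul_one]
    rw [h3]
    convert h2
  have h2 : HasSum (fun g : G => ⟪dl (ι g), X (dl 1)⟫_ℂ • dl (ι g)) (X (dl 1)) := by
    refine (hι.hasSum_iff (f := fun γ : Γ => ⟪dl γ, X (dl 1)⟫_ℂ • dl γ) ?_).2 h1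
    intro γ hγ
    rw [LS_supp ι.range hX (fun h => hγ (by simpa using h)), zero_smul]
  have h3 := h2.eventually (Metric.ball_mem_nhds _ hε)
  obtain ⟨E0, h4⟩ := Filter.eventually_atTop.1 h3
  refine ⟨E0 ∪ E0.image (fun g => g⁻¹), ?_, ?_⟩
  · intro g hg
    rw [Finset.mem_union, Finset.mem_image] at hg ⊢
    rcases hg with hg | ⟨h, hh, rfl⟩
    · exact Or.inr ⟨g, hg, rfl⟩
    · rw [inv_inv]
      exact Or.inl hh
  · have h5 := h4 (E0 ∪ E0.image (fun g => g⁻¹)) Finset.subset_union_left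
    rw [← dist_eq_norm]
    exact h5

lemma coef_inv {X : L2N Γ →L[ℂ] L2N Γ} (hX : X ∈ LS ι.range) (hXs : star X = X) (g : G) :
    ⟪dl (ι g⁻¹), X (dl 1)⟫_ℂ = (starRingEnd ℂ) ⟪dl (ι g), X (dl 1)⟫_ℂ := by
  have h1 := LN_coef (LS_le _ hX) (ι g) 1
  rw [one_mul, ← map_inv] at h1
  rw [← h1, inner_conj_symm]
  conv_rhs => rw [← hXs, ContinuousLinearMap.star_eq_adjoint,
    ContinuousLinearMap.adjoint_inner_left]

/-- the case of a self-adjoint contraction -/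
lemma surj_sa (hι : Function.Injective ι) (hcp : IsCP Ψ) (hco : IsCoef ι D Ψ)
    (S : StarSubalgebra ℂ (K →L[ℂ] K)) (q : S →⋆ₐ[ℂ] (L2N Γ →L[ℂ] L2N Γ)) (hS : IsClosed (S : Set (K →L[ℂ] K)))
    (hSC : S ≤ D.C) (hU : ∀ g, D.U g ∈ S) (hq : ∀ x : S, Ψ x = q x)
    (h1 : ∀ x ∈ S, (D.φ (star x * x)).re = ‖Ψ x (dl 1)‖ ^ 2)
    (h2 : ∀ x ∈ D.C, (D.φ (star x * x)).re = ‖Ψ x (dl 1)‖ ^ 2 → x ∈ S)
    {a : L2N Γ →L[ℂ] L2N Γ} (ha : a ∈ LS ι.range) (has : star a = a) (ha1 : ‖a‖ ≤ 1) :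
    ∃ x ∈ S, Ψ x = a := by
  obtain ⟨X, hX, hXs, hXa⟩ := hh_surj (LS ι.range).toStarSubalgebra (closed_LS _) has ha1 ha
  have hX' : X ∈ LS ι.range := hX
  set x : G → ℂ := fun g => ⟪dl (ι g), X (dl 1)⟫_ℂ with hx
  have hE : ∀ k : ℕ, ∃ E : Finset G, (∀ g ∈ E, g⁻¹ ∈ E) ∧
      ‖(∑ g ∈ E, x g • dl (ι g)) - X (dl 1)‖ < 1 / ((k : ℝ) + 1) := fun k =>
    approx hι hX' (by positivity)
  choose E hE1 hE2 using hE
  set y : ℕ → (K →L[ℂ] K) := fun k => yy D x (E k) with hy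
  have hyS : ∀ k, y k ∈ S := fun k => yy_mem S hU _ _
  have hys : ∀ k, star (y k) = y k := fun k => yy_star (fun g => coef_inv hX' hXs g) (hE1 k)
  have hyP : ∀ k, ‖Ψ (y k) (dl 1) - X (dl 1)‖ < 1 / ((k : ℝ) + 1) := fun k => by
    rw [hy]
    simp only
    rw [psi_yy hι hco]
    exact hE2 k
  have hone : Ψ 1 = 1 := psi_one hι hco
  set c : ℕ → (K →L[ℂ] K) := fun k => hh (y k) with hc
  have hcS : ∀ k, c k ∈ S := fun k => hh_mem S hS (hys k) (hyS k)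
  have hlim0 : Tendsto (fun k : ℕ => 1 / ((k : ℝ) + 1)) atTop (𝓝 0) :=
    tendsto_one_div_add_atTop_nhds_zero_nat
  -- the Cauchy condition
  have hcau : ∀ ε : ℝ, 0 < ε → ∃ N, ∀ k, N ≤ k → ∀ l, N ≤ l →
      (D.φ (star (c k - c l) * (c k - c l))).re ≤ ε := by
    intro ε hε
    obtain ⟨N, hN⟩ : ∃ N : ℕ, ∀ k, N ≤ k → 25 * (1 / ((k : ℝ) + 1)) ^ 2 ≤ ε := by
      have h3 : Tendsto (fun k : ℕ => 25 * (1 / ((k : ℝ) + 1)) ^ 2) atTop (𝓝 (25 * 0 ^ 2)) :=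
        (hlim0.pow 2).const_mul 25
      have h4 : ∀ᶠ k : ℕ in atTop, 25 * (1 / ((k : ℝ) + 1)) ^ 2 < ε :=
        h3.eventually (gt_mem_nhds (by simpa using hε))
      obtain ⟨N, hN⟩ := Filter.eventually_atTop.1 h4
      exact ⟨N, fun k hk => (hN k hk).le⟩
    refine ⟨N, fun k hk l hl => ?_⟩
    have h3 := hh_lip D.C D.closed D.φ D.pos (fun x hx T _ => D.tr x hx T) (hys k) (hys l)
      (hSC (hyS k)) (hSC (hyS l))
    have h4 := h1 (y k - y l) (sub_mem (hyS k) (hyS l))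
    have h5 : ‖Ψ (y k - y l) (dl 1)‖ ≤ 1 / ((k : ℝ) + 1) + 1 / ((l : ℝ) + 1) := by
      rw [map_sub, _root_.sub_apply]
      have e : Ψ (y k) (dl 1) - Ψ (y l) (dl 1) = (Ψ (y k) (dl 1) - X (dl 1)) -
        (Ψ (y l) (dl 1) - X (dl 1)) := by abel
      rw [e]
      exact (norm_sub_le _ _).trans (add_le_add (hyP k).le (hyP l).le)
    have h6 : ‖Ψ (y k - y l) (dl 1)‖ ^ 2 ≤ 4 * (1 / ((N : ℝ) + 1)) ^ 2 := by
      have hk' : 1 / ((k : ℝ) + 1) ≤ 1 / ((N : ℝ) + 1) := by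
        apply one_div_le_one_div_of_le (by positivity)
        have : (N : ℝ) ≤ k := by exact_mod_cast hk
        linarith
      have hl' : 1 / ((l : ℝ) + 1) ≤ 1 / ((N : ℝ) + 1) := by
        apply one_div_le_one_div_of_le (by positivity)
        have : (N : ℝ) ≤ l := by exact_mod_cast hl
        linarith
      have h7 : ‖Ψ (y k - y l) (dl 1)‖ ≤ 2 * (1 / ((N : ℝ) + 1)) := by linarith
      calc ‖Ψ (y k - y l) (dl 1)‖ ^ 2 ≤ (2 * (1 / ((N : ℝ) + 1))) ^ 2 := by gcongr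
        _ = _ := by ring
    have h7 := hN N le_rfl
    show (D.φ (star (hh (y k) - hh (y l)) * (hh (y k) - hh (y l)))).re ≤ ε
    rw [h4] at h3
    linarith
  obtain ⟨c0, hc0, hc01, hc02⟩ := D.compl c (fun k => hSC (hcS k)) (fun k => hh_norm (hys k)) hcau
  set δ : ℕ → ℝ := fun k => (D.φ (star (c0 - c k) * (c0 - c k))).re with hδ
  have hδ0 : ∀ k, 0 ≤ δ k := fun k => (Complex.le_def.1 (D.pos (c0 - c k))).1
  have hδl : Tendsto δ atTop (𝓝 0) := by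
    rw [Metric.tendsto_atTop]
    intro ε hε
    obtain ⟨N, hN⟩ := hc02 (ε / 2) (by positivity)
    refine ⟨N, fun k hk => ?_⟩
    rw [Real.dist_eq, sub_zero, abs_of_nonneg (hδ0 k)]
    exact lt_of_le_of_lt (hN k hk) (by linarith)
  have hks : ∀ k, ‖Ψ c0 (dl 1) - Ψ (c k) (dl 1)‖ ^ 2 ≤ δ k := by
    intro k
    have h3 := cp_ks hcp hone (c0 - c k) (dl 1)
    rw [psi_trace hι hco, map_sub, _root_.sub_apply] at h3
    exact h3
  have hlimc : Tendsto (fun k => Ψ (c k) (dl 1)) atTop (𝓝 (Ψ c0 (dl 1))) := by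
    rw [tendsto_iff_norm_sub_tendsto_zero]
    have h3 : Tendsto (fun k => Real.sqrt (δ k)) atTop (𝓝 0) := by
      have := (Real.continuous_sqrt.tendsto 0).comp hδl
      rwa [Real.sqrt_zero] at this
    refine squeeze_zero (fun k => norm_nonneg _) (fun k => ?_) h3
    rw [norm_sub_rev]
    exact Real.le_sqrt_of_sq_le (hks k)
  -- c0 is in S
  have hc0S : c0 ∈ S := by
    refine h2 c0 hc0 (le_antisymm ?_ ?_)
    · have key : ∀ t : ℝ, 0 < t → (D.φ (star c0 * c0)).re ≤ (1 + t) * ‖Ψ c0 (dl 1)‖ ^ 2 := by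
        intro t ht
        have h3 : ∀ k, (D.φ (star c0 * c0)).re ≤ (1 + t) * ‖Ψ (c k) (dl 1)‖ ^ 2 +
            (1 + t⁻¹) * δ k := by
          intro k
          have h4 := tri D.φ D.pos (c k) (c0 - c k) ht
          rw [add_sub_cancel, h1 _ (hcS k)] at h4
          exact h4
        have h4 : Tendsto (fun k => (1 + t) * ‖Ψ (c k) (dl 1)‖ ^ 2 + (1 + t⁻¹) * δ k) atTop
            (𝓝 ((1 + t) * ‖Ψ c0 (dl 1)‖ ^ 2 + (1 + t⁻¹) * 0)) :=
          ((hlimc.norm.pow 2).const_mul _).add (hδl.const_mul _)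
        rw [mul_zero, add_zero] at h4
        exact ge_of_tendsto' h4 h3
      have h5 : Tendsto (fun t : ℝ => (1 + t) * ‖Ψ c0 (dl 1)‖ ^ 2) (𝓝[>] 0)
          (𝓝 ((1 + 0) * ‖Ψ c0 (dl 1)‖ ^ 2)) := by
        refine Tendsto.mono_left ?_ nhdsWithin_le_nhds
        exact ((continuous_const.add continuous_id).mul continuous_const).tendsto 0
      rw [add_zero, one_mul] at h5
      exact ge_of_tendsto h5 (eventually_nhdsWithin_of_forall fun t ht => key t ht)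
    · have h3 := cp_ks hcp hone c0 (dl 1)
      rwa [psi_trace hι hco] at h3
  refine ⟨c0, hc0S, ?_⟩
  -- the limit is a
  have hPy : ∀ k, Ψ (y k) ∈ LS ι.range := fun k => psi_mem hι hco _
  have hPys : ∀ k, star (Ψ (y k)) = Ψ (y k) := fun k => by rw [← cp_star hcp, hys]
  have hqc : ∀ k, Ψ (c k) = hh (Ψ (y k)) := by
    intro k
    have h3 := hh_map S hS q (hys k) (hyS k)
    rw [← hq, ← hq] at h3
    exact h3
  have hlima : Tendsto (fun k => Ψ (c k) (dl 1)) atTop (𝓝 (a (dl 1))) := by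
    rw [tendsto_iff_norm_sub_tendsto_zero]
    have h3 : ∀ k, ‖Ψ (c k) (dl 1) - a (dl 1)‖ ≤ 5 / 2 * (1 / ((k : ℝ) + 1)) := by
      intro k
      have h4 := hh_lip (LS ι.range).toStarSubalgebra (closed_LS _) (vf Γ) (fun T => by
          rw [vf_sq]
          exact Complex.zero_le_real.2 (by positivity))
        (fun T1 hT1 T2 hT2 => (LS_tracial ι.range).trace T1 hT1 T2 hT2) (hPys k) hXs (hPy k) hX
      rw [vf_sq, vf_sq, Complex.ofReal_re, Complex.ofReal_re, ← hqc, hXa, _root_.sub_apply,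
        _root_.sub_apply] at h4
      have h5 : ‖Ψ (c k) (dl 1) - a (dl 1)‖ ^ 2 ≤ (5 / 2 * (1 / ((k : ℝ) + 1))) ^ 2 := by
        refine h4.trans ?_
        have h6 : ‖Ψ (y k) (dl 1) - X (dl 1)‖ ^ 2 ≤ (1 / ((k : ℝ) + 1)) ^ 2 := by
          have := (hyP k).le
          gcongr
        nlinarith
      exact le_of_sq_le_sq h5 (by positivity)
    refine squeeze_zero (fun k => norm_nonneg _) h3 ?_
    have := hlim0.const_mul (5 / 2)
    rwa [mul_zero] at this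
  have h3 : Ψ c0 (dl 1) = a (dl 1) := tendsto_nhds_unique hlimc hlima
  have h4 : Ψ c0 - a ∈ LS ι.range := by
    have h5 : Ψ c0 - a ∈ (LS ι.range).toStarSubalgebra :=
      sub_mem (show Ψ c0 ∈ (LS ι.range).toStarSubalgebra from psi_mem hι hco c0) ha
    exact h5
  have h5 := (LS_tracial ι.range).faithful _ h4 (by rw [_root_.sub_apply, h3, sub_self])
  exact sub_eq_zero.1 h5

end

end R5

variable {K : Type} [NormedAddCommGroup K] [InnerProductSpace ℂ K] [CompleteSpace K]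
variable {G Γ : Type} [Group G] [Group Γ] {ι : G →* Γ} {D : MD G K}
variable {Ψ : (K →L[ℂ] K) →ₗ[ℂ] (L2N Γ →L[ℂ] L2N Γ)}

/-- TARGET -/
theorem psi_surj (hι : Function.Injective ι) (hcp : IsCP Ψ) (hco : IsCoef ι D Ψ)
    (S : StarSubalgebra ℂ (K →L[ℂ] K)) (q : S →⋆ₐ[ℂ] (L2N Γ →L[ℂ] L2N Γ)) (hS : IsClosed (S : Set (K →L[ℂ] K)))
    (hSC : S ≤ D.C) (hU : ∀ g, D.U g ∈ S) (hq : ∀ x : S, Ψ x = q x)
    (h1 : ∀ x ∈ S, (D.φ (star x * x)).re = ‖Ψ x (dl 1)‖ ^ 2)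
    (h2 : ∀ x ∈ D.C, (D.φ (star x * x)).re = ‖Ψ x (dl 1)‖ ^ 2 → x ∈ S)
    {a : L2N Γ →L[ℂ] L2N Γ} (ha : a ∈ LS ι.range) : ∃ x ∈ S, Ψ x = a := by
  have ha' : a ∈ (LS ι.range).toStarSubalgebra := ha
  -- self-adjoint elements
  have hsa : ∀ b ∈ (LS ι.range).toStarSubalgebra, star b = b → ∃ x ∈ S, Ψ x = b := by
    intro b hb hbs
    have hn : 0 < ‖b‖ + 1 := by positivity
    obtain ⟨x, hx, hxe⟩ := R5.surj_sa hι hcp hco S q hS hSC hU hq h1 h2
      (a := (((‖b‖ + 1)⁻¹ : ℝ) : ℂ) • b)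
      (show _ ∈ (LS ι.range).toStarSubalgebra from StarSubalgebra.smul_mem _ hb _)
      (by rw [star_smul, hbs, Complex.star_def, Complex.conj_ofReal])
      (by
        rw [norm_smul, Complex.norm_real, Real.norm_of_nonneg (by positivity),
          inv_mul_le_iff₀ hn]
        linarith)
    refine ⟨((‖b‖ + 1 : ℝ) : ℂ) • x, S.smul_mem hx _, ?_⟩
    rw [map_smul, hxe, smul_smul, ← Complex.ofReal_mul, mul_inv_cancel₀ hn.ne', Complex.ofReal_one,
      one_smul]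
  obtain ⟨x1, hx1, hx1'⟩ := hsa (a + star a) (add_mem ha' (star_mem ha'))
    (by rw [star_add, star_star, add_comm])
  obtain ⟨x2, hx2, hx2'⟩ := hsa (Complex.I • (a - star a))
    (StarSubalgebra.smul_mem _ (sub_mem ha' (star_mem ha')) _)
    (by
      rw [star_smul, star_sub, star_star, Complex.star_def, Complex.conj_I]
      module)
  refine ⟨(1 / 2 : ℂ) • (x1 - Complex.I • x2), S.smul_mem (sub_mem hx1 (S.smul_mem hx2 _)) _, ?_⟩
  rw [map_smul, map_sub, map_smul, hx1', hx2', smul_smul, Complex.I_mul_I]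
  module

end Pool.Agent.Helper784QA
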