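import Pool.Agent.Helper784QA.S0

/-!
JOB QA-W1 (owner helper784, MP_f0269b_an). Extension of a representation along an ideal. Copy from origin/main: Pool/Agent/Helper784QA/{Defs,S0}.lean,
Pool/Agent/Helper784QW/{Defs,Base}.lean.

S ⊆ C are *-algebras of operators (C closed), J ⊆ S a *-closed subspace with C J ⊆ J (so also J C ⊆ J), ρ a representation of S on L.
PROOF. Let L0 = closed span of {ρ(x) ξ | x ∈ J, ξ ∈ L}, p the orthogonal projection onto L0. For c ∈ C: h = (‖c‖² - c* c)^(1/2) ∈ C (C closed: functional calculus in C,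
e.g. C is a C*-algebra by StarSubalgebra.cstarAlgebra (h_closed := hC)), and for x_i ∈ J, ξ_i ∈ L:
‖∑ ρ(c x_i) ξ_i‖² + ‖∑ ρ(h x_i) ξ_i‖² = ‖c‖² ‖∑ ρ(x_i) ξ_i‖²  [expand: ⟪ρ(c x_i) ξ_i, ρ(c x_j) ξ_j⟫ = ⟪ξ_i, ρ(x_i* c* c x_j) ξ_j⟫].
So ρt(c) (∑ ρ(x_i) ξ_i) = ∑ ρ(c x_i) ξ_i is well defined and bounded on L0; put ρt(c) = 0 on L0ᗮ. It is a *-homomorphism (non-unital) with
ρt(c) ρ(x) = ρ(c x) for x ∈ J. p ρ(x) = ρ(x) for x ∈ J. For s ∈ S: ρ(s) ρ(x) ξ = ρ(s x) ξ, so ρ(s) preserves L0, also ρ(s)*, so p commutes with ρ(s), and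
ρt(s) = ρ(s) p. If T commutes with ρ(S) (and hence, S being *-closed, T* too) then T preserves L0 and commutes with p, T ρt(c) ρ(x) ξ = T ρ(c x) ξ = ρ(c x) T ξ =
ρt(c) ρ(x) T ξ = ρt(c) T ρ(x) ξ, so T commutes with ρt(c): ρt(c), p ∈ ρ(S)''.
-/

set_option autoImplicit false

open scoped InnerProductSpace ComplexOrder ENNReal

namespace Pool.Agent.Helper784QA

open Pool.Agent.Helper784QW Filter Topology

variable {K : Type} [NormedAddCommGroup K] [InnerProductSpace ℂ K] [CompleteSpace K]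
variable {L : Type} [NormedAddCommGroup L] [InnerProductSpace ℂ L] [CompleteSpace L]

/-- square root in a C*-algebra -/
theorem w1_sqrt {A : Type*} [CStarAlgebra A] (c : A) :
    ∃ h : A, star c * c + star h * h = ((‖c‖ ^ 2 : ℝ) : ℂ) • (1 : A) := by
  letI := CStarAlgebra.spectralOrder A
  haveI := CStarAlgebra.spectralOrderedRing A
  have h1 : 0 ≤ algebraMap ℝ A (‖c‖ ^ 2) - star c * c :=
    sub_nonneg.2 CStarAlgebra.star_mul_le_algebraMap_norm_sq
  obtain ⟨h, hh⟩ := CStarAlgebra.nonneg_iff_eq_star_mul_self.1 h1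
  refine ⟨h, ?_⟩
  rw [← hh, add_sub_cancel, Algebra.algebraMap_eq_smul_one, Complex.coe_smul]

/-- square root in a closed algebra of operators -/
theorem w1_sqrt' (C : StarSubalgebra ℂ (K →L[ℂ] K)) (hC : IsClosed (C : Set (K →L[ℂ] K))) (c : C) :
    ∃ h : C, star c * c + star h * h = ((‖c‖ ^ 2 : ℝ) : ℂ) • (1 : C) := by
  letI : CStarAlgebra C := StarSubalgebra.cstarAlgebra C (h_closed := hC)
  exact w1_sqrt c

/-- extension of a bounded map -/
theorem w1_ext {Z : Type*} [AddCommGroup Z] [Module ℂ Z] (A B : Z →ₗ[ℂ] L) (M : ℝ)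
    (h : ∀ z, ‖B z‖ ≤ M * ‖A z‖) :
    ∃ T : L →L[ℂ] L, (∀ z, T (A z) = B z) ∧ ∀ v, (∀ z, ⟪A z, v⟫_ℂ = 0) → T v = 0 := by
  set W := (LinearMap.range A).topologicalClosure with hW
  have hmem : ∀ z, A z ∈ W := fun z =>
    (LinearMap.range A).le_topologicalClosure (LinearMap.mem_range_self A z)
  set e : Z →ₗ[ℂ] W := A.codRestrict W hmem with he
  have hdense : DenseRange e := by
    rw [DenseRange, Subtype.dense_iff]
    intro w hw
    have h1 : w ∈ closure ((LinearMap.range A : Submodule ℂ L) : Set L) := hw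
    refine closure_mono ?_ h1
    rintro _ ⟨z, rfl⟩
    exact ⟨e z, ⟨z, rfl⟩, rfl⟩
  haveI : CompleteSpace W := Submodule.topologicalClosure.completeSpace _
  refine ⟨(B.extendOfNorm e).comp W.orthogonalProjectionOnto, fun z => ?_, fun v hv => ?_⟩
  · have h1 : W.orthogonalProjectionOnto (A z) = e z :=
      Submodule.orthogonalProjectionOnto_mem_subspace_eq_self (K := W) ⟨A z, hmem z⟩
    rw [ContinuousLinearMap.comp_apply, h1]
    exact LinearMap.extendOfNorm_eq hdense ⟨M, fun z => h z⟩ z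
  · have h1 : v ∈ Wᗮ := by
      rw [hW, Submodule.orthogonal_closure, Submodule.mem_orthogonal]
      rintro _ ⟨z, rfl⟩
      exact hv z
    rw [ContinuousLinearMap.comp_apply, Submodule.orthogonalProjectionOnto_apply_of_mem_orthogonal h1,
      map_zero]

/-- uniqueness -/
theorem w1_eq {Z : Type*} [AddCommGroup Z] [Module ℂ Z] (A : Z →ₗ[ℂ] L) {F : Type*}
    [NormedAddCommGroup F] [NormedSpace ℂ F] (T₁ T₂ : L →L[ℂ] F) (h1 : ∀ z, T₁ (A z) = T₂ (A z))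
    (h2 : ∀ v, (∀ z, ⟪A z, v⟫_ℂ = 0) → T₁ v = T₂ v) : T₁ = T₂ := by
  set W := (LinearMap.range A).topologicalClosure with hW
  haveI : CompleteSpace W := Submodule.topologicalClosure.completeSpace _
  have hW1 : ∀ w ∈ W, T₁ w = T₂ w := by
    intro w hw
    have hcl : IsClosed {w : L | T₁ w = T₂ w} := isClosed_eq T₁.continuous T₂.continuous
    have hsub : ((LinearMap.range A : Submodule ℂ L) : Set L) ⊆ {w : L | T₁ w = T₂ w} := by
      rintro _ ⟨z, rfl⟩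
      exact h1 z
    exact hcl.closure_subset_iff.2 hsub hw
  ext v
  have hv : v = W.starProjection v + (v - W.starProjection v) := by abel
  have ha : T₁ (W.starProjection v) = T₂ (W.starProjection v) :=
    hW1 _ (Submodule.starProjection_apply_mem W v)
  have hb : T₁ (v - W.starProjection v) = T₂ (v - W.starProjection v) := by
    apply h2
    intro z
    have h3 := Submodule.sub_starProjection_mem_orthogonal (K := W) v
    exact Submodule.inner_right_of_mem_orthogonal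
      ((LinearMap.range A).le_topologicalClosure (LinearMap.mem_range_self A z)) h3
  rw [hv, map_add, map_add, ha, hb]

/-- the linear map on finite sums -/
noncomputable def w1A {S : StarSubalgebra ℂ (K →L[ℂ] K)} {J : Submodule ℂ (K →L[ℂ] K)}
    (ρ : S →⋆ₐ[ℂ] (L →L[ℂ] L)) (f : J → S) : (J →₀ L) →ₗ[ℂ] L :=
  Finsupp.lsum ℂ (fun x : J => ((ρ (f x) : L →L[ℂ] L) : L →ₗ[ℂ] L))

theorem w1A_single {S : StarSubalgebra ℂ (K →L[ℂ] K)} {J : Submodule ℂ (K →L[ℂ] K)}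
    (ρ : S →⋆ₐ[ℂ] (L →L[ℂ] L)) (f : J → S) (x : J) (ξ : L) :
    w1A ρ f (Finsupp.single x ξ) = ρ (f x) ξ := by
  simp [w1A]

theorem w1A_apply {S : StarSubalgebra ℂ (K →L[ℂ] K)} {J : Submodule ℂ (K →L[ℂ] K)}
    (ρ : S →⋆ₐ[ℂ] (L →L[ℂ] L)) (f : J → S) (z : J →₀ L) :
    w1A ρ f z = ∑ x ∈ z.support, ρ (f x) (z x) := by
  simp [w1A, Finsupp.sum]

theorem w1_inner {S : StarSubalgebra ℂ (K →L[ℂ] K)} (ρ : S →⋆ₐ[ℂ] (L →L[ℂ] L)) (a b : S)
    (ξ η : L) : ⟪ρ a ξ, ρ b η⟫_ℂ = ⟪ξ, ρ (star a * b) η⟫_ℂ := by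
  rw [map_mul, map_star, mul_apply_eq_comp, ContinuousLinearMap.star_eq_adjoint,
    ContinuousLinearMap.adjoint_inner_right]

/-- the inequality -/
theorem w1_ineq {C S : StarSubalgebra ℂ (K →L[ℂ] K)} (hC : IsClosed (C : Set (K →L[ℂ] K)))
    {J : Submodule ℂ (K →L[ℂ] K)} (ρ : S →⋆ₐ[ℂ] (L →L[ℂ] L)) (f : C → J → S)
    (hf : ∀ c x, ((f c x : S) : K →L[ℂ] K) = (c : K →L[ℂ] K) * (x : K →L[ℂ] K)) (c : C)
    (z : J →₀ L) : ‖w1A ρ (f c) z‖ ≤ ‖c‖ * ‖w1A ρ (f 1) z‖ := by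
  obtain ⟨h, hh⟩ := w1_sqrt' C hC c
  have hh' : star (c : K →L[ℂ] K) * (c : K →L[ℂ] K) + star (h : K →L[ℂ] K) * (h : K →L[ℂ] K) =
      ((‖c‖ ^ 2 : ℝ) : ℂ) • (1 : K →L[ℂ] K) := congrArg (fun x : C => (x : K →L[ℂ] K)) hh
  have key : ∀ (x y : J) (ξ η : L), ⟪ρ (f c x) ξ, ρ (f c y) η⟫_ℂ + ⟪ρ (f h x) ξ, ρ (f h y) η⟫_ℂ =
      ((‖c‖ ^ 2 : ℝ) : ℂ) * ⟪ρ (f 1 x) ξ, ρ (f 1 y) η⟫_ℂ := by
    intro x y ξ η
    rw [w1_inner, w1_inner, w1_inner, ← inner_add_right, ← inner_smul_right]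
    congr 1
    rw [← add_apply, ← map_add, ← smul_apply, ← map_smul]
    congr 2
    apply Subtype.ext
    show star ((f c x : S) : K →L[ℂ] K) * ((f c y : S) : K →L[ℂ] K) +
      star ((f h x : S) : K →L[ℂ] K) * ((f h y : S) : K →L[ℂ] K) =
      ((‖c‖ ^ 2 : ℝ) : ℂ) • (star ((f 1 x : S) : K →L[ℂ] K) * ((f 1 y : S) : K →L[ℂ] K))
    rw [hf, hf, hf, hf, hf, hf]
    have e1 : ((1 : C) : K →L[ℂ] K) = 1 := rfl
    rw [e1, one_mul, one_mul, star_mul, star_mul]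
    calc star (x : K →L[ℂ] K) * star (c : K →L[ℂ] K) * ((c : K →L[ℂ] K) * (y : K →L[ℂ] K)) +
        star (x : K →L[ℂ] K) * star (h : K →L[ℂ] K) * ((h : K →L[ℂ] K) * (y : K →L[ℂ] K)) =
        star (x : K →L[ℂ] K) * (star (c : K →L[ℂ] K) * (c : K →L[ℂ] K) +
          star (h : K →L[ℂ] K) * (h : K →L[ℂ] K)) * (y : K →L[ℂ] K) := by noncomm_ring
      _ = _ := by
          rw [hh', mul_smul_comm, mul_one, smul_mul_assoc]
  have hsum : ∀ d : C, ((‖w1A ρ (f d) z‖ : ℂ)) ^ 2 =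
      ∑ x ∈ z.support, ∑ y ∈ z.support, ⟪ρ (f d x) (z x), ρ (f d y) (z y)⟫_ℂ := by
    intro d
    have h1 : ⟪w1A ρ (f d) z, w1A ρ (f d) z⟫_ℂ = ((‖w1A ρ (f d) z‖ : ℂ)) ^ 2 :=
      inner_self_eq_norm_sq_to_K (𝕜 := ℂ) _
    rw [← h1, w1A_apply, sum_inner]
    refine Finset.sum_congr rfl fun x _ => ?_
    rw [inner_sum]
  have hC2 : ((‖w1A ρ (f c) z‖ : ℂ)) ^ 2 + ((‖w1A ρ (f h) z‖ : ℂ)) ^ 2 =
      ((‖c‖ ^ 2 : ℝ) : ℂ) * ((‖w1A ρ (f 1) z‖ : ℂ)) ^ 2 := by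
    rw [hsum, hsum, hsum, ← Finset.sum_add_distrib, Finset.mul_sum]
    refine Finset.sum_congr rfl fun x _ => ?_
    rw [← Finset.sum_add_distrib, Finset.mul_sum]
    exact Finset.sum_congr rfl fun y _ => key x y _ _
  have hR : ‖w1A ρ (f c) z‖ ^ 2 + ‖w1A ρ (f h) z‖ ^ 2 = ‖c‖ ^ 2 * ‖w1A ρ (f 1) z‖ ^ 2 := by
    exact_mod_cast hC2
  have h0 : 0 ≤ ‖w1A ρ (f h) z‖ ^ 2 := by positivity
  refine (sq_le_sq₀ (norm_nonneg _) (mul_nonneg (norm_nonneg _) (norm_nonneg _))).1 ?_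
  rw [mul_pow]
  linarith

/-- uniqueness, on generators -/
theorem w1_eq' {S : StarSubalgebra ℂ (K →L[ℂ] K)} {J : Submodule ℂ (K →L[ℂ] K)}
    (ρ : S →⋆ₐ[ℂ] (L →L[ℂ] L)) (f : J → S) {F : Type*}
    [NormedAddCommGroup F] [NormedSpace ℂ F] (T₁ T₂ : L →L[ℂ] F)
    (h1 : ∀ x ξ, T₁ (ρ (f x) ξ) = T₂ (ρ (f x) ξ))
    (h2 : ∀ v, (∀ x ξ, ⟪ρ (f x) ξ, v⟫_ℂ = 0) → T₁ v = T₂ v) : T₁ = T₂ := by
  refine w1_eq (w1A ρ f) T₁ T₂ ?_ ?_
  · intro z
    rw [w1A_apply, map_sum, map_sum]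
    exact Finset.sum_congr rfl fun x _ => h1 x _
  · intro v hv
    refine h2 v fun x ξ => ?_
    rw [← w1A_single]
    exact hv _

/-- TARGET -/
theorem ext_ideal (C S : StarSubalgebra ℂ (K →L[ℂ] K)) (hC : IsClosed (C : Set (K →L[ℂ] K))) (hSC : S ≤ C)
    (J : Submodule ℂ (K →L[ℂ] K)) (hJS : ∀ x ∈ J, x ∈ S) (hCJ : ∀ c ∈ C, ∀ x ∈ J, c * x ∈ J)
    (hJstar : ∀ x ∈ J, star x ∈ J) (ρ : S →⋆ₐ[ℂ] (L →L[ℂ] L)) :
    ∃ (p : L →L[ℂ] L) (ρt : C →⋆ₙₐ[ℂ] (L →L[ℂ] L)), star p = p ∧ p * p = p ∧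
      (∀ x : S, (x : K →L[ℂ] K) ∈ J → p * ρ x = ρ x) ∧ (∀ x : S, p * ρ x = ρ x * p) ∧
      (∀ x : S, ρt ⟨(x : K →L[ℂ] K), hSC x.2⟩ = p * ρ x) ∧
      (∀ c, ρt c ∈ Set.centralizer (Set.centralizer (Set.range ρ))) ∧
      p ∈ Set.centralizer (Set.centralizer (Set.range ρ)) := by
  let f : C → J → S := fun c x => ⟨c * x, hJS _ (hCJ c c.2 x x.2)⟩
  have hf : ∀ c x, ((f c x : S) : K →L[ℂ] K) = (c : K →L[ℂ] K) * (x : K →L[ℂ] K) :=
    fun c x => rfl
  let g : C → J → J := fun c x => ⟨c * x, hCJ c c.2 x x.2⟩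
  have hfg : ∀ c d x, f c (g d x) = f (c * d) x := by
    intro c d x
    apply Subtype.ext
    rw [hf, hf]
    show (c : K →L[ℂ] K) * ((d : K →L[ℂ] K) * (x : K →L[ℂ] K)) =
      (c : K →L[ℂ] K) * (d : K →L[ℂ] K) * (x : K →L[ℂ] K)
    rw [mul_assoc]
  have hex : ∀ c : C, ∃ T : L →L[ℂ] L, (∀ z, T (w1A ρ (f 1) z) = w1A ρ (f c) z) ∧
      ∀ v, (∀ z, ⟪w1A ρ (f 1) z, v⟫_ℂ = 0) → T v = 0 := fun c =>
    w1_ext (w1A ρ (f 1)) (w1A ρ (f c)) ‖c‖ (w1_ineq hC ρ f hf c)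
  choose T hT1 hT0 using hex
  have hTs : ∀ c x ξ, T c (ρ (f 1 x) ξ) = ρ (f c x) ξ := by
    intro c x ξ
    rw [← w1A_single ρ (f 1), hT1, w1A_single]
  have hTg : ∀ c d x ξ, T c (ρ (f d x) ξ) = ρ (f (c * d) x) ξ := by
    intro c d x ξ
    have : f d x = f 1 (g d x) := by rw [hfg, one_mul]
    rw [this, hTs, hfg]
  have hTo : ∀ c v, (∀ x ξ, ⟪ρ (f 1 x) ξ, v⟫_ℂ = 0) → T c v = 0 := by
    intro c v hv
    refine hT0 c v fun z => ?_
    rw [w1A_apply, sum_inner]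
    exact Finset.sum_eq_zero fun x _ => hv x _
  have hog : ∀ v, (∀ x ξ, ⟪ρ (f 1 x) ξ, v⟫_ℂ = 0) → ∀ c x ξ, ⟪ρ (f c x) ξ, v⟫_ℂ = 0 := by
    intro v hv c x ξ
    have : f c x = f 1 (g c x) := by rw [hfg, one_mul]
    rw [this]
    exact hv _ _
  have hmul : ∀ c d, T (c * d) = T c * T d := by
    intro c d
    refine w1_eq' ρ (f 1) _ _ (fun x ξ => ?_) (fun v hv => ?_)
    · rw [mul_apply_eq_comp, hTs, hTs, hTg]
    · rw [mul_apply_eq_comp, hTo _ v hv, hTo _ v hv, map_zero]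
  have hadd : ∀ c d, T (c + d) = T c + T d := by
    intro c d
    refine w1_eq' ρ (f 1) _ _ (fun x ξ => ?_) (fun v hv => ?_)
    · rw [add_apply, hTs, hTs, hTs]
      have : f (c + d) x = f c x + f d x := by
        apply Subtype.ext
        show ((c : K →L[ℂ] K) + (d : K →L[ℂ] K)) * (x : K →L[ℂ] K) =
          (c : K →L[ℂ] K) * (x : K →L[ℂ] K) + (d : K →L[ℂ] K) * (x : K →L[ℂ] K)
        rw [add_mul]
      rw [this, map_add, add_apply]
    · rw [add_apply, hTo _ v hv, hTo _ v hv, hTo _ v hv, add_zero]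
  have hsmul : ∀ (r : ℂ) (c : C), T (r • c) = r • T c := by
    intro r c
    refine w1_eq' ρ (f 1) _ _ (fun x ξ => ?_) (fun v hv => ?_)
    · rw [smul_apply, hTs, hTs]
      have : f (r • c) x = r • f c x := by
        apply Subtype.ext
        show (r • (c : K →L[ℂ] K)) * (x : K →L[ℂ] K) = r • ((c : K →L[ℂ] K) * (x : K →L[ℂ] K))
        rw [smul_mul_assoc]
      rw [this, map_smul, smul_apply]
    · rw [smul_apply, hTo _ v hv, hTo _ v hv, smul_zero]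
  have hzero : T 0 = 0 := by
    have := hsmul 0 0
    rwa [zero_smul, zero_smul] at this
  have hstar : ∀ c, T (star c) = star (T c) := by
    intro c
    refine w1_eq' ρ (f 1) _ _ (fun x ξ => ?_) (fun v hv => ?_)
    · rw [hTs]
      have h1 : (innerSL ℂ (ρ (f 1 x) ξ)).comp (T c) = innerSL ℂ (ρ (f (star c) x) ξ) := by
        refine w1_eq' ρ (f 1) _ _ (fun y η => ?_) (fun u hu => ?_)
        · rw [ContinuousLinearMap.comp_apply, innerSL_apply_apply, innerSL_apply_apply, hTs, w1_inner,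
            w1_inner]
          congr 3
          apply Subtype.ext
          show star ((f 1 x : S) : K →L[ℂ] K) * ((f c y : S) : K →L[ℂ] K) =
            star ((f (star c) x : S) : K →L[ℂ] K) * ((f 1 y : S) : K →L[ℂ] K)
          rw [hf, hf, hf, hf]
          have e1 : ((1 : C) : K →L[ℂ] K) = 1 := rfl
          have e2 : ((star c : C) : K →L[ℂ] K) = star (c : K →L[ℂ] K) := rfl
          rw [e1, e2, one_mul, one_mul, star_mul, star_star, mul_assoc]
        · rw [ContinuousLinearMap.comp_apply, innerSL_apply_apply, innerSL_apply_apply, hTo c u hu,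
            inner_zero_right, hog u hu]
      refine ext_inner_right ℂ fun u => ?_
      have h2 := DFunLike.congr_fun h1 u
      rw [ContinuousLinearMap.comp_apply, innerSL_apply_apply, innerSL_apply_apply] at h2
      rw [← h2, ContinuousLinearMap.star_eq_adjoint, ContinuousLinearMap.adjoint_inner_left]
    · rw [hTo _ v hv]
      have h1 : (innerSL ℂ v).comp (T c) = 0 := by
        refine w1_eq' ρ (f 1) _ _ (fun y η => ?_) (fun u hu => ?_)
        · rw [ContinuousLinearMap.comp_apply, innerSL_apply_apply, hTs, zero_apply,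
            inner_eq_zero_symm]
          exact hog v hv _ _ _
        · rw [ContinuousLinearMap.comp_apply, innerSL_apply_apply, hTo c u hu, inner_zero_right,
            zero_apply]
      refine ext_inner_right ℂ fun u => ?_
      have h2 := DFunLike.congr_fun h1 u
      rw [ContinuousLinearMap.comp_apply, innerSL_apply_apply, zero_apply] at h2
      rw [inner_zero_left, ContinuousLinearMap.star_eq_adjoint,
        ContinuousLinearMap.adjoint_inner_left, h2]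
  have hpr : ∀ x : S, ρ x * T 1 = T ⟨(x : K →L[ℂ] K), hSC x.2⟩ := by
    intro x
    refine w1_eq' ρ (f 1) _ _ (fun y ξ => ?_) (fun v hv => ?_)
    · rw [mul_apply_eq_comp, hTs, hTs, ← mul_apply_eq_comp, ← map_mul]
      have e : x * f 1 y = f ⟨(x : K →L[ℂ] K), hSC x.2⟩ y := by
        apply Subtype.ext
        show (x : K →L[ℂ] K) * ((f 1 y : S) : K →L[ℂ] K) = _
        rw [hf, hf]
        have e1 : ((1 : C) : K →L[ℂ] K) = 1 := rfl
        rw [e1, one_mul]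
      rw [e]
    · rw [mul_apply_eq_comp, hTo _ v hv, hTo _ v hv, map_zero]
  have hstar1 : star (T 1) = T 1 := by rw [← hstar, star_one]
  have hpl : ∀ x : S, T 1 * ρ x = T ⟨(x : K →L[ℂ] K), hSC x.2⟩ := by
    intro x
    have h1 := congrArg star (hpr (star x))
    rw [star_mul, hstar1, ← map_star, star_star, ← hstar] at h1
    rw [h1]
    congr 1
    apply Subtype.ext
    show star (star (x : K →L[ℂ] K)) = _
    rw [star_star]
  have hcomm : ∀ c, T c ∈ Set.centralizer (Set.centralizer (Set.range ρ)) := by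
    intro c
    rw [Set.mem_centralizer_iff]
    intro X hX
    rw [Set.mem_centralizer_iff] at hX
    have hX1 : ∀ (s : S) (ξ : L), X (ρ s ξ) = ρ s (X ξ) := by
      intro s ξ
      have := hX (ρ s) ⟨s, rfl⟩
      have h2 := DFunLike.congr_fun this ξ
      rw [mul_apply_eq_comp, mul_apply_eq_comp] at h2
      exact h2.symm
    have hX2 : ∀ (s : S) (ξ : L), (star X) (ρ s ξ) = ρ s (star X ξ) := by
      intro s ξ
      have h1 := hX (ρ (star s)) ⟨star s, rfl⟩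
      have h2 := congrArg star h1
      rw [star_mul, star_mul, map_star, star_star] at h2
      have h3 := DFunLike.congr_fun h2 ξ
      rw [mul_apply_eq_comp, mul_apply_eq_comp] at h3
      exact h3
    refine w1_eq' ρ (f 1) _ _ (fun x ξ => ?_) (fun v hv => ?_)
    · rw [mul_apply_eq_comp, mul_apply_eq_comp, hTs, hX1, hX1, hTs]
    · rw [mul_apply_eq_comp, mul_apply_eq_comp, hTo _ v hv, map_zero, hTo]
      intro x ξ
      rw [← ContinuousLinearMap.adjoint_inner_left, ← ContinuousLinearMap.star_eq_adjoint, hX2]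
      exact hv _ _
  let φ : C →⋆ₙₐ[ℂ] (L →L[ℂ] L) :=
    { toFun := T
      map_smul' := hsmul
      map_zero' := hzero
      map_add' := hadd
      map_mul' := hmul
      map_star' := hstar }
  refine ⟨T 1, φ, hstar1, ?_, ?_, ?_, ?_, hcomm, hcomm 1⟩
  · rw [← hmul, one_mul]
  · intro x hx
    ext ξ
    rw [mul_apply_eq_comp]
    have h1 : x = f 1 ⟨(x : K →L[ℂ] K), hx⟩ := by
      apply Subtype.ext
      rw [hf]
      have e1 : ((1 : C) : K →L[ℂ] K) = 1 := rfl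
      rw [e1, one_mul]
    rw [h1, hTs]
  · intro x
    rw [hpr, hpl]
  · intro x
    exact (hpl x).symm

end Pool.Agent.Helper784QA
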