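import Pool.Agent.Helper784QA.W0
import Pool.Agent.Helper784QA.W1

set_option autoImplicit false

open scoped InnerProductSpace ComplexOrder ENNReal

namespace Pool.Agent.Helper784QA

open Pool.Agent.Helper784QW Filter Topology

variable {K : Type} [NormedAddCommGroup K] [InnerProductSpace ℂ K] [CompleteSpace K]
variable {L : Type} [NormedAddCommGroup L] [InnerProductSpace ℂ L] [CompleteSpace L]

/-- the kernel of `q` as a subspace of `B(K)` -/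
def W2ker (S : StarSubalgebra ℂ (K →L[ℂ] K)) (q : S →⋆ₐ[ℂ] (L →L[ℂ] L)) :
    Submodule ℂ (K →L[ℂ] K) where
  carrier := {x | ∃ h : x ∈ S, q ⟨x, h⟩ = 0}
  zero_mem' := ⟨S.zero_mem, map_zero q⟩
  add_mem' := by
    rintro a b ⟨ha, ha'⟩ ⟨hb, hb'⟩
    refine ⟨S.add_mem ha hb, ?_⟩
    have : (⟨a + b, S.add_mem ha hb⟩ : S) = ⟨a, ha⟩ + ⟨b, hb⟩ := rfl
    rw [this, map_add, ha', hb', add_zero]
  smul_mem' := by
    rintro c a ⟨ha, ha'⟩
    refine ⟨S.smul_mem ha c, ?_⟩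
    have : (⟨c • a, S.smul_mem ha c⟩ : S) = c • ⟨a, ha⟩ := rfl
    rw [this, map_smul, ha', smul_zero]

theorem W2core (C S : StarSubalgebra ℂ (K →L[ℂ] K)) (hC : IsClosed (C : Set (K →L[ℂ] K)))
    (hSC : S ≤ C) (EE : (K →L[ℂ] K) →ₗ[ℂ] (K →L[ℂ] K)) (hEE : IsCP EE)
    (hEEmem : ∀ T, EE T ∈ C) (hEEid : ∀ x ∈ C, EE x = x) (Ψ : (K →L[ℂ] K) →ₗ[ℂ] (L →L[ℂ] L)) (hΨ : IsCP Ψ)
    (q : S →⋆ₐ[ℂ] (L →L[ℂ] L)) (hq : ∀ x : S, Ψ x = q x) (hΨmem : ∀ T, Ψ T ∈ Set.range q)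
    (hcl : IsClosed (Set.range q))
    (hJ : ∀ c ∈ C, ∀ x : S, q x = 0 → ∃ h : c * x ∈ S, q ⟨c * x, h⟩ = 0)
    (H : Type) [NormedAddCommGroup H] [InnerProductSpace ℂ H] [CompleteSpace H]
    (ρ : S →⋆ₐ[ℂ] (H →L[ℂ] H)) :
    ∃ Φ : (K →L[ℂ] K) →ₗ[ℂ] (H →L[ℂ] H), IsCP Φ ∧ (∀ b : S, Φ b = ρ b) ∧
    ∀ T, Φ T ∈ Set.centralizer (Set.centralizer (Set.range ρ)) := by
  classical
  obtain ⟨p, ρt, hps, hpp, hpJ, hpc, hρt, hρtm, hpm⟩ := ext_ideal C S hC hSC (W2ker S q)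
    (fun x hx => hx.1)
    (fun c hc x hx => by
      obtain ⟨h, hx0⟩ := hx
      exact hJ c hc ⟨x, h⟩ hx0)
    (fun x hx => by
      obtain ⟨h, hx0⟩ := hx
      refine ⟨S.star_mem' h, ?_⟩
      have : (⟨star x, S.star_mem' h⟩ : S) = star ⟨x, h⟩ := rfl
      rw [this, map_star, hx0, star_zero]) ρ
  obtain ⟨Φ1, hΦ1, hΦ1e⟩ := comp_cp C hC EE hEE hEEmem ρt
  have hwd : ∀ x x' : S, q x = q x' → (1 - p) * ρ x = (1 - p) * ρ x' := by
    intro x x' h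
    have h1 : ((x - x' : S) : K →L[ℂ] K) ∈ W2ker S q := ⟨(x - x').2, by
      have : (⟨((x - x' : S) : K →L[ℂ] K), (x - x').2⟩ : S) = x - x' := rfl
      rw [this, map_sub, h, sub_self]⟩
    have h2 := hpJ (x - x') h1
    have h3 : (1 - p) * ρ (x - x') = 0 := by rw [sub_mul, one_mul, h2, sub_self]
    rw [map_sub, mul_sub, sub_eq_zero] at h3
    exact h3
  let A2 : StarSubalgebra ℂ (L →L[ℂ] L) := StarAlgHom.range q
  have hA2 : (A2 : Set (L →L[ℂ] L)) = Set.range q := by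
    ext y; rfl
  have hA2c : IsClosed (A2 : Set (L →L[ℂ] L)) := by rw [hA2]; exact hcl
  have hsec : ∀ y : A2, ∃ x : S, q x = (y : L →L[ℂ] L) := fun y => y.2
  choose sec hsec using hsec
  have hcom : ∀ x : S, (1 - p) * ρ x = ρ x * (1 - p) := fun x => by
    rw [sub_mul, mul_sub, one_mul, mul_one, hpc]
  have h1p : (1 - p) * (1 - p) = 1 - p := by
    rw [sub_mul, one_mul, mul_sub, mul_one, hpp, sub_self, sub_zero]
  have hval : ∀ (y : A2) (x : S), q x = (y : L →L[ℂ] L) → (1 - p) * ρ (sec y) = (1 - p) * ρ x :=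
    fun y x h => hwd _ _ ((hsec y).trans h.symm)
  let π2 : A2 →⋆ₙₐ[ℂ] (H →L[ℂ] H) :=
    { toFun := fun y => (1 - p) * ρ (sec y)
      map_smul' := fun c y => by
        rw [hval (c • y) (c • sec y) (by rw [map_smul, hsec]; rfl), map_smul, mul_smul_comm]
        rfl
      map_zero' := by
        show (1 - p) * ρ (sec 0) = 0
        rw [hval 0 0 (by rw [map_zero]; rfl), map_zero, mul_zero]
      map_add' := fun y z => by
        rw [hval (y + z) (sec y + sec z) (by rw [map_add, hsec, hsec]; rfl), map_add, mul_add]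
      map_mul' := fun y z => by
        rw [hval (y * z) (sec y * sec z) (by rw [map_mul, hsec, hsec]; rfl), map_mul]
        calc (1 - p) * (ρ (sec y) * ρ (sec z)) = ((1 - p) * (1 - p)) * ρ (sec y) * ρ (sec z) := by
              rw [h1p, mul_assoc]
          _ = (1 - p) * ((1 - p) * ρ (sec y)) * ρ (sec z) := by rw [mul_assoc (1 - p) (1 - p)]
          _ = (1 - p) * (ρ (sec y) * (1 - p)) * ρ (sec z) := by rw [hcom]
          _ = (1 - p) * ρ (sec y) * ((1 - p) * ρ (sec z)) := by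
              rw [← mul_assoc, mul_assoc _ (1 - p) (ρ (sec z))]
      map_star' := fun y => by
        rw [hval (star y) (star (sec y)) (by rw [map_star, hsec]; rfl), map_star, star_mul, star_sub,
          star_one, hps, ← map_star, hcom] }
  have hπ2 : ∀ (y : A2) (x : S), q x = (y : L →L[ℂ] L) → π2 y = (1 - p) * ρ x := hval
  obtain ⟨Φ2, hΦ2, hΦ2e⟩ := comp_cp A2 hA2c Ψ hΨ (fun T => hΨmem T) π2
  refine ⟨Φ1 + Φ2, ?_, ?_, ?_⟩
  · intro n T η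
    have h1 := hΦ1 n T η
    have h2 := hΦ2 n T η
    have h3 : ∑ i, ∑ j, ⟪η i, (Φ1 + Φ2) (star (T i) * T j) (η j)⟫_ℂ =
        ∑ i, ∑ j, ⟪η i, Φ1 (star (T i) * T j) (η j)⟫_ℂ +
        ∑ i, ∑ j, ⟪η i, Φ2 (star (T i) * T j) (η j)⟫_ℂ := by
      rw [← Finset.sum_add_distrib]
      refine Finset.sum_congr rfl fun i _ => ?_
      rw [← Finset.sum_add_distrib]
      refine Finset.sum_congr rfl fun j _ => ?_
      rw [← inner_add_right]
      rfl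
    rw [h3]
    exact add_nonneg h1 h2
  · intro b
    have e1 : Φ1 (b : K →L[ℂ] K) = p * ρ b := by
      rw [hΦ1e, ← hρt b]
      congr 1
      exact Subtype.ext (hEEid _ (hSC b.2))
    have e2 : Φ2 (b : K →L[ℂ] K) = (1 - p) * ρ b := by
      rw [hΦ2e]
      exact hπ2 _ b (hq b).symm
    show Φ1 (b : K →L[ℂ] K) + Φ2 (b : K →L[ℂ] K) = ρ b
    rw [e1, e2, ← add_mul, add_sub_cancel, one_mul]
  · intro T
    rw [Set.mem_centralizer_iff]
    intro z hz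
    have e1 : z * Φ1 T = Φ1 T * z := by
      rw [hΦ1e]
      exact (Set.mem_centralizer_iff.1 (hρtm _)) z hz
    have e2 : z * Φ2 T = Φ2 T * z := by
      rw [hΦ2e]
      set y : A2 := ⟨Ψ T, hΨmem T⟩ with hy
      rw [hπ2 y (sec y) (hsec y)]
      have g1 : z * p = p * z := (Set.mem_centralizer_iff.1 hpm) z hz
      have g2 : z * ρ (sec y) = ρ (sec y) * z :=
        ((Set.mem_centralizer_iff.1 hz) _ ⟨sec y, rfl⟩).symm
      rw [← mul_assoc, mul_sub, mul_one, g1]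
      calc (z - p * z) * ρ (sec y) = (1 - p) * (z * ρ (sec y)) := by
            rw [← mul_assoc, sub_mul 1 p z, one_mul]
        _ = (1 - p) * ρ (sec y) * z := by rw [g2, mul_assoc]
    show z * (Φ1 T + Φ2 T) = (Φ1 T + Φ2 T) * z
    rw [mul_add, add_mul, e1, e2]

/-- TARGET -/
theorem qwep_of (C S : StarSubalgebra ℂ (K →L[ℂ] K)) (hC : IsClosed (C : Set (K →L[ℂ] K)))
    (hS : IsClosed (S : Set (K →L[ℂ] K))) (hSC : S ≤ C) (EE : (K →L[ℂ] K) →ₗ[ℂ] (K →L[ℂ] K)) (hEE : IsCP EE)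
    (hEEmem : ∀ T, EE T ∈ C) (hEEid : ∀ x ∈ C, EE x = x) (Ψ : (K →L[ℂ] K) →ₗ[ℂ] (L →L[ℂ] L)) (hΨ : IsCP Ψ)
    (q : S →⋆ₐ[ℂ] (L →L[ℂ] L)) (hq : ∀ x : S, Ψ x = q x) (hΨmem : ∀ T, Ψ T ∈ Set.range q)
    (hcl : IsClosed (Set.range q))
    (hJ : ∀ c ∈ C, ∀ x : S, q x = 0 → ∃ h : c * x ∈ S, q ⟨c * x, h⟩ = 0) : QWEP (Set.range q) := by
  refine ⟨S, StarSubalgebra.cstarAlgebra S (h_closed := hS), q, ?_, rfl⟩
  refine ⟨K, inferInstance, inferInstance, inferInstance, S.subtype, Subtype.val_injective, ?_⟩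
  intro H _ _ _ ρ
  exact W2core C S hC hSC EE hEE hEEmem hEEid Ψ hΨ q hq hΨmem hcl hJ H ρ

end Pool.Agent.Helper784QA
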