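import Pool.Agent.Helper784QA.R1d
import Pool.Agent.Helper784QA.R2
import Pool.Agent.Helper784QA.R5
import Pool.Agent.Helper784QA.W2

/-!
# The von Neumann algebra of a residually finite group is QWEP
-/

set_option autoImplicit false

open scoped InnerProductSpace ComplexOrder ENNReal

namespace Pool.Agent.Helper784QA

open Pool.Agent.Helper784QW Filter Topology

theorem qwep_LS {G Γ : Type} [Group G] [Group Γ] [Countable G] (ι : G →* Γ) (hι : Function.Injective ι)
    (hG : ResiduallyFinite G) : QWEP (LS ι.range : Set (L2N Γ →L[ℂ] L2N Γ)) := by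
  obtain ⟨K, i1, i2, i3, ⟨D⟩⟩ := md_of_RF hG
  obtain ⟨Ψ, hcp, hco⟩ := exists_coef ι hι D
  obtain ⟨S, q, hS, hSC, hU, hq, hJ, h1, h2⟩ := S_exists hι hcp hco
  have hr : Set.range q = (LS ι.range : Set (L2N Γ →L[ℂ] L2N Γ)) := by
    ext a
    constructor
    · rintro ⟨x, rfl⟩
      rw [← hq]
      exact psi_mem hι hco _
    · intro ha
      obtain ⟨x, hx, hxa⟩ := psi_surj hι hcp hco S q hS hSC hU hq h1 h2 ha
      exact ⟨⟨x, hx⟩, by rw [← hq]; exact hxa⟩
  rw [← hr]
  refine qwep_of D.C S D.closed hS hSC D.EE D.cp D.EEmem D.EEid Ψ hcp q hq ?_ ?_ hJ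
  · intro T
    rw [hr]
    exact psi_mem hι hco T
  · rw [hr, coe_LS]
    exact Set.isClosed_centralizer _

end Pool.Agent.Helper784QA
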