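import Pool.Agent.Helper784QA.Defs
import Pool.Agent.Helper784QW.Base

/-!
# Specifications for the von Neumann algebra part (MP_f0269b_an)
-/

set_option autoImplicit false

open scoped InnerProductSpace ComplexOrder ENNReal

namespace Pool.Agent.Helper784QA

open Pool.Agent.Helper784QW Filter Topology

section

variable {Γ : Type} [Group Γ]

/-- the von Neumann algebra on `ℓ²(Γ)` generated by the left translations by the elements of `G0` -/
noncomputable def LS (G0 : Subgroup Γ) : VonNeumannAlgebra (L2N Γ) where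
  toStarSubalgebra := StarSubalgebra.centralizer ℂ (Set.centralizer (lamL '' (G0 : Set Γ)))
  centralizer_centralizer' := by
    show Set.centralizer (Set.centralizer ((StarSubalgebra.centralizer ℂ _ :
      StarSubalgebra ℂ (L2N Γ →L[ℂ] L2N Γ)) : Set (L2N Γ →L[ℂ] L2N Γ))) =
      ((StarSubalgebra.centralizer ℂ _ :
      StarSubalgebra ℂ (L2N Γ →L[ℂ] L2N Γ)) : Set (L2N Γ →L[ℂ] L2N Γ))
    rw [StarSubalgebra.coe_centralizer, Set.centralizer_centralizer_centralizer]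

lemma star_centralizer_image (G0 : Subgroup Γ) :
    star (Set.centralizer (lamL '' (G0 : Set Γ)) : Set (L2N Γ →L[ℂ] L2N Γ)) =
      Set.centralizer (lamL '' (G0 : Set Γ)) := by
  ext T
  rw [Set.mem_star, Set.mem_centralizer_iff, Set.mem_centralizer_iff]
  constructor
  · rintro h _ ⟨n, hn, rfl⟩
    have := congrArg star (h _ ⟨n⁻¹, G0.inv_mem hn, rfl⟩)
    rw [star_mul, star_mul, star_star, star_lamL, inv_inv] at this
    exact this.symm
  · rintro h _ ⟨n, hn, rfl⟩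
    have := congrArg star (h _ ⟨n⁻¹, G0.inv_mem hn, rfl⟩)
    rw [star_mul, star_mul, star_lamL, inv_inv] at this
    exact this.symm

lemma coe_LS (G0 : Subgroup Γ) : (LS G0 : Set (L2N Γ →L[ℂ] L2N Γ)) =
    Set.centralizer (Set.centralizer (lamL '' (G0 : Set Γ))) := by
  show ((StarSubalgebra.centralizer ℂ _ :
      StarSubalgebra ℂ (L2N Γ →L[ℂ] L2N Γ)) : Set (L2N Γ →L[ℂ] L2N Γ)) = _
  rw [StarSubalgebra.coe_centralizer, star_centralizer_image, Set.union_self]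

lemma lamL_mem_LS {G0 : Subgroup Γ} {n : Γ} (hn : n ∈ G0) : lamL n ∈ LS G0 := by
  rw [← SetLike.mem_coe, coe_LS]
  exact Set.subset_centralizer_centralizer ⟨n, hn, rfl⟩

end

/-- matrix data for a group: `C` is a C*-algebra of operators on `K`, the range of a completely positive projection `EE`,
`φ` a tracial state on `C` (extended to all operators) with a complete unit ball, `U` a representation of the group in `C`
with `φ (U g) = 0` for `g ≠ 1`. -/
structure MD (G : Type) [Group G] (K : Type) [NormedAddCommGroup K] [InnerProductSpace ℂ K]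
    [CompleteSpace K] where
  C : StarSubalgebra ℂ (K →L[ℂ] K)
  closed : IsClosed (C : Set (K →L[ℂ] K))
  EE : (K →L[ℂ] K) →ₗ[ℂ] (K →L[ℂ] K)
  cp : IsCP EE
  EEmem : ∀ T, EE T ∈ C
  EEid : ∀ x ∈ C, EE x = x
  φ : (K →L[ℂ] K) →ₗ[ℂ] ℂ
  pos : ∀ T, 0 ≤ φ (star T * T)
  one : φ 1 = 1
  tr : ∀ x ∈ C, ∀ T, φ (x * T) = φ (T * x)
  U : G → (K →L[ℂ] K)
  Umem : ∀ g, U g ∈ C
  Uone : U 1 = 1
  Umul : ∀ g h, U (g * h) = U g * U h
  Ustar : ∀ g, star (U g) = U g⁻¹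
  Utr : ∀ g, g ≠ 1 → φ (U g) = 0
  compl : ∀ b : ℕ → (K →L[ℂ] K), (∀ k, b k ∈ C) → (∀ k, ‖b k‖ ≤ 1) →
    (∀ ε : ℝ, 0 < ε → ∃ N, ∀ k, N ≤ k → ∀ l, N ≤ l → (φ (star (b k - b l) * (b k - b l))).re ≤ ε) →
    ∃ c ∈ C, ‖c‖ ≤ 1 ∧ ∀ ε : ℝ, 0 < ε → ∃ N, ∀ k, N ≤ k →
      (φ (star (c - b k) * (c - b k))).re ≤ ε

section

variable {K : Type} [NormedAddCommGroup K] [InnerProductSpace ℂ K] [CompleteSpace K]

/-- `2 y (1 + y²)⁻¹` -/
noncomputable def hh (y : K →L[ℂ] K) : K →L[ℂ] K := (2 : ℂ) • (y * Ring.inverse (1 + y * y))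

/-- `Ψ` has the matrix coefficients of the expectation onto the algebra generated by `ι(G)` -/
def IsCoef {G Γ : Type} [Group G] [Group Γ] (ι : G →* Γ) (D : MD G K)
    (Ψ : (K →L[ℂ] K) →ₗ[ℂ] (L2N Γ →L[ℂ] L2N Γ)) : Prop :=
  (∀ (T : K →L[ℂ] K) (g : G) (s : Γ), ⟪dl (ι g * s), Ψ T (dl s)⟫_ℂ = D.φ (star (D.U g) * T)) ∧
  ∀ (T : K →L[ℂ] K) (s t : Γ), t * s⁻¹ ∉ ι.range → ⟪dl t, Ψ T (dl s)⟫_ℂ = 0

end

end Pool.Agent.Helper784QA
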