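import Pool.Agent.Helper784QA.S0

/-!
# Block-diagonal operators
-/

set_option autoImplicit false

open scoped InnerProductSpace ComplexOrder ENNReal

namespace Pool.Agent.Helper784QA

open Pool.Agent.Helper784QW Filter Topology

variable (F : ℕ → Type)

/-- the Hilbert space of the disjoint union of the `F n` -/
abbrev KF : Type := L2N (Σ n, F n)

/-- the span of the basis vectors of the `n`-th block -/
noncomputable def bs (n : ℕ) : Submodule ℂ (KF F) := Submodule.span ℂ (Set.range fun a : F n => (dl ⟨n, a⟩ : KF F))

variable [∀ n, Fintype (F n)]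

instance (n : ℕ) : FiniteDimensional ℂ (bs F n) := FiniteDimensional.span_of_finite ℂ (Set.finite_range _)

/-- the projection onto the `n`-th block -/
noncomputable def blk (n : ℕ) : KF F →L[ℂ] KF F := (bs F n).starProjection

/-- the block-diagonal operators -/
noncomputable def CB : StarSubalgebra ℂ (KF F →L[ℂ] KF F) := StarSubalgebra.centralizer ℂ (Set.range (blk F))

/-- the normalised trace of the `n`-th block -/
noncomputable def trn (n : ℕ) (T : KF F →L[ℂ] KF F) : ℂ :=
  (Fintype.card (F n) : ℂ)⁻¹ * ∑ a : F n, ⟪dl (⟨n, a⟩ : Σ n, F n), T (dl ⟨n, a⟩)⟫_ℂ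

end Pool.Agent.Helper784QA
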