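import Pool.Agent.Helper784QA.S0

set_option autoImplicit false
set_option synthInstance.maxHeartbeats 400000
set_option maxHeartbeats 4000000
set_option linter.unusedSectionVars false

open scoped InnerProductSpace ComplexOrder ENNReal

namespace Pool.Agent.Helper784QA

open Pool.Agent.Helper784QW Filter Topology

variable {K1 : Type} [NormedAddCommGroup K1] [InnerProductSpace ℂ K1] [CompleteSpace K1]
variable {K2 : Type} [NormedAddCommGroup K2] [InnerProductSpace ℂ K2] [CompleteSpace K2]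
variable {K3 : Type} [NormedAddCommGroup K3] [InnerProductSpace ℂ K3] [CompleteSpace K3]

section
variable (K2)

/-- the direct sum -/
abbrev comp_cp_E (n : ℕ) : Type := PiLp 2 (fun _ : Fin n => K2)

/-- the coordinate maps -/
noncomputable def comp_cp_P (n : ℕ) (i : Fin n) : comp_cp_E K2 n →L[ℂ] K2 :=
  PiLp.proj (𝕜 := ℂ) 2 (fun _ : Fin n => K2) i

/-- the inclusions -/
noncomputable def comp_cp_I (n : ℕ) (i : Fin n) : K2 →L[ℂ] comp_cp_E K2 n :=
  ContinuousLinearMap.adjoint (comp_cp_P K2 n i)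

end

theorem comp_cp_P_apply (n : ℕ) (i : Fin n) (x : comp_cp_E K2 n) : comp_cp_P K2 n i x = x i := rfl

theorem comp_cp_inner_I (n : ℕ) (i : Fin n) (x : comp_cp_E K2 n) (v : K2) :
    ⟪x, comp_cp_I K2 n i v⟫_ℂ = ⟪x i, v⟫_ℂ := by
  unfold comp_cp_I
  rw [ContinuousLinearMap.adjoint_inner_right, comp_cp_P_apply]

theorem comp_cp_I_inner (n : ℕ) (i : Fin n) (x : comp_cp_E K2 n) (v : K2) :
    ⟪comp_cp_I K2 n i v, x⟫_ℂ = ⟪v, x i⟫_ℂ := by
  unfold comp_cp_I
  rw [ContinuousLinearMap.adjoint_inner_left, comp_cp_P_apply]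

theorem comp_cp_I_apply (n : ℕ) (j i : Fin n) (v : K2) :
    (comp_cp_I K2 n j v) i = if i = j then v else 0 := by
  have h : comp_cp_I K2 n j v = PiLp.single 2 j v := by
    refine ext_inner_left ℂ fun x => ?_
    rw [comp_cp_inner_I, PiLp.inner_apply, Finset.sum_eq_single j]
    · rw [PiLp.single_eq_same]
    · intro i _ hij
      rw [PiLp.single_eq_of_ne 2 hij, inner_zero_right]
    · intro h; exact absurd (Finset.mem_univ j) h
  rw [h]
  by_cases hij : i = j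
  · rw [if_pos hij, hij, PiLp.single_eq_same]
  · rw [if_neg hij, PiLp.single_eq_of_ne 2 hij]

/-- the entries of an operator -/
noncomputable def comp_cp_e {n : ℕ} (Z : comp_cp_E K2 n →L[ℂ] comp_cp_E K2 n) (i j : Fin n) :
    K2 →L[ℂ] K2 := (comp_cp_P K2 n i).comp (Z.comp (comp_cp_I K2 n j))

theorem comp_cp_e_inner {n : ℕ} (Z : comp_cp_E K2 n →L[ℂ] comp_cp_E K2 n) (i j : Fin n)
    (u v : K2) : ⟪u, comp_cp_e Z i j v⟫_ℂ = ⟪comp_cp_I K2 n i u, Z (comp_cp_I K2 n j v)⟫_ℂ := by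
  rw [comp_cp_I_inner]
  rfl

theorem comp_cp_res {n : ℕ} (x : comp_cp_E K2 n) : ∑ k, comp_cp_I K2 n k (x k) = x := by
  refine ext_inner_left ℂ fun y => ?_
  rw [inner_sum, PiLp.inner_apply]
  exact Finset.sum_congr rfl fun k _ => comp_cp_inner_I n k y (x k)

theorem comp_cp_e_mul {n : ℕ} (Z W : comp_cp_E K2 n →L[ℂ] comp_cp_E K2 n) (i j : Fin n) :
    comp_cp_e (Z * W) i j = ∑ k, comp_cp_e Z i k * comp_cp_e W k j := by
  ext v
  rw [sum_apply]
  show (Z (W (comp_cp_I K2 n j v))) i = _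
  conv_lhs => rw [← comp_cp_res (W (comp_cp_I K2 n j v)), map_sum]
  rw [show ∀ (f : Fin n → comp_cp_E K2 n), (∑ k, f k) i = ∑ k, (f k) i from fun f => by
    simp]
  rfl

theorem comp_cp_e_star {n : ℕ} (Z : comp_cp_E K2 n →L[ℂ] comp_cp_E K2 n) (i j : Fin n) :
    comp_cp_e (star Z) i j = star (comp_cp_e Z j i) := by
  ext v
  refine ext_inner_left ℂ fun u => ?_
  rw [comp_cp_e_inner, ContinuousLinearMap.star_eq_adjoint, ContinuousLinearMap.star_eq_adjoint,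
    ContinuousLinearMap.adjoint_inner_right, ContinuousLinearMap.adjoint_inner_right,
    comp_cp_inner_I]
  rfl

/-- the operators with entries in `A` -/
noncomputable def comp_cp_S (A : StarSubalgebra ℂ (K2 →L[ℂ] K2)) (n : ℕ) :
    StarSubalgebra ℂ (comp_cp_E K2 n →L[ℂ] comp_cp_E K2 n) where
  carrier := {Z | ∀ i j, comp_cp_e Z i j ∈ A}
  mul_mem' := by
    intro Z W hZ hW i j
    rw [comp_cp_e_mul]
    exact sum_mem fun k _ => mul_mem (hZ i k) (hW k j)
  add_mem' := by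
    intro Z W hZ hW i j
    have : comp_cp_e (Z + W) i j = comp_cp_e Z i j + comp_cp_e W i j := by
      ext v; rfl
    rw [this]
    exact add_mem (hZ i j) (hW i j)
  algebraMap_mem' := by
    intro c i j
    have : comp_cp_e (algebraMap ℂ _ c) i j = (if i = j then c else 0) • (1 : K2 →L[ℂ] K2) := by
      ext v
      show (c • comp_cp_I K2 n j v) i = _
      rw [PiLp.smul_apply, comp_cp_I_apply]
      by_cases hij : i = j
      · simp [hij]
      · simp [hij]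
    rw [this]
    exact A.smul_mem (one_mem A) _
  star_mem' := by
    intro Z hZ i j
    rw [comp_cp_e_star]
    exact star_mem (hZ j i)

theorem comp_cp_S_closed (A : StarSubalgebra ℂ (K2 →L[ℂ] K2))
    (hA : IsClosed (A : Set (K2 →L[ℂ] K2))) (n : ℕ) :
    IsClosed (comp_cp_S A n : Set (comp_cp_E K2 n →L[ℂ] comp_cp_E K2 n)) := by
  have : (comp_cp_S A n : Set (comp_cp_E K2 n →L[ℂ] comp_cp_E K2 n)) =
      ⋂ i, ⋂ j, (fun Z => comp_cp_e Z i j) ⁻¹' (A : Set (K2 →L[ℂ] K2)) := by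
    ext Z
    simp only [Set.mem_iInter, Set.mem_preimage, SetLike.mem_coe]
    rfl
  rw [this]
  refine isClosed_iInter fun i => isClosed_iInter fun j => hA.preimage ?_
  unfold comp_cp_e
  fun_prop

/-- the matrix of the completely positive map -/
noncomputable def comp_cp_Y (Φ : (K1 →L[ℂ] K1) →ₗ[ℂ] (K2 →L[ℂ] K2)) {n : ℕ}
    (T : Fin n → (K1 →L[ℂ] K1)) : comp_cp_E K2 n →L[ℂ] comp_cp_E K2 n :=
  ∑ i, ∑ j, (comp_cp_I K2 n i).comp ((Φ (star (T i) * T j)).comp (comp_cp_P K2 n j))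

theorem comp_cp_Y_inner (Φ : (K1 →L[ℂ] K1) →ₗ[ℂ] (K2 →L[ℂ] K2)) {n : ℕ}
    (T : Fin n → (K1 →L[ℂ] K1)) (x y : comp_cp_E K2 n) :
    ⟪x, comp_cp_Y Φ T y⟫_ℂ = ∑ i, ∑ j, ⟪x i, Φ (star (T i) * T j) (y j)⟫_ℂ := by
  unfold comp_cp_Y
  rw [sum_apply, inner_sum]
  refine Finset.sum_congr rfl fun i _ => ?_
  rw [sum_apply, inner_sum]
  refine Finset.sum_congr rfl fun j _ => ?_
  exact comp_cp_inner_I n i x _

theorem comp_cp_Y_entry (Φ : (K1 →L[ℂ] K1) →ₗ[ℂ] (K2 →L[ℂ] K2)) {n : ℕ}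
    (T : Fin n → (K1 →L[ℂ] K1)) (a b : Fin n) :
    comp_cp_e (comp_cp_Y Φ T) a b = Φ (star (T a) * T b) := by
  ext v
  refine ext_inner_left ℂ fun u => ?_
  rw [comp_cp_e_inner, comp_cp_Y_inner, Finset.sum_eq_single a, Finset.sum_eq_single b]
  · rw [comp_cp_I_apply, comp_cp_I_apply, if_pos rfl, if_pos rfl]
  · intro j _ hj
    rw [comp_cp_I_apply n b j, if_neg hj, map_zero, inner_zero_right]
  · intro h; exact absurd (Finset.mem_univ b) h
  · intro i _ hi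
    refine Finset.sum_eq_zero fun j _ => ?_
    rw [comp_cp_I_apply n a i, if_neg hi, inner_zero_left]
  · intro h; exact absurd (Finset.mem_univ a) h

theorem comp_cp_Y_nonneg (Φ : (K1 →L[ℂ] K1) →ₗ[ℂ] (K2 →L[ℂ] K2)) (hΦ : IsCP Φ) {n : ℕ}
    (T : Fin n → (K1 →L[ℂ] K1)) : 0 ≤ comp_cp_Y Φ T := by
  rw [ContinuousLinearMap.nonneg_iff_isPositive, ContinuousLinearMap.isPositive_iff_complex]
  intro x
  have h1 : 0 ≤ ⟪x, comp_cp_Y Φ T x⟫_ℂ := by
    rw [comp_cp_Y_inner]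
    exact hΦ n T fun i => x i
  have h2 : ⟪comp_cp_Y Φ T x, x⟫_ℂ = ⟪x, comp_cp_Y Φ T x⟫_ℂ := by
    rw [← inner_conj_symm]
    exact (Complex.conj_eq_iff_im.mpr (Complex.nonneg_iff.mp h1).2.symm)
  rw [h2]
  have h3 := Complex.nonneg_iff.mp h1
  refine ⟨?_, h3.1⟩
  apply Complex.ext
  · rfl
  · simpa using h3.2

/-- TARGET -/
theorem comp_cp (A : StarSubalgebra ℂ (K2 →L[ℂ] K2)) (hA : IsClosed (A : Set (K2 →L[ℂ] K2)))
    (Φ : (K1 →L[ℂ] K1) →ₗ[ℂ] (K2 →L[ℂ] K2)) (hΦ : IsCP Φ) (hmem : ∀ T, Φ T ∈ A)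
    (π : A →⋆ₙₐ[ℂ] (K3 →L[ℂ] K3)) :
    ∃ Ψ : (K1 →L[ℂ] K1) →ₗ[ℂ] (K3 →L[ℂ] K3), IsCP Ψ ∧ ∀ T, Ψ T = π ⟨Φ T, hmem T⟩ := by
  refine ⟨{ toFun := fun T => π ⟨Φ T, hmem T⟩, map_add' := ?_, map_smul' := ?_ }, ?_, fun T => rfl⟩
  · intro S T
    rw [← map_add]
    congr 1
    exact Subtype.ext (map_add Φ S T)
  · intro c T
    rw [RingHom.id_apply, ← map_smul]
    congr 1
    exact Subtype.ext (map_smul Φ c T)
  · intro n T η
    set Y := comp_cp_Y Φ T with hY
    have hY0 : 0 ≤ Y := comp_cp_Y_nonneg Φ hΦ T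
    have hYS : Y ∈ comp_cp_S A n := by
      intro i j
      rw [hY, comp_cp_Y_entry]
      exact hmem _
    set R := CFC.sqrt Y with hR
    have hRR : R * R = Y := CFC.sqrt_mul_sqrt_self Y hY0
    have hRS : R ∈ comp_cp_S A n := by
      rw [hR, CFC.sqrt_eq_real_sqrt Y hY0]
      have : IsClosed ((comp_cp_S A n : StarSubalgebra ℂ (comp_cp_E K2 n →L[ℂ] comp_cp_E K2 n)) :
        Set (comp_cp_E K2 n →L[ℂ] comp_cp_E K2 n)) := comp_cp_S_closed A hA n
      exact cfcₙ_mem (𝕜' := ℂ) _ hYS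
    have hRstar : star R = R := (CFC.sqrt_nonneg Y).isSelfAdjoint
    have hent : ∀ i j, Φ (star (T i) * T j) =
        ∑ k, star (comp_cp_e R k i) * comp_cp_e R k j := by
      intro i j
      rw [← comp_cp_Y_entry Φ T i j, ← hY, ← hRR]
      conv_lhs => rw [← hRstar]
      rw [comp_cp_e_mul]
      refine Finset.sum_congr rfl fun k _ => ?_
      rw [comp_cp_e_star, hRstar]
    let r : Fin n → Fin n → A := fun k i => ⟨comp_cp_e R k i, hRS k i⟩
    have hπ : ∀ i j, π ⟨Φ (star (T i) * T j), hmem _⟩ = ∑ k, star (π (r k i)) * π (r k j) := by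
      intro i j
      have : (⟨Φ (star (T i) * T j), hmem _⟩ : A) = ∑ k, star (r k i) * r k j := by
        apply Subtype.ext
        refine (hent i j).trans ?_
        simp [r]
      rw [this, map_sum]
      refine Finset.sum_congr rfl fun k _ => ?_
      rw [map_mul, map_star]
    show 0 ≤ ∑ i, ∑ j, ⟪η i, π ⟨Φ (star (T i) * T j), hmem _⟩ (η j)⟫_ℂ
    have hsum : ∑ i, ∑ j, ⟪η i, π ⟨Φ (star (T i) * T j), hmem _⟩ (η j)⟫_ℂ =
        ∑ k, ⟪∑ i, π (r k i) (η i), ∑ j, π (r k j) (η j)⟫_ℂ := by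
      calc ∑ i, ∑ j, ⟪η i, π ⟨Φ (star (T i) * T j), hmem _⟩ (η j)⟫_ℂ
          = ∑ i, ∑ j, ∑ k, ⟪π (r k i) (η i), π (r k j) (η j)⟫_ℂ := by
            refine Finset.sum_congr rfl fun i _ => Finset.sum_congr rfl fun j _ => ?_
            rw [hπ i j, sum_apply, inner_sum]
            refine Finset.sum_congr rfl fun k _ => ?_
            show ⟪η i, (star (π (r k i))) (π (r k j) (η j))⟫_ℂ = _
            rw [ContinuousLinearMap.star_eq_adjoint, ContinuousLinearMap.adjoint_inner_right]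
        _ = ∑ k, ∑ i, ∑ j, ⟪π (r k i) (η i), π (r k j) (η j)⟫_ℂ := by
            rw [Finset.sum_congr rfl fun i _ => Finset.sum_comm, Finset.sum_comm]
        _ = _ := by
            refine Finset.sum_congr rfl fun k _ => ?_
            rw [sum_inner]
            refine Finset.sum_congr rfl fun i _ => ?_
            rw [inner_sum]
    rw [hsum]
    refine Finset.sum_nonneg fun k _ => ?_
    exact Complex.nonneg_iff.mpr ⟨inner_self_nonneg (𝕜 := ℂ), (inner_self_im (𝕜 := ℂ) _).symm⟩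

end Pool.Agent.Helper784QA
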